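import Pool.Agent.P.MP_3bc45c_nt.PolyNF

/-!
The number of roots of an integer polynomial modulo a prime, the polynomial Mertens estimate and
the resultant bound for shifted values.
-/

open Finset Real NumberField Ideal Polynomial

namespace Pool.Agent.P.MP_3bc45c_nt

/-- The number of roots of `g` modulo `p`. -/
def rho (g : ℤ[X]) (p : ℕ) : ℕ := ((range p).filter (fun x : ℕ => (p : ℤ) ∣ g.eval (x : ℤ))).card

theorem rho_le_self (g : ℤ[X]) (p : ℕ) : rho g p ≤ p :=
  (card_filter_le _ _).trans (card_range p).le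

theorem dvd_eval_iff (g : ℤ[X]) (p : ℕ) (x : ℤ) :
    (p : ℤ) ∣ g.eval x ↔ (g.map (Int.castRingHom (ZMod p))).eval (x : ZMod p) = 0 := by
  rw [eval_intCast_map, eq_intCast, ZMod.intCast_zmod_eq_zero_iff_dvd, Int.cast_id]

theorem card_range_zmod (p : ℕ) [NeZero p] (Q : ZMod p → Prop) [DecidablePred Q] :
    ((range p).filter (fun x : ℕ => Q (x : ZMod p))).card = (univ.filter Q).card := by
  refine card_nbij' (fun x => (x : ZMod p)) ZMod.val ?_ ?_ ?_ ?_
  · intro x hx
    simpa using (mem_filter.mp hx).2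
  · intro z hz
    simpa [ZMod.val_lt] using hz
  · intro x hx
    exact ZMod.val_cast_of_lt (mem_range.mp (mem_filter.mp hx).1)
  · intro z _
    simp

theorem card_lin (g : ℤ[X]) {p : ℕ} (hp : p.Prime) (b : ℤ) {P : ℤ} (hP : ¬ (p : ℤ) ∣ P) :
    ((range p).filter (fun x : ℕ => (p : ℤ) ∣ g.eval (b + P * x))).card = rho g p := by
  have := Fact.mk hp
  have hP' : (P : ZMod p) ≠ 0 := fun h => hP ((ZMod.intCast_zmod_eq_zero_iff_dvd P p).mp h)
  have h1 := card_range_zmod p
    (fun z => (g.map (Int.castRingHom (ZMod p))).eval ((b : ZMod p) + P * z) = 0)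
  have h2 := card_range_zmod p (fun z => (g.map (Int.castRingHom (ZMod p))).eval z = 0)
  simp only [rho, dvd_eval_iff]
  push_cast
  rw [h1, h2]
  refine card_nbij' (fun z => (b : ZMod p) + P * z) (fun z => (z - b) / P) ?_ ?_ ?_ ?_
  · intro z hz
    simpa using hz
  · intro z hz
    simpa [mul_div_cancel₀ _ hP'] using hz
  · intro z _
    simp [mul_div_cancel_left₀ _ hP']
  · intro z _
    simp [mul_div_cancel₀ _ hP']

theorem rho_comp (m : ℤ[X]) {p : ℕ} (hp : p.Prime) {a : ℤ} (ha : ¬ (p : ℤ) ∣ a) :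
    rho (m.comp (C a * X)) p = rho m p := by
  rw [← card_lin m hp 0 ha, rho]
  simp

section NF

variable {K : Type*} [Field K] [NumberField K]

theorem exponent_ne_zero {θ : 𝓞 K} (hθ : Algebra.adjoin ℚ {algebraMap (𝓞 K) K θ} = ⊤) :
    RingOfIntegers.exponent θ ≠ 0 := by
  intro h
  have h1 : conductor ℤ θ = ⊥ := by
    by_contra h2
    exact under_ne_bot ℤ h2 (absNorm_eq_zero_iff.mp h)
  have h2 := conductor_mul_differentIdeal ℤ ℚ K θ hθ
  rw [h1, bot_mul, eq_comm, span_singleton_eq_bot] at h2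
  have h3 := minpoly.isIntegrallyClosed_dvd θ.isIntegral h2
  have h4 := minpoly.natDegree_pos θ.isIntegral
  have h5 : derivative (minpoly ℤ θ) ≠ 0 := fun h6 => by
    have := derivative_eq_zero.mp h6
    omega
  have h6 := natDegree_le_of_dvd h3 h5
  have h7 := natDegree_derivative_lt h4.ne'
  omega

theorem rho_minpoly {θ : 𝓞 K} {p : ℕ} (hp : p.Prime) (he : ¬ p ∣ RingOfIntegers.exponent θ) :
    rho (minpoly ℤ θ) p = nI K p := by
  classical
  have := Fact.mk hp
  have h0 : (minpoly ℤ θ).map (Int.castRingHom (ZMod p)) ≠ 0 :=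
    map_monic_ne_zero (minpoly.monic θ.isIntegral)
  have h2 := card_range_zmod p
    (fun z => ((minpoly ℤ θ).map (Int.castRingHom (ZMod p))).eval z = 0)
  simp only [rho, dvd_eval_iff]
  push_cast
  rw [h2, nI]
  have hmem : ∀ z ∈ univ.filter
      (fun z => ((minpoly ℤ θ).map (Int.castRingHom (ZMod p))).eval z = 0),
      X - C z ∈ RingOfIntegers.monicFactorsMod θ p := fun z hz =>
    Multiset.mem_toFinset.mpr ((Polynomial.mem_normalizedFactors_iff h0).mpr
      ⟨irreducible_X_sub_C z, monic_X_sub_C z, dvd_iff_isRoot.mpr (mem_filter.mp hz).2⟩)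
  set e := NumberField.Ideal.primesOverSpanEquivMonicFactorsMod he with hedef
  have hnorm : ∀ (Q : (ZMod p)[X]) (hQ : Q ∈ RingOfIntegers.monicFactorsMod θ p),
      absNorm (e.symm ⟨Q, hQ⟩ : Ideal (𝓞 K)) = p ^ Q.natDegree := fun Q hQ => by
    have h3 := (e.symm ⟨Q, hQ⟩).2.1
    have h4 := (e.symm ⟨Q, hQ⟩).2.2
    rw [← pow_inertiaDeg p,
      NumberField.Ideal.inertiaDeg_primesOverSpanEquivMonicFactorsMod_symm_apply' he hQ]
  refine card_bij (fun z hz => (e.symm ⟨X - C z, hmem z hz⟩ : Ideal (𝓞 K))) ?_ ?_ ?_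
  · intro z hz
    have h3 := hnorm _ (hmem z hz)
    rw [natDegree_X_sub_C, pow_one] at h3
    refine mem_filter.mpr ⟨mem_idl.mpr ⟨fun h => hp.ne_zero ?_, h3.le⟩, h3⟩
    rw [← h3, h]
    simp
  · intro z hz z' hz' h
    have h3 := congrArg Subtype.val (e.symm.injective (Subtype.ext h))
    simpa using h3
  · intro I hI
    obtain ⟨h3, h4⟩ := prime_of_norm hp (mem_filter.mp hI).2
    have h5 : I ∈ primesOver (span {(p : ℤ)}) (𝓞 K) := ⟨h3, by rw [← h4]; infer_instance⟩
    obtain ⟨Q, hQ⟩ := e ⟨I, h5⟩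
    obtain ⟨⟨Q, hQ⟩, h6⟩ := e.symm.surjective ⟨I, h5⟩
    have h7 := hnorm Q hQ
    rw [h6, (mem_filter.mp hI).2] at h7
    have h8 : Q.natDegree = 1 := (Nat.pow_eq_self_iff hp.one_lt).mp h7.symm
    obtain ⟨-, h9, h10⟩ := (Polynomial.mem_normalizedFactors_iff h0).mp
      (Multiset.mem_toFinset.mp hQ)
    have h11 : Q = X - C (- Q.coeff 0) := by
      rw [C_neg, sub_neg_eq_add]
      exact h9.eq_X_add_C h8
    refine ⟨- Q.coeff 0, mem_filter.mpr ⟨mem_univ _, dvd_iff_isRoot.mp (h11 ▸ h10)⟩, ?_⟩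
    have h12 : I = e.symm ⟨Q, hQ⟩ := by rw [h6]
    rw [h12]
    congr 3
    exact h11.symm

end NF

theorem exists_root_field {G : ℚ[X]} (hG : Irreducible G) :
    ∃ (K : Type) (_ : Field K) (_ : NumberField K) (α : K),
      aeval α G = 0 ∧ Algebra.adjoin ℚ {α} = ⊤ := by
  have := Fact.mk hG
  refine ⟨AdjoinRoot G, inferInstance, inferInstance, AdjoinRoot.root G, ?_, ?_⟩
  · have h := AdjoinRoot.aeval_eq (f := G) G
    rw [AdjoinRoot.mk_self] at h
    convert! h
  · convert! AdjoinRoot.adjoinRoot_eq_top (f := G)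

theorem coprime_taylor {M : ℚ[X]} (hM : Irreducible M) {δ : ℚ} (hδ : δ ≠ 0) :
    IsCoprime M (taylor δ M) := by
  rw [hM.coprime_iff_not_dvd]
  rintro ⟨Q, hQ⟩
  obtain ⟨K, _, _, α, hα, -⟩ := exists_root_field hM
  have h1 : ∀ k : ℕ, aeval (α + algebraMap ℚ K (k * δ)) M = 0 := by
    intro k
    induction k with
    | zero => simpa using hα
    | succ k ih =>
      have h2 := congrArg (aeval (α + algebraMap ℚ K (k * δ))) hQ
      rw [aeval_mul, ih, zero_mul, taylor_apply, aeval_comp] at h2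
      rw [← h2]
      congr 2
      simp only [map_add, aeval_X, aeval_C, Nat.cast_succ, add_mul, one_mul, add_assoc]
  refine map_ne_zero (f := algebraMap ℚ K) hM.ne_zero
    (eq_zero_of_infinite_isRoot _ (Set.infinite_of_injective_forall_mem
      (f := fun k : ℕ => α + algebraMap ℚ K (k * δ)) ?_ fun k => ?_))
  · intro k k' h
    have h2 := (algebraMap ℚ K).injective (add_left_cancel h)
    exact_mod_cast mul_right_cancel₀ hδ h2
  · simpa only [Set.mem_ofPred_eq, IsRoot, eval_map_algebraMap] using h1 k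

theorem exists_res {m : ℤ[X]} (hm : Irreducible (m.map (Int.castRingHom ℚ))) :
    ∃ R : ℤ[X], ∀ δ : ℤ, δ ≠ 0 → R.eval δ ≠ 0 ∧
      ∀ u l : ℤ, l ∣ m.eval u → l ∣ m.eval (u + δ) → l ∣ R.eval δ := by
  have hd : (m.map (Int.castRingHom ℚ)).natDegree = m.natDegree :=
    natDegree_map_eq_of_injective (RingHom.injective_int _) m
  have hd0 : m.natDegree ≠ 0 := hd ▸ hm.natDegree_pos.ne'
  refine ⟨resultant (m.map C) (taylor X (m.map C)) m.natDegree m.natDegree, fun δ hδ => ?_⟩
  have h1 : (resultant (m.map C) (taylor X (m.map C)) m.natDegree m.natDegree).eval δ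
      = resultant m (taylor δ m) m.natDegree m.natDegree := by
    have h2 : (evalRingHom δ).comp C = RingHom.id ℤ := RingHom.ext_int _ _
    rw [← coe_evalRingHom, ← resultant_map_map, map_taylor, Polynomial.map_map, h2,
      Polynomial.map_id, coe_evalRingHom, eval_X]
  rw [h1]
  constructor
  · intro h
    have h2 := resultant_ne_zero _ _ (coprime_taylor hm (δ := (δ : ℚ)) (by exact_mod_cast hδ))
    rw [natDegree_taylor, hd] at h2
    refine h2 ?_
    have h3 := resultant_map_map m (taylor δ m) m.natDegree m.natDegree (Int.castRingHom ℚ)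
    rw [h, map_zero, map_taylor] at h3
    exact h3
  · intro u l h2 h3
    obtain ⟨p, q, -, -, h4⟩ := exists_mul_add_mul_eq_C_resultant m (taylor δ m) le_rfl
      (natDegree_taylor m δ).le (Or.inl hd0)
    have h5 := congrArg (eval u) h4
    rw [eval_C, eval_add, eval_mul, eval_mul, taylor_eval] at h5
    rw [← h5]
    exact dvd_add (h2.mul_right _) (h3.mul_right _)

theorem eval_le_pow (R : ℤ[X]) : ∃ A : ℕ, ∀ t : ℝ, 2 ≤ t → ∀ δ : ℤ, |(δ : ℝ)| ≤ t →
    |((R.eval δ : ℤ) : ℝ)| ≤ t ^ A := by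
  induction R using Polynomial.induction_on' with
  | add p q hp hq =>
    obtain ⟨A, hA⟩ := hp
    obtain ⟨B, hB⟩ := hq
    refine ⟨A + B + 1, fun t ht δ hδ => ?_⟩
    have h1 : t ^ A ≤ t ^ (A + B) := pow_le_pow_right₀ (by linarith) (by omega)
    have h2 : t ^ B ≤ t ^ (A + B) := pow_le_pow_right₀ (by linarith) (by omega)
    have h3 : t ^ (A + B) * 2 ≤ t ^ (A + B) * t :=
      mul_le_mul_of_nonneg_left ht (by positivity)
    rw [eval_add, Int.cast_add, pow_succ]
    linarith [abs_add_le ((p.eval δ : ℤ) : ℝ) ((q.eval δ : ℤ) : ℝ), hA t ht δ hδ, hB t ht δ hδ]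
  | monomial n a =>
    obtain ⟨B, hB⟩ := pow_unbounded_of_one_lt |(a : ℝ)| (one_lt_two (α := ℝ))
    refine ⟨B + n, fun t ht δ hδ => ?_⟩
    rw [eval_monomial, Int.cast_mul, Int.cast_pow, abs_mul, abs_pow, pow_add]
    exact mul_le_mul (hB.le.trans (pow_le_pow_left₀ (by norm_num) ht B))
      (pow_le_pow_left₀ (abs_nonneg _) hδ n) (by positivity) (by positivity)

/-- The arithmetic input on a polynomial used by the sieve. -/
structure Good (g : ℤ[X]) : Prop where
  mertens : ∃ C₀ : ℝ, ∀ u : ℕ, 2 ≤ u →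
    |∑ p ∈ primesIoc 0 u, (rho g p : ℝ) / p - log (log u)| ≤ C₀
  bound : ∃ B d : ℕ, ∀ p : ℕ, p.Prime → B < p → rho g p ≤ d
  sep : ∃ A : ℕ, ∀ t : ℝ, 2 ≤ t → ∀ δ : ℕ, 1 ≤ δ → (δ : ℝ) ≤ t → ∀ l : ℕ, t ^ A < l →
    ∀ x : ℤ, (l : ℤ) ∣ g.eval x → ¬ (l : ℤ) ∣ g.eval (x + δ)

theorem good_minpoly {K : Type*} [Field K] [NumberField K] {θ : 𝓞 K}
    (hθ : Algebra.adjoin ℚ {algebraMap (𝓞 K) K θ} = ⊤) {a : ℤ} (ha : a ≠ 0) :
    Good ((minpoly ℤ θ).comp (C a * X)) := by
  have he := exponent_ne_zero hθ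
  set B := RingOfIntegers.exponent θ + a.natAbs with hB
  have hρ : ∀ p : ℕ, p.Prime → B < p → rho ((minpoly ℤ θ).comp (C a * X)) p = nI K p := by
    intro p hp hBp
    rw [rho_comp _ hp, rho_minpoly hp]
    · exact fun h => by have := Nat.le_of_dvd (Nat.pos_of_ne_zero he) h; omega
    · intro h
      have := Nat.le_of_dvd (Int.natAbs_pos.mpr ha) (Int.natCast_dvd.mp h)
      omega
  refine ⟨?_, ⟨B, Module.finrank ℚ K, fun p hp hBp => (hρ p hp hBp).le.trans (nI_le K hp)⟩, ?_⟩
  · obtain ⟨C₀, hC⟩ := mertens_nI K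
    refine ⟨C₀ + B * (1 + Module.finrank ℚ K), fun u hu => ?_⟩
    have h1 : |∑ p ∈ primesIoc 0 u, (rho ((minpoly ℤ θ).comp (C a * X)) p : ℝ) / p
        - ∑ p ∈ primesIoc 0 u, (nI K p : ℝ) / p| ≤ B * (1 + Module.finrank ℚ K) := by
      rw [← sum_sub_distrib]
      refine (abs_sum_le_sum_abs _ _).trans ?_
      calc ∑ p ∈ primesIoc 0 u, |(rho ((minpoly ℤ θ).comp (C a * X)) p : ℝ) / p - (nI K p : ℝ) / p|
          ≤ ∑ p ∈ primesIoc 0 u, if p ∈ Ioc 0 B then (1 + Module.finrank ℚ K : ℝ) else 0 := by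
            refine sum_le_sum fun p hp => ?_
            obtain ⟨h2, -, h3⟩ := mem_primesIoc.mp hp
            have h4 : (1 : ℝ) ≤ p := by exact_mod_cast h2
            split_ifs with h
            · have h5 : (rho ((minpoly ℤ θ).comp (C a * X)) p : ℝ) / p ≤ 1 :=
                (div_le_one (by linarith)).mpr (by exact_mod_cast rho_le_self _ p)
              have h6 : (nI K p : ℝ) / p ≤ Module.finrank ℚ K :=
                (div_le_self (Nat.cast_nonneg _) h4).trans (by exact_mod_cast nI_le K h3)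
              have h7 : 0 ≤ (rho ((minpoly ℤ θ).comp (C a * X)) p : ℝ) / p := by positivity
              have h8 : 0 ≤ (nI K p : ℝ) / p := by positivity
              rw [abs_le]
              constructor <;> linarith
            · rw [hρ p h3 (by rw [mem_Ioc] at h; omega)]
              simp
        _ ≤ _ := by
            rw [sum_ite_mem, sum_const, nsmul_eq_mul]
            refine mul_le_mul_of_nonneg_right ?_ (by positivity)
            have := card_le_card (inter_subset_right (s₁ := primesIoc 0 u) (s₂ := Ioc 0 B))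
            rw [Nat.card_Ioc] at this
            exact_mod_cast this
    have h2 := abs_le.mp (hC u hu)
    have h3 := abs_le.mp h1
    rw [abs_le]
    constructor <;> linarith
  · have hm : Irreducible ((minpoly ℤ θ).map (Int.castRingHom ℚ)) := by
      have := minpoly.isIntegrallyClosed_eq_field_fractions ℚ K θ.isIntegral
      rw [algebraMap_int_eq] at this
      rw [← this]
      exact minpoly.irreducible (IsIntegral.of_finite ℚ _)
    obtain ⟨R, hR⟩ := exists_res hm
    obtain ⟨A, hA⟩ := eval_le_pow (R.comp (C a * X))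
    refine ⟨A, fun t ht δ h1 h2 l hl x h3 h4 => ?_⟩
    obtain ⟨h5, h6⟩ := hR (a * δ) (mul_ne_zero ha (by exact_mod_cast (by omega : δ ≠ 0)))
    have h7 := hA t ht δ (by simpa using h2)
    simp only [eval_comp, eval_mul, eval_C, eval_X] at h3 h4 h7
    have h8 := Int.le_of_dvd (abs_pos.mpr h5) ((dvd_abs _ _).mpr (h6 (a * x) l h3 (by
      rwa [← mul_add])))
    have h9 : (l : ℝ) ≤ |((R.eval (a * δ) : ℤ) : ℝ)| := by exact_mod_cast h8
    linarith

theorem exists_good {F : ℤ[X]} (hF : 1 ≤ F.natDegree) :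
    ∃ g : ℤ[X], Good g ∧ ∀ x : ℤ, g.eval x ∣ F.leadingCoeff ^ (F.natDegree - 1) * F.eval x := by
  have hF0 : F ≠ 0 := by rintro rfl; simp at hF
  have ha : F.leadingCoeff ≠ 0 := leadingCoeff_ne_zero.mpr hF0
  obtain ⟨G, hG, hGF⟩ := exists_irreducible_of_natDegree_pos (f := F.map (algebraMap ℤ ℚ))
    (by rwa [natDegree_map_eq_of_injective (RingHom.injective_int _)])
  obtain ⟨K, _, _, α, hα, hα'⟩ := exists_root_field hG
  have h1 : aeval α F = 0 := by
    rw [← aeval_map_algebraMap ℚ]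
    exact aeval_eq_zero_of_dvd_aeval_eq_zero hGF hα
  have h2 := integralNormalization_aeval_eq_zero h1
    (fun x hx => (map_eq_zero_iff _ (RingHom.injective_int _)).mp hx)
  let θ : 𝓞 K := ⟨algebraMap ℤ _ F.leadingCoeff * α,
    ⟨integralNormalization F, monic_integralNormalization hF0, h2⟩⟩
  have hθ : Algebra.adjoin ℚ {algebraMap (𝓞 K) K θ} = ⊤ := by
    rw [eq_top_iff, ← hα', Algebra.adjoin_le_iff, Set.singleton_subset_iff]
    have h3 : α = ((F.leadingCoeff : ℚ)⁻¹) • algebraMap (𝓞 K) K θ := by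
      change _ = _ • (algebraMap ℤ K F.leadingCoeff * α)
      rw [IsScalarTower.algebraMap_apply ℤ ℚ K, ← Algebra.smul_def, smul_smul, eq_intCast,
        inv_mul_cancel₀ (by exact_mod_cast ha), one_smul]
    have h4 := Subalgebra.smul_mem _ (Algebra.subset_adjoin (R := ℚ)
      (Set.mem_singleton (algebraMap (𝓞 K) K θ))) ((F.leadingCoeff : ℚ)⁻¹)
    rwa [← h3] at h4
  refine ⟨_, good_minpoly hθ ha, fun x => ?_⟩
  have h3 : minpoly ℤ θ ∣ integralNormalization F := by
    refine minpoly.isIntegrallyClosed_dvd θ.isIntegral ?_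
    apply RingOfIntegers.coe_injective
    rw [← aeval_algebraMap_apply, map_zero]
    exact h2
  have h4 := integralNormalization_eval₂_leadingCoeff_mul hF (RingHom.id ℤ) x
  simp only [eval₂_id, RingHom.id_apply] at h4
  rw [← h4, eval_comp, eval_mul, eval_C, eval_X]
  exact eval_dvd h3

end Pool.Agent.P.MP_3bc45c_nt
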