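import Pool.Agent.P.MP_3bc45c_nt.Smooth

/-!
Lower bound for the sum of `1 / (r log r)` over squarefree rough numbers.
-/

open Finset Real

namespace Pool.Agent.P.MP_3bc45c_nt

theorem loglog_tele {A : ℕ} (hA : 1 ≤ A) (B : ℕ) (hAB : A ≤ B) :
    log (log (B + 1)) - log (log (A + 1)) ≤ ∑ n ∈ Ioc A B, 1 / ((n : ℝ) * log n) := by
  induction B, hAB using Nat.le_induction with
  | base => simp
  | succ B hAB ih =>
    rw [sum_Ioc_succ_top hAB]
    have hB : (1 : ℝ) ≤ B := by exact_mod_cast hA.trans hAB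
    push_cast
    set n : ℝ := B + 1 with hn
    have hn1 : 1 < n := by linarith
    have hl : 0 < log n := log_pos hn1
    have hl1 : 0 < log (n + 1) := log_pos (by linarith)
    have h1 : log (n + 1) - log n ≤ 1 / n := by
      rw [← log_div (by linarith) (by linarith)]
      refine (log_le_sub_one_of_pos (by positivity)).trans (le_of_eq ?_)
      field_simp
      ring
    have h2 : log (log (n + 1)) - log (log n) ≤ 1 / (n * log n) := by
      rw [← log_div hl1.ne' hl.ne']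
      refine (log_le_sub_one_of_pos (by positivity)).trans ?_
      rw [div_sub_one hl.ne', ← div_div]
      exact div_le_div_of_nonneg_right h1 hl.le
    linarith

theorem sum_inv_Ioc_le (n : ℕ) : ∑ m ∈ Ioc 0 n, 1 / (m : ℝ) ≤ 1 + log n := by
  have h := harmonic_le_one_add_log n
  rw [harmonic_eq_sum_Icc] at h
  push_cast at h
  have : Ioc 0 n = Icc 1 n := by ext m; simp [Nat.succ_le_iff]
  simpa [this] using h

theorem sum_inv_sq_le {W : ℕ} (hW : 1 ≤ W) (E : ℕ) :
    ∑ p ∈ primesIoc W E, (1 : ℝ) / (p : ℝ) ^ 2 ≤ 1 / (W : ℝ) := by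
  rcases le_total E W with h | h
  · have : primesIoc W E = ∅ := by simp [primesIoc, Ioc_eq_empty_of_le h]
    rw [this, sum_empty]
    positivity
  have h1 : ∑ p ∈ primesIoc W E, 1 / (p : ℝ) ^ 2 ≤ ∑ m ∈ Ioc W E, (1 / ((m : ℝ) - 1) - 1 / m) := by
    have h2 : ∀ m ∈ Ioc W E, 1 / (m : ℝ) ^ 2 ≤ 1 / ((m : ℝ) - 1) - 1 / m := by
      intro m hm
      have hm2 : (2 : ℝ) ≤ m := by exact_mod_cast (by have := mem_Ioc.mp hm; omega : 2 ≤ m)
      rw [div_sub_div _ _ (by linarith) (by linarith),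
        div_le_div_iff₀ (by positivity) (mul_pos (by linarith) (by linarith))]
      nlinarith
    exact (sum_le_sum_of_subset_of_nonneg (filter_subset _ _) fun m _ _ => by positivity).trans
      (sum_le_sum h2)
  rw [sum_Ioc_tele E h] at h1
  have : (0 : ℝ) ≤ 1 / E := by positivity
  linarith

theorem sum_sq_dvd_le {W : ℕ} (hW : 1 ≤ W) (E : ℕ) :
    ∑ n ∈ (Ioc 0 E).filter (fun n => ∃ p ∈ primesIoc W E, p ^ 2 ∣ n), 1 / (n : ℝ)
      ≤ (1 + log E) / W := by
  have h1 : ∑ n ∈ (Ioc 0 E).filter (fun n => ∃ p ∈ primesIoc W E, p ^ 2 ∣ n), 1 / (n : ℝ)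
      ≤ ∑ p ∈ primesIoc W E, ∑ n ∈ (Ioc 0 E).filter (p ^ 2 ∣ ·), 1 / (n : ℝ) := by
    simp only [sum_filter]
    rw [sum_comm]
    refine sum_le_sum fun n _ => ?_
    have hn : ∀ p ∈ primesIoc W E, 0 ≤ if p ^ 2 ∣ n then 1 / (n : ℝ) else 0 := fun p _ => by
      split_ifs <;> positivity
    split_ifs with h
    · obtain ⟨p, hp, hd⟩ := h
      refine le_trans ?_ (single_le_sum hn hp)
      simp [hd]
    · exact sum_nonneg hn
  have h2 : ∀ p ∈ primesIoc W E, ∑ n ∈ (Ioc 0 E).filter (p ^ 2 ∣ ·), 1 / (n : ℝ)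
      ≤ 1 / (p : ℝ) ^ 2 * (1 + log E) := by
    intro p hp
    have hp0 := (mem_primesIoc.mp hp).2.2.pos
    refine le_trans ?_ (mul_le_mul_of_nonneg_left (sum_inv_Ioc_le E) (by positivity))
    rw [mul_sum]
    refine le_trans (le_of_eq (sum_congr rfl fun n hn => ?_))
      (sum_le_sum_inj (fun n : ℕ => n / p ^ 2) ?_ ?_
        (fun m : ℕ => 1 / (p : ℝ) ^ 2 * (1 / (m : ℝ)))
        fun _ _ => by positivity)
    · obtain ⟨c, rfl⟩ := (mem_filter.mp hn).2
      rw [Nat.mul_div_cancel_left _ (by positivity)]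
      push_cast
      rw [one_div_mul_one_div]
    · intro a ha b hb hab
      have ha' := (mem_filter.mp ha).2
      have hb' := (mem_filter.mp hb).2
      simp only at hab
      rw [← Nat.div_mul_cancel ha', ← Nat.div_mul_cancel hb', hab]
    · intro n hn
      obtain ⟨h3, h4⟩ := mem_filter.mp hn
      have h5 := mem_Ioc.mp h3
      exact mem_Ioc.mpr ⟨Nat.div_pos (Nat.le_of_dvd h5.1 h4) (by positivity),
        (Nat.div_le_self _ _).trans h5.2⟩
  refine (h1.trans (sum_le_sum h2)).trans ?_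
  rw [← sum_mul, div_eq_mul_one_div (1 + log E), mul_comm]
  exact mul_le_mul_of_nonneg_left (sum_inv_sq_le hW E)
    (add_nonneg zero_le_one (log_natCast_nonneg E))

theorem lambda_lower {ι : Type} [Fintype ι] [DecidableEq ι] (q : ι → ℕ) {W E A : ℕ}
    {t₁ t₂ T : ℝ} (hinj : Function.Injective q) (hq : ∀ l, (q l).Prime)
    (hsurj : ∀ p ∈ primesIoc W E, ∃ l, q l = p) (hW : 1 ≤ W) (hA : 1 ≤ A) (hAE : A ≤ E)
    (ht₁ : 0 ≤ t₁) (ht₂ : 0 < t₂) (ht₂A : exp t₂ ≤ A + 1) (hT : log E ≤ T) :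
    log (log (E + 1)) - log (log (A + 1)) ≤ (1 + T) / (W * t₂) + (V W)⁻¹ * ((1 + t₁) / t₂ +
      ∑ D : Finset ι, if t₁ < ∑ l ∈ D, log (q l) ∧ ∑ l ∈ D, log (q l) ≤ T
        then (∏ l ∈ D, 1 / (q l : ℝ)) / ∑ l ∈ D, log (q l) else 0) := by
  refine (loglog_tele hA E hAE).trans ?_
  set D : ℕ → Finset ι := fun n => univ.filter (fun l => q l ∣ n) with hD
  set r : ℕ → ℕ := fun n => ∏ l ∈ D n, q l with hr
  have hr0 : ∀ n, 0 < r n := fun n => prod_pos fun l _ => (hq l).pos
  have hrd : ∀ n, r n ∣ n := fun n => by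
    refine Finset.prod_dvd_of_isRelPrime ?_ fun l hl => (mem_filter.mp hl).2
    intro a _ b _ hab
    exact Nat.coprime_iff_isRelPrime.mp
      ((Nat.coprime_primes (hq a) (hq b)).mpr fun h => hab (hinj h))
  have hlr : ∀ n, ∑ l ∈ D n, log (q l) = log (r n) := fun n => by
    rw [hr]
    push_cast
    rw [log_prod fun l _ => by exact_mod_cast (hq l).ne_zero]
  have hpr : ∀ n, ∏ l ∈ D n, 1 / (q l : ℝ) = 1 / r n := fun n => by
    rw [hr]
    push_cast
    rw [prod_div_distrib, prod_const_one]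
  have hlog : ∀ n ∈ Ioc A E, t₂ ≤ log n := fun n hn => by
    have h1 : (A : ℝ) + 1 ≤ n := by exact_mod_cast (mem_Ioc.mp hn).1
    rw [← log_exp t₂]
    exact log_le_log (exp_pos _) (ht₂A.trans h1)
  have hsm : ∀ n ∈ Ioc A E, (¬ ∃ p ∈ primesIoc W E, p ^ 2 ∣ n) → n / r n ∈ smoothUpTo E W := by
    intro n hn hsq
    have h1 := mem_Ioc.mp hn
    have hn0 : 0 < n := by omega
    refine mem_smoothUpTo.mpr ⟨Nat.div_pos (Nat.le_of_dvd hn0 (hrd n)) (hr0 n),
      (Nat.div_le_self _ _).trans h1.2, fun p hp hd => ?_⟩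
    by_contra hpW
    have hpn : p ∣ n := hd.trans (Nat.div_dvd_of_dvd (hrd n))
    have hp' : p ∈ primesIoc W E :=
      mem_primesIoc.mpr ⟨not_le.mp hpW, (Nat.le_of_dvd hn0 hpn).trans h1.2, hp⟩
    obtain ⟨l, hl⟩ := hsurj p hp'
    have h2 : p ∣ r n := hl ▸ dvd_prod_of_mem q (mem_filter.mpr ⟨mem_univ l, hl ▸ hpn⟩)
    refine hsq ⟨p, hp', ?_⟩
    rw [← Nat.div_mul_cancel (hrd n), sq]
    exact Nat.mul_dvd_mul hd h2
  have hsmooth : ∑ a ∈ smoothUpTo E W, 1 / (a : ℝ) ≤ (V W)⁻¹ :=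
    sum_smooth_inv_le W _ fun m hm =>
      ⟨(mem_smoothUpTo.mp hm).1.ne', (mem_smoothUpTo.mp hm).2.2⟩
  have hcast : ∀ n : ℕ, (n : ℝ) = ((n / r n : ℕ) : ℝ) * r n := fun n => by
    exact_mod_cast (Nat.div_mul_cancel (hrd n)).symm
  rw [← sum_filter_add_sum_filter_not (Ioc A E) (fun n => ∃ p ∈ primesIoc W E, p ^ 2 ∣ n)]
  refine add_le_add ?_ ?_
  · calc ∑ n ∈ (Ioc A E).filter (fun n => ∃ p ∈ primesIoc W E, p ^ 2 ∣ n), 1 / ((n : ℝ) * log n)
        ≤ ∑ n ∈ (Ioc A E).filter (fun n => ∃ p ∈ primesIoc W E, p ^ 2 ∣ n),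
            1 / (n : ℝ) / t₂ := by
          refine sum_le_sum fun n hn => ?_
          rw [← div_div]
          exact div_le_div_of_nonneg_left (by positivity) ht₂ (hlog n (mem_filter.mp hn).1)
      _ ≤ (1 + log E) / W / t₂ := by
          rw [← sum_div]
          refine div_le_div_of_nonneg_right (le_trans ?_ (sum_sq_dvd_le hW E)) ht₂.le
          exact sum_le_sum_of_subset_of_nonneg
            (filter_subset_filter _ (Ioc_subset_Ioc_left (Nat.zero_le _)))
            fun _ _ _ => by positivity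
      _ ≤ _ := by
          rw [div_div]
          gcongr
  set G := (Ioc A E).filter (fun n => ¬ ∃ p ∈ primesIoc W E, p ^ 2 ∣ n) with hG
  rw [← sum_filter_add_sum_filter_not G (fun n => log (r n) ≤ t₁), mul_add]
  refine add_le_add ?_ ?_
  · calc ∑ n ∈ G.filter (fun n => log (r n) ≤ t₁), 1 / ((n : ℝ) * log n)
        ≤ ∑ n ∈ G.filter (fun n => log (r n) ≤ t₁),
            1 / ((n / r n : ℕ) : ℝ) * (1 / (r n : ℝ) / t₂) := by
          refine sum_le_sum fun n hn => ?_
          rw [← div_div, ← mul_div_assoc, one_div_mul_one_div, ← hcast]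
          exact div_le_div_of_nonneg_left (by positivity) ht₂
            (hlog n (mem_filter.mp (mem_filter.mp hn).1).1)
      _ ≤ ∑ x ∈ smoothUpTo E W ×ˢ Ioc 0 ⌊exp t₁⌋₊, 1 / (x.1 : ℝ) * (1 / (x.2 : ℝ) / t₂) := by
          refine sum_le_sum_inj (fun n => (n / r n, r n)) ?_ ?_
            (fun x : ℕ × ℕ => 1 / (x.1 : ℝ) * (1 / (x.2 : ℝ) / t₂)) fun _ _ => by positivity
          · intro a _ b _ hab
            simp only [Prod.mk.injEq] at hab
            rw [← Nat.div_mul_cancel (hrd a), hab.1, hab.2, Nat.div_mul_cancel (hrd b)]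
          · intro n hn
            obtain ⟨h1, h2⟩ := mem_filter.mp hn
            obtain ⟨h3, h4⟩ := mem_filter.mp h1
            refine mem_product.mpr ⟨hsm n h3 h4, mem_Ioc.mpr ⟨hr0 n, Nat.le_floor ?_⟩⟩
            rwa [← log_le_iff_le_exp (by exact_mod_cast hr0 n)]
      _ ≤ _ := by
          rw [sum_product, ← sum_mul_sum (f := fun a : ℕ => 1 / (a : ℝ))
            (g := fun b : ℕ => 1 / (b : ℝ) / t₂), ← sum_div]
          refine mul_le_mul hsmooth (div_le_div_of_nonneg_right ?_ ht₂.le)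
            (by positivity) (inv_nonneg.mpr (V_pos W).le)
          refine (sum_inv_Ioc_le _).trans (add_le_add le_rfl ?_)
          have h1 : 1 ≤ ⌊exp t₁⌋₊ := Nat.le_floor (by simpa using ht₁)
          rw [log_le_iff_le_exp (by exact_mod_cast h1)]
          exact Nat.floor_le (exp_pos _).le
  · set g : Finset ι → ℝ := fun D => if t₁ < ∑ l ∈ D, log (q l) ∧ ∑ l ∈ D, log (q l) ≤ T
        then (∏ l ∈ D, 1 / (q l : ℝ)) / ∑ l ∈ D, log (q l) else 0 with hg
    have hg0 : ∀ D, 0 ≤ g D := fun D => by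
      simp only [hg]
      split_ifs with h
      · exact div_nonneg (prod_nonneg fun l _ => by positivity) (ht₁.trans h.1.le)
      · exact le_rfl
    calc ∑ n ∈ G.filter (fun n => ¬ log (r n) ≤ t₁), 1 / ((n : ℝ) * log n)
        ≤ ∑ n ∈ G.filter (fun n => ¬ log (r n) ≤ t₁), 1 / ((n / r n : ℕ) : ℝ) * g (D n) := by
          refine sum_le_sum fun n hn => ?_
          obtain ⟨h1, h2⟩ := mem_filter.mp hn
          have h3 := mem_Ioc.mp (mem_filter.mp h1).1
          have h4 : log (r n) ≤ log n := log_le_log (by exact_mod_cast hr0 n)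
            (by exact_mod_cast Nat.le_of_dvd (by omega) (hrd n))
          have h5 : log (n : ℝ) ≤ log E := log_le_log (by exact_mod_cast (by omega : 0 < n))
            (by exact_mod_cast h3.2)
          simp only [hg, hlr, hpr]
          rw [if_pos ⟨not_le.mp h2, h4.trans (h5.trans hT)⟩, ← div_div, ← mul_div_assoc,
            one_div_mul_one_div, ← hcast]
          exact div_le_div_of_nonneg_left (by positivity) (ht₁.trans_lt (not_le.mp h2)) h4
      _ ≤ ∑ x ∈ smoothUpTo E W ×ˢ (univ : Finset (Finset ι)), 1 / (x.1 : ℝ) * g x.2 := by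
          refine sum_le_sum_inj (fun n => (n / r n, D n)) ?_ ?_
            (fun x : ℕ × Finset ι => 1 / (x.1 : ℝ) * g x.2)
            fun x _ => mul_nonneg (by positivity) (hg0 _)
          · intro a _ b _ hab
            simp only [Prod.mk.injEq] at hab
            have : r a = r b := by simp only [hr, hab.2]
            rw [← Nat.div_mul_cancel (hrd a), hab.1, this, Nat.div_mul_cancel (hrd b)]
          · intro n hn
            obtain ⟨h3, h4⟩ := mem_filter.mp (mem_filter.mp hn).1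
            exact mem_product.mpr ⟨hsm n h3 h4, mem_univ _⟩
      _ ≤ _ := by
          rw [sum_product, ← sum_mul_sum (f := fun a : ℕ => 1 / (a : ℝ)) (g := g)]
          exact mul_le_mul_of_nonneg_right hsmooth (sum_nonneg fun D _ => hg0 D)

end Pool.Agent.P.MP_3bc45c_nt
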