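import Pool.Agent.P.MP_3bc45c_nt.PolyComb
import Pool.Agent.P.MP_3bc45c_nt.Lambda

/-!
A Mertens type estimate for the prime ideals of degree one of a number field.
-/

open Finset Real NumberField Ideal Filter

open scoped nonZeroDivisors

namespace Pool.Agent.P.MP_3bc45c_nt

variable (K : Type*) [Field K] [NumberField K]

open Classical in
/-- The nonzero ideals of norm at most `n`. -/
noncomputable def idl (n : ℕ) : Finset (Ideal (𝓞 K)) :=
  (finite_setOfPred_absNorm_le (S := 𝓞 K) n).toFinset.filter (· ≠ ⊥)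

variable {K} in
theorem mem_idl {n : ℕ} {I : Ideal (𝓞 K)} : I ∈ idl K n ↔ I ≠ ⊥ ∧ absNorm I ≤ n := by
  simp [idl, and_comm]

variable {K} in
theorem absNorm_pos' {I : Ideal (𝓞 K)} (hI : I ≠ ⊥) : 0 < absNorm I :=
  Nat.pos_of_ne_zero fun h => hI (absNorm_eq_zero_iff.mp h)

theorem card_idl (n : ℕ) : (idl K n).card =
    Nat.card {I : (Ideal (𝓞 K))⁰ // (absNorm (I : Ideal (𝓞 K)) : ℝ) ≤ (n : ℝ)} := by
  rw [← Nat.card_eq_finsetCard]
  refine Nat.card_congr
    { toFun := fun I => ⟨⟨I.1, mem_nonZeroDivisors_of_ne_zero (mem_idl.mp I.2).1⟩,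
        by exact_mod_cast (mem_idl.mp I.2).2⟩
      invFun := fun I => ⟨I.1.1, mem_idl.mpr ⟨nonZeroDivisors.ne_zero I.1.2,
        by exact_mod_cast I.2⟩⟩
      left_inv := fun I => rfl
      right_inv := fun I => rfl }

theorem idl_mono {m n : ℕ} (h : m ≤ n) : idl K m ⊆ idl K n := fun _ hI =>
  mem_idl.mpr ⟨(mem_idl.mp hI).1, (mem_idl.mp hI).2.trans h⟩

theorem card_idl_bounds : ∃ c C : ℝ, 0 < c ∧ 0 < C ∧ ∀ n : ℕ, 1 ≤ n →
    c * n ≤ (idl K n).card ∧ ((idl K n).card : ℝ) ≤ C * n := by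
  have h := (Ideal.tendsto_norm_le_div_atTop₀ K).comp tendsto_natCast_atTop_atTop
  rw [← dedekindZeta_residue_def] at h
  have hκ := dedekindZeta_residue_pos K
  set κ := dedekindZeta_residue K
  have h1 := (h.eventually (lt_mem_nhds (show κ / 2 < κ by linarith))).and
    (h.eventually (gt_mem_nhds (show κ < 2 * κ by linarith)))
  obtain ⟨n₀, hn₀⟩ := eventually_atTop.mp h1
  refine ⟨min (κ / 2) (1 / (n₀ + 1)), 2 * κ + (idl K n₀).card, by positivity, by positivity,
    fun n hn => ?_⟩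
  have hn0 : (1 : ℝ) ≤ n := by exact_mod_cast hn
  rcases le_or_gt n₀ n with h2 | h2
  · obtain ⟨h3, h4⟩ := hn₀ n h2
    simp only [Function.comp, ← card_idl] at h3 h4
    rw [lt_div_iff₀ (by linarith)] at h3
    rw [div_lt_iff₀ (by linarith)] at h4
    constructor
    · exact (mul_le_mul_of_nonneg_right (min_le_left _ _) (by linarith)).trans h3.le
    · have : (0 : ℝ) ≤ (idl K n₀).card * n := by positivity
      linarith
  · have h3 : (n : ℝ) ≤ n₀ + 1 := by exact_mod_cast (by omega : n ≤ n₀ + 1)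
    constructor
    · have h4 : (1 : ℝ) ≤ (idl K n).card := by
        have : ⊤ ∈ idl K n := mem_idl.mpr ⟨by simp, by simpa using hn⟩
        exact_mod_cast card_pos.mpr ⟨_, this⟩
      refine (mul_le_mul_of_nonneg_right (min_le_right _ _) (by linarith)).trans (le_trans ?_ h4)
      rw [one_div_mul_eq_div, div_le_one (by positivity)]
      exact h3
    · have h4 : ((idl K n).card : ℝ) ≤ (idl K n₀).card := by
        exact_mod_cast card_le_card (idl_mono K h2.le)
      have h5 : ((idl K n₀).card : ℝ) ≤ (idl K n₀).card * n :=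
        le_mul_of_one_le_right (by positivity) hn0
      have : 0 ≤ 2 * κ * n := by positivity
      linarith

/-- The harmonic sum over ideals. -/
noncomputable def HI (n : ℕ) : ℝ := ∑ I ∈ idl K n, 1 / (absNorm I : ℝ)

theorem HI_eq (n : ℕ) : HI K n = (idl K n).card / (n + 1) +
    ∑ m ∈ Ioc 0 n, ((idl K m).card : ℝ) / (m * (m + 1)) := by
  classical
  induction n with
  | zero =>
    have : idl K 0 = ∅ := eq_empty_of_forall_notMem fun I hI => by
      have := absNorm_pos' (mem_idl.mp hI).1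
      have := (mem_idl.mp hI).2
      omega
    simp [HI, this]
  | succ n ih =>
    have h1 : (idl K (n + 1)).filter (fun I => absNorm I ≤ n) = idl K n := by
      ext I
      simp only [mem_filter, mem_idl]
      constructor
      · exact fun h => ⟨h.1.1, h.2⟩
      · exact fun h => ⟨⟨h.1, by omega⟩, h.2⟩
    have h2 := sum_filter_add_sum_filter_not (idl K (n + 1)) (fun I => absNorm I ≤ n)
      (fun I => 1 / (absNorm I : ℝ))
    have h3 := card_filter_add_card_filter_not (s := idl K (n + 1)) (fun I => absNorm I ≤ n)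
    have h4 : ∑ I ∈ (idl K (n + 1)).filter (fun I => ¬ absNorm I ≤ n), 1 / (absNorm I : ℝ)
        = ((idl K (n + 1)).filter (fun I => ¬ absNorm I ≤ n)).card * (1 / ((n : ℝ) + 1)) := by
      rw [← nsmul_eq_mul, ← sum_const]
      refine sum_congr rfl fun I hI => ?_
      obtain ⟨h5, h6⟩ := mem_filter.mp hI
      have : absNorm I = n + 1 := by have := (mem_idl.mp h5).2; omega
      rw [this]
      push_cast
      rfl
    rw [h1] at h2 h3
    have h5 : (((idl K (n + 1)).filter (fun I => ¬ absNorm I ≤ n)).card : ℝ)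
        = (idl K (n + 1)).card - (idl K n).card := by
      rw [← h3]; push_cast; ring
    rw [sum_Ioc_succ_top (Nat.zero_le n), HI, ← h2, h4, h5]
    change HI K n + _ = _
    rw [ih]
    push_cast
    field_simp
    ring

theorem HI_bounds : ∃ c C : ℝ, 0 < c ∧ 0 < C ∧ ∀ n : ℕ, 1 ≤ n →
    c * log n ≤ HI K n ∧ HI K n ≤ C * (2 + log n) := by
  obtain ⟨c, C, hc, hC, h⟩ := card_idl_bounds K
  refine ⟨c / 2, C, by positivity, hC, fun n hn => ?_⟩
  have hn0 : (1 : ℝ) ≤ n := by exact_mod_cast hn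
  rw [HI_eq]
  constructor
  · have h1 : log (n : ℝ) ≤ ∑ m ∈ Ioc 0 n, 1 / (m : ℝ) := by
      have h3 := log_add_one_le_harmonic n
      rw [harmonic_eq_sum_Icc] at h3
      push_cast at h3
      have h4 : log (n : ℝ) ≤ log (n + 1) := log_le_log (by linarith) (by linarith)
      have : Ioc 0 n = Icc 1 n := by ext m; simp [Nat.succ_le_iff]
      simpa [this] using h4.trans h3
    have h2 : c / 2 * ∑ m ∈ Ioc 0 n, 1 / (m : ℝ)
        ≤ ∑ m ∈ Ioc 0 n, ((idl K m).card : ℝ) / (m * (m + 1)) := by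
      rw [mul_sum]
      refine sum_le_sum fun m hm => ?_
      have hm1 : 1 ≤ m := (mem_Ioc.mp hm).1
      have hm0 : (1 : ℝ) ≤ m := by exact_mod_cast hm1
      refine le_trans ?_ (div_le_div_of_nonneg_right (h m hm1).1 (by positivity))
      rw [mul_one_div, div_div, div_le_div_iff₀ (by positivity) (by positivity)]
      nlinarith [mul_nonneg (mul_nonneg hc.le (by linarith : (0 : ℝ) ≤ m))
        (by linarith : (0 : ℝ) ≤ m - 1)]
    have h3 : (0 : ℝ) ≤ (idl K n).card / (n + 1) := by positivity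
    linarith [mul_le_mul_of_nonneg_left h1 (by positivity : 0 ≤ c / 2)]
  · have h1 : ((idl K n).card : ℝ) / (n + 1) ≤ C := by
      rw [div_le_iff₀ (by positivity)]
      linarith [(h n hn).2]
    have h2 : ∑ m ∈ Ioc 0 n, ((idl K m).card : ℝ) / (m * (m + 1))
        ≤ C * ∑ m ∈ Ioc 0 n, 1 / (m : ℝ) := by
      rw [mul_sum]
      refine sum_le_sum fun m hm => ?_
      have hm1 : 1 ≤ m := (mem_Ioc.mp hm).1
      have hm0 : (1 : ℝ) ≤ m := by exact_mod_cast hm1
      refine (div_le_div_of_nonneg_right (h m hm1).2 (by positivity)).trans ?_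
      rw [mul_one_div, div_le_div_iff₀ (by positivity) (by positivity)]
      nlinarith [mul_nonneg hC.le (by linarith : (0 : ℝ) ≤ m),
        mul_nonneg (mul_nonneg hC.le (by linarith : (0 : ℝ) ≤ m)) (by linarith : (0 : ℝ) ≤ m)]
    linarith [mul_le_mul_of_nonneg_left (sum_inv_Ioc_le n) hC.le]

variable {K} in
theorem under_prime {P : Ideal (𝓞 K)} (hP : P.IsPrime) (h0 : P ≠ ⊥) :
    (absNorm (under ℤ P)).Prime ∧ (absNorm P = absNorm (under ℤ P) ∨
      absNorm (under ℤ P) ^ 2 ≤ absNorm P) := by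
  have : NeZero P := ⟨h0⟩
  have hp := Nat.absNorm_under_prime P
  refine ⟨hp, ?_⟩
  have h1 := pow_inertiaDeg (absNorm (under ℤ P)) P
  have h2 : P.inertiaDeg ℤ ≠ 0 := fun h => by
    rw [h, pow_zero] at h1
    exact hP.ne_top (absNorm_eq_one_iff.mp h1.symm)
  rcases Nat.lt_or_ge (P.inertiaDeg ℤ) 2 with h | h
  · left
    rw [← h1, show P.inertiaDeg ℤ = 1 by omega, pow_one]
  · right
    rw [← h1]
    exact Nat.pow_le_pow_right hp.pos h

variable {K} in
theorem card_under_le {p : ℕ} (hp : p.Prime) (T : Finset (Ideal (𝓞 K)))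
    (hT : ∀ P ∈ T, P.IsPrime ∧ absNorm (under ℤ P) = p) : T.card ≤ Module.finrank ℚ K := by
  have := Fact.mk hp
  have hm := Int.ideal_span_isMaximal_of_prime p
  have h0 : span {(p : ℤ)} ≠ ⊥ := by simp [hp.ne_zero]
  refine le_trans (card_le_card fun P hP => ?_)
    (card_primesOverFinset_le_finrank (𝓞 K) ℚ K (p := span {(p : ℤ)}) h0)
  obtain ⟨h1, h2⟩ := hT P hP
  refine (IsDedekindDomain.mem_primesOverFinset_iff h0 _).mpr ⟨h1, ?_⟩
  rw [← h2]
  infer_instance

open Classical in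
/-- The number of ideals of norm `p`. -/
noncomputable def nI (p : ℕ) : ℕ := ((idl K p).filter (fun I => absNorm I = p)).card

variable {K} in
theorem prime_of_norm {p : ℕ} (hp : p.Prime) {I : Ideal (𝓞 K)} (hI : absNorm I = p) :
    I.IsPrime ∧ absNorm (under ℤ I) = p := by
  have h1 : I.IsPrime := isPrime_of_irreducible_absNorm (hI ▸ hp)
  have h0 : I ≠ ⊥ := fun h => hp.ne_zero (by rw [← hI, h]; simp)
  refine ⟨h1, (Nat.prime_dvd_prime_iff_eq (under_prime h1 h0).1 hp).mp ?_⟩
  exact hI ▸ Int.absNorm_under_dvd_absNorm I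

theorem nI_le {p : ℕ} (hp : p.Prime) : nI K p ≤ Module.finrank ℚ K :=
  card_under_le hp _ fun _ hI => prime_of_norm hp (mem_filter.mp hI).2

theorem sum_inv_sq_le_one (u : ℕ) : ∑ p ∈ primesIoc 0 u, (1 : ℝ) / (p : ℝ) ^ 2 ≤ 1 := by
  have h := sum_inv_sq_le le_rfl u
  have h1 : primesIoc 0 u = primesIoc 1 u := by
    ext p
    simp only [mem_primesIoc]
    exact ⟨fun h => ⟨h.2.2.one_lt, h.2⟩, fun h => ⟨h.2.2.pos, h.2⟩⟩
  rw [h1]
  simpa using h

theorem HI_le_exp (u : ℕ) :
    HI K u ≤ exp (∑ p ∈ primesIoc 0 u, (nI K p : ℝ) / p + 3 * Module.finrank ℚ K) := by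
  classical
  set s := (idl K u).filter (fun P => P.IsPrime) with hs
  set x : Ideal (𝓞 K) → ℝ := fun P => 1 / (absNorm P : ℝ) with hx
  have h2 : ∀ P ∈ s, (2 : ℝ) ≤ absNorm P := fun P hP => by
    obtain ⟨h1, h3⟩ := mem_filter.mp hP
    have h4 := absNorm_pos' (mem_idl.mp h1).1
    have h5 : absNorm P ≠ 1 := fun h => h3.ne_top (absNorm_eq_one_iff.mp h)
    exact_mod_cast (by omega : 2 ≤ absNorm P)
  have hx0 : ∀ P, 0 ≤ x P := fun P => by positivity
  have hx1 : ∀ P ∈ s, x P ≤ 1 / 2 := fun P hP =>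
    one_div_le_one_div_of_le (by norm_num) (h2 P hP)
  have h1 : HI K u ≤ ∏ P ∈ s, (1 - x P)⁻¹ := by
    refine le_trans (le_of_eq ?_) (sum_multiset_le s x (fun P _ => hx0 P)
      (fun P hP => by linarith [hx1 P hP])
      ((idl K u).image UniqueFactorizationMonoid.normalizedFactors) ?_)
    · rw [sum_image, HI]
      · refine sum_congr rfl fun I hI => ?_
        have h3 := Ideal.prod_normalizedFactors_eq_self (mem_idl.mp hI).1
        conv_lhs => rw [← h3, map_multiset_prod]
        simp only [hx, one_div, Multiset.prod_map_inv, Nat.cast_multiset_prod, Multiset.map_map,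
          Function.comp_def]
      · intro I hI J hJ h
        rw [← Ideal.prod_normalizedFactors_eq_self (mem_idl.mp hI).1, h,
          Ideal.prod_normalizedFactors_eq_self (mem_idl.mp hJ).1]
    · intro m hm P hP
      obtain ⟨I, hI, rfl⟩ := mem_image.mp hm
      obtain ⟨h3, h4⟩ := mem_idl.mp hI
      have h5 := UniqueFactorizationMonoid.prime_of_normalized_factor P hP
      have h6 := UniqueFactorizationMonoid.dvd_of_mem_normalizedFactors hP
      refine mem_filter.mpr ⟨mem_idl.mpr ⟨h5.ne_zero, le_trans ?_ h4⟩,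
        Ideal.isPrime_of_prime h5⟩
      exact Nat.le_of_dvd (absNorm_pos' h3) (map_dvd absNorm h6)
  have h3 : ∏ P ∈ s, (1 - x P)⁻¹ ≤ exp (∑ P ∈ s, (x P + 2 * x P ^ 2)) := by
    rw [exp_sum]
    refine prod_le_prod (fun P hP => inv_nonneg.mpr (by linarith [hx1 P hP])) fun P hP => ?_
    refine le_trans ?_ (add_one_le_exp _)
    rw [inv_le_iff_one_le_mul₀ (by linarith [hx1 P hP])]
    nlinarith [hx0 P, hx1 P hP, mul_nonneg (sq_nonneg (x P)) (sub_nonneg.mpr (hx1 P hP))]
  refine (h1.trans h3).trans (exp_le_exp.mpr ?_)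
  have hmap : ∀ P ∈ s, absNorm (under ℤ P) ∈ primesIoc 0 u := fun P hP => by
    obtain ⟨h4, h5⟩ := mem_filter.mp hP
    obtain ⟨h6, h7⟩ := mem_idl.mp h4
    have h8 := (under_prime h5 h6).1
    exact mem_primesIoc.mpr ⟨h8.pos, le_trans (Nat.le_of_dvd (absNorm_pos' h6)
      (Int.absNorm_under_dvd_absNorm P)) h7, h8⟩
  rw [← sum_fiberwise_of_maps_to hmap]
  have h4 : ∀ p ∈ primesIoc 0 u,
      ∑ P ∈ s.filter (fun P => absNorm (under ℤ P) = p), (x P + 2 * x P ^ 2)
        ≤ (nI K p : ℝ) / p + 3 * Module.finrank ℚ K * (1 / (p : ℝ) ^ 2) := by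
    intro p hp
    have hp' := (mem_primesIoc.mp hp).2.2
    have hp0 : (0 : ℝ) < p := by exact_mod_cast hp'.pos
    set T := s.filter (fun P => absNorm (under ℤ P) = p) with hT
    have h5 : ∀ P ∈ T, x P + 2 * x P ^ 2
        ≤ (if absNorm P = p then 1 / (p : ℝ) else 0) + 3 * (1 / (p : ℝ) ^ 2) := by
      intro P hP
      obtain ⟨h6, h7⟩ := mem_filter.mp hP
      obtain ⟨h8, h9⟩ := mem_filter.mp h6
      have h10 := (under_prime h9 (mem_idl.mp h8).1).2
      rw [h7] at h10
      have h11 : (0 : ℝ) ≤ 1 / (p : ℝ) ^ 2 := by positivity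
      split_ifs with h
      · simp only [hx, h, div_pow, one_pow]
        linarith
      · have h12 : x P ≤ 1 / (p : ℝ) ^ 2 := one_div_le_one_div_of_le (by positivity)
          (by exact_mod_cast h10.resolve_left h)
        nlinarith [hx0 P, hx1 P h6]
    refine (sum_le_sum h5).trans ?_
    rw [sum_add_distrib, ← sum_filter, sum_const, sum_const, nsmul_eq_mul, nsmul_eq_mul,
      mul_one_div]
    have h6 : (T.card : ℝ) ≤ Module.finrank ℚ K := by
      exact_mod_cast card_under_le hp' T fun P hP =>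
        ⟨(mem_filter.mp (mem_filter.mp hP).1).2, (mem_filter.mp hP).2⟩
    have h7 : ((T.filter (fun P => absNorm P = p)).card : ℝ) ≤ nI K p := by
      refine Nat.cast_le.mpr (card_le_card fun P hP => ?_)
      obtain ⟨h8, h9⟩ := mem_filter.mp hP
      exact mem_filter.mpr ⟨mem_idl.mpr
        ⟨(mem_idl.mp (mem_filter.mp (mem_filter.mp h8).1).1).1, h9.le⟩, h9⟩
    have h8 := mul_le_mul_of_nonneg_right h6 (by positivity : (0 : ℝ) ≤ 3 * (1 / (p : ℝ) ^ 2))
    have h9 := div_le_div_of_nonneg_right h7 hp0.le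
    linarith
  refine (sum_le_sum h4).trans ?_
  rw [sum_add_distrib, ← mul_sum]
  have := mul_le_mul_of_nonneg_left (sum_inv_sq_le_one u)
    (by positivity : (0 : ℝ) ≤ 3 * Module.finrank ℚ K)
  linarith

theorem sum_norm_prime (u : ℕ) (f : ℕ → ℝ) :
    ∑ P ∈ (idl K u).filter (fun P => (absNorm P).Prime), f (absNorm P)
      = ∑ p ∈ primesIoc 0 u, (nI K p : ℝ) * f p := by
  classical
  have hmap : ∀ P ∈ (idl K u).filter (fun P => (absNorm P).Prime),
      absNorm P ∈ primesIoc 0 u := fun P hP => by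
    obtain ⟨h1, h2⟩ := mem_filter.mp hP
    exact mem_primesIoc.mpr ⟨h2.pos, (mem_idl.mp h1).2, h2⟩
  rw [← sum_fiberwise_of_maps_to hmap]
  refine sum_congr rfl fun p hp => ?_
  obtain ⟨-, h1, h2⟩ := mem_primesIoc.mp hp
  rw [sum_congr rfl (g := fun _ => f p) fun P hP => by rw [(mem_filter.mp hP).2], sum_const,
    nsmul_eq_mul, nI]
  congr 3
  ext P
  simp only [mem_filter, mem_idl]
  constructor
  · exact fun h => ⟨⟨h.1.1.1, h.2.le⟩, h.2⟩
  · exact fun h => ⟨⟨⟨h.1.1, h.2 ▸ h1⟩, h.2 ▸ h2⟩, h.2⟩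

theorem exp_le_HI {u : ℕ} (hu : 1 ≤ u) :
    exp (∑ p ∈ primesIoc 0 u, (nI K p : ℝ) / p - Module.finrank ℚ K)
      ≤ 2 * HI K ⌊exp (2 * (Module.finrank ℚ K * (log u + log 4)))⌋₊ := by
  classical
  set s := (idl K u).filter (fun P => (absNorm P).Prime) with hs
  set d : ℝ := (Module.finrank ℚ K : ℝ) with hd
  have hd0 : 0 < d := by
    rw [hd]; exact_mod_cast Module.finrank_pos
  have hnI : ∀ p ∈ primesIoc 0 u, (nI K p : ℝ) ≤ d := fun p hp => by
    rw [hd]; exact_mod_cast nI_le K (mem_primesIoc.mp hp).2.2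
  have hl4 : 0 < log (4 : ℝ) := log_pos (by norm_num)
  have h1 := markov_subsets s (fun P => 1 / (absNorm P : ℝ)) (fun P => log (absNorm P))
    (fun P _ => by positivity) (fun P _ => log_natCast_nonneg _)
    (M := d * (log u + log 4)) (mul_pos hd0 (by linarith [log_natCast_nonneg u])) (by
      rw [hs, sum_norm_prime K u (fun n => 1 / (n : ℝ) * log n)]
      refine le_trans ?_ (mul_le_mul_of_nonneg_left (A1_le hu) hd0.le)
      rw [A1, mul_sum]
      refine sum_le_sum fun p hp => ?_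
      rw [one_div_mul_eq_div]
      exact mul_le_mul_of_nonneg_right (hnI p hp)
        (div_nonneg (log_natCast_nonneg _) (Nat.cast_nonneg _)))
  have h2 := exp_le_prod_one_add s (fun P => 1 / (absNorm P : ℝ)) fun P _ => by positivity
  have h3 : ∑ P ∈ s, (1 / (absNorm P : ℝ)) ^ 2 ≤ d := by
    rw [hs, sum_norm_prime K u (fun n => (1 / (n : ℝ)) ^ 2)]
    refine le_trans ?_ (mul_le_of_le_one_right hd0.le (sum_inv_sq_le_one u))
    rw [mul_sum]
    refine sum_le_sum fun p hp => ?_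
    rw [div_pow, one_pow]
    exact mul_le_mul_of_nonneg_right (hnI p hp) (by positivity)
  have h4 : ∑ P ∈ s, 1 / (absNorm P : ℝ) = ∑ p ∈ primesIoc 0 u, (nI K p : ℝ) / p := by
    rw [hs, sum_norm_prime K u (fun n => 1 / (n : ℝ))]
    exact sum_congr rfl fun p _ => mul_one_div _ _
  have hpr : ∀ P ∈ s, Prime P := fun P hP => by
    obtain ⟨h5, h6⟩ := mem_filter.mp hP
    exact Ideal.prime_of_isPrime (mem_idl.mp h5).1 (prime_of_norm h6 rfl).1
  have h5 : ∑ D ∈ s.powerset.filter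
        (fun D => ∑ P ∈ D, log (absNorm P) ≤ 2 * (d * (log u + log 4))),
        ∏ P ∈ D, 1 / (absNorm P : ℝ) ≤ HI K ⌊exp (2 * (d * (log u + log 4)))⌋₊ := by
    refine le_trans (le_of_eq (sum_congr rfl fun D _ => ?_))
      (sum_le_sum_inj (fun D : Finset (Ideal (𝓞 K)) => ∏ P ∈ D, P) ?_ ?_
        (fun I => 1 / (absNorm I : ℝ)) fun _ _ => by positivity)
    · rw [map_prod, Nat.cast_prod, prod_div_distrib, prod_const_one]
    · intro D hD D' hD' h
      have key : ∀ D ∈ s.powerset,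
          UniqueFactorizationMonoid.normalizedFactors (∏ P ∈ D, P) = D.val := fun D hD => by
        rw [prod_eq_multiset_prod, Multiset.map_id']
        exact UniqueFactorizationMonoid.normalizedFactors_prod_of_prime
          fun P hP => hpr P (mem_powerset.mp hD hP)
      simp only at h
      rw [← val_inj, ← key D (mem_filter.mp hD).1, ← key D' (mem_filter.mp hD').1, h]
    · intro D hD
      obtain ⟨h6, h7⟩ := mem_filter.mp hD
      have h8 : ∀ P ∈ D, P ≠ ⊥ := fun P hP => (hpr P (mem_powerset.mp h6 hP)).ne_zero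
      refine mem_idl.mpr ⟨prod_ne_zero_iff.mpr h8, Nat.le_floor ?_⟩
      rw [map_prod, Nat.cast_prod, ← log_le_iff_le_exp
        (prod_pos fun P hP => by exact_mod_cast absNorm_pos' (h8 P hP)),
        log_prod fun P hP => by exact_mod_cast (absNorm_pos' (h8 P hP)).ne']
      exact h7
  have h6 : exp (∑ p ∈ primesIoc 0 u, (nI K p : ℝ) / p - d)
      ≤ exp (∑ P ∈ s, 1 / (absNorm P : ℝ) - ∑ P ∈ s, (1 / (absNorm P : ℝ)) ^ 2) :=
    exp_le_exp.mpr (by linarith)
  linarith

/-- Mertens' second estimate for the prime ideals of degree one. -/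
theorem mertens_nI : ∃ C : ℝ, ∀ u : ℕ, 2 ≤ u →
    |∑ p ∈ primesIoc 0 u, (nI K p : ℝ) / p - log (log u)| ≤ C := by
  obtain ⟨c, C, hc, hC, h⟩ := HI_bounds K
  set d : ℝ := (Module.finrank ℚ K : ℝ) with hd
  have hd0 : 0 ≤ d := Nat.cast_nonneg _
  refine ⟨|log c| + |log (2 * C * (3 + 6 * d))| + 3 * d, fun u hu => ?_⟩
  have hu0 : (2 : ℝ) ≤ u := by exact_mod_cast hu
  have hl : log 2 ≤ log (u : ℝ) := log_le_log (by norm_num) hu0
  have hl2 := log_two_gt_d9
  have hl0 : 0 < log (u : ℝ) := by linarith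
  have h1 := (h u (by omega)).1.trans (HI_le_exp K u)
  rw [← log_le_iff_le_exp (by positivity), log_mul hc.ne' hl0.ne'] at h1
  have hl4 : log (4 : ℝ) = 2 * log 2 := by
    rw [show (4 : ℝ) = 2 ^ 2 by norm_num, log_pow]; norm_num
  set v := ⌊exp (2 * (d * (log u + log 4)))⌋₊ with hv
  have hv1 : 1 ≤ v := Nat.le_floor (by
    rw [Nat.cast_one]
    exact one_le_exp (by rw [hl4]; positivity))
  have hv2 : log (v : ℝ) ≤ 6 * d * log u := by
    have h2 : log (v : ℝ) ≤ 2 * (d * (log u + log 4)) := by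
      rw [log_le_iff_le_exp (by exact_mod_cast hv1)]
      exact Nat.floor_le (exp_pos _).le
    nlinarith
  have h2 : exp (∑ p ∈ primesIoc 0 u, (nI K p : ℝ) / p - d) ≤ 2 * C * (3 + 6 * d) * log u := by
    refine (exp_le_HI K (by omega)).trans ?_
    have h3 := (h v hv1).2
    have h4 : C * (2 + log v) ≤ C * ((3 + 6 * d) * log u) :=
      mul_le_mul_of_nonneg_left (by linarith) hC.le
    linarith
  rw [← le_log_iff_exp_le (by positivity), log_mul (by positivity) hl0.ne'] at h2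
  rw [abs_le]
  constructor
  · linarith [neg_abs_le (log c), abs_nonneg (log (2 * C * (3 + 6 * d)))]
  · linarith [le_abs_self (log (2 * C * (3 + 6 * d))), abs_nonneg (log c)]

end Pool.Agent.P.MP_3bc45c_nt
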