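import Pool.Agent.P.MP_3bc45c_nt.Smooth

/-!
The Erdos-Rankin choice of residue classes, in finite form.
-/

open Finset Real

namespace Pool.Agent.P.MP_3bc45c_nt

theorem greedy (A : Finset ℕ) (hA : ∀ p ∈ A, 0 < p) (U : Finset ℕ) :
    ∃ c : ℕ → ℕ, ((U.filter (fun n => ∀ p ∈ A, ¬ p ∣ c p + n)).card : ℝ)
      ≤ U.card * ∏ p ∈ A, (1 - 1 / (p : ℝ)) := by
  induction A using Finset.induction_on with
  | empty => exact ⟨fun _ => 0, by simp⟩
  | insert q A hq ih =>
    obtain ⟨c, hc⟩ := ih fun p hp => hA p (mem_insert_of_mem hp)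
    have hq0 : 0 < q := hA q (mem_insert_self _ _)
    have hq0' : (0 : ℝ) < q := by exact_mod_cast hq0
    set U' := U.filter (fun n => ∀ p ∈ A, ¬ p ∣ c p + n) with hU'
    have h1 : ∃ r ∈ range q, (U'.card : ℝ) / q ≤ ((U'.filter (fun n => q ∣ r + n)).card : ℝ) := by
      refine exists_le_of_sum_le ⟨0, mem_range.mpr hq0⟩ ?_
      rw [sum_const, card_range, nsmul_eq_mul, mul_div_cancel₀ _ hq0'.ne']
      have h2 := card_eq_sum_card_fiberwise (f := fun n => (q - n % q) % q) (s := U')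
        (t := range q) fun n _ => mem_coe.mpr (mem_range.mpr (Nat.mod_lt _ hq0))
      rw [h2]
      push_cast
      refine sum_le_sum fun r _ => ?_
      refine Nat.cast_le.mpr (card_le_card fun n hn => ?_)
      obtain ⟨h3, h4⟩ := mem_filter.mp hn
      refine mem_filter.mpr ⟨h3, ?_⟩
      rw [← h4, Nat.dvd_iff_mod_eq_zero, Nat.mod_add_mod]
      have h5 := Nat.mod_lt n hq0
      have h6 := Nat.div_add_mod n q
      have : q - n % q + n = q * (n / q + 1) := by rw [mul_add, mul_one]; omega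
      rw [this, Nat.mul_mod_right]
    obtain ⟨r, -, hr⟩ := h1
    refine ⟨Function.update c q r, ?_⟩
    have h2 : U.filter (fun n => ∀ p ∈ insert q A, ¬ p ∣ Function.update c q r p + n)
        = U'.filter (fun n => ¬ q ∣ r + n) := by
      ext n
      simp only [hU', mem_filter, forall_mem_insert, Function.update_self]
      have : (∀ p ∈ A, ¬ p ∣ Function.update c q r p + n) ↔ ∀ p ∈ A, ¬ p ∣ c p + n :=
        forall₂_congr fun p hp => by rw [Function.update_of_ne (ne_of_mem_of_not_mem hp hq)]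
      rw [this]
      tauto
    have h3 := card_filter_add_card_filter_not (s := U') (fun n => q ∣ r + n)
    have h4 : ((U'.filter (fun n => q ∣ r + n)).card : ℝ)
        + (U'.filter (fun n => ¬ q ∣ r + n)).card = U'.card := by exact_mod_cast h3
    have h5 : 0 ≤ 1 - 1 / (q : ℝ) := by
      rw [sub_nonneg, div_le_one hq0']; exact_mod_cast hq0
    rw [h2, prod_insert hq]
    calc ((U'.filter (fun n => ¬ q ∣ r + n)).card : ℝ) ≤ U'.card * (1 - 1 / (q : ℝ)) := by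
          rw [mul_sub, mul_one, mul_one_div]; linarith
      _ ≤ (U.card * ∏ p ∈ A, (1 - 1 / (p : ℝ))) * (1 - 1 / (q : ℝ)) :=
          mul_le_mul_of_nonneg_right hc h5
      _ = _ := by ring

theorem card_unsieved_le (y z x : ℕ) :
    (((Ioc 0 y).filter (fun n => ∀ p ∈ primesIoc z x, ¬ p ∣ n)).card : ℝ)
      ≤ (smoothUpTo y z).card + y * ∑ q ∈ primesIoc x y, 1 / (q : ℝ) := by
  have h1 : (Ioc 0 y).filter (fun n => ∀ p ∈ primesIoc z x, ¬ p ∣ n)
      ⊆ smoothUpTo y z ∪ (primesIoc x y).biUnion (fun q => (Ioc 0 y).filter (q ∣ ·)) := by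
    intro n hn
    obtain ⟨h2, h3⟩ := mem_filter.mp hn
    have h4 := mem_Ioc.mp h2
    by_cases h : ∀ p : ℕ, p.Prime → p ∣ n → p ≤ z
    · exact mem_union_left _ (mem_smoothUpTo.mpr ⟨h4.1, h4.2, h⟩)
    · push Not at h
      obtain ⟨p, hp, hd, hz⟩ := h
      have hx : x < p := by
        by_contra hx
        exact h3 p (mem_primesIoc.mpr ⟨hz, not_lt.mp hx, hp⟩) hd
      exact mem_union_right _ (mem_biUnion.mpr ⟨p, mem_primesIoc.mpr
        ⟨hx, (Nat.le_of_dvd h4.1 hd).trans h4.2, hp⟩, mem_filter.mpr ⟨h2, hd⟩⟩)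
  have h2 := (card_le_card h1).trans ((card_union_le _ _).trans
    (Nat.add_le_add_left card_biUnion_le _))
  refine (Nat.cast_le.mpr h2).trans ?_
  push_cast
  rw [mul_sum]
  refine add_le_add le_rfl (sum_le_sum fun q _ => ?_)
  rw [Nat.Ioc_filter_dvd_card_eq_div, mul_one_div]
  exact Nat.cast_div_le

theorem exists_rep (k A P : ℕ) (hP : 0 < P) : ∃ b, A ≤ b ∧ b < A + P ∧ b ≡ k [MOD P] := by
  refine ⟨A + (k + (P - 1) * A) % P, Nat.le_add_right _ _,
    Nat.add_lt_add_left (Nat.mod_lt _ hP) _, ?_⟩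
  have h1 : A + (k + (P - 1) * A) % P ≡ A + (k + (P - 1) * A) [MOD P] :=
    Nat.ModEq.add_left _ (Nat.mod_modEq _ _)
  have h2 : A + (k + (P - 1) * A) = k + P * A := by
    obtain ⟨Q, rfl⟩ := Nat.exists_eq_succ_of_ne_zero hP.ne'
    simp only [Nat.succ_eq_add_one, Nat.add_sub_cancel]
    ring
  rw [h2] at h1
  exact h1.trans (by simp [Nat.ModEq])

theorem erdos_rankin {z x : ℕ} (hzx : z ≤ x) (y A : ℕ) :
    ∃ b, A ≤ b ∧ b < A + ∏ p ∈ primesIoc 0 x, p ∧
      (((Ioc 0 y).filter (fun n => ∀ p ∈ primesIoc 0 x, ¬ p ∣ b + n)).card : ℝ)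
        ≤ ((smoothUpTo y z).card + y * ∑ q ∈ primesIoc x y, 1 / (q : ℝ)) * V z := by
  obtain ⟨c, hc⟩ := greedy (primesIoc 0 z) (fun p hp => (mem_primesIoc.mp hp).1)
    ((Ioc 0 y).filter (fun n => ∀ p ∈ primesIoc z x, ¬ p ∣ n))
  obtain ⟨k, hk⟩ := Nat.chineseRemainderOfFinset (fun p => if p ≤ z then c p else 0) id
    (primesIoc 0 x) (fun p hp => (mem_primesIoc.mp hp).1.ne')
    (fun p hp q hq hpq => (Nat.coprime_primes (mem_primesIoc.mp hp).2.2
      (mem_primesIoc.mp hq).2.2).mpr hpq)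
  obtain ⟨b, h1, h2, h3⟩ := exists_rep k A (∏ p ∈ primesIoc 0 x, p)
    (prod_pos fun p hp => (mem_primesIoc.mp hp).1)
  refine ⟨b, h1, h2, le_trans ?_ (hc.trans
    (mul_le_mul_of_nonneg_right (card_unsieved_le y z x) (V_pos z).le))⟩
  have h4 : ∀ p ∈ primesIoc 0 x, b ≡ (if p ≤ z then c p else 0) [MOD p] := fun p hp =>
    (h3.of_dvd (dvd_prod_of_mem (fun p => p) hp)).trans (hk p hp)
  refine Nat.cast_le.mpr (card_le_card fun n hn => ?_)
  obtain ⟨h5, h6⟩ := mem_filter.mp hn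
  refine mem_filter.mpr ⟨mem_filter.mpr ⟨h5, fun p hp hd => ?_⟩, fun p hp hd => ?_⟩
  · obtain ⟨h7, h8, h9⟩ := mem_primesIoc.mp hp
    have hp' : p ∈ primesIoc 0 x := mem_primesIoc.mpr ⟨h9.pos, h8, h9⟩
    have := h4 p hp'
    rw [if_neg (not_le.mpr h7)] at this
    exact h6 p hp' (dvd_add ((Nat.modEq_zero_iff_dvd).mp this) hd)
  · obtain ⟨h7, h8, h9⟩ := mem_primesIoc.mp hp
    have hp' : p ∈ primesIoc 0 x := mem_primesIoc.mpr ⟨h7, h8.trans hzx, h9⟩
    have := h4 p hp'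
    rw [if_pos h8] at this
    exact h6 p hp' (((this.add_right n).dvd_iff dvd_rfl).mpr hd)

theorem primorial_le_exp (x : ℕ) :
    ((∏ p ∈ primesIoc 0 x, p : ℕ) : ℝ) ≤ exp (log 4 * x) := by
  have h1 : ((∏ p ∈ primesIoc 0 x, p : ℕ) : ℝ) = exp (Chebyshev.theta x) := by
    rw [Chebyshev.theta_eq_sum_primesLE_log, ← primesIoc_zero, exp_sum]
    push_cast
    refine prod_congr rfl fun p hp => ?_
    rw [exp_log (by exact_mod_cast (mem_primesIoc.mp hp).1)]
  rw [h1]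
  exact exp_le_exp.mpr (Chebyshev.theta_le_log4_mul_x (Nat.cast_nonneg _))

end Pool.Agent.P.MP_3bc45c_nt
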