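import Pool.Agent.P.MP_3bc45c_nt.Abstract

/-!
The abstract covering proposition for a weighted sample with a general discrepancy bound.
-/

open Finset

set_option linter.unusedSectionVars false

namespace Pool.Agent.P.MP_3bc45c_nt

variable {S ι₁ ι₂ : Type} [Fintype S] [DecidableEq S] [Fintype ι₁] [DecidableEq ι₁]
  [Fintype ι₂] [DecidableEq ι₂]

/-- The weighted discrepancy functional. -/
def discw (p₁ : ι₁ → ℝ) (p₂ : ι₂ → ℝ) (N : ℕ) (w : ℕ → ℝ) (N' : ℝ)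
    (φ : ℕ → (ι₁ → Option S) × (ι₂ → Option S)) :
    ((ι₁ → Option S) × (ι₂ → Option S) → ℝ) →ₗ[ℝ] ℝ where
  toFun G := ∑ t ∈ range N, w t * G (φ t) - N' * Ex2 p₁ p₂ G
  map_add' G H := by
    simp only [Pi.add_apply, mul_add, sum_add_distrib, Ex2, Ex_add]
    ring
  map_smul' c G := by
    simp only [Pi.smul_apply, smul_eq_mul, mul_left_comm _ c, ← mul_sum, Ex2, Ex_const_mul,
      RingHom.id_apply]
    ring

theorem final_ineq_w {k N B Q τ b err E X : ℝ} (hk0 : 0 ≤ k) (hN0 : 0 ≤ N) (hQ1 : 1 ≤ Q)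
    (hτ0 : 0 ≤ τ) (hτ : (k + 1) * τ ≤ 1 / 10) (hβ : k * b ≤ 1 / 10) (herr : k * err ≤ 1 / 10)
    (hN : 10 * (k + 1) * B < N) (h2 : N * ((1 - τ) / 2 * Q) ≤ N * E)
    (h1 : -B ≤ X - N * E) (h0 : X ≤ k * (N * ((b + τ) * Q + err) + B)) : False := by
  have h3 : N * (((1 - τ) / 2 - k * (b + τ)) * Q - k * err) ≤ (k + 1) * B := by
    nlinarith
  have h4 : 1 / 5 ≤ (1 - τ) / 2 - k * (b + τ) := by nlinarith [mul_nonneg hk0 hτ0]
  have h5 : 1 / 10 ≤ ((1 - τ) / 2 - k * (b + τ)) * Q - k * err := by nlinarith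
  nlinarith [mul_le_mul_of_nonneg_left h5 hN0]

theorem abstract_cover_w {p₁ : ι₁ → ℝ} {p₂ : ι₂ → ℝ} {a : Finset ι₂ → ℝ} {h : ι₂ → ℝ}
    {h₀ ρ T γ θ α δ s A₀ M N' Δ : ℝ} {j N : ℕ} {w : ℕ → ℝ} (hw : ∀ t, 0 ≤ w t)
    (hp₁ : ∀ l, 0 ≤ p₁ l) (hk₁ : ∀ l, Fintype.card S * p₁ l ≤ 1) (hp₁1 : ∀ l, p₁ l ≤ 1)
    (hp₂ : ∀ l, 0 ≤ p₂ l) (hk₂ : ∀ l, Fintype.card S * p₂ l ≤ 1) (hp₂1 : ∀ l, p₂ l ≤ 1)
    (hh₀ : 0 < h₀) (hh : ∀ l, h₀ ≤ h l) (hT0 : 0 ≤ T) (hρ : 0 ≤ ρ) (hθ : 0 ≤ θ) (hα : 0 ≤ α)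
    (hM : 1 ≤ M) (hγ0 : 0 ≤ γ)
    (ha : a ∅ = 1) (han : ∀ D, D ≠ ∅ → a D ≤ 0) (hsum : ∑ D, a D * ∏ l ∈ D, p₂ l = 0)
    (hT : ∀ D, a D ≠ 0 → lv h D ≤ T)
    (hγ : ∀ l, ∑ D ∈ univ.filter (fun D : Finset ι₂ => l ∈ D), |a D| * ∏ l ∈ D, p₂ l ≤ γ)
    (hκ : ∀ l, Fintype.card S * p₂ l * (ρ / h₀) ≤ 1 / 2)
    (hδ : ∑ D, (a D ^ 2 * ∏ l ∈ D, p₂ l) * (Real.exp (θ * lv h D) - 1) ≤ δ)
    (hs : ∑ D ∈ univ.erase ∅, a D ^ 2 * ∏ l ∈ D, p₂ l ≤ s)
    (hA₀ : ∑ D, |a D| * 2 ^ D.card * Real.exp (-α * lv h D) ≤ A₀)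
    (hτ : (Fintype.card S + 1) * (Real.exp (-θ * (ρ - T)) *
      (1 + (∏ l, (1 - p₁ l)) * δ) ^ Fintype.card S) ≤ 1 / 10)
    (hβ : Fintype.card S * (γ * (ρ / h₀)) ^ 2 ≤ 1 / 10)
    (herr : Fintype.card S * ((1 / 4) ^ j *
      (1 + Real.exp (8 * ∑ l, p₁ l) * s) ^ Fintype.card S) ≤ 1 / 10)
    (hN : 10 * (Fintype.card S + 1) * (Real.exp (α * ρ) * A₀ ^ Fintype.card S *
      (M ^ j * Real.exp (Fintype.card ι₁ * Fintype.card S / M))) ^ 2 * Δ < N')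
    (φ : ℕ → (ι₁ → Option S) × (ι₂ → Option S))
    (hφ : ∀ τ₁ τ₂, |∑ t ∈ range N, w t * (atom τ₁ (φ t).1 * atom τ₂ (φ t).2)
      - N' * (pw p₁ τ₁ * pw p₂ τ₂)| ≤ Δ) :
    ∃ t < N, w t ≠ 0 ∧ ∀ i : S, (∃ l, (φ t).1 l = some i) ∨ ∃ l, (φ t).2 l = some i := by
  by_contra hcon
  push Not at hcon
  set k : ℝ := (Fintype.card S : ℝ) with hk
  set A := Real.exp (α * ρ) * A₀ ^ Fintype.card S *
      (M ^ j * Real.exp (Fintype.card ι₁ * k / M)) with hA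
  set τ := Real.exp (-θ * (ρ - T)) * (1 + (∏ l, (1 - p₁ l)) * δ) ^ Fintype.card S with hτdef
  set β := γ * (ρ / h₀) with hβdef
  set C := Real.exp (8 * ∑ l, p₁ l) with hC
  set err := (1 / 4 : ℝ) ^ j * (1 + C * s) ^ Fintype.card S with herrdef
  have hk0 : 0 ≤ k := Nat.cast_nonneg _
  have hh' : ∀ l, 0 ≤ h l := fun l => hh₀.le.trans (hh l)
  set f0 : Finset ι₂ → ℝ := fun D => a D ^ 2 * ∏ l ∈ D, p₂ l with hf0
  have hf0n : ∀ D, 0 ≤ f0 D := fun D => mul_nonneg (sq_nonneg _) (prod_nonneg fun l _ => hp₂ l)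
  have hf01 : f0 ∅ = 1 := by simp [hf0, ha]
  have hWn : ∀ σ : ι₂ → Option S, 0 ≤ W (fun _ => f0) σ := fun σ =>
    prod_nonneg fun i _ => hf0n _
  have hvn : ∀ I : Finset S, 0 ≤ vv p₁ I := vv_nonneg hp₁ hk₁
  set Q := ∑ σ : ι₂ → Option S, W (fun _ => f0) σ * vv p₁ (act σ) with hQ
  have hQ1 : 1 ≤ Q := by
    refine le_trans (le_of_eq ?_) (single_le_sum (f := fun σ : ι₂ → Option S =>
      W (fun _ => f0) σ * vv p₁ (act σ)) (fun σ _ => mul_nonneg (hWn σ) (hvn _))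
      (mem_univ (fun _ => none)))
    have h1 : ∀ i : S, blk (fun _ : ι₂ => (none : Option S)) i = ∅ := fun i => by
      ext l; simp
    simp [W, act, h1, hf01, vv]
  -- the tail
  have htail : ∑ σ : ι₂ → Option S, (if lev h σ ≤ ρ - T then 0 else
      W (fun _ => f0) σ * vv p₁ (act σ)) ≤ τ * Q := by
    have h1 := tilt_le (ι := ι₂) (v := vv p₁) (V := ∏ l, (1 - p₁ l)) (δ := δ)
      (prod_nonneg fun l _ => sub_nonneg.mpr (hp₁1 l)) hvn (vv_insert hp₁ hk₁)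
      (f := f0) (g := fun D => f0 D * Real.exp (θ * lv h D)) hf0n hf01 (by simp [hf01, lv])
      (fun D => le_mul_of_one_le_right (hf0n D)
        (Real.one_le_exp (mul_nonneg hθ (sum_nonneg fun l _ => hh' l))))
      (by simpa only [mul_sub, mul_one] using hδ)
    rw [hτdef, mul_assoc]
    refine le_trans ?_ (mul_le_mul_of_nonneg_left h1 (Real.exp_pos _).le)
    rw [mul_sum]
    refine sum_le_sum fun σ _ => ?_
    rw [W_mul (fun _ => f0) (fun _ D => Real.exp (θ * lv h D)), W_exp]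
    have h2 := mul_nonneg (hWn σ) (hvn (act σ))
    have h3 : Real.exp (-θ * (ρ - T)) * (W (fun _ => f0) σ * Real.exp (θ * lev h σ) *
        vv p₁ (act σ)) = W (fun _ => f0) σ * vv p₁ (act σ) *
          Real.exp (-θ * (ρ - T) + θ * lev h σ) := by
      rw [Real.exp_add]; ring
    rw [h3]
    split_ifs with hσ
    · exact mul_nonneg h2 (Real.exp_pos _).le
    · refine le_mul_of_one_le_right h2 (Real.one_le_exp ?_)
      nlinarith [not_le.mp hσ]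
  -- lower bound for the main term
  have hlow : (1 - τ) / 2 * Q ≤ Ex2 p₁ p₂
      (Fc (S := S) p₂ j (cf a h ρ) * Fc p₂ j (cf a h ρ)) := by
    refine le_trans ?_ (Ex2_lower hp₁ hk₁ hp₂ hk₂ j _)
    have h1 : ∀ σ : ι₂ → Option S, (1 / 2) * (W (fun _ => f0) σ * vv p₁ (act σ) -
        (if lev h σ ≤ ρ - T then 0 else W (fun _ => f0) σ * vv p₁ (act σ)))
        ≤ (∏ l, lamLow p₂ l (σ l)) * cf a h ρ σ ^ 2 * vv p₁ (act σ) := by
      intro σ
      have h2 := mul_nonneg (hWn σ) (hvn (act σ))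
      by_cases hσ : lev h σ ≤ ρ
      · have h3 := half_pw_le hp₂ hk₂ hh₀ hh hκ hσ
        have h4 := mul_le_mul_of_nonneg_right (mul_le_mul_of_nonneg_right h3
          (sq_nonneg (W (fun _ => a) σ))) (hvn (act σ))
        have h5 : pw p₂ σ * (1 / 2) * W (fun _ => a) σ ^ 2 * vv p₁ (act σ)
            = (1 / 2) * (W (fun _ => f0) σ * vv p₁ (act σ)) := by
          rw [hf0, ← pw_mul_sq]; ring
        rw [cf, if_pos hσ]
        split_ifs <;> linarith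
      · rw [cf, if_neg hσ, if_neg (by linarith [not_le.mp hσ])]
        simp
    have h2 := sum_le_sum fun σ (_ : σ ∈ univ) => h1 σ
    rw [← mul_sum, sum_sub_distrib, ← hQ] at h2
    linarith
  -- upper bound for the restrictions
  have hup : ∀ i : S, Ex2 p₁ p₂ (Fc (S := S) p₂ j (cfi p₂ a h ρ i) * Fc p₂ j (cfi p₂ a h ρ i))
      ≤ (β ^ 2 + τ) * Q + err := by
    intro i
    refine (Ex2_upper hp₁ hk₁ hp₂ hk₂ j _).trans ?_
    have h1 : ∀ σ : ι₂ → Option S, pw p₂ σ * cfi p₂ a h ρ i σ ^ 2 *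
        (vv p₁ (act σ) + (1 / 4) ^ j * C ^ (act σ).card)
        ≤ β ^ 2 * (W (fun _ => f0) σ * vv p₁ (act σ)) +
          (if lev h σ ≤ ρ - T then 0 else W (fun _ => f0) σ * vv p₁ (act σ)) +
          (1 / 4) ^ j * (W (fun _ => f0) σ * C ^ (act σ).card) := by
      intro σ
      have h2 := mul_nonneg (hWn σ) (hvn (act σ))
      have hC0 : 0 ≤ (1 / 4 : ℝ) ^ j * (W (fun _ => f0) σ * C ^ (act σ).card) :=
        mul_nonneg (by positivity) (mul_nonneg (hWn σ) (pow_nonneg (Real.exp_pos _).le _))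
      have hB0 := Bf_nonneg (ρ := ρ) hp₂ hh' han hsum σ
      have hB1 := Bf_le_one (h := h) (ρ := ρ) hp₂ ha han σ
      have hB2 : Bf p₂ a h ρ σ ^ 2 ≤ 1 := by nlinarith
      have hβ2 := mul_nonneg (sq_nonneg β) h2
      by_cases hσ : blk σ i = ∅
      · have h3 : pw p₂ σ * cfi p₂ a h ρ i σ ^ 2 *
            (vv p₁ (act σ) + (1 / 4) ^ j * C ^ (act σ).card)
            = Bf p₂ a h ρ σ ^ 2 * (W (fun _ => f0) σ * vv p₁ (act σ)) +
              Bf p₂ a h ρ σ ^ 2 * ((1 / 4) ^ j * (W (fun _ => f0) σ * C ^ (act σ).card)) := by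
          rw [cfi, if_pos hσ, hf0, ← pw_mul_sq]; ring
        rw [h3]
        have h4 := mul_le_mul_of_nonneg_right hB2 hC0
        split_ifs with hl
        · have h5 := Bf_le_small hp₂ hh₀ hh hT0 hsum hT hγ0 hγ hl
          have h6 : Bf p₂ a h ρ σ ^ 2 ≤ β ^ 2 := pow_le_pow_left₀ hB0 h5 2
          linarith [mul_le_mul_of_nonneg_right h6 h2]
        · linarith [mul_le_mul_of_nonneg_right hB2 h2]
      · rw [cfi, if_neg hσ]
        split_ifs <;> simp only [ne_eq, OfNat.ofNat_ne_zero, not_false_eq_true, zero_pow,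
          mul_zero, zero_mul] <;> linarith
    refine (sum_le_sum fun σ _ => h1 σ).trans ?_
    rw [sum_add_distrib, sum_add_distrib, ← mul_sum, ← mul_sum, ← hQ]
    have h2 : ∑ σ : ι₂ → Option S, W (fun _ => f0) σ * C ^ (act σ).card
        ≤ (1 + C * s) ^ Fintype.card S := by
      simp only [W_mul_pow_act hf01]
      have hCn : 0 ≤ C := (Real.exp_pos _).le
      have hn : ∀ D : Finset ι₂, 0 ≤ if D = ∅ then 1 else C * f0 D := fun D => by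
        split_ifs
        · exact zero_le_one
        · exact mul_nonneg hCn (hf0n D)
      refine (sum_W_le (f := fun (_ : S) D => if D = ∅ then 1 else C * f0 D)
        fun _ D => hn D).trans ?_
      rw [prod_const, card_univ]
      refine pow_le_pow_left₀ (sum_nonneg fun D _ => hn D) ?_ _
      rw [← add_sum_erase _ _ (mem_univ ∅), if_pos rfl,
        sum_congr rfl (g := fun D => C * f0 D) fun D hD => if_neg (ne_of_mem_erase hD), ← mul_sum]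
      exact add_le_add le_rfl (mul_le_mul_of_nonneg_left hs hCn)
    have h3 := mul_le_mul_of_nonneg_left h2 (by positivity : (0 : ℝ) ≤ (1 / 4) ^ j)
    linarith
  -- transfer
  have hΔ : 0 ≤ Δ := (abs_nonneg _).trans (hφ (fun _ => none) (fun _ => none))
  have hd : ∀ G ∈ atoms S ι₁ ι₂, |discw p₁ p₂ N w N' φ G| ≤ Δ := by
    rintro G (rfl | ⟨τ₁, τ₂, rfl⟩)
    · simpa using hΔ
    · have := hφ τ₁ τ₂
      simpa [discw, Ex2, Ex_const_mul, Ex_mul_const, Ex_atom] using this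
  have hAF := AN_Fc (ι₁ := ι₁) (S := S) hp₂ hp₂1 hα hM j hA₀ (c := cf a h ρ) fun σ => le_rfl
  have hAFi : ∀ i : S, AN (atoms S ι₁ ι₂) (Fc p₂ j (cfi p₂ a h ρ i)) A := fun i =>
    AN_Fc hp₂ hp₂1 hα hM j hA₀ fun σ => by
      rw [cfi, cf]
      have hB0 := Bf_nonneg (ρ := ρ) hp₂ hh' han hsum σ
      have hB1 := Bf_le_one (h := h) (ρ := ρ) hp₂ ha han σ
      split_ifs with h1 h2 h2
      · rw [abs_mul, abs_of_nonneg hB0]
        exact mul_le_of_le_one_right (abs_nonneg _) hB1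
      · rw [Bf_eq_zero hh' h2]; simp
      · simp
      · simp
  have hd1 := (hAF.mul hAF) _ Δ hd
  have hd2 := fun i : S => ((hAFi i).mul (hAFi i)) _ Δ hd
  rw [← hk, ← hA] at hd1
  simp only [discw, LinearMap.coe_mk, AddHom.coe_mk, abs_le, Pi.mul_apply] at hd1 hd2
  have hpt : ∑ t ∈ range N, w t * (Fc p₂ j (cf a h ρ) (φ t) * Fc p₂ j (cf a h ρ) (φ t))
      ≤ ∑ i : S, ∑ t ∈ range N,
        w t * (Fc p₂ j (cfi p₂ a h ρ i) (φ t) * Fc p₂ j (cfi p₂ a h ρ i) (φ t)) := by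
    rw [sum_comm]
    refine sum_le_sum fun t ht => ?_
    by_cases hwt : w t = 0
    · simp [hwt]
    obtain ⟨i, h1, h2⟩ := hcon t (mem_range.mp ht) hwt
    refine le_trans (le_of_eq ?_) (single_le_sum (f := fun i : S =>
      w t * (Fc p₂ j (cfi p₂ a h ρ i) (φ t) * Fc p₂ j (cfi p₂ a h ρ i) (φ t)))
      (fun i _ => mul_nonneg (hw t) (mul_self_nonneg _)) (mem_univ i))
    rw [Fc_restrict ha h ρ j i h1 h2]
  have hN0 : (0 : ℝ) ≤ N' := le_trans (by positivity) hN.le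
  have h1 : ∑ i : S, ∑ t ∈ range N,
        w t * (Fc p₂ j (cfi p₂ a h ρ i) (φ t) * Fc p₂ j (cfi p₂ a h ρ i) (φ t))
      ≤ ∑ _i : S, (N' * ((β ^ 2 + τ) * Q + err) + A * A * Δ) := by
    refine sum_le_sum fun i _ => ?_
    linarith [(hd2 i).2, mul_le_mul_of_nonneg_left (hup i) hN0]
  rw [sum_const, card_univ, nsmul_eq_mul, ← hk] at h1
  have h2 := mul_le_mul_of_nonneg_left hlow hN0
  have hτ0 : 0 ≤ τ := by
    have : 0 ≤ δ := le_trans (sum_nonneg fun D _ => mul_nonneg (hf0n D) (sub_nonneg.mpr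
      (Real.one_le_exp (mul_nonneg hθ (sum_nonneg fun l _ => hh' l))))) hδ
    have : 0 ≤ ∏ l, (1 - p₁ l) := prod_nonneg fun l _ => sub_nonneg.mpr (hp₁1 l)
    positivity
  exact final_ineq_w hk0 hN0 hQ1 hτ0 hτ hβ herr (by linarith) h2 hd1.1 (hpt.trans h1)

end Pool.Agent.P.MP_3bc45c_nt
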