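import Pool.Agent.P.MP_3bc45c_nt.Cover

/-!
The covering proposition in asymptotic form.
-/

open Finset Real Filter

namespace Pool.Agent.P.MP_3bc45c_nt

theorem ev_pow_log (K : ℝ) (n : ℕ) : ∀ᶠ x : ℝ in atTop, K * log x ^ n ≤ x := by
  have h := (isLittleO_pow_log_id_atTop (n := n)).const_mul_left K
  filter_upwards [h.bound one_pos, eventually_ge_atTop 0] with x hx hx0
  simp only [norm_eq_abs, id, one_mul, abs_of_nonneg hx0] at hx
  exact (le_abs_self _).trans hx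

theorem num_basic {η L Z : ℝ} (hη : 0 < η) (hη1 : η ≤ 1 / 20) (hZ : 20 ≤ Z)
    (hL3 : 2 / η ^ 2 ≤ L) (hL6 : 30 / η * L ^ 6 ≤ Z) :
    800 ≤ L ∧ 2 ≤ η ^ 2 * L ∧ 40 ≤ η * L ∧ 30 * L ^ 6 ≤ η * Z ∧ 2 * L ^ 4 ≤ Z / L ^ 2 ∧
      Z / L ^ 2 ≤ η * Z ∧ 4 * L ≤ 2 * L ^ 4 := by
  have hη2 : 400 ≤ 1 / η ^ 2 := by
    rw [le_div_iff₀ (by positivity)]; nlinarith
  have hL800 : 800 ≤ L := by
    have : 2 / η ^ 2 = 2 * (1 / η ^ 2) := by ring
    linarith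
  have hL0 : 0 < L := by linarith
  have hηL : 2 ≤ η ^ 2 * L := by rwa [div_le_iff₀' (by positivity)] at hL3
  have hηL' : 40 ≤ η * L := by nlinarith
  have hL6' : 30 * L ^ 6 ≤ η * Z := by
    rw [div_mul_eq_mul_div, div_le_iff₀' hη] at hL6; exact hL6
  refine ⟨hL800, hηL, hηL', hL6', ?_, ?_, ?_⟩
  · rw [le_div_iff₀ (by positivity)]
    nlinarith [pow_pos hL0 6]
  · rw [div_le_iff₀ (by positivity)]
    have h1 : 1 ≤ η * L ^ 2 := by nlinarith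
    nlinarith
  · have : L ^ 1 ≤ L ^ 4 := pow_le_pow_right₀ (by linarith) (by norm_num)
    have : L ^ 2 ≤ L ^ 4 := pow_le_pow_right₀ (by linarith) (by norm_num)
    nlinarith

theorem num_k {η L Z v ly : ℝ} (hη : 0 < η) (hZ : 0 < Z) (hL : 0 < L) (hv : 0 < v)
    (hly : L ≤ ly) (h : v * ly ≤ 1) : (1 / 2 - 10 * η) * Z * L * v ≤ Z / 2 := by
  have h1 : L * v ≤ 1 := by nlinarith
  have h2 : 0 ≤ L * v := by positivity
  have h3 : (1 / 2 - 10 * η) * (L * v) ≤ 1 / 2 := by nlinarith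
  calc _ = Z * ((1 / 2 - 10 * η) * (L * v)) := by ring
    _ ≤ Z * (1 / 2) := mul_le_mul_of_nonneg_left h3 hZ.le
    _ = _ := by ring

theorem num_Lm {η L c v lW : ℝ} (hη1 : η ≤ 1 / 20) (hL : 0 < L) (hc : 0 < c) (hv : 0 < v)
    (h1 : c ≤ v * lW) (h2 : lW ≤ 4 * L) :
    v⁻¹ ≤ 4 * L / c ∧ 1 / ((1 - η) * v * L) ≤ 8 / c := by
  have h3 : v⁻¹ ≤ 4 * L / c := by
    rw [le_div_iff₀ hc, inv_mul_eq_div, div_le_iff₀ hv]
    nlinarith
  have hη' : 0 < 1 - η := by linarith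
  refine ⟨h3, ?_⟩
  have h4 : 1 / ((1 - η) * v * L) = v⁻¹ / ((1 - η) * L) := by field_simp
  rw [h4, div_le_iff₀ (by positivity)]
  refine h3.trans ?_
  rw [div_mul_eq_mul_div]
  exact div_le_div_of_nonneg_right (by nlinarith) hc.le

theorem num_Lambda {η L Z c v W E A : ℝ} (hL : 800 ≤ L)
    (hZ : 20 ≤ Z) (hZL : log Z = L) (hc : 0 < c) (hv : 0 < v) (hv1 : v⁻¹ ≤ 4 * L / c)
    (hL1 : 8 / c ≤ L) (hL5 : 9 * log L ≤ η * L) (hW : Z ^ 3 ≤ W) (hE : exp (Z / L ^ 2) < E + 1)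
    (hA0 : 1 ≤ A) (hA : A + 1 ≤ exp (2 * L ^ 4)) :
    (1 + Z / L ^ 2) / (W * L ^ 4) + v⁻¹ * ((1 + L ^ 2) / L ^ 4 + 1 / (1 / ((1 - η) * v * L)))
      ≤ log (log (E + 1)) - log (log (A + 1)) := by
  have hL0 : 0 < L := by linarith
  have hZ0 : 0 < Z := by linarith
  have hlL : 1 ≤ log L := by
    rw [le_log_iff_exp_le hL0]
    linarith [exp_one_lt_d9]
  have h1 : L - 2 * log L ≤ log (log (E + 1)) := by
    have h2 : Z / L ^ 2 ≤ log (E + 1) := by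
      rw [le_log_iff_exp_le ((exp_pos _).trans hE)]
      exact hE.le
    have h3 := log_le_log (by positivity) h2
    rwa [log_div hZ0.ne' (by positivity), log_pow, hZL] at h3
  have h2 : log (log (A + 1)) ≤ 5 * log L := by
    have h3 : log (A + 1) ≤ L ^ 5 := by
      rw [log_le_iff_le_exp (by linarith)]
      refine hA.trans (exp_le_exp.mpr ?_)
      nlinarith [pow_pos hL0 4]
    have h4 := log_le_log (log_pos (by linarith)) h3
    rwa [log_pow] at h4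
  have h3 : (1 + Z / L ^ 2) / (W * L ^ 4) ≤ 1 := by
    have h4 : Z / L ^ 2 ≤ Z := div_le_self hZ0.le (one_le_pow₀ (by linarith))
    have h5 : 1 + Z ≤ W := by nlinarith [sq_nonneg Z]
    rw [div_le_one (mul_pos (by linarith) (by positivity))]
    exact le_trans (by linarith) (le_mul_of_one_le_right (by linarith)
      (one_le_pow₀ (show 1 ≤ L by linarith)))
  have h4 : v⁻¹ * ((1 + L ^ 2) / L ^ 4) ≤ 1 := by
    have h5 : (1 + L ^ 2) / L ^ 4 ≤ 2 / L ^ 2 := by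
      have : L ^ 2 ≤ L ^ 4 := pow_le_pow_right₀ (by linarith) (by norm_num)
      rw [div_le_div_iff₀ (by positivity) (by positivity)]
      nlinarith
    refine (mul_le_mul hv1 h5 (by positivity) (by positivity)).trans ?_
    have : 4 * L / c * (2 / L ^ 2) = 8 / c / L := by field_simp; norm_num
    rw [this, div_le_one hL0]
    exact hL1
  have h5 : v⁻¹ * (1 / (1 / ((1 - η) * v * L))) = (1 - η) * L := by
    rw [one_div_one_div]; field_simp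
  rw [mul_add, h5]
  linarith

theorem num_kappa {η Z k W lW : ℝ} (hη : 0 < η) (hη1 : η ≤ 1 / 20) (hZ : 20 ≤ Z)
    (hk : k ≤ Z / 2) (hW : Z ^ 3 ≤ W) (hlW : 1 ≤ lW) :
    k / W * ((1 / 2 - 3 * η) * Z / lW) ≤ 1 / 2 := by
  have hZ0 : 0 < Z := by linarith
  have h1 : k / W ≤ Z / Z ^ 3 := div_le_div₀ hZ0.le (by linarith) (by positivity) hW
  have h2 : (1 / 2 - 3 * η) * Z / lW ≤ Z :=
    (div_le_self (by nlinarith) hlW).trans (by nlinarith)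
  refine (mul_le_mul h1 h2 (div_nonneg (by nlinarith) (by linarith)) (by positivity)).trans ?_
  have : Z / Z ^ 3 * Z = 1 / Z := by field_simp
  rw [this]
  exact one_div_le_one_div_of_le (by norm_num) (by linarith)

theorem num_tau {η L Z v w : ℝ} (hη : 0 < η) (hη1 : η ≤ 1 / 20) (hZ : 20 ≤ Z) (hL : 0 < L)
    (hZL : exp L = Z) (hv : 0 < v) (hw : 0 < w) (hηL : 2 ≤ η ^ 2 * L) (hT : Z / L ^ 2 ≤ η * Z)
    (hk : (1 / 2 - 10 * η) * Z * L * v ≤ Z / 2) :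
    ((1 / 2 - 10 * η) * Z * L * v + 1) * exp (-(η / (Z / L ^ 2)) * ((1 / 2 - 3 * η) * Z - Z / L ^ 2
      - (1 / 2 - 10 * η) * Z * L * v * (w / v) * ((1 + η) * (1 / ((1 - η) * w * L)))))
      ≤ 1 / 10 := by
  have hZ0 : 0 < Z := by linarith
  have hη' : 0 < 1 - η := by linarith
  have h1 : (1 / 2 - 10 * η) * Z * L * v * (w / v) * ((1 + η) * (1 / ((1 - η) * w * L)))
      = (1 / 2 - 10 * η) * (1 + η) / (1 - η) * Z := by field_simp
  have h2 : (1 / 2 - 10 * η) * (1 + η) / (1 - η) ≤ 1 / 2 - 5 * η := by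
    rw [div_le_iff₀ hη']; nlinarith
  have h3 : η * Z ≤ (1 / 2 - 3 * η) * Z - Z / L ^ 2
      - (1 / 2 - 10 * η) * (1 + η) / (1 - η) * Z := by
    nlinarith [mul_le_mul_of_nonneg_right h2 hZ0.le]
  have h4 : 2 * L ≤ η / (Z / L ^ 2) * (η * Z) := by
    have : η / (Z / L ^ 2) * (η * Z) = η ^ 2 * L * L := by field_simp
    rw [this]
    nlinarith
  rw [h1]
  have h5 : exp (-(η / (Z / L ^ 2)) * ((1 / 2 - 3 * η) * Z - Z / L ^ 2
      - (1 / 2 - 10 * η) * (1 + η) / (1 - η) * Z)) ≤ 1 / Z ^ 2 := by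
    have h6 : 1 / Z ^ 2 = exp (-(2 * L)) := by
      rw [exp_neg, two_mul, exp_add, hZL, one_div, sq]
    rw [h6]
    refine exp_le_exp.mpr ?_
    have := mul_le_mul_of_nonneg_left h3 (by positivity : 0 ≤ η / (Z / L ^ 2))
    linarith
  refine (mul_le_mul (show _ ≤ Z by linarith) h5 (exp_pos _).le hZ0.le).trans ?_
  have : Z * (1 / Z ^ 2) = 1 / Z := by field_simp
  rw [this]
  exact one_div_le_one_div_of_le (by norm_num) (by linarith)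

theorem num_beta {η L Z c k W lW Lm : ℝ} (hη : 0 < η) (hη1 : η ≤ 1 / 20) (hZ : 20 ≤ Z)
    (hL : 1 ≤ L) (hZL : exp L = Z) (hc : 0 < c) (hZ1 : 10 * (8 / c * 3) ^ 2 ≤ Z)
    (hk : k ≤ Z / 2) (hW : Z ^ 3 ≤ W) (hlW : 1 ≤ lW) (hLm0 : 0 < Lm) (hLm : Lm ≤ 8 / c) :
    k * (Lm / L ^ 2 * (exp (L + 1) / W) * ((1 / 2 - 3 * η) * Z / lW)) ^ 2 ≤ 1 / 10 := by
  have hZ0 : 0 < Z := by linarith
  have hW0 : 0 < W := lt_of_lt_of_le (by positivity) hW
  have h1 : Lm / L ^ 2 ≤ 8 / c := (div_le_self hLm0.le (one_le_pow₀ hL)).trans hLm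
  have h2 : exp (L + 1) / W ≤ 3 * Z / Z ^ 3 := by
    refine div_le_div₀ (by positivity) ?_ (by positivity) hW
    rw [exp_add, hZL]
    nlinarith [exp_one_lt_d9]
  have h3 : (1 / 2 - 3 * η) * Z / lW ≤ Z :=
    (div_le_self (by nlinarith) hlW).trans (by nlinarith)
  have h30 : 0 ≤ (1 / 2 - 3 * η) * Z / lW := div_nonneg (by nlinarith) (by linarith)
  calc k * (Lm / L ^ 2 * (exp (L + 1) / W) * ((1 / 2 - 3 * η) * Z / lW)) ^ 2
      ≤ Z * (8 / c * (3 * Z / Z ^ 3) * Z) ^ 2 := by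
        gcongr
        linarith
    _ = (8 / c * 3) ^ 2 / Z := by field_simp
    _ ≤ 1 / 10 := by
        rw [div_le_iff₀ hZ0]; linarith

theorem num_err {η L Z c k Lm : ℝ} {j : ℕ} (hη : 0 < η) (hZ : 20 ≤ Z)
    (hL : 1 ≤ L) (hZL : exp L = Z) (hL4 : 10 * exp 32 * (8 / c) / η ≤ L)
    (hL6 : 30 * L ^ 6 ≤ η * Z) (hk : k ≤ Z / 2) (hLm0 : 0 < Lm) (hLm : Lm ≤ 8 / c)
    (hj : η * Z / (5 * L) - 1 ≤ j) :
    k * ((1 / 4) ^ j * exp (k * (exp (8 * 4) * (Lm / L ^ 2)))) ≤ 1 / 10 := by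
  have hZ0 : 0 < Z := by linarith
  have hL0 : 0 < L := by linarith
  have h1 : (1 / 4 : ℝ) ^ j ≤ exp (-(j : ℝ)) := by
    rw [← mul_neg_one, exp_nat_mul]
    refine pow_le_pow_left₀ (by norm_num) ?_ j
    rw [exp_neg, one_div]
    exact inv_anti₀ (exp_pos _) (by linarith [exp_one_lt_d9])
  have h2 : k * (exp (8 * 4) * (Lm / L ^ 2)) ≤ η * Z / (10 * L) := by
    have h3 : exp (8 * 4) * (Lm / L ^ 2) ≤ η / (10 * L) := by
      rw [div_le_iff₀' hη] at hL4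
      rw [← mul_div_assoc, div_le_div_iff₀ (by positivity) (by positivity)]
      have h4 : exp (8 * 4) * Lm ≤ exp 32 * (8 / c) := by
        rw [show (8 : ℝ) * 4 = 32 by norm_num]
        exact mul_le_mul_of_nonneg_left hLm (exp_pos _).le
      calc exp (8 * 4) * Lm * (10 * L) ≤ exp 32 * (8 / c) * (10 * L) :=
            mul_le_mul_of_nonneg_right h4 (by positivity)
        _ = 10 * exp 32 * (8 / c) * L := by ring
        _ ≤ η * L * L := mul_le_mul_of_nonneg_right hL4 hL0.le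
        _ = _ := by ring
    calc _ ≤ Z * (η / (10 * L)) := mul_le_mul (by linarith) h3 (by positivity) hZ0.le
      _ = _ := by ring
  have h3 : 2 * L + 1 ≤ η * Z / (10 * L) := by
    have : L ^ 2 ≤ L ^ 6 := pow_le_pow_right₀ hL (by norm_num)
    rw [le_div_iff₀ (by positivity)]
    nlinarith
  have h4 : (1 / 4 : ℝ) ^ j * exp (k * (exp (8 * 4) * (Lm / L ^ 2))) ≤ 1 / Z ^ 2 := by
    refine (mul_le_mul h1 (exp_le_exp.mpr h2) (exp_pos _).le (exp_pos _).le).trans ?_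
    have h6 : 1 / Z ^ 2 = exp (-(2 * L)) := by
      rw [exp_neg, two_mul, exp_add, hZL, one_div, sq]
    rw [← exp_add, h6]
    refine exp_le_exp.mpr ?_
    have : η * Z / (5 * L) = 2 * (η * Z / (10 * L)) := by field_simp; norm_num
    linarith
  refine (mul_le_mul (show k ≤ Z by linarith) h4 (by positivity) hZ0.le).trans ?_
  have : Z * (1 / Z ^ 2) = 1 / Z := by field_simp
  rw [this]
  exact one_div_le_one_div_of_le (by norm_num) (by linarith)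

theorem num_N {η L Z k W : ℝ} {j : ℕ} (hη : 0 < η) (hZ : 20 ≤ Z)
    (hL : 800 ≤ L) (hZL : exp L = Z) (hηL : 40 ≤ η * L) (hL6 : 30 * L ^ 6 ≤ η * Z)
    (hk : k ≤ Z / 2) (hW0 : 0 < W) (hW : W ≤ Z ^ 4) (hj : (j : ℝ) ≤ η * Z / (5 * L)) :
    10 * (k + 1) * (exp ((1 + 2 * η) * ((1 / 2 - 3 * η) * Z)) * exp (k * exp (-(η * L ^ 2))) *
      ((W * Z) ^ j * exp (W * k / (W * Z)))) ^ 2 < exp Z := by
  have hZ0 : 0 < Z := by linarith
  have hL0 : 0 < L := by linarith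
  have h1 : exp (k * exp (-(η * L ^ 2))) ≤ exp 1 := by
    refine exp_le_exp.mpr ?_
    have h2 : exp (-(η * L ^ 2)) ≤ 1 / Z := by
      rw [← hZL, one_div, ← exp_neg]
      exact exp_le_exp.mpr (by nlinarith)
    refine (mul_le_mul (show k ≤ Z by linarith) h2 (exp_pos _).le hZ0.le).trans ?_
    rw [mul_one_div_cancel hZ0.ne']
  have h2 : (W * Z) ^ j ≤ exp (η * Z) := by
    have h3 : W * Z ≤ exp (5 * L) := by
      rw [show (5 : ℝ) = (5 : ℕ) by norm_num, exp_nat_mul, hZL]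
      nlinarith
    refine (pow_le_pow_left₀ (by positivity) h3 j).trans ?_
    rw [← exp_nat_mul]
    refine exp_le_exp.mpr ?_
    rwa [le_div_iff₀ (by positivity)] at hj
  have h3 : exp (W * k / (W * Z)) ≤ exp 1 := by
    refine exp_le_exp.mpr ?_
    rw [div_le_one (by positivity)]
    exact mul_le_mul_of_nonneg_left (by linarith) hW0.le
  have h4 : 10 * (k + 1) ≤ exp (2 * L) := by
    rw [two_mul, exp_add, hZL]
    nlinarith
  calc _ ≤ exp (2 * L) * (exp ((1 + 2 * η) * ((1 / 2 - 3 * η) * Z)) *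
        exp 1 * (exp (η * Z) * exp 1)) ^ 2 := by gcongr
    _ < exp Z := by
        rw [← exp_add, ← exp_add, ← exp_add, ← exp_nat_mul, ← exp_add]
        refine exp_lt_exp.mpr ?_
        push_cast
        have : L ^ 1 ≤ L ^ 6 := pow_le_pow_right₀ (by linarith) (by norm_num)
        nlinarith [mul_pos (mul_pos hη hη) hZ0]

theorem cover_at {C c η Z : ℝ} (hC : ∀ n : ℕ, 1 ≤ n → |A1 n - log n| ≤ C)
    (hc0 : 0 < c) (hc : ∀ y : ℕ, 2 ≤ y → c ≤ V y * log y) (hη : 0 < η) (hη1 : η ≤ 1 / 20)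
    (hZ : 20 ≤ Z) (hZ1 : 10 * (8 / c * 3) ^ 2 ≤ Z) (hL1 : 8 / c ≤ log Z) (hL2 : 2 * C ≤ log Z)
    (hL3 : 2 / η ^ 2 ≤ log Z) (hL4 : 10 * exp 32 * (8 / c) / η ≤ log Z)
    (hL5 : 9 / η * log (log Z) ≤ log Z) (hL6 : 30 / η * log Z ^ 6 ≤ Z)
    {y : ℕ} (hy1 : Z ≤ y) (hy2 : y ≤ Z ^ 2) {𝒮 : Finset ℕ} (h𝒮 : 𝒮 ⊆ Ioc 0 y)
    (hcard : (𝒮.card : ℝ) ≤ (1 / 2 - 10 * η) * Z * log Z * V y) {P : ℕ}
    (hP : ∀ p : ℕ, p.Prime → p ∣ P → p ≤ y) (b : ℕ) {N : ℕ} (hN : exp Z ≤ N) :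
    ∃ t < N, ∀ n ∈ 𝒮, ∃ p : ℕ, p.Prime ∧ (p : ℝ) ≤ exp (Z / log Z ^ 2) ∧ p ∣ b + P * t + n := by
  obtain ⟨L, hLdef⟩ : ∃ L, log Z = L := ⟨_, rfl⟩
  rw [hLdef] at hL1 hL2 hL3 hL4 hL5 hL6 hcard ⊢
  have hZ0 : 0 < Z := by linarith
  have hZL : exp L = Z := by rw [← hLdef, exp_log hZ0]
  obtain ⟨hL800, hηL, hηL', hL6', hT1, hT2, hL4'⟩ := num_basic hη hη1 hZ hL3 hL6
  have hL0 : 0 < L := by linarith
  have hL5' : 9 * log L ≤ η * L := by
    rw [div_mul_eq_mul_div, div_le_iff₀' hη] at hL5; exact hL5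
  have hηZ : η * Z ≤ Z := mul_le_of_le_one_left hZ0.le (by linarith)
  have hy2' : 2 ≤ y := by exact_mod_cast (by linarith : (2 : ℝ) ≤ y)
  have hly : L ≤ log y := hLdef ▸ log_le_log hZ0 hy1
  have hVy := V_pos y
  have hkZ := num_k hη hZ0 hL0 hVy hly (V_mul_log_le y)
  have hZ3 : 8000 ≤ Z ^ 3 := by
    have := pow_le_pow_left₀ (by norm_num) hZ 3
    linarith
  obtain ⟨W, hW1, hW2⟩ : ∃ W : ℕ, Z ^ 3 ≤ W ∧ (W : ℝ) ≤ Z ^ 4 := by
    refine ⟨⌈Z ^ 3⌉₊, Nat.le_ceil _, ?_⟩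
    have h1 := (Nat.ceil_lt_add_one (by positivity : 0 ≤ Z ^ 3)).le
    have h2 : Z ^ 3 * 20 ≤ Z ^ 3 * Z := mul_le_mul_of_nonneg_left hZ (by positivity)
    have h3 : Z ^ 4 = Z ^ 3 * Z := by ring
    linarith
  have hW0 : (0 : ℝ) < W := by linarith
  have hlW1 : 3 * L ≤ log W := by
    have := log_le_log (by positivity) hW1
    rwa [log_pow, hLdef] at this
  have hlW2 : log W ≤ 4 * L := by
    have := log_le_log hW0 hW2
    rwa [log_pow, hLdef] at this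
  have hW2' : 2 ≤ W := by exact_mod_cast (by linarith : (2 : ℝ) ≤ W)
  have hyW : y ≤ W := by
    have : (y : ℝ) ≤ W := hy2.trans ((pow_le_pow_right₀ (by linarith) (by norm_num)).trans hW1)
    exact_mod_cast this
  have hT0 : 0 < Z / L ^ 2 := by positivity
  have hE1 : (⌊exp (Z / L ^ 2)⌋₊ : ℝ) ≤ exp (Z / L ^ 2) := Nat.floor_le (exp_pos _).le
  have hWE : W ≤ ⌊exp (Z / L ^ 2)⌋₊ := by
    refine Nat.le_floor ?_
    rw [← log_le_iff_le_exp hW0]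
    linarith
  have hWE' : (W : ℝ) ≤ ⌊exp (Z / L ^ 2)⌋₊ := by exact_mod_cast hWE
  have hlE : log ⌊exp (Z / L ^ 2)⌋₊ ≤ Z / L ^ 2 := by rwa [log_le_iff_le_exp (by linarith)]
  obtain ⟨A, hA1, hA2⟩ : ∃ A : ℕ, exp (L ^ 4) ≤ A ∧ (A : ℝ) + 1 ≤ exp (2 * L ^ 4) := by
    refine ⟨⌈exp (L ^ 4)⌉₊, Nat.le_ceil _, ?_⟩
    have h1 := (Nat.ceil_lt_add_one (exp_pos (L ^ 4)).le).le
    have h2 := add_one_le_exp (L ^ 4)
    have h3 : exp (L ^ 4) * 2 ≤ exp (L ^ 4) * exp (L ^ 4) :=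
      mul_le_mul_of_nonneg_left (by linarith) (exp_pos _).le
    rw [two_mul, exp_add]
    linarith
  have hA0' : (1 : ℝ) ≤ A := (one_le_exp (by positivity : 0 ≤ L ^ 4)).trans hA1
  have hA0 : 1 ≤ A := by exact_mod_cast hA0'
  have hAE : A ≤ ⌊exp (Z / L ^ 2)⌋₊ := Nat.le_floor (by linarith [exp_le_exp.mpr hT1])
  have hVW := V_pos W
  obtain ⟨hVW', hLm1⟩ := num_Lm hη1 hL0 hc0 hVW (hc W hW2') hlW2
  have hη' : 0 < 1 - η := by linarith
  have hLm0 : 0 < 1 / ((1 - η) * V W * L) := by positivity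
  have hj1 : (⌊η * Z / (5 * L)⌋₊ : ℝ) ≤ η * Z / (5 * L) := Nat.floor_le (by positivity)
  have hj2 : η * Z / (5 * L) - 1 ≤ ⌊η * Z / (5 * L)⌋₊ := by
    linarith [Nat.lt_floor_add_one (η * Z / (5 * L))]
  have hM1 : (1 : ℝ) ≤ W * Z := one_le_mul_of_one_le_of_one_le (by linarith) (by linarith)
  obtain ⟨t, ht, hcov⟩ := cover_finite (y := y) (W := W) (E := ⌊exp (Z / L ^ 2)⌋₊) (A := A)
    (P := P) (b := b) (N := N) (j := ⌊η * Z / (5 * L)⌋₊) (t₁ := L ^ 2) (t₂ := L ^ 4)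
    (T := Z / L ^ 2) (L := 1 / ((1 - η) * V W * L)) (θ := η / (Z / L ^ 2)) (ε := η)
    (κ := η) (ρ := (1 / 2 - 3 * η) * Z) (M := W * Z) (σ₁ := 4) (σ₂ := L + 1)
    h𝒮 hcard hyW hW2' hWE hP hA0 hAE (by positivity) (by positivity) (by linarith) hlE hLm0
    (num_Lambda hL800 hZ hLdef hc0 hVW hVW' hL1 hL5' hW1 (Nat.lt_floor_add_one _) hA0' hA2)
    (by positivity) (by rw [div_mul_cancel₀ _ hT0.ne']) (by linarith) hη.le
    (by linarith [log_two_lt_d9, mul_le_mul_of_nonneg_left hlW1 hη.le])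
    (mul_nonneg (by linarith) hZ0.le) hM1
    (by
      refine (sum_inv_le_short hC hy2' hyW).trans ?_
      rw [div_le_iff₀ (by linarith)]
      linarith)
    (by
      refine (sum_inv_le hC hW2' hWE).trans ?_
      have h1 : log (log ⌊exp (Z / L ^ 2)⌋₊) ≤ L :=
        (log_le_log (log_pos (by linarith)) (by linarith)).trans hLdef.le
      have h2 : 0 ≤ log (log W) := log_nonneg (by linarith)
      have h3 : 2 * C / log W ≤ 1 := by
        rw [div_le_one (by linarith)]; linarith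
      linarith)
    (num_kappa hη hη1 hZ hkZ hW1 (by linarith))
    (num_tau hη hη1 hZ hL0 hZL hVy hVW hηL hT2 hkZ)
    (num_beta hη hη1 hZ (by linarith) hZL hc0 hZ1 hkZ hW1 (by linarith) hLm0 hLm1)
    (num_err hη hZ (by linarith) hZL hL4 hL6' hkZ hLm0 hLm1 hj2)
    ((num_N hη hZ hL800 hZL hηL' hL6' hkZ hW0 hW2 hj1).trans_le hN)
  refine ⟨t, ht, fun n hn => ?_⟩
  obtain ⟨p, h1, h2, h3⟩ := hcov n hn
  exact ⟨p, h1, le_trans (by exact_mod_cast h2) hE1, h3⟩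

theorem cover_asymp {η : ℝ} (hη : 0 < η) (hη1 : η ≤ 1 / 20) : ∀ᶠ Z : ℝ in atTop,
    ∀ y : ℕ, Z ≤ y → y ≤ Z ^ 2 → ∀ 𝒮 ⊆ Ioc 0 y,
      (𝒮.card : ℝ) ≤ (1 / 2 - 10 * η) * Z * log Z * V y →
      ∀ P : ℕ, (∀ p : ℕ, p.Prime → p ∣ P → p ≤ y) → ∀ b N : ℕ, exp Z ≤ N →
      ∃ t < N, ∀ n ∈ 𝒮, ∃ p : ℕ, p.Prime ∧ (p : ℝ) ≤ exp (Z / log Z ^ 2) ∧ p ∣ b + P * t + n := by
  obtain ⟨C, -, hC⟩ := mertens_one
  obtain ⟨c, hc0, hc⟩ := V_lower
  filter_upwards [eventually_ge_atTop 20, eventually_ge_atTop (10 * (8 / c * 3) ^ 2),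
    tendsto_log_atTop.eventually_ge_atTop (8 / c), tendsto_log_atTop.eventually_ge_atTop (2 * C),
    tendsto_log_atTop.eventually_ge_atTop (2 / η ^ 2),
    tendsto_log_atTop.eventually_ge_atTop (10 * exp 32 * (8 / c) / η),
    tendsto_log_atTop.eventually (ev_pow_log (9 / η) 1), ev_pow_log (30 / η) 6]
    with Z h1 h2 h3 h4 h5 h6 h7 h8 y hy1 hy2 𝒮 h𝒮 hcard P hP b N hN
  exact cover_at hC hc0 hc hη hη1 h1 h2 h3 h4 h5 h6 (by simpa using h7) h8 hy1 hy2 h𝒮 hcard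
    hP b hN

end Pool.Agent.P.MP_3bc45c_nt
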