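import Pool.Agent.P.MP_3bc45c_nt.Rankin
import Pool.Agent.P.MP_3bc45c_nt.CoverAsymp

/-!
The Erdos-Rankin count in asymptotic form.
-/

open Finset Real Filter

namespace Pool.Agent.P.MP_3bc45c_nt

theorem num_smooth {η L L₂ L₃ C y lz ly₀ y₀ Ψ : ℝ} (hη : 0 < η) (hη1 : η ≤ 1 / 20)
    (hL : exp L₂ = L) (hL₂0 : 0 < L₂) (hL₂ : exp L₃ = L₂) (hL₃ : 1 ≤ L₃) (hC : 0 < C)
    (h20 : 20 / η ≤ exp (η * L₃)) (hCL : (1 + 2 * C) / η ≤ L₂) (hy : exp L ≤ y)
    (hlz0 : 0 < lz) (hlz : lz ≤ (1 + η) * (L / ((1 + 3 * η) * L₂ / L₃))) (hlzL : lz ≤ L)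
    (hly₀ : L / 2 ≤ ly₀) (hy₀ : y₀ ≤ y / L)
    (hΨ : Ψ ≤ y₀ + C * (y ^ (1 - (1 - η) * L₃ / lz) * exp ((1 - η) * L₃) *
      (lz * exp (9 * exp ((1 - η) * L₃)))) / ly₀) : Ψ ≤ η * (y * (L₂ / L)) := by
  have hL0 : 0 < L := hL ▸ exp_pos _
  have hy0 : 0 < y := (exp_pos _).trans_le hy
  have hly : L ≤ log y := by rwa [le_log_iff_exp_le hy0]
  have hτ : 0 ≤ (1 - η) * L₃ := mul_nonneg (by linarith) (by linarith)
  have h1 : (1 + η / 2) * L₂ ≤ log y * ((1 - η) * L₃ / lz) := by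
    refine le_trans ?_ (mul_le_mul_of_nonneg_right hly (by positivity))
    rw [← mul_div_assoc, le_div_iff₀ hlz0]
    refine (mul_le_mul_of_nonneg_left hlz (by positivity)).trans ?_
    have : (1 + η / 2) * L₂ * ((1 + η) * (L / ((1 + 3 * η) * L₂ / L₃)))
        = (1 + η / 2) * (1 + η) / (1 + 3 * η) * (L * L₃) := by field_simp
    rw [this]
    have h2 : (1 + η / 2) * (1 + η) / (1 + 3 * η) ≤ 1 - η := by
      rw [div_le_iff₀ (by positivity)]; nlinarith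
    calc _ ≤ (1 - η) * (L * L₃) := mul_le_mul_of_nonneg_right h2 (by positivity)
      _ = _ := by ring
  have h2 : 10 * exp ((1 - η) * L₃) ≤ η / 2 * L₂ := by
    have h3 : L₂ = exp (η * L₃) * exp ((1 - η) * L₃) := by
      rw [← exp_add, ← hL₂]; congr 1; ring
    rw [div_le_iff₀' hη] at h20
    rw [h3]
    nlinarith [exp_pos ((1 - η) * L₃)]
  have h3 : y ^ (1 - (1 - η) * L₃ / lz) * exp ((1 - η) * L₃) * exp (9 * exp ((1 - η) * L₃))
      ≤ y / L := by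
    rw [rpow_sub hy0, rpow_one, rpow_def_of_pos hy0, div_eq_mul_inv, ← exp_neg, mul_assoc,
      mul_assoc, ← exp_add, ← exp_add, div_eq_mul_inv y L, ← hL, ← exp_neg]
    refine mul_le_mul_of_nonneg_left (exp_le_exp.mpr ?_) hy0.le
    linarith [add_one_le_exp ((1 - η) * L₃)]
  have h4 : C * (y ^ (1 - (1 - η) * L₃ / lz) * exp ((1 - η) * L₃) *
      (lz * exp (9 * exp ((1 - η) * L₃)))) / ly₀ ≤ 2 * C * (y / L) := by
    have h5 : lz / ly₀ ≤ 2 := by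
      rw [div_le_iff₀ (by linarith)]; linarith
    calc _ = C * ((y ^ (1 - (1 - η) * L₃ / lz) * exp ((1 - η) * L₃) *
          exp (9 * exp ((1 - η) * L₃))) * (lz / ly₀)) := by ring
      _ ≤ C * (y / L * 2) := by
          have : 0 < ly₀ := by linarith
          gcongr
      _ = _ := by ring
  rw [div_le_iff₀' hη] at hCL
  calc Ψ ≤ (1 + 2 * C) * (y / L) := by linarith
    _ ≤ η * L₂ * (y / L) := mul_le_mul_of_nonneg_right hCL (by positivity)
    _ = _ := by ring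

theorem num_prime {η L L₂ K C ly lx s : ℝ} (hη : 0 < η) (hη1 : η ≤ 1 / 20) (hL₂0 : 0 < L₂)
    (hL : 0 < L) (hK : K ≤ η * L) (hKC : K + 2 * C ≤ η * L₂) (hly : ly ≤ L + 2 * L₂)
    (hlx : L - K ≤ lx) (hs : s ≤ (ly - lx + 2 * C) / lx) : s ≤ (2 + 4 * η) * (L₂ / L) := by
  have h1 : (1 - η) * L ≤ lx := by linarith
  have h2 : 0 < (1 - η) * L := mul_pos (by linarith) hL
  refine hs.trans ((div_le_div₀ (by positivity) (show _ ≤ (2 + η) * L₂ by linarith) h2 h1).trans ?_)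
  rw [← mul_div_assoc, div_le_div_iff₀ h2 hL]
  nlinarith [mul_pos hL₂0 hL, mul_nonneg (mul_pos hL₂0 hL).le (mul_nonneg hη.le
    (show 0 ≤ 1 - 4 * η by linarith))]

theorem num_ratio {η L u C ly lz z : ℝ} (hη : 0 < η) (hη1 : η ≤ 1 / 20) (hL : 0 < L) (hu : 0 < u)
    (hC : 0 ≤ C) (hly : ly ≤ (1 + η) * L) (hlz : L / u ≤ lz) (hz : lz ≤ z)
    (hCu : (2 * C + 1) * 2 * u ≤ η * L) :
    ly / lz * exp (2 * C / lz + 1 / z) ≤ (1 + η) * u * (1 + η) := by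
  have h0 : 0 < L / u := by positivity
  have hlz0 : 0 < lz := h0.trans_le hlz
  have h1 : ly / lz ≤ (1 + η) * u := by
    refine (div_le_div₀ (by positivity) hly h0 hlz).trans (le_of_eq ?_)
    field_simp
  have h2 : 2 * C / lz + 1 / z ≤ η / 2 := by
    have h3 : 1 / z ≤ 1 / lz := one_div_le_one_div_of_le hlz0 hz
    have h4 : (2 * C + 1) / lz ≤ (2 * C + 1) / (L / u) :=
      div_le_div_of_nonneg_left (by positivity) h0 hlz
    have h5 : (2 * C + 1) / (L / u) ≤ η / 2 := by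
      rw [div_div_eq_mul_div, div_le_div_iff₀ hL (by norm_num)]
      linarith
    rw [add_div] at h4
    linarith
  have h3 : exp (η / 2) ≤ 1 + η := by
    have := (abs_le.mp (abs_exp_sub_one_sub_id_le (x := η / 2)
      (by rw [abs_of_nonneg (by positivity)]; linarith))).2
    nlinarith
  exact mul_le_mul h1 ((exp_le_exp.mpr h2).trans h3) (exp_pos _).le (by positivity)

theorem rankin_asymp {η : ℝ} (hη : 0 < η) (hη1 : η ≤ 1 / 20) : ∀ᶠ Z : ℝ in atTop,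
    ∀ y : ℕ, Z ≤ y → y ≤ Z * log Z ^ 2 → ∀ A : ℕ, ∃ b, A ≤ b ∧
      b < A + ∏ p ∈ primesIoc 0 ⌊η * Z / 4⌋₊, p ∧
      (((Ioc 0 y).filter (fun n => ∀ p ∈ primesIoc 0 ⌊η * Z / 4⌋₊, ¬ p ∣ b + n)).card : ℝ)
        ≤ (2 + 5 * η) * (1 + η) ^ 2 * (1 + 3 * η) *
          (y * (log (log Z) ^ 2 / (log Z * log (log (log Z))))) * V y := by
  obtain ⟨C, hC0, hC⟩ := mertens_one
  obtain ⟨C', hC'0, hC'⟩ := card_smooth_le
  have t1 : Tendsto (fun Z : ℝ => log Z) atTop atTop := tendsto_log_atTop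
  have t2 : Tendsto (fun Z : ℝ => log (log Z)) atTop atTop := t1.comp t1
  have t3 : Tendsto (fun Z : ℝ => log (log (log Z))) atTop atTop := t1.comp t2
  filter_upwards [eventually_ge_atTop (8 / η), ev_pow_log 16 2,
    t1.eventually_ge_atTop 4, t1.eventually_ge_atTop (log (8 / η) / η),
    t1.eventually (ev_pow_log ((2 * C + 1) * 4 / η) 1), t1.eventually (ev_pow_log (8 / η) 1),
    t2.eventually_ge_atTop ((log (8 / η) + 2 * C) / η), t2.eventually_ge_atTop ((1 + 2 * C') / η),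
    t2.eventually (ev_pow_log 4 1), t3.eventually_ge_atTop 1,
    t3.eventually_ge_atTop (log (20 / η) / η)]
    with Z hZ hZ2 hL4 hLK hLC hL8 hL₂K hL₂C hL₂4 hL₃1 hL₃ y hy1 hy2 A
  simp only [pow_one] at hLC hL8 hL₂4
  obtain ⟨L, hLdef⟩ : ∃ L, log Z = L := ⟨_, rfl⟩
  simp only [hLdef] at hZ2 hL4 hLK hLC hL8 hL₂K hL₂C hL₂4 hL₃1 hL₃ hy2 ⊢
  obtain ⟨L₂, hL₂def⟩ : ∃ L₂, log L = L₂ := ⟨_, rfl⟩
  simp only [hL₂def] at hLC hL8 hL₂K hL₂C hL₂4 hL₃1 hL₃ ⊢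
  obtain ⟨L₃, hL₃def⟩ : ∃ L₃, log L₂ = L₃ := ⟨_, rfl⟩
  simp only [hL₃def] at hL₂4 hL₃1 hL₃ ⊢
  have h8 : 160 ≤ 8 / η := by rw [le_div_iff₀ hη]; linarith
  have hZ0 : 0 < Z := by linarith
  have hL0 : 0 < L := by linarith
  have hL₂0 : 0 < L₂ := by linarith
  have hZL : exp L = Z := by rw [← hLdef, exp_log hZ0]
  have hLL : exp L₂ = L := by rw [← hL₂def, exp_log hL0]
  have hLL₂ : exp L₃ = L₂ := by rw [← hL₃def, exp_log hL₂0]
  have hL8' : 8 * L₂ ≤ η * L := by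
    rw [div_mul_eq_mul_div, div_le_iff₀' hη] at hL8; exact hL8
  have hηL : η * L ≤ L / 20 := by linarith [mul_le_mul_of_nonneg_right hη1 hL0.le]
  obtain ⟨u, hu⟩ : ∃ u, (1 + 3 * η) * L₂ / L₃ = u := ⟨_, rfl⟩
  have hu4 : 4 ≤ u := by
    rw [← hu, le_div_iff₀ (by linarith)]
    linarith [mul_pos hη hL₂0]
  have hu2 : u ≤ 2 * L₂ := by
    rw [← hu]
    refine (div_le_self (by positivity) hL₃1).trans ?_
    exact mul_le_mul_of_nonneg_right (by linarith) hL₂0.le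
  have hu0 : 0 < u := by linarith
  have hLu : 1 ≤ η * (L / u) := by
    rw [← mul_div_assoc, le_div_iff₀ hu0]; linarith
  have hLu' : 20 ≤ L / u := by
    have : η * (L / u) ≤ 1 / 20 * (L / u) := mul_le_mul_of_nonneg_right hη1 (by positivity)
    linarith
  have hLu4 : L / u ≤ L / 4 := div_le_div_of_nonneg_left hL0.le (by norm_num) hu4
  obtain ⟨z, hz1, hz2⟩ : ∃ z : ℕ, exp (L / u) ≤ z ∧ (z : ℝ) ≤ exp (L / u + 1) := by
    refine ⟨⌈exp (L / u)⌉₊, Nat.le_ceil _, ?_⟩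
    have h1 := (Nat.ceil_lt_add_one (exp_pos (L / u)).le).le
    have h2 : exp (L / u) * 2 ≤ exp (L / u) * exp 1 :=
      mul_le_mul_of_nonneg_left (by linarith [add_one_le_exp (1 : ℝ)]) (exp_pos _).le
    have h3 := one_le_exp (show 0 ≤ L / u by linarith)
    rw [exp_add]
    linarith
  have hz0 : (2 : ℝ) ≤ z := by linarith [add_one_le_exp (L / u)]
  have hz2' : 2 ≤ z := by exact_mod_cast hz0
  have hlz1 : L / u ≤ log z := by rwa [le_log_iff_exp_le (by linarith)]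
  have hlz2 : log z ≤ L / u + 1 := by rwa [log_le_iff_le_exp (by linarith)]
  have hx1 : η * Z / 8 ≤ ⌊η * Z / 4⌋₊ := by
    rw [div_le_iff₀' hη] at hZ
    linarith [Nat.lt_floor_add_one (η * Z / 4)]
  have hx2 : (⌊η * Z / 4⌋₊ : ℝ) ≤ η * Z / 4 := Nat.floor_le (by positivity)
  have hx0 : (0 : ℝ) < ⌊η * Z / 4⌋₊ := lt_of_lt_of_le (by positivity) hx1
  have hlx : L - log (8 / η) ≤ log ⌊η * Z / 4⌋₊ := by
    refine le_trans (le_of_eq ?_) (log_le_log (by positivity) hx1)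
    rw [← hLdef, ← log_div hZ0.ne' (by positivity)]
    congr 1
    field_simp
  have hK : log (8 / η) ≤ η * L := by rwa [div_le_iff₀' hη] at hLK
  have hzx : z ≤ ⌊η * Z / 4⌋₊ := by
    have : log (z : ℝ) ≤ log ⌊η * Z / 4⌋₊ := by linarith
    exact_mod_cast (log_le_log_iff (by linarith) hx0).mp this
  have hxy : ⌊η * Z / 4⌋₊ ≤ y := by
    have : (⌊η * Z / 4⌋₊ : ℝ) ≤ y := by
      linarith [mul_le_mul_of_nonneg_right hη1 hZ0.le]
    exact_mod_cast this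
  have hy0 : (0 : ℝ) < y := by linarith
  have hly : log y ≤ L + 2 * L₂ := by
    have := log_le_log hy0 hy2
    rwa [log_mul hZ0.ne' (by positivity), log_pow, hLdef, hL₂def] at this
  obtain ⟨b, hb1, hb2, hb3⟩ := erdos_rankin hzx y A
  refine ⟨b, hb1, hb2, hb3.trans ?_⟩
  obtain ⟨y₀, hy₀1, hy₀2⟩ : ∃ y₀ : ℕ, exp (L / 2) ≤ y₀ ∧ (y₀ : ℝ) ≤ y / L := by
    refine ⟨⌈exp (L / 2)⌉₊, Nat.le_ceil _, ?_⟩
    have h1 := (Nat.ceil_lt_add_one (exp_pos (L / 2)).le).le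
    have h2 := one_le_exp (show 0 ≤ L / 2 by linarith)
    have h3 : exp (L / 2) * exp (L / 2) = Z := by rw [← exp_add, add_halves, hZL]
    have h4 : 4 * L ≤ exp (L / 2) := by
      refine le_of_sq_le_sq ?_ (exp_pos _).le
      rw [sq (exp _), h3]
      linarith
    rw [le_div_iff₀ hL0]
    nlinarith
  have hy₀0 : (2 : ℝ) ≤ y₀ := by linarith [add_one_le_exp (L / 2)]
  have hlz0 : 0 < log (z : ℝ) := by linarith
  have hzτ : (z : ℝ) ^ ((1 - η) * L₃ / log z) = exp ((1 - η) * L₃) := by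
    rw [rpow_def_of_pos (by linarith), mul_div_cancel₀ _ hlz0.ne']
  have hsm := hC' ((1 - η) * L₃ / log z) y z y₀
    (div_nonneg (mul_nonneg (by linarith) (by linarith)) hlz0.le)
    (by
      rw [div_le_iff₀ hlz0]
      have h1 : L₃ * u = (1 + 3 * η) * L₂ := by rw [← hu]; field_simp
      have h2 : L₃ ≤ 1 / 4 * (L / u) := by
        rw [← mul_div_assoc, le_div_iff₀ hu0, h1]
        linarith [mul_le_mul_of_nonneg_right hη1 hL₂0.le]
      linarith [mul_pos hη (show 0 < L₃ by linarith)])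
    hz2' (by exact_mod_cast hy₀0)
  rw [hzτ] at hsm
  have h1 := num_smooth hη hη1 hLL hL₂0 hLL₂ hL₃1 hC'0
    (by rw [← log_le_iff_le_exp (by positivity)]; rwa [div_le_iff₀' hη] at hL₃) hL₂C
    (hZL ▸ hy1) hlz0 (by rw [hu]; linarith) (by linarith)
    (by rwa [le_log_iff_exp_le (by linarith)]) hy₀2 hsm
  have h2 := num_prime hη hη1 hL₂0 hL0 hK (by rwa [div_le_iff₀' hη] at hL₂K) hly hlx
    (sum_inv_le_short hC (hz2'.trans hzx) hxy)
  have h3 := num_ratio (C := C) (ly := log y) (z := z) hη hη1 hL0 hu0 hC0 (by linarith) hlz1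
    (by linarith [log_le_sub_one_of_pos (show (0 : ℝ) < z by linarith)])
    (by
      rw [div_mul_eq_mul_div, div_le_iff₀' hη] at hLC
      linarith [mul_le_mul_of_nonneg_left hu2 (show 0 ≤ (2 * C + 1) * 2 by positivity)])
  have h4 := (V_le_mul hC hz2' (hzx.trans hxy)).trans
    (mul_le_mul_of_nonneg_left h3 (V_pos y).le)
  have h5 : ((smoothUpTo y z).card : ℝ) + y * ∑ q ∈ primesIoc ⌊η * Z / 4⌋₊ y, 1 / (q : ℝ)
      ≤ (2 + 5 * η) * (y * (L₂ / L)) := by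
    linarith [mul_le_mul_of_nonneg_left h2 hy0.le]
  refine (mul_le_mul h5 h4 (V_pos z).le (by positivity)).trans (le_of_eq ?_)
  rw [← hu]
  field_simp

end Pool.Agent.P.MP_3bc45c_nt
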