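import Pool.Agent.P.MP_3bc45c_nt.APAsymp
import Pool.Agent.P.MP_3bc45c_nt.RankinAsymp

/-!
From a choice of residue classes with few survivors to a progression without small primes.
-/

open Finset Real Filter

namespace Pool.Agent.P.MP_3bc45c_nt

theorem omega_le {δ : ℝ} (hδ : 0 < δ) :
    ∀ᶠ K : ℕ in atTop, (K.primeFactors.card : ℝ) ≤ δ * log K := by
  obtain ⟨M, hM⟩ : ∃ M : ℕ, exp (2 / δ) ≤ M := ⟨_, Nat.le_ceil _⟩
  have hM0 : (0 : ℝ) < M := (exp_pos _).trans_le hM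
  have hlM : 2 / δ ≤ log M := by rwa [le_log_iff_exp_le hM0]
  have t1 : Tendsto (fun K : ℕ => log (K : ℝ)) atTop atTop :=
    tendsto_log_atTop.comp tendsto_natCast_atTop_atTop
  filter_upwards [t1.eventually_ge_atTop (2 * M / δ), eventually_gt_atTop 0] with K hK hK0
  have h1 := card_filter_add_card_filter_not (s := K.primeFactors) (fun p => p < M)
  have h2 : (K.primeFactors.filter (fun p => p < M)).card ≤ M := by
    simpa using card_le_card (t := range M) fun p hp => mem_range.2 (mem_filter.1 hp).2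
  have h3 : M ^ (K.primeFactors.filter (fun p => ¬ p < M)).card ≤ K := by
    refine (pow_card_le_prod _ (fun p => p) M fun p hp => not_lt.1 (mem_filter.1 hp).2).trans ?_
    exact Nat.le_of_dvd hK0 ((prod_dvd_prod_of_subset _ _ _ (filter_subset _ _)).trans
      (Nat.prod_primeFactors_dvd K))
  have h4 : ((K.primeFactors.filter (fun p => ¬ p < M)).card : ℝ) * log M ≤ log K := by
    rw [← log_pow]
    exact log_le_log (by positivity) (by exact_mod_cast h3)
  rw [← h1]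
  push_cast
  have h5 : ((K.primeFactors.filter (fun p => p < M)).card : ℝ) ≤ M := by exact_mod_cast h2
  rw [div_le_iff₀' hδ] at hK hlM
  have h6 : (0 : ℝ) ≤ (K.primeFactors.filter (fun p => ¬ p < M)).card := Nat.cast_nonneg _
  nlinarith [mul_le_mul_of_nonneg_left h4 hδ.le, mul_le_mul_of_nonneg_left hlM h6]

theorem assemble {η : ℝ} (hη : 0 < η) (hη1 : η ≤ 1 / 20) : ∀ᶠ K : ℕ in atTop,
    ∀ J y : ℕ, log K ≤ y → y ≤ log K ^ 2 / 4 → J ≤ y → ∀ c : ℕ → ℕ,
      (((range J).filter (fun n => ∀ p ∈ (primesIoc 0 ⌊η * log K / 4⌋₊).filter (fun p => ¬ p ∣ K),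
        ¬ p ∣ c p + n)).card : ℝ)
          ≤ (1 / 2 - 10 * η) * (1 - η) ^ 2 / (1 + η) * (log K * log (log K) * V y) →
      ∃ a, 0 < a ∧ a < K ∧ Nat.Coprime a K ∧ ∀ p : ℕ, p.Prime → p ≡ a [MOD K] → J * K < p := by
  have t1 : Tendsto (fun K : ℕ => log (K : ℝ)) atTop atTop :=
    tendsto_log_atTop.comp tendsto_natCast_atTop_atTop
  have t0 : Tendsto (fun K : ℕ => (1 - η) * log (K : ℝ)) atTop atTop :=
    t1.const_mul_atTop (by linarith)
  filter_upwards [t0.eventually (cover_asymp_K hη hη1), omega_le (δ := η / 8) (by positivity),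
    t1.eventually_ge_atTop (48 / η), (tendsto_log_atTop.comp t1).eventually_ge_atTop 4,
    eventually_gt_atTop 0] with K hCov hω hZ hL4 hK0 J y hy1 hy2 hJ c hc
  have hK : exp (log (K : ℝ)) = K := exp_log (by exact_mod_cast hK0)
  simp only [Function.comp] at hL4
  obtain ⟨Z, hZdef⟩ : ∃ Z, log (K : ℝ) = Z := ⟨_, rfl⟩
  simp only [hZdef] at hCov hω hZ hL4 hy1 hy2 hc hK
  obtain ⟨L, hLdef⟩ : ∃ L, log Z = L := ⟨_, rfl⟩
  simp only [hLdef] at hL4 hc
  have h4 : 960 ≤ 48 / η := by rw [le_div_iff₀ hη]; linarith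
  have hZ0 : 0 < Z := by linarith
  have hηZ : 48 ≤ η * Z := by rwa [div_le_iff₀' hη] at hZ
  have hηZ' : η * Z ≤ Z / 20 := by linarith [mul_le_mul_of_nonneg_right hη1 hZ0.le]
  have hlZ' : L - 2 * η ≤ log ((1 - η) * Z) := by
    rw [log_mul (by linarith) hZ0.ne', hLdef]
    have h1 := one_sub_inv_le_log_of_pos (show 0 < 1 - η by linarith)
    have h2 : (1 - η)⁻¹ ≤ 1 + 2 * η := by
      rw [inv_le_iff_one_le_mul₀ (by linarith)]
      linarith [mul_le_mul_of_nonneg_left hη1 hη.le]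
    linarith
  have hx2 : (⌊η * Z / 4⌋₊ : ℝ) ≤ η * Z / 4 := Nat.floor_le (by positivity)
  have hxy : ⌊η * Z / 4⌋₊ ≤ y := by
    have : (⌊η * Z / 4⌋₊ : ℝ) ≤ y := by linarith
    exact_mod_cast this
  have hPx := primorial_le_exp ⌊η * Z / 4⌋₊
  obtain ⟨x, hxdef⟩ : ∃ x, ⌊η * Z / 4⌋₊ = x := ⟨_, rfl⟩
  simp only [hxdef] at hc hx2 hxy hPx
  obtain ⟨G, hG⟩ : ∃ G, (primesIoc 0 x).filter (fun p => ¬ p ∣ K) = G := ⟨_, rfl⟩
  rw [hG] at hc
  have hGm : ∀ p ∈ G, p.Prime ∧ p ≤ x ∧ ¬ p ∣ K := fun p hp => by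
    rw [← hG] at hp
    obtain ⟨h1, h2⟩ := mem_filter.1 hp
    exact ⟨(mem_primesIoc.1 h1).2.2, (mem_primesIoc.1 h1).2.1, h2⟩
  obtain ⟨r, hr⟩ := Nat.chineseRemainderOfFinset (fun p => c p * K) id G
    (fun p hp => (hGm p hp).1.ne_zero)
    (fun p hp q hq hpq => (Nat.coprime_primes (hGm p hp).1 (hGm q hq).1).mpr hpq)
  have hP0 : 0 < ∏ p ∈ G, p := prod_pos fun p hp => (hGm p hp).1.pos
  obtain ⟨b, hb1, hb2, hb3⟩ := exists_rep r ⌈exp (Z / 2)⌉₊ (∏ p ∈ G, p) hP0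
  have hP : ((∏ p ∈ G, p : ℕ) : ℝ) ≤ exp (η * Z / 2) := by
    have h1 : ∏ p ∈ G, p ≤ ∏ p ∈ primesIoc 0 x, p := by
      rw [← hG]
      exact prod_le_prod_of_subset_of_one_le' (filter_subset _ _)
        fun p hp _ => (mem_primesIoc.1 hp).1
    refine (Nat.cast_le.2 h1).trans (hPx.trans (exp_le_exp.mpr ?_))
    have h6 : log (4 : ℝ) ≤ 2 := by
      rw [show (4 : ℝ) = 2 ^ 2 by norm_num, log_pow]
      push_cast
      linarith [log_two_lt_d9]
    calc log 4 * (x : ℝ) ≤ 2 * (η * Z / 4) := mul_le_mul h6 hx2 (Nat.cast_nonneg _) (by norm_num)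
      _ = _ := by ring
  have h4ω : (4 : ℝ) ^ K.primeFactors.card ≤ exp (η * Z / 4) := by
    have h1 : (4 : ℝ) ≤ exp 2 := by
      have := add_one_le_exp (1 : ℝ)
      rw [show (2 : ℝ) = 1 + 1 by norm_num, exp_add]
      nlinarith
    refine (pow_le_pow_left₀ (by norm_num) h1 _).trans ?_
    rw [← exp_nat_mul]
    exact exp_le_exp.mpr (by linarith)
  obtain ⟨t, ht, hco, hcov⟩ := hCov y (by linarith)
    (hy2.trans (by nlinarith)) _ ((filter_subset _ _).trans (range_subset_range.2 hJ))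
    (hc.trans (by
      have h2 : (1 - η) * L ≤ log ((1 - η) * Z) := by
        linarith [mul_le_mul_of_nonneg_left hL4 hη.le]
      have h3 := V_pos y
      calc _ = (1 / 2 - 10 * η) * ((1 - η) * Z) * ((1 - η) * L) * (V y / (1 + η)) := by ring
        _ ≤ _ := mul_le_mul_of_nonneg_right (mul_le_mul_of_nonneg_left h2
            (mul_nonneg (by linarith) (by linarith))) (by positivity)))
    (∏ p ∈ G, p) K hK0.ne'
    (Nat.Coprime.prod_left fun p hp => (Nat.Prime.coprime_iff_not_dvd (hGm p hp).1).2 (hGm p hp).2.2)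
    (hω.trans (by nlinarith))
    (fun p hp hd => by
      obtain ⟨q, hq, hpq⟩ := (Prime.dvd_finsetProd_iff hp.prime _).mp hd
      rw [(Nat.prime_dvd_prime_iff_eq hp (hGm q hq).1).mp hpq]
      exact (hGm q hq).2.1.trans hxy)
    b ⌈exp ((1 - 3 * η / 4) * Z)⌉₊ (le_trans (by
      rw [show (1 - 3 * η / 4) * Z = (1 - η) * Z + η * Z / 4 by ring, exp_add]
      gcongr) (Nat.le_ceil _))
  obtain ⟨P, hPdef⟩ : ∃ P, ∏ p ∈ G, p = P := ⟨_, rfl⟩
  have hGP : ∀ p ∈ G, p ∣ P := fun p hp => hPdef ▸ dvd_prod_of_mem (fun p => p) hp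
  rw [hPdef] at hb2 hb3 hP hco hcov hP0
  have hA : exp (Z / 2) ≤ ((b + P * t : ℕ) : ℝ) :=
    (Nat.le_ceil _).trans (by exact_mod_cast hb1.trans (Nat.le_add_right _ _))
  have haK : b + P * t < K := by
    have h1 : b + P * t < ⌈exp (Z / 2)⌉₊ + P * ⌈exp ((1 - 3 * η / 4) * Z)⌉₊ := by
      have := Nat.mul_le_mul_left P (Nat.succ_le_of_lt ht)
      rw [Nat.mul_succ] at this
      omega
    have h2 : ((b + P * t : ℕ) : ℝ) < ⌈exp (Z / 2)⌉₊ + P * ⌈exp ((1 - 3 * η / 4) * Z)⌉₊ := by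
      exact_mod_cast h1
    have h3 : ∀ u : ℝ, 0 ≤ u → (⌈exp u⌉₊ : ℝ) ≤ 2 * exp u := fun u hu => by
      linarith [Nat.ceil_lt_add_one (exp_pos u).le, one_le_exp hu]
    have h5 : (P : ℝ) * ⌈exp ((1 - 3 * η / 4) * Z)⌉₊ ≤ 2 * exp ((1 - η / 4) * Z) := by
      refine (mul_le_mul hP (h3 _ (by linarith)) (Nat.cast_nonneg _) (exp_pos _).le).trans
        (le_of_eq ?_)
      rw [mul_left_comm, ← exp_add]
      congr 2
      ring
    have h6 : exp (Z / 2) ≤ exp ((1 - η / 4) * Z) := exp_le_exp.mpr (by linarith)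
    have h7 : 4 * exp ((1 - η / 4) * Z) ≤ exp Z := by
      have h9 : exp Z = exp (η * Z / 4) * exp ((1 - η / 4) * Z) := by
        rw [← exp_add]; congr 1; ring
      rw [h9]
      exact mul_le_mul_of_nonneg_right (by linarith [add_one_le_exp (η * Z / 4)]) (exp_pos _).le
    have h8 : ((b + P * t : ℕ) : ℝ) < K := by linarith [h3 (Z / 2) (by linarith)]
    exact_mod_cast h8
  have ha0 : 0 < b + P * t := by exact_mod_cast (exp_pos _).trans_le hA
  refine ⟨b + P * t, ha0, haK, hco, fun p hp hpa => ?_⟩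
  have hpj : p = b + P * t + p / K * K := by
    have h1 : p % K = b + P * t := by rw [hpa, Nat.mod_eq_of_lt haK]
    rw [← h1, mul_comm, Nat.mod_add_div]
  by_contra hcon
  have hj : p / K < J := by
    by_contra h
    have := Nat.mul_le_mul_right K (not_lt.1 h)
    omega
  have key : ∀ q : ℕ, q.Prime → (q : ℝ) < exp (Z / 2) → ¬ q ∣ b + P * t + p / K * K := by
    intro q hq hlt hd
    rw [← hpj] at hd
    have h1 : q < b + P * t := by exact_mod_cast hlt.trans_le hA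
    have := (Nat.prime_dvd_prime_iff_eq hq hp).1 hd
    omega
  by_cases hs : ∀ q ∈ G, ¬ q ∣ c q + p / K
  · obtain ⟨q, h1, h2, h3⟩ := hcov (p / K) (mem_filter.mpr ⟨mem_range.2 hj, hs⟩)
    refine key q h1 (h2.trans_lt (exp_lt_exp.mpr ?_)) h3
    have h6 : (2 : ℝ) ^ 2 ≤ log ((1 - η) * Z) ^ 2 := pow_le_pow_left₀ (by norm_num) (by linarith) 2
    refine (div_le_div_of_nonneg_left (by linarith) (by positivity) h6).trans_lt ?_
    linarith
  · push Not at hs
    obtain ⟨q, hq, hd⟩ := hs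
    refine key q (hGm q hq).1 ?_ ?_
    · have h3 : (q : ℝ) ≤ x := by exact_mod_cast (hGm q hq).2.1
      linarith [add_one_le_exp (Z / 2)]
    · have h1 : b ≡ c q * K [MOD q] := (hb3.of_dvd (hGP q hq)).trans (hr q hq)
      rw [add_right_comm]
      refine dvd_add ?_ ((hGP q hq).mul_right t)
      refine ((h1.add_right _).dvd_iff dvd_rfl).2 ?_
      rw [← add_mul]
      exact hd.mul_right K

theorem totient_eq (K : ℕ) : (K.totient : ℝ) = K * ∏ r ∈ K.primeFactors, (1 - 1 / (r : ℝ)) := by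
  have := Nat.totient_eq_mul_prod_factors K
  have h := congrArg (fun q : ℚ => (q : ℝ)) this
  simpa using h

theorem rho_mul_le (K x : ℕ) (hK0 : K ≠ 0) : (∏ r ∈ K.primeFactors, (1 - 1 / (r : ℝ))) *
    ∏ p ∈ (primesIoc 0 x).filter (fun p => ¬ p ∣ K), (1 - 1 / (p : ℝ)) ≤ V x := by
  rw [V, ← prod_filter_mul_prod_filter_not (primesIoc 0 x) (fun l => l ∣ K)]
  refine mul_le_mul_of_nonneg_right ?_ (prod_nonneg fun l hl =>
    (one_sub_inv_pos (mem_primesIoc.mp (mem_filter.mp hl).1).2.2).le)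
  refine prod_le_prod_of_subset_of_le_one (fun l hl => Nat.mem_primeFactors.2
      ⟨(mem_primesIoc.mp (mem_filter.mp hl).1).2.2, (mem_filter.mp hl).2, hK0⟩)
    (fun l hl => (one_sub_inv_pos (Nat.prime_of_mem_primeFactors hl)).le) fun l _ _ => ?_
  have : (0 : ℝ) ≤ 1 / (l : ℝ) := by positivity
  linarith

end Pool.Agent.P.MP_3bc45c_nt
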