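import Pool.Agent.P.MP_3bc45c_nt.Count

/-!
Counting along a progression of residues coprime to the modulus.
-/

open Finset

namespace Pool.Agent.P.MP_3bc45c_nt

open Classical in
/-- The form `m + i K` hit by the prime `q`, if any. -/
noncomputable def hitK (𝒮 : Finset ℕ) (K q m : ℕ) : Option 𝒮 :=
  if h : ∃ i : 𝒮, q ∣ m + i * K then some h.choose else none

theorem hitK_eq_some {𝒮 : Finset ℕ} {y q K : ℕ} (h𝒮 : 𝒮 ⊆ range y) (hq : y < q)
    (hqK : Nat.Coprime q K) (m : ℕ) (i : 𝒮) : hitK 𝒮 K q m = some i ↔ q ∣ m + i * K := by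
  unfold hitK
  split_ifs with h
  · have h1 := h.choose_spec
    simp only [Option.some.injEq]
    refine ⟨fun e => e ▸ h1, fun h2 => Subtype.ext ?_⟩
    have h3 := mem_range.mp (h𝒮 h.choose.2)
    have h4 := mem_range.mp (h𝒮 i.2)
    have h5 : (h.choose : ℕ) * K ≡ i * K [MOD q] := Nat.ModEq.add_left_cancel' m
      (((Nat.modEq_zero_iff_dvd).mpr h1).trans ((Nat.modEq_zero_iff_dvd).mpr h2).symm)
    exact Nat.ModEq.eq_of_lt_of_lt (Nat.ModEq.cancel_right_of_coprime hqK h5) (by omega) (by omega)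
  · simpa using fun h2 => h ⟨i, h2⟩

theorem atom_disc_sub {κ : Type} [Fintype κ] [DecidableEq κ] (q : κ → ℕ)
    (hinj : Function.Injective q) (hq : ∀ l, (q l).Prime) {P K : ℕ} (hP : ∀ l, ¬ q l ∣ P)
    (hK : ∀ l, ¬ q l ∣ K) (hPK : Nat.Coprime P K)
    {𝒮 : Finset ℕ} {y : ℕ} (h𝒮 : 𝒮 ⊆ range y) (hy : ∀ l, y < q l) (b N : ℕ)
    (τ : κ → Option 𝒮) (D : Finset K.primeFactors) :
    |∑ t ∈ range N, (∏ r ∈ D, if (r : ℕ) ∣ b + P * t then (1 : ℝ) else 0) *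
        atom τ (fun l => hitK 𝒮 K (q l) (b + P * t))
      - N * ((∏ r ∈ D, 1 / ((r : ℕ) : ℝ)) * pw (fun l => 1 / (q l : ℝ)) τ)| ≤ 1 := by
  classical
  have hr : ∀ r : K.primeFactors, (r : ℕ).Prime ∧ (r : ℕ) ∣ K := fun r =>
    ⟨Nat.prime_of_mem_primeFactors r.2, Nat.dvd_of_mem_primeFactors r.2⟩
  have h := count_congr ((univ.filter (fun l => τ l ≠ none)).disjSum D)
    (Sum.elim q fun r : K.primeFactors => (r : ℕ))
    (Function.Injective.sumElim hinj Subtype.val_injective fun l r e => hK l (e ▸ (hr r).2))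
    (by rintro (l | r); exacts [hq l, (hr r).1]) (P := P)
    (by
      rintro (l | r)
      · exact hP l
      · exact fun h => (hr r).1.one_lt.ne' (Nat.eq_one_of_dvd_coprimes hPK h (hr r).2))
    (Sum.elim (fun l => b + ((τ l).elim 0 (fun i => (i : ℕ))) * K) fun _ => b) N
  convert h using 3
  · rw [card_filter]
    push_cast
    refine sum_congr rfl fun t _ => ?_
    have key : ∀ l, at1 (τ l) (hitK 𝒮 K (q l) (b + P * t)) =
        if (τ l ≠ none → q l ∣ b + ((τ l).elim 0 (fun i => (i : ℕ))) * K + P * t)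
          then 1 else 0 := by
      intro l
      cases hτ : τ l with
      | none => simp [at1]
      | some i =>
        simp only [at1, hitK_eq_some h𝒮 (hy l) ((Nat.Prime.coprime_iff_not_dvd (hq l)).2 (hK l)),
          Option.elim_some, ne_eq, reduceCtorEq, not_false_eq_true, forall_const, add_right_comm]
    simp only [atom, key, prod_boole, Sum.forall, forall_const, inl_mem_disjSum,
      inr_mem_disjSum, mem_filter, mem_univ, true_and, Sum.elim_inl, Sum.elim_inr]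
    by_cases h1 : ∀ r ∈ D, (r : ℕ) ∣ b + P * t
    · simp only [if_pos h1, one_mul, and_iff_left h1]
    · simp only [if_neg h1, zero_mul]
      rw [if_neg fun h => h1 h.2]
  · rw [prod_disjSum, mul_comm (∏ r ∈ D, _), pw, prod_filter]
    congr 2
    refine prod_congr rfl fun l _ => ?_
    cases τ l <;> simp [lam]

theorem coprime_indicator (m K : ℕ) (hK : K ≠ 0) :
    (if Nat.Coprime m K then (1 : ℝ) else 0) =
      ∏ r : K.primeFactors, (1 + -(if (r : ℕ) ∣ m then (1 : ℝ) else 0)) := by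
  split_ifs with h
  · refine (prod_eq_one fun r _ => ?_).symm
    rw [if_neg, neg_zero, add_zero]
    exact fun h' => (Nat.prime_of_mem_primeFactors r.2).one_lt.ne'
      (Nat.eq_one_of_dvd_coprimes h h' (Nat.dvd_of_mem_primeFactors r.2))
  · obtain ⟨p, hp, h1, h2⟩ := Nat.Prime.not_coprime_iff_dvd.1 h
    refine (prod_eq_zero (mem_univ ⟨p, Nat.mem_primeFactors.2 ⟨hp, h2, hK⟩⟩) ?_).symm
    simp [h1]

theorem atom_disc_w {κ : Type} [Fintype κ] [DecidableEq κ] (q : κ → ℕ)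
    (hinj : Function.Injective q) (hq : ∀ l, (q l).Prime) {P K : ℕ} (hP : ∀ l, ¬ q l ∣ P)
    (hK : ∀ l, ¬ q l ∣ K) (hPK : Nat.Coprime P K) (hK0 : K ≠ 0)
    {𝒮 : Finset ℕ} {y : ℕ} (h𝒮 : 𝒮 ⊆ range y) (hy : ∀ l, y < q l) (b N : ℕ)
    (τ : κ → Option 𝒮) :
    |∑ t ∈ range N, (if Nat.Coprime (b + P * t) K then (1 : ℝ) else 0) *
        atom τ (fun l => hitK 𝒮 K (q l) (b + P * t))
      - (N * ∏ r ∈ K.primeFactors, (1 - 1 / (r : ℝ))) * pw (fun l => 1 / (q l : ℝ)) τ|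
      ≤ 2 ^ K.primeFactors.card := by
  classical
  have h1 : ∏ r ∈ K.primeFactors, (1 - 1 / (r : ℝ)) =
      ∏ r : K.primeFactors, (1 + -(1 / ((r : ℕ) : ℝ))) := by
    rw [← prod_coe_sort K.primeFactors]
    simp only [sub_eq_add_neg]
  simp only [coprime_indicator _ K hK0, h1, prod_one_add, prod_neg, sum_mul, mul_sum]
  rw [sum_comm, ← sum_sub_distrib]
  refine (abs_sum_le_sum_abs _ _).trans ((sum_le_card_nsmul _ _ 1 fun D _ => ?_).trans ?_)
  · have := atom_disc_sub q hinj hq hP hK hPK h𝒮 hy b N τ D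
    simp only [mul_assoc, ← mul_sum]
    rw [mul_left_comm, ← mul_sub, abs_mul, abs_pow, abs_neg, abs_one, one_pow, one_mul]
    exact this
  · simp

theorem atom_disc_pair_w {ι₁ ι₂ : Type} [Fintype ι₁] [DecidableEq ι₁] [Fintype ι₂]
    [DecidableEq ι₂]
    (q₁ : ι₁ → ℕ) (q₂ : ι₂ → ℕ) (hinj : Function.Injective (Sum.elim q₁ q₂))
    (hq₁ : ∀ l, (q₁ l).Prime) (hq₂ : ∀ l, (q₂ l).Prime) {P K : ℕ} (hP₁ : ∀ l, ¬ q₁ l ∣ P)
    (hP₂ : ∀ l, ¬ q₂ l ∣ P) (hK₁ : ∀ l, ¬ q₁ l ∣ K) (hK₂ : ∀ l, ¬ q₂ l ∣ K)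
    (hPK : Nat.Coprime P K) (hK0 : K ≠ 0)
    {𝒮 : Finset ℕ} {y : ℕ} (h𝒮 : 𝒮 ⊆ range y) (hy₁ : ∀ l, y < q₁ l)
    (hy₂ : ∀ l, y < q₂ l) (b N : ℕ) (τ₁ : ι₁ → Option 𝒮) (τ₂ : ι₂ → Option 𝒮) :
    |∑ t ∈ range N, (if Nat.Coprime (b + P * t) K then (1 : ℝ) else 0) *
        (atom τ₁ (fun l => hitK 𝒮 K (q₁ l) (b + P * t))
          * atom τ₂ (fun l => hitK 𝒮 K (q₂ l) (b + P * t)))
      - (N * ∏ r ∈ K.primeFactors, (1 - 1 / (r : ℝ))) *
        (pw (fun l => 1 / (q₁ l : ℝ)) τ₁ * pw (fun l => 1 / (q₂ l : ℝ)) τ₂)|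
      ≤ 2 ^ K.primeFactors.card := by
  have h := atom_disc_w (Sum.elim q₁ q₂) hinj (by rintro (l | l); exacts [hq₁ l, hq₂ l])
    (P := P) (K := K) (by rintro (l | l); exacts [hP₁ l, hP₂ l])
    (by rintro (l | l); exacts [hK₁ l, hK₂ l]) hPK hK0 h𝒮
    (by rintro (l | l); exacts [hy₁ l, hy₂ l]) b N (Sum.elim τ₁ τ₂)
  simp only [atom, pw, Fintype.prod_sum_type, Sum.elim_inl, Sum.elim_inr] at h
  exact h

end Pool.Agent.P.MP_3bc45c_nt
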