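import Pool.Agent.P.MP_3bc45c_nt.Cover
import Pool.Agent.P.MP_3bc45c_nt.APAbstract
import Pool.Agent.P.MP_3bc45c_nt.APCount

/-!
The covering proposition for the forms `m + n K`, with all parameters explicit.
-/

open Finset Real

namespace Pool.Agent.P.MP_3bc45c_nt

theorem sum_mem_prod_le {ι : Type} [Fintype ι] [DecidableEq ι] {p : ι → ℝ} (hp : ∀ l, 0 ≤ p l)
    (l : ι) : ∑ D ∈ univ.filter (fun D : Finset ι => l ∈ D), ∏ l ∈ D, p l
      ≤ p l * exp (∑ l, p l) := by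
  have hP : ∀ D : Finset ι, 0 ≤ ∏ l ∈ D, p l := fun D => prod_nonneg fun l _ => hp l
  have h2 : ∑ D ∈ univ.filter (fun D : Finset ι => l ∈ D), ∏ l ∈ D, p l
      ≤ p l * ∑ D : Finset ι, ∏ l ∈ D, p l := by
    rw [mul_sum, ← sum_filter_add_sum_filter_not univ (fun D : Finset ι => l ∈ D)]
    refine le_add_of_nonneg_of_le (sum_nonneg fun D _ => mul_nonneg (hp l) (hP D))
      (le_of_eq ?_)
    refine sum_nbij' (fun D => D.erase l) (fun D => insert l D) (by simp) (by simp) ?_ ?_ ?_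
    · intro D hD
      exact insert_erase (mem_filter.mp hD).2
    · intro D hD
      exact erase_insert (mem_filter.mp hD).2
    · intro D hD
      exact (mul_prod_erase D p (mem_filter.mp hD).2).symm
  refine h2.trans (mul_le_mul_of_nonneg_left ?_ (hp l))
  rw [← powerset_univ, ← prod_one_add, exp_sum]
  exact prod_le_prod (fun l _ => by linarith [hp l]) fun l _ => by linarith [add_one_le_exp (p l)]

theorem lambda_remove {ι κ : Type} [Fintype ι] [DecidableEq ι] [Fintype κ] [DecidableEq κ]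
    (q : ι ⊕ κ → ℕ) {W t₁ T σ : ℝ} (hW : 0 < W) (hr : ∀ j, W ≤ q (Sum.inr j)) (ht₁ : 0 < t₁)
    (hσ : ∑ l, 1 / (q l : ℝ) ≤ σ) :
    (∑ D : Finset (ι ⊕ κ), if t₁ < ∑ l ∈ D, log (q l) ∧ ∑ l ∈ D, log (q l) ≤ T
        then (∏ l ∈ D, 1 / (q l : ℝ)) / ∑ l ∈ D, log (q l) else 0)
      ≤ Fintype.card κ * (exp σ / W / t₁) + ∑ D : Finset ι,
        if t₁ < ∑ l ∈ D, log (q (Sum.inl l)) ∧ ∑ l ∈ D, log (q (Sum.inl l)) ≤ T
        then (∏ l ∈ D, 1 / (q (Sum.inl l) : ℝ)) / ∑ l ∈ D, log (q (Sum.inl l)) else 0 := by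
  have hP : ∀ D : Finset (ι ⊕ κ), 0 ≤ ∏ l ∈ D, 1 / (q l : ℝ) := fun D =>
    prod_nonneg fun l _ => by positivity
  rw [← sum_filter_add_sum_filter_not univ (fun D : Finset (ι ⊕ κ) => ∃ j, Sum.inr j ∈ D)]
  refine add_le_add ?_ ?_
  · calc _ ≤ ∑ D ∈ univ.filter (fun D : Finset (ι ⊕ κ) => ∃ j, Sum.inr j ∈ D),
          ∑ j : κ, (if Sum.inr j ∈ D then (∏ l ∈ D, 1 / (q l : ℝ)) / t₁ else 0) := by
          refine sum_le_sum fun D hD => ?_
          obtain ⟨j, hj⟩ := (mem_filter.mp hD).2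
          refine le_trans ?_ (single_le_sum (f := fun j : κ =>
            if Sum.inr j ∈ D then (∏ l ∈ D, 1 / (q l : ℝ)) / t₁ else 0)
            (fun j _ => by
              split_ifs
              · exact div_nonneg (hP D) ht₁.le
              · exact le_rfl) (mem_univ j))
          rw [if_pos hj]
          split_ifs with h
          · exact div_le_div_of_nonneg_left (hP D) ht₁ h.1.le
          · exact div_nonneg (hP D) ht₁.le
      _ ≤ ∑ D : Finset (ι ⊕ κ),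
          ∑ j : κ, (if Sum.inr j ∈ D then (∏ l ∈ D, 1 / (q l : ℝ)) / t₁ else 0) := by
          refine sum_le_sum_of_subset_of_nonneg (filter_subset _ _) fun D _ _ =>
            sum_nonneg fun j _ => ?_
          split_ifs
          · exact div_nonneg (hP D) ht₁.le
          · exact le_rfl
      _ ≤ _ := by
          rw [sum_comm, ← nsmul_eq_mul, ← card_univ]
          refine sum_le_card_nsmul _ _ _ fun j _ => ?_
          rw [← sum_filter, ← sum_div]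
          refine div_le_div_of_nonneg_right ?_ ht₁.le
          refine (sum_mem_prod_le (p := fun l => 1 / (q l : ℝ)) (fun l => by positivity) _).trans ?_
          rw [div_eq_mul_one_div (exp σ), mul_comm]
          exact mul_le_mul (exp_le_exp.mpr hσ) (one_div_le_one_div_of_le hW (hr j))
            (by positivity) (exp_pos _).le
  · have key : ∀ D ∈ univ.filter (fun D : Finset (ι ⊕ κ) => ¬ ∃ j, Sum.inr j ∈ D),
        D = D.toLeft.disjSum ∅ := by
      intro D hD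
      have h := (mem_filter.mp hD).2
      ext (l | j)
      · simp
      · simpa using fun h' => h ⟨j, h'⟩
    refine le_trans (le_of_eq (sum_congr rfl fun D hD => ?_))
      (sum_le_sum_inj (t := univ) (fun D : Finset (ι ⊕ κ) => D.toLeft) ?_ (fun _ _ => mem_univ _)
        (fun D : Finset ι =>
          if t₁ < ∑ l ∈ D, log (q (Sum.inl l)) ∧ ∑ l ∈ D, log (q (Sum.inl l)) ≤ T
          then (∏ l ∈ D, 1 / (q (Sum.inl l) : ℝ)) / ∑ l ∈ D, log (q (Sum.inl l)) else 0) ?_)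
    · conv_lhs => rw [key D hD]
      simp only [sum_disjSum, prod_disjSum, sum_empty, prod_empty, add_zero, mul_one]
    · intro D hD D' hD' h
      rw [key D hD, key D' hD']
      exact congrArg (fun X => disjSum X ∅) h
    · intro D _
      split_ifs with h
      · exact div_nonneg (prod_nonneg fun l _ => by positivity) (ht₁.le.trans h.1.le)
      · exact le_rfl

theorem cover_finite_K {y W E A P K b N j : ℕ} {𝒮 : Finset ℕ}
    {t₁ t₂ T L θ ε κ ρ M σ₁ σ₂ k U : ℝ} (hK0 : K ≠ 0) (hPK : Nat.Coprime P K)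
    (hU : ∏ l ∈ (primesIoc y W).filter (fun l => ¬ l ∣ K), (1 - 1 / (l : ℝ)) ≤ U)
    (h𝒮 : 𝒮 ⊆ range y) (hk : (𝒮.card : ℝ) ≤ k) (hyW : y ≤ W) (hW : 2 ≤ W) (hWE : W ≤ E)
    (hP : ∀ p : ℕ, p.Prime → p ∣ P → p ≤ y) (hA : 1 ≤ A) (hAE : A ≤ E)
    (ht₁ : 0 < t₁) (ht₂ : 0 < t₂) (ht₂A : exp t₂ ≤ A + 1) (hT : log E ≤ T) (hL : 0 < L)
    (hΛ : (1 + T) / (W * t₂) + (V W)⁻¹ * ((1 + t₁) / t₂ +
      (K.primeFactors.card * (exp σ₂ / W / t₁) + 1 / L))
      ≤ log (log (E + 1)) - log (log (A + 1)))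
    (hθ : 0 ≤ θ) (hθT : θ * T ≤ ε) (hε : ε ≤ 1) (hκ : 0 ≤ κ) (hκh : log 2 ≤ κ * log W)
    (hρ : 0 ≤ ρ) (hM : 1 ≤ M)
    (hσ₁ : ∑ p ∈ primesIoc y W, 1 / (p : ℝ) ≤ σ₁) (hσ₂ : ∑ p ∈ primesIoc W E, 1 / (p : ℝ) ≤ σ₂)
    (hκ' : k / W * (ρ / log W) ≤ 1 / 2)
    (hτ : (k + 1) * exp (-θ * (ρ - T - k * U * ((1 + ε) * L))) ≤ 1 / 10)
    (hβ : k * (L / t₁ * (exp σ₂ / W) * (ρ / log W)) ^ 2 ≤ 1 / 10)
    (herr : k * ((1 / 4) ^ j * exp (k * (exp (8 * σ₁) * (L / t₁)))) ≤ 1 / 10)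
    (hN : 10 * (k + 1) * (exp ((1 + 2 * κ) * ρ) * exp (k * exp (-(κ * t₁))) *
      (M ^ j * exp (W * k / M))) ^ 2 * 2 ^ K.primeFactors.card
        < N * ∏ r ∈ K.primeFactors, (1 - 1 / (r : ℝ))) :
    ∃ t < N, Nat.Coprime (b + P * t) K ∧
      ∀ n ∈ 𝒮, ∃ p : ℕ, p.Prime ∧ p ≤ E ∧ p ∣ b + P * t + n * K := by
  classical
  have hW1 : (1 : ℝ) < W := by exact_mod_cast hW
  have hlW : 0 < log (W : ℝ) := log_pos hW1
  have hT0 : 0 ≤ T := (log_natCast_nonneg E).trans hT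
  have hε0 : 0 ≤ ε := (mul_nonneg hθ hT0).trans hθT
  have hcard : Fintype.card 𝒮 = 𝒮.card := Fintype.card_coe 𝒮
  have hk0 : (0 : ℝ) ≤ 𝒮.card := Nat.cast_nonneg _
  have hky : 𝒮.card ≤ y := by simpa using card_le_card h𝒮
  let q₁ : (primesIoc y W).filter (fun l => ¬ l ∣ K) → ℕ := fun l => l
  let q₂ : (primesIoc W E).filter (fun l => ¬ l ∣ K) → ℕ := fun l => l
  let q₃ : (primesIoc W E).filter (fun l => l ∣ K) → ℕ := fun l => l
  have hq₁ : ∀ l, y < q₁ l ∧ q₁ l ≤ W ∧ (q₁ l).Prime := fun l =>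
    mem_primesIoc.mp (mem_filter.mp l.2).1
  have hq₂ : ∀ l, W < q₂ l ∧ q₂ l ≤ E ∧ (q₂ l).Prime := fun l =>
    mem_primesIoc.mp (mem_filter.mp l.2).1
  have hq₃ : ∀ l, W < q₃ l ∧ q₃ l ≤ E ∧ (q₃ l).Prime := fun l =>
    mem_primesIoc.mp (mem_filter.mp l.2).1
  have hK₁ : ∀ l, ¬ q₁ l ∣ K := fun l => (mem_filter.mp l.2).2
  have hK₂ : ∀ l, ¬ q₂ l ∣ K := fun l => (mem_filter.mp l.2).2
  have hK₃ : ∀ l, q₃ l ∣ K := fun l => (mem_filter.mp l.2).2
  have hkp : ∀ q : ℕ, y < q → (𝒮.card : ℝ) * (1 / q) ≤ 1 := fun q hq => by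
    rw [mul_one_div, div_le_one (by exact_mod_cast (by omega : 0 < q))]
    exact_mod_cast (by omega : 𝒮.card ≤ q)
  have hp1 : ∀ q : ℕ, y < q → 1 / (q : ℝ) ≤ 1 := fun q hq => by
    rw [div_le_one (by exact_mod_cast (by omega : 0 < q))]
    exact_mod_cast (by omega : 1 ≤ q)
  have hσ₃ : ∑ l, 1 / ((Sum.elim q₂ q₃ l : ℕ) : ℝ) ≤ σ₂ := by
    rw [← sum_filter_add_sum_filter_not (primesIoc W E) (fun l => l ∣ K), add_comm,
      ← sum_coe_sort _ (fun p : ℕ => 1 / (p : ℝ)), ← sum_coe_sort _ (fun p : ℕ => 1 / (p : ℝ))]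
      at hσ₂
    rw [Fintype.sum_sum_type]
    exact hσ₂
  have hΛ' := lambda_lower (Sum.elim q₂ q₃) (W := W) (E := E) (A := A) (t₁ := t₁) (t₂ := t₂)
    (T := T)
    (Function.Injective.sumElim Subtype.val_injective Subtype.val_injective fun l l' h =>
      hK₂ l (by rw [show q₂ l = q₃ l' from h]; exact hK₃ l'))
    (by rintro (l | l); exacts [(hq₂ l).2.2, (hq₃ l).2.2])
    (fun p hp => by
      by_cases h : p ∣ K
      · exact ⟨Sum.inr ⟨p, mem_filter.mpr ⟨hp, h⟩⟩, rfl⟩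
      · exact ⟨Sum.inl ⟨p, mem_filter.mpr ⟨hp, h⟩⟩, rfl⟩) (by omega) hA hAE
    ht₁.le ht₂ ht₂A hT
  have hΛ3 := lambda_remove (Sum.elim q₂ q₃) (W := W) (t₁ := t₁) (T := T) (σ := σ₂)
    (by linarith) (fun l => by exact_mod_cast (hq₃ l).1.le) ht₁ hσ₃
  have hc₃ : (Fintype.card ((primesIoc W E).filter (fun l => l ∣ K)) : ℝ)
      ≤ K.primeFactors.card := by
    rw [Fintype.card_coe]
    exact_mod_cast card_le_card fun l hl => Nat.mem_primeFactors.2
      ⟨(mem_primesIoc.mp (mem_filter.mp hl).1).2.2, (mem_filter.mp hl).2, hK0⟩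
  have hΛ4 := le_of_add_le_add_left (le_of_mul_le_mul_left
    (le_of_add_le_add_left (hΛ.trans hΛ')) (inv_pos.mpr (V_pos W)))
  have hΛ'' := le_of_add_le_add_left (hΛ4.trans (hΛ3.trans (add_le_add
    (mul_le_mul_of_nonneg_right hc₃ (by positivity)) le_rfl)))
  obtain ⟨a, ha, han, hsum, haT, hγ, hδ, hs, hA₀⟩ := exists_amplitude
    (p := fun l => 1 / (q₂ l : ℝ)) (h := fun l => log (q₂ l)) (h₀ := log W)
    (fun l => by rw [exp_neg, exp_log (by exact_mod_cast (hq₂ l).2.2.pos), one_div])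
    (fun l => log_le_log (by linarith) (by exact_mod_cast (hq₂ l).1.le)) ht₁ hT0 hL hΛ''
    hθ hθT hε hκ hκh
  have hσ₁' : ∑ l, 1 / (q₁ l : ℝ) ≤ σ₁ := by
    refine le_trans ?_ hσ₁
    rw [sum_coe_sort _ (fun p : ℕ => 1 / (p : ℝ))]
    exact sum_le_sum_of_subset_of_nonneg (filter_subset _ _) fun _ _ _ => by positivity
  have hσ₂' : ∑ l, 1 / (q₂ l : ℝ) ≤ σ₂ := by
    refine le_trans ?_ hσ₂
    rw [sum_coe_sort _ (fun p : ℕ => 1 / (p : ℝ))]
    exact sum_le_sum_of_subset_of_nonneg (filter_subset _ _) fun _ _ _ => by positivity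
  have hV : ∏ l, (1 - 1 / (q₁ l : ℝ)) ≤ U := by
    rwa [← prod_coe_sort _ (fun p : ℕ => 1 - 1 / (p : ℝ))] at hU
  have hV0 : 0 ≤ ∏ l, (1 - 1 / (q₁ l : ℝ)) :=
    prod_nonneg fun l _ => sub_nonneg.mpr (hp1 _ (hq₁ l).1)
  have hVn : 0 ≤ U := hV0.trans hV
  have hn₁ : (Fintype.card ((primesIoc y W).filter (fun l => ¬ l ∣ K)) : ℝ) ≤ W := by
    rw [Fintype.card_coe]
    have : ((primesIoc y W).filter (fun l => ¬ l ∣ K)).card ≤ W :=
      (card_le_card ((filter_subset _ _).trans (filter_subset _ _))).trans (by simp)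
    exact_mod_cast this
  obtain ⟨t, ht, hw, hcov⟩ := abstract_cover_w (S := 𝒮) (p₁ := fun l => 1 / (q₁ l : ℝ))
    (p₂ := fun l => 1 / (q₂ l : ℝ)) (a := a) (h := fun l => log (q₂ l)) (h₀ := log W) (ρ := ρ)
    (T := T) (γ := L / t₁ * (exp σ₂ / W)) (θ := θ) (α := 1 + 2 * κ) (δ := θ * (1 + ε) * L)
    (s := L / t₁) (A₀ := 1 + exp (-(κ * t₁))) (M := M) (j := j) (N := N)
    (N' := N * ∏ r ∈ K.primeFactors, (1 - 1 / (r : ℝ))) (Δ := 2 ^ K.primeFactors.card)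
    (w := fun t => if Nat.Coprime (b + P * t) K then 1 else 0)
    (fun t => by split_ifs <;> norm_num)
    (fun l => by positivity) (fun l => hcard ▸ hkp _ (hq₁ l).1) (fun l => hp1 _ (hq₁ l).1)
    (fun l => by positivity) (fun l => hcard ▸ hkp _ (hyW.trans_lt (hq₂ l).1))
    (fun l => hp1 _ (hyW.trans_lt (hq₂ l).1)) hlW
    (fun l => log_le_log (by linarith) (by exact_mod_cast (hq₂ l).1.le)) hT0 hρ hθ
    (by linarith) hM (by positivity) ha han hsum haT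
    (fun l => (hγ l).trans (by
      rw [exp_neg, exp_log (by linarith), inv_mul_eq_div]
      gcongr))
    (fun l => by
      refine le_trans ?_ hκ'
      rw [hcard, mul_one_div]
      have : (W : ℝ) ≤ q₂ l := by exact_mod_cast (hq₂ l).1.le
      gcongr
      linarith)
    hδ hs hA₀
    (by
      refine le_trans ?_ hτ
      rw [hcard]
      have h1 := one_add_pow_le_exp (x := U * (θ * (1 + ε) * L)) (by positivity) 𝒮.card
      have h2 : exp (-θ * (ρ - T - k * U * ((1 + ε) * L)))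
          = exp (-θ * (ρ - T)) * exp (k * (U * (θ * (1 + ε) * L))) := by
        rw [← exp_add]; congr 1; ring
      rw [h2]
      have h3 : exp (𝒮.card * (U * (θ * (1 + ε) * L)))
          ≤ exp (k * (U * (θ * (1 + ε) * L))) := by gcongr
      have h4 : (1 + (∏ l, (1 - 1 / (q₁ l : ℝ))) * (θ * (1 + ε) * L)) ^ 𝒮.card
          ≤ (1 + U * (θ * (1 + ε) * L)) ^ 𝒮.card := by gcongr
      gcongr
      · linarith
      · exact h4.trans (h1.trans h3))
    (by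
      refine le_trans ?_ hβ
      rw [hcard]
      gcongr)
    (by
      refine le_trans ?_ herr
      rw [hcard]
      have h1 := one_add_pow_le_exp (x := exp (8 * ∑ l, 1 / (q₁ l : ℝ)) * (L / t₁))
        (by positivity) 𝒮.card
      have h3 : exp (𝒮.card * (exp (8 * ∑ l, 1 / (q₁ l : ℝ)) * (L / t₁)))
          ≤ exp (k * (exp (8 * σ₁) * (L / t₁))) := by
        gcongr
        linarith
      gcongr
      · linarith
      · exact h1.trans h3)
    (by
      refine lt_of_le_of_lt ?_ hN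
      rw [hcard]
      have h1 := one_add_pow_le_exp (x := exp (-(κ * t₁))) (exp_pos _).le 𝒮.card
      have h3 : exp (𝒮.card * exp (-(κ * t₁))) ≤ exp (k * exp (-(κ * t₁))) := by gcongr
      have hM0 : 0 < M := by linarith
      have hk1 : 0 ≤ k := hk0.trans hk
      gcongr
      exact h1.trans h3)
    (fun t => (fun l => hitK 𝒮 K (q₁ l) (b + P * t), fun l => hitK 𝒮 K (q₂ l) (b + P * t)))
    (fun τ₁ τ₂ => atom_disc_pair_w q₁ q₂
      (Function.Injective.sumElim Subtype.val_injective Subtype.val_injective fun l l' h => by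
        have h1 := (hq₁ l).2.1
        have h2 := (hq₂ l').1
        omega)
      (fun l => (hq₁ l).2.2) (fun l => (hq₂ l).2.2)
      (fun l h => absurd (hP _ (hq₁ l).2.2 h) (not_le.mpr (hq₁ l).1))
      (fun l h => absurd (hP _ (hq₂ l).2.2 h) (not_le.mpr (hyW.trans_lt (hq₂ l).1))) hK₁ hK₂
      hPK hK0 h𝒮 (fun l => (hq₁ l).1) (fun l => hyW.trans_lt (hq₂ l).1) b N τ₁ τ₂)
  refine ⟨t, ht, by simpa using hw, fun n hn => ?_⟩
  rcases hcov ⟨n, hn⟩ with ⟨l, hl⟩ | ⟨l, hl⟩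
  · exact ⟨q₁ l, (hq₁ l).2.2, (hq₁ l).2.1.trans hWE, (hitK_eq_some h𝒮 (hq₁ l).1
      ((Nat.Prime.coprime_iff_not_dvd (hq₁ l).2.2).2 (hK₁ l)) _ _).mp hl⟩
  · exact ⟨q₂ l, (hq₂ l).2.2, (hq₂ l).2.1, (hitK_eq_some h𝒮 (hyW.trans_lt (hq₂ l).1)
      ((Nat.Prime.coprime_iff_not_dvd (hq₂ l).2.2).2 (hK₂ l)) _ _).mp hl⟩

end Pool.Agent.P.MP_3bc45c_nt
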