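import Pool.Agent.P.MP_3bc45c_nt.CoverAsymp
import Pool.Agent.P.MP_3bc45c_nt.APCover

/-!
The covering proposition for the forms `m + n K` in asymptotic form.
-/

open Finset Real Filter

namespace Pool.Agent.P.MP_3bc45c_nt

theorem prod_dvd_lower {K y W : ℕ} (hK0 : K ≠ 0) (hy : 0 < y) :
    1 - (K.primeFactors.card : ℝ) / y
      ≤ ∏ l ∈ (primesIoc y W).filter (fun l => l ∣ K), (1 - 1 / (l : ℝ)) := by
  have hy0 : (0 : ℝ) < y := by exact_mod_cast hy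
  have h1 : ∀ l ∈ (primesIoc y W).filter (fun l => l ∣ K), 1 / (l : ℝ) ≤ 1 / y := fun l hl =>
    one_div_le_one_div_of_le hy0 (by exact_mod_cast (mem_primesIoc.mp (mem_filter.mp hl).1).1.le)
  refine le_trans ?_ (one_sub_sum_le_prod _ (fun l : ℕ => 1 / (l : ℝ)) (fun l _ => by positivity)
    fun l hl => (h1 l hl).trans ?_)
  · refine sub_le_sub_left ((sum_le_card_nsmul _ _ _ h1).trans ?_) _
    rw [nsmul_eq_mul, mul_one_div]
    refine div_le_div_of_nonneg_right ?_ hy0.le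
    exact_mod_cast card_le_card fun l hl => Nat.mem_primeFactors.2
      ⟨(mem_primesIoc.mp (mem_filter.mp hl).1).2.2, (mem_filter.mp hl).2, hK0⟩
  · rw [div_le_one hy0]
    exact_mod_cast hy

theorem prod_not_dvd_le {K y W : ℕ} {η : ℝ} (hK0 : K ≠ 0) (hy : 0 < y) (hyW : y ≤ W) (hη : 0 < η)
    (hη1 : η ≤ 1) (hω : (K.primeFactors.card : ℝ) ≤ η / 2 * y) :
    ∏ l ∈ (primesIoc y W).filter (fun l => ¬ l ∣ K), (1 - 1 / (l : ℝ))
      ≤ V W / (V y / (1 + η)) := by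
  have hy0 : (0 : ℝ) < y := by exact_mod_cast hy
  have h1 := prod_dvd_lower (W := W) hK0 hy
  have h2 : (K.primeFactors.card : ℝ) / y ≤ η / 2 := by rwa [div_le_iff₀ hy0]
  have h3 := prod_filter_mul_prod_filter_not (primesIoc y W) (fun l => l ∣ K)
    (fun l => 1 - 1 / (l : ℝ))
  have h4 : 0 ≤ ∏ l ∈ (primesIoc y W).filter (fun l => ¬ l ∣ K), (1 - 1 / (l : ℝ)) :=
    prod_nonneg fun l hl => (one_sub_inv_pos (mem_primesIoc.mp (mem_filter.mp hl).1).2.2).le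
  have hV := V_pos y
  rw [V_eq_mul hyW, ← h3, le_div_iff₀ (by positivity), mul_div_assoc', div_le_iff₀ (by positivity)]
  set a := ∏ l ∈ (primesIoc y W).filter (fun l => l ∣ K), (1 - 1 / (l : ℝ))
  set b := ∏ l ∈ (primesIoc y W).filter (fun l => ¬ l ∣ K), (1 - 1 / (l : ℝ))
  have h5 : 1 ≤ a * (1 + η) := by nlinarith
  nlinarith [mul_le_mul_of_nonneg_left h5 (mul_nonneg h4 hV.le)]

theorem half_pow_le (K : ℕ) :
    (1 / 2 : ℝ) ^ K.primeFactors.card ≤ ∏ r ∈ K.primeFactors, (1 - 1 / (r : ℝ)) := by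
  rw [← prod_const]
  refine prod_le_prod (fun _ _ => by norm_num) fun r hr => ?_
  have h : (2 : ℝ) ≤ r := by exact_mod_cast (Nat.prime_of_mem_primeFactors hr).two_le
  have := one_div_le_one_div_of_le (by norm_num) h
  linarith

theorem num_extra {η L Z c v W lW ω : ℝ} (hη : 0 < η) (hZ : 20 ≤ Z) (hL : 1 ≤ L)
    (hZL : exp L = Z) (hc : 0 < c) (hv : 0 < v) (h1 : c ≤ v * lW) (h2 : lW ≤ 4 * L)
    (hL1 : 8 / c ≤ L) (hW : Z ^ 3 ≤ W) (hω : ω ≤ η / 2 * Z) :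
    ω * (exp (L + 1) / W / L ^ 2) ≤ η / 2 * (v * L) := by
  have hZ0 : 0 < Z := by linarith
  have hL0 : 0 < L := by linarith
  have h3 : exp (L + 1) / W ≤ 3 * Z / Z ^ 3 := by
    refine div_le_div₀ (by positivity) ?_ (by positivity) hW
    rw [exp_add, hZL]
    nlinarith [exp_one_lt_d9]
  have h4 : 2 / L ≤ v * L := by
    rw [div_le_iff₀ hc] at hL1
    rw [div_le_iff₀ hL0]
    nlinarith [mul_le_mul_of_nonneg_left h2 hv.le]
  have hW0 : 0 < W := lt_of_lt_of_le (by positivity) hW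
  calc ω * (exp (L + 1) / W / L ^ 2) ≤ η / 2 * Z * (3 * Z / Z ^ 3 / L ^ 2) := by gcongr
    _ = η / 2 * (3 / (Z * L) / L) := by field_simp
    _ ≤ η / 2 * (2 / L) := by
        gcongr
        rw [div_le_iff₀ (by positivity)]
        nlinarith
    _ ≤ _ := by gcongr

theorem cover_at_K {C c η Z : ℝ} (hC : ∀ n : ℕ, 1 ≤ n → |A1 n - log n| ≤ C)
    (hc0 : 0 < c) (hc : ∀ y : ℕ, 2 ≤ y → c ≤ V y * log y) (hη : 0 < η) (hη1 : η ≤ 1 / 20)
    (hZ : 20 ≤ Z) (hZ1 : 10 * (8 / c * 3) ^ 2 ≤ Z) (hL1 : 8 / c ≤ log Z) (hL2 : 2 * C ≤ log Z)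
    (hL3 : 2 / η ^ 2 ≤ log Z) (hL4 : 10 * exp 32 * (8 / c) / η ≤ log Z)
    (hL5 : 18 / η * log (log Z) ≤ log Z) (hL6 : 30 / η * log Z ^ 6 ≤ Z)
    {y : ℕ} (hy1 : Z ≤ y) (hy2 : y ≤ Z ^ 2) {𝒮 : Finset ℕ} (h𝒮 : 𝒮 ⊆ range y)
    (hcard : (𝒮.card : ℝ) ≤ (1 / 2 - 10 * η) * Z * log Z * (V y / (1 + η))) {P K : ℕ}
    (hK0 : K ≠ 0) (hPK : Nat.Coprime P K) (hω : (K.primeFactors.card : ℝ) ≤ η / 2 * Z)
    (hP : ∀ p : ℕ, p.Prime → p ∣ P → p ≤ y) (b : ℕ) {N : ℕ}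
    (hN : exp Z * 4 ^ K.primeFactors.card ≤ N) :
    ∃ t < N, Nat.Coprime (b + P * t) K ∧
      ∀ n ∈ 𝒮, ∃ p : ℕ, p.Prime ∧ (p : ℝ) ≤ exp (Z / log Z ^ 2) ∧ p ∣ b + P * t + n * K := by
  obtain ⟨L, hLdef⟩ : ∃ L, log Z = L := ⟨_, rfl⟩
  rw [hLdef] at hL1 hL2 hL3 hL4 hL5 hL6 hcard ⊢
  have hZ0 : 0 < Z := by linarith
  have hZL : exp L = Z := by rw [← hLdef, exp_log hZ0]
  obtain ⟨hL800, hηL, hηL', hL6', hT1, hT2, hL4'⟩ := num_basic hη hη1 hZ hL3 hL6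
  have hL0 : 0 < L := by linarith
  have hL5' : 9 * log L ≤ η / 2 * L := by
    rw [div_mul_eq_mul_div, div_le_iff₀' hη] at hL5; linarith
  have hηZ : η * Z ≤ Z := mul_le_of_le_one_left hZ0.le (by linarith)
  have hy2' : 2 ≤ y := by exact_mod_cast (by linarith : (2 : ℝ) ≤ y)
  have hly : L ≤ log y := hLdef ▸ log_le_log hZ0 hy1
  have hVy : 0 < V y / (1 + η) := div_pos (V_pos y) (by linarith)
  have hkZ := num_k hη hZ0 hL0 hVy hly (le_trans (mul_le_mul_of_nonneg_right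
    (div_le_self (V_pos y).le (by linarith)) (by linarith)) (V_mul_log_le y))
  have hZ3 : 8000 ≤ Z ^ 3 := by
    have := pow_le_pow_left₀ (by norm_num) hZ 3
    linarith
  obtain ⟨W, hW1, hW2⟩ : ∃ W : ℕ, Z ^ 3 ≤ W ∧ (W : ℝ) ≤ Z ^ 4 := by
    refine ⟨⌈Z ^ 3⌉₊, Nat.le_ceil _, ?_⟩
    have h1 := (Nat.ceil_lt_add_one (by positivity : 0 ≤ Z ^ 3)).le
    have h2 : Z ^ 3 * 20 ≤ Z ^ 3 * Z := mul_le_mul_of_nonneg_left hZ (by positivity)
    have h3 : Z ^ 4 = Z ^ 3 * Z := by ring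
    linarith
  have hW0 : (0 : ℝ) < W := by linarith
  have hlW1 : 3 * L ≤ log W := by
    have := log_le_log (by positivity) hW1
    rwa [log_pow, hLdef] at this
  have hlW2 : log W ≤ 4 * L := by
    have := log_le_log hW0 hW2
    rwa [log_pow, hLdef] at this
  have hW2' : 2 ≤ W := by exact_mod_cast (by linarith : (2 : ℝ) ≤ W)
  have hyW : y ≤ W := by
    have : (y : ℝ) ≤ W := hy2.trans ((pow_le_pow_right₀ (by linarith) (by norm_num)).trans hW1)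
    exact_mod_cast this
  have hT0 : 0 < Z / L ^ 2 := by positivity
  have hE1 : (⌊exp (Z / L ^ 2)⌋₊ : ℝ) ≤ exp (Z / L ^ 2) := Nat.floor_le (exp_pos _).le
  have hWE : W ≤ ⌊exp (Z / L ^ 2)⌋₊ := by
    refine Nat.le_floor ?_
    rw [← log_le_iff_le_exp hW0]
    linarith
  have hWE' : (W : ℝ) ≤ ⌊exp (Z / L ^ 2)⌋₊ := by exact_mod_cast hWE
  have hlE : log ⌊exp (Z / L ^ 2)⌋₊ ≤ Z / L ^ 2 := by rwa [log_le_iff_le_exp (by linarith)]
  obtain ⟨A, hA1, hA2⟩ : ∃ A : ℕ, exp (L ^ 4) ≤ A ∧ (A : ℝ) + 1 ≤ exp (2 * L ^ 4) := by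
    refine ⟨⌈exp (L ^ 4)⌉₊, Nat.le_ceil _, ?_⟩
    have h1 := (Nat.ceil_lt_add_one (exp_pos (L ^ 4)).le).le
    have h2 := add_one_le_exp (L ^ 4)
    have h3 : exp (L ^ 4) * 2 ≤ exp (L ^ 4) * exp (L ^ 4) :=
      mul_le_mul_of_nonneg_left (by linarith) (exp_pos _).le
    rw [two_mul, exp_add]
    linarith
  have hA0' : (1 : ℝ) ≤ A := (one_le_exp (by positivity : 0 ≤ L ^ 4)).trans hA1
  have hA0 : 1 ≤ A := by exact_mod_cast hA0'
  have hAE : A ≤ ⌊exp (Z / L ^ 2)⌋₊ := Nat.le_floor (by linarith [exp_le_exp.mpr hT1])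
  have hVW := V_pos W
  obtain ⟨hVW', hLm1⟩ := num_Lm hη1 hL0 hc0 hVW (hc W hW2') hlW2
  have hη' : 0 < 1 - η := by linarith
  have hLm0 : 0 < 1 / ((1 - η) * V W * L) := by positivity
  have hj1 : (⌊η * Z / (5 * L)⌋₊ : ℝ) ≤ η * Z / (5 * L) := Nat.floor_le (by positivity)
  have hj2 : η * Z / (5 * L) - 1 ≤ ⌊η * Z / (5 * L)⌋₊ := by
    linarith [Nat.lt_floor_add_one (η * Z / (5 * L))]
  have hM1 : (1 : ℝ) ≤ W * Z := one_le_mul_of_one_le_of_one_le (by linarith) (by linarith)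
  obtain ⟨t, ht, hco, hcov⟩ := cover_finite_K (K := K) (U := V W / (V y / (1 + η))) (y := y) (W := W) (E := ⌊exp (Z / L ^ 2)⌋₊) (A := A)
    (P := P) (b := b) (N := N) (j := ⌊η * Z / (5 * L)⌋₊) (t₁ := L ^ 2) (t₂ := L ^ 4)
    (T := Z / L ^ 2) (L := 1 / ((1 - η) * V W * L)) (θ := η / (Z / L ^ 2)) (ε := η)
    (κ := η) (ρ := (1 / 2 - 3 * η) * Z) (M := W * Z) (σ₁ := 4) (σ₂ := L + 1)
    hK0 hPK (prod_not_dvd_le hK0 (by omega) hyW hη (by linarith)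
      (hω.trans (mul_le_mul_of_nonneg_left hy1 (by positivity))))
    h𝒮 hcard hyW hW2' hWE hP hA0 hAE (by positivity) (by positivity) (by linarith) hlE hLm0
    (by
      refine le_trans ?_
        (num_Lambda hL800 hZ hLdef hc0 hVW hVW' hL1 hL5' hW1 (Nat.lt_floor_add_one _) hA0' hA2)
      have h1 := num_extra hη hZ (by linarith) hZL hc0 hVW (hc W hW2') hlW2 hL1 hW1 hω
      rw [one_div_one_div, one_div_one_div]
      refine add_le_add le_rfl (mul_le_mul_of_nonneg_left (add_le_add le_rfl ?_)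
        (inv_nonneg.mpr hVW.le))
      linarith)
    (by positivity) (by rw [div_mul_cancel₀ _ hT0.ne']) (by linarith) hη.le
    (by linarith [log_two_lt_d9, mul_le_mul_of_nonneg_left hlW1 hη.le])
    (mul_nonneg (by linarith) hZ0.le) hM1
    (by
      refine (sum_inv_le_short hC hy2' hyW).trans ?_
      rw [div_le_iff₀ (by linarith)]
      linarith)
    (by
      refine (sum_inv_le hC hW2' hWE).trans ?_
      have h1 : log (log ⌊exp (Z / L ^ 2)⌋₊) ≤ L :=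
        (log_le_log (log_pos (by linarith)) (by linarith)).trans hLdef.le
      have h2 : 0 ≤ log (log W) := log_nonneg (by linarith)
      have h3 : 2 * C / log W ≤ 1 := by
        rw [div_le_one (by linarith)]; linarith
      linarith)
    (num_kappa hη hη1 hZ hkZ hW1 (by linarith))
    (num_tau hη hη1 hZ hL0 hZL hVy hVW hηL hT2 hkZ)
    (num_beta hη hη1 hZ (by linarith) hZL hc0 hZ1 hkZ hW1 (by linarith) hLm0 hLm1)
    (num_err hη hZ (by linarith) hZL hL4 hL6' hkZ hLm0 hLm1 hj2)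
    (by
      refine (mul_lt_mul_of_pos_right (num_N hη hZ hL800 hZL hηL' hL6' hkZ hW0 hW2 hj1)
        (by positivity)).trans_le (le_trans (le_of_eq ?_)
          (mul_le_mul hN (half_pow_le K) (by positivity) (Nat.cast_nonneg _)))
      rw [mul_assoc, ← mul_pow]
      norm_num)
  refine ⟨t, ht, hco, fun n hn => ?_⟩
  obtain ⟨p, h1, h2, h3⟩ := hcov n hn
  exact ⟨p, h1, le_trans (by exact_mod_cast h2) hE1, h3⟩

theorem cover_asymp_K {η : ℝ} (hη : 0 < η) (hη1 : η ≤ 1 / 20) : ∀ᶠ Z : ℝ in atTop,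
    ∀ y : ℕ, Z ≤ y → y ≤ Z ^ 2 → ∀ 𝒮 ⊆ range y,
      (𝒮.card : ℝ) ≤ (1 / 2 - 10 * η) * Z * log Z * (V y / (1 + η)) →
      ∀ P K : ℕ, K ≠ 0 → Nat.Coprime P K → (K.primeFactors.card : ℝ) ≤ η / 2 * Z →
      (∀ p : ℕ, p.Prime → p ∣ P → p ≤ y) → ∀ b N : ℕ, exp Z * 4 ^ K.primeFactors.card ≤ N →
      ∃ t < N, Nat.Coprime (b + P * t) K ∧
        ∀ n ∈ 𝒮, ∃ p : ℕ, p.Prime ∧ (p : ℝ) ≤ exp (Z / log Z ^ 2) ∧ p ∣ b + P * t + n * K := by
  obtain ⟨C, -, hC⟩ := mertens_one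
  obtain ⟨c, hc0, hc⟩ := V_lower
  filter_upwards [eventually_ge_atTop 20, eventually_ge_atTop (10 * (8 / c * 3) ^ 2),
    tendsto_log_atTop.eventually_ge_atTop (8 / c), tendsto_log_atTop.eventually_ge_atTop (2 * C),
    tendsto_log_atTop.eventually_ge_atTop (2 / η ^ 2),
    tendsto_log_atTop.eventually_ge_atTop (10 * exp 32 * (8 / c) / η),
    tendsto_log_atTop.eventually (ev_pow_log (18 / η) 1), ev_pow_log (30 / η) 6]
    with Z h1 h2 h3 h4 h5 h6 h7 h8 y hy1 hy2 𝒮 h𝒮 hcard P K hK0 hPK hω hP b N hN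
  exact cover_at_K hC hc0 hc hη hη1 h1 h2 h3 h4 h5 h6 (by simpa using h7) h8 hy1 hy2 h𝒮 hcard
    hK0 hPK hω hP b hN

end Pool.Agent.P.MP_3bc45c_nt
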