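import Pool.Agent.P.MP_3bc45c_nt.APAssemble

/-!
The Erdos-Rankin choice of classes for a modulus with few prime factors.
-/

open Finset Real Filter

namespace Pool.Agent.P.MP_3bc45c_nt

theorem rankin_core {η : ℝ} (hη : 0 < η) (hη1 : η ≤ 1 / 20) : ∀ᶠ Z : ℝ in atTop,
    ∀ y : ℕ, Z ≤ y → y ≤ Z * log Z ^ 2 → ∃ z : ℕ, z ≤ ⌊η * Z / 4⌋₊ ∧
      exp (log Z / ((1 + 3 * η) * log (log Z) / log (log (log Z)))) ≤ z ∧
      ((smoothUpTo y z).card : ℝ) + y * ∑ q ∈ primesIoc ⌊η * Z / 4⌋₊ y, 1 / (q : ℝ)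
        ≤ (2 + 5 * η) * (y * (log (log Z) / log Z)) ∧
      V z ≤ V y * ((1 + η) * ((1 + 3 * η) * log (log Z) / log (log (log Z))) * (1 + η)) := by
  obtain ⟨C, hC0, hC⟩ := mertens_one
  obtain ⟨C', hC'0, hC'⟩ := card_smooth_le
  have t1 : Tendsto (fun Z : ℝ => log Z) atTop atTop := tendsto_log_atTop
  have t2 : Tendsto (fun Z : ℝ => log (log Z)) atTop atTop := t1.comp t1
  have t3 : Tendsto (fun Z : ℝ => log (log (log Z))) atTop atTop := t1.comp t2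
  filter_upwards [eventually_ge_atTop (8 / η), ev_pow_log 16 2,
    t1.eventually_ge_atTop 4, t1.eventually_ge_atTop (log (8 / η) / η),
    t1.eventually (ev_pow_log ((2 * C + 1) * 4 / η) 1), t1.eventually (ev_pow_log (8 / η) 1),
    t2.eventually_ge_atTop ((log (8 / η) + 2 * C) / η), t2.eventually_ge_atTop ((1 + 2 * C') / η),
    t2.eventually (ev_pow_log 4 1), t3.eventually_ge_atTop 1,
    t3.eventually_ge_atTop (log (20 / η) / η)]
    with Z hZ hZ2 hL4 hLK hLC hL8 hL₂K hL₂C hL₂4 hL₃1 hL₃ y hy1 hy2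
  simp only [pow_one] at hLC hL8 hL₂4
  obtain ⟨L, hLdef⟩ : ∃ L, log Z = L := ⟨_, rfl⟩
  simp only [hLdef] at hZ2 hL4 hLK hLC hL8 hL₂K hL₂C hL₂4 hL₃1 hL₃ hy2 ⊢
  obtain ⟨L₂, hL₂def⟩ : ∃ L₂, log L = L₂ := ⟨_, rfl⟩
  simp only [hL₂def] at hLC hL8 hL₂K hL₂C hL₂4 hL₃1 hL₃ ⊢
  obtain ⟨L₃, hL₃def⟩ : ∃ L₃, log L₂ = L₃ := ⟨_, rfl⟩
  simp only [hL₃def] at hL₂4 hL₃1 hL₃ ⊢
  have h8 : 160 ≤ 8 / η := by rw [le_div_iff₀ hη]; linarith
  have hZ0 : 0 < Z := by linarith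
  have hL0 : 0 < L := by linarith
  have hL₂0 : 0 < L₂ := by linarith
  have hZL : exp L = Z := by rw [← hLdef, exp_log hZ0]
  have hLL : exp L₂ = L := by rw [← hL₂def, exp_log hL0]
  have hLL₂ : exp L₃ = L₂ := by rw [← hL₃def, exp_log hL₂0]
  have hL8' : 8 * L₂ ≤ η * L := by
    rw [div_mul_eq_mul_div, div_le_iff₀' hη] at hL8; exact hL8
  have hηL : η * L ≤ L / 20 := by linarith [mul_le_mul_of_nonneg_right hη1 hL0.le]
  obtain ⟨u, hu⟩ : ∃ u, (1 + 3 * η) * L₂ / L₃ = u := ⟨_, rfl⟩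
  have hu4 : 4 ≤ u := by
    rw [← hu, le_div_iff₀ (by linarith)]
    linarith [mul_pos hη hL₂0]
  have hu2 : u ≤ 2 * L₂ := by
    rw [← hu]
    refine (div_le_self (by positivity) hL₃1).trans ?_
    exact mul_le_mul_of_nonneg_right (by linarith) hL₂0.le
  have hu0 : 0 < u := by linarith
  have hLu : 1 ≤ η * (L / u) := by
    rw [← mul_div_assoc, le_div_iff₀ hu0]; linarith
  have hLu' : 20 ≤ L / u := by
    have : η * (L / u) ≤ 1 / 20 * (L / u) := mul_le_mul_of_nonneg_right hη1 (by positivity)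
    linarith
  have hLu4 : L / u ≤ L / 4 := div_le_div_of_nonneg_left hL0.le (by norm_num) hu4
  obtain ⟨z, hz1, hz2⟩ : ∃ z : ℕ, exp (L / u) ≤ z ∧ (z : ℝ) ≤ exp (L / u + 1) := by
    refine ⟨⌈exp (L / u)⌉₊, Nat.le_ceil _, ?_⟩
    have h1 := (Nat.ceil_lt_add_one (exp_pos (L / u)).le).le
    have h2 : exp (L / u) * 2 ≤ exp (L / u) * exp 1 :=
      mul_le_mul_of_nonneg_left (by linarith [add_one_le_exp (1 : ℝ)]) (exp_pos _).le
    have h3 := one_le_exp (show 0 ≤ L / u by linarith)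
    rw [exp_add]
    linarith
  have hz0 : (2 : ℝ) ≤ z := by linarith [add_one_le_exp (L / u)]
  have hz2' : 2 ≤ z := by exact_mod_cast hz0
  have hlz1 : L / u ≤ log z := by rwa [le_log_iff_exp_le (by linarith)]
  have hlz2 : log z ≤ L / u + 1 := by rwa [log_le_iff_le_exp (by linarith)]
  have hx1 : η * Z / 8 ≤ ⌊η * Z / 4⌋₊ := by
    rw [div_le_iff₀' hη] at hZ
    linarith [Nat.lt_floor_add_one (η * Z / 4)]
  have hx2 : (⌊η * Z / 4⌋₊ : ℝ) ≤ η * Z / 4 := Nat.floor_le (by positivity)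
  have hx0 : (0 : ℝ) < ⌊η * Z / 4⌋₊ := lt_of_lt_of_le (by positivity) hx1
  have hlx : L - log (8 / η) ≤ log ⌊η * Z / 4⌋₊ := by
    refine le_trans (le_of_eq ?_) (log_le_log (by positivity) hx1)
    rw [← hLdef, ← log_div hZ0.ne' (by positivity)]
    congr 1
    field_simp
  have hK : log (8 / η) ≤ η * L := by rwa [div_le_iff₀' hη] at hLK
  have hzx : z ≤ ⌊η * Z / 4⌋₊ := by
    have : log (z : ℝ) ≤ log ⌊η * Z / 4⌋₊ := by linarith
    exact_mod_cast (log_le_log_iff (by linarith) hx0).mp this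
  have hxy : ⌊η * Z / 4⌋₊ ≤ y := by
    have : (⌊η * Z / 4⌋₊ : ℝ) ≤ y := by
      linarith [mul_le_mul_of_nonneg_right hη1 hZ0.le]
    exact_mod_cast this
  have hy0 : (0 : ℝ) < y := by linarith
  have hly : log y ≤ L + 2 * L₂ := by
    have := log_le_log hy0 hy2
    rwa [log_mul hZ0.ne' (by positivity), log_pow, hLdef, hL₂def] at this
  obtain ⟨y₀, hy₀1, hy₀2⟩ : ∃ y₀ : ℕ, exp (L / 2) ≤ y₀ ∧ (y₀ : ℝ) ≤ y / L := by
    refine ⟨⌈exp (L / 2)⌉₊, Nat.le_ceil _, ?_⟩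
    have h1 := (Nat.ceil_lt_add_one (exp_pos (L / 2)).le).le
    have h2 := one_le_exp (show 0 ≤ L / 2 by linarith)
    have h3 : exp (L / 2) * exp (L / 2) = Z := by rw [← exp_add, add_halves, hZL]
    have h4 : 4 * L ≤ exp (L / 2) := by
      refine le_of_sq_le_sq ?_ (exp_pos _).le
      rw [sq (exp _), h3]
      linarith
    rw [le_div_iff₀ hL0]
    nlinarith
  have hy₀0 : (2 : ℝ) ≤ y₀ := by linarith [add_one_le_exp (L / 2)]
  have hlz0 : 0 < log (z : ℝ) := by linarith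
  have hzτ : (z : ℝ) ^ ((1 - η) * L₃ / log z) = exp ((1 - η) * L₃) := by
    rw [rpow_def_of_pos (by linarith), mul_div_cancel₀ _ hlz0.ne']
  have hsm := hC' ((1 - η) * L₃ / log z) y z y₀
    (div_nonneg (mul_nonneg (by linarith) (by linarith)) hlz0.le)
    (by
      rw [div_le_iff₀ hlz0]
      have h1 : L₃ * u = (1 + 3 * η) * L₂ := by rw [← hu]; field_simp
      have h2 : L₃ ≤ 1 / 4 * (L / u) := by
        rw [← mul_div_assoc, le_div_iff₀ hu0, h1]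
        linarith [mul_le_mul_of_nonneg_right hη1 hL₂0.le]
      linarith [mul_pos hη (show 0 < L₃ by linarith)])
    hz2' (by exact_mod_cast hy₀0)
  rw [hzτ] at hsm
  have h1 := num_smooth hη hη1 hLL hL₂0 hLL₂ hL₃1 hC'0
    (by rw [← log_le_iff_le_exp (by positivity)]; rwa [div_le_iff₀' hη] at hL₃) hL₂C
    (hZL ▸ hy1) hlz0 (by rw [hu]; linarith) (by linarith)
    (by rwa [le_log_iff_exp_le (by linarith)]) hy₀2 hsm
  have h2 := num_prime hη hη1 hL₂0 hL0 hK (by rwa [div_le_iff₀' hη] at hL₂K) hly hlx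
    (sum_inv_le_short hC (hz2'.trans hzx) hxy)
  have h3 := num_ratio (C := C) (ly := log y) (z := z) hη hη1 hL0 hu0 hC0 (by linarith) hlz1
    (by linarith [log_le_sub_one_of_pos (show (0 : ℝ) < z by linarith)])
    (by
      rw [div_mul_eq_mul_div, div_le_iff₀' hη] at hLC
      linarith [mul_le_mul_of_nonneg_left hu2 (show 0 ≤ (2 * C + 1) * 2 by positivity)])
  have h4 := (V_le_mul hC hz2' (hzx.trans hxy)).trans
    (mul_le_mul_of_nonneg_left h3 (V_pos y).le)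
  have h5 : ((smoothUpTo y z).card : ℝ) + y * ∑ q ∈ primesIoc ⌊η * Z / 4⌋₊ y, 1 / (q : ℝ)
      ≤ (2 + 5 * η) * (y * (L₂ / L)) := by
    linarith [mul_le_mul_of_nonneg_left h2 hy0.le]
  exact ⟨z, hzx, hu ▸ hz1, h5, hu ▸ h4⟩

theorem rankin_classes {z x : ℕ} (hz : 0 < z) (J K : ℕ) (hK0 : K ≠ 0) :
    ∃ c : ℕ → ℕ, (((range J).filter (fun n => ∀ p ∈ (primesIoc 0 x).filter (fun p => ¬ p ∣ K),
        ¬ p ∣ c p + n)).card : ℝ) * ∏ r ∈ K.primeFactors, (1 - 1 / (r : ℝ))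
      ≤ ((smoothUpTo J z).card + J * ∑ q ∈ primesIoc x J, 1 / (q : ℝ)
          + J * (K.primeFactors.card / z)) * V (min z x) := by
  obtain ⟨U, hU⟩ : ∃ U, (range J).filter (fun n => ∀ p ∈ primesIoc z x, ¬ p ∣ K → ¬ p ∣ 1 + n) = U :=
    ⟨_, rfl⟩
  obtain ⟨c, hc⟩ := greedy ((primesIoc 0 (min z x)).filter (fun p => ¬ p ∣ K))
    (fun p hp => (mem_primesIoc.1 (mem_filter.1 hp).1).1) U
  refine ⟨fun p => if p ≤ z then c p else 1, ?_⟩
  have hz0 : (0 : ℝ) < z := by exact_mod_cast hz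
  have hUc : (U.card : ℝ) ≤ (smoothUpTo J z).card + J * ∑ q ∈ primesIoc x J, 1 / (q : ℝ)
      + J * (K.primeFactors.card / z) := by
    have h1 : U.image (1 + ·) ⊆ (Ioc 0 J).filter (fun n => ∀ p ∈ primesIoc z x, ¬ p ∣ n) ∪
        (K.primeFactors.filter (z < ·)).biUnion (fun q => (Ioc 0 J).filter (q ∣ ·)) := by
      intro m hm
      obtain ⟨n, hn, rfl⟩ := mem_image.1 hm
      rw [← hU] at hn
      obtain ⟨h2, h3⟩ := mem_filter.1 hn
      have h4 : 1 + n ∈ Ioc 0 J := mem_Ioc.2 ⟨by omega, by have := mem_range.1 h2; omega⟩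
      by_cases h : ∀ p ∈ primesIoc z x, ¬ p ∣ 1 + n
      · exact mem_union_left _ (mem_filter.2 ⟨h4, h⟩)
      · push Not at h
        obtain ⟨p, hp, hd⟩ := h
        have hpK : p ∣ K := by
          by_contra h'
          exact h3 p hp h' hd
        exact mem_union_right _ (mem_biUnion.2 ⟨p, mem_filter.2 ⟨Nat.mem_primeFactors.2
          ⟨(mem_primesIoc.1 hp).2.2, hpK, hK0⟩, (mem_primesIoc.1 hp).1⟩, mem_filter.2 ⟨h4, hd⟩⟩)
    have h2 := (card_le_card h1).trans ((card_union_le _ _).trans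
      (Nat.add_le_add_left card_biUnion_le _))
    rw [card_image_of_injective _ (add_right_injective 1)] at h2
    refine (Nat.cast_le.mpr h2).trans ?_
    push_cast
    refine add_le_add (card_unsieved_le J z x) ?_
    refine (sum_le_card_nsmul _ _ ((J : ℝ) / z) fun q hq => ?_).trans ?_
    · rw [Nat.Ioc_filter_dvd_card_eq_div]
      refine Nat.cast_div_le.trans (div_le_div_of_nonneg_left (Nat.cast_nonneg _) hz0 ?_)
      exact_mod_cast (mem_filter.1 hq).2.le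
    · rw [nsmul_eq_mul, mul_div_left_comm]
      gcongr
      exact filter_subset _ _
  have hρ0 : 0 ≤ ∏ r ∈ K.primeFactors, (1 - 1 / (r : ℝ)) :=
    prod_nonneg fun r hr => (one_sub_inv_pos (Nat.prime_of_mem_primeFactors hr)).le
  have h3 : (range J).filter (fun n => ∀ p ∈ (primesIoc 0 x).filter (fun p => ¬ p ∣ K),
      ¬ p ∣ (if p ≤ z then c p else 1) + n) ⊆
      U.filter (fun n => ∀ p ∈ (primesIoc 0 (min z x)).filter (fun p => ¬ p ∣ K), ¬ p ∣ c p + n) := by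
    intro n hn
    obtain ⟨h5, h6⟩ := mem_filter.mp hn
    rw [← hU]
    refine mem_filter.mpr ⟨mem_filter.mpr ⟨h5, fun p hp hpK => ?_⟩, fun p hp => ?_⟩
    · obtain ⟨h7, h8, h9⟩ := mem_primesIoc.mp hp
      have := h6 p (mem_filter.2 ⟨mem_primesIoc.mpr ⟨h9.pos, h8, h9⟩, hpK⟩)
      rwa [if_neg (not_le.mpr h7)] at this
    · obtain ⟨hp, hpK⟩ := mem_filter.1 hp
      obtain ⟨h7, h8, h9⟩ := mem_primesIoc.mp hp
      have := h6 p (mem_filter.2 ⟨mem_primesIoc.mpr ⟨h7, h8.trans (min_le_right _ _), h9⟩, hpK⟩)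
      rwa [if_pos (h8.trans (min_le_left _ _))] at this
  refine (mul_le_mul_of_nonneg_right ((Nat.cast_le.2 (card_le_card h3)).trans hc) hρ0).trans ?_
  rw [mul_assoc, mul_comm _ (∏ r ∈ K.primeFactors, _)]
  refine mul_le_mul hUc (rho_mul_le K _ hK0) (mul_nonneg hρ0 (prod_nonneg fun p hp =>
    (one_sub_inv_pos (mem_primesIoc.1 (mem_filter.1 hp).1).2.2).le)) ((Nat.cast_nonneg _).trans hUc)

theorem rho_lower {K x : ℕ} (hK0 : K ≠ 0) (hx : 0 < x) :
    V x * (1 - (K.primeFactors.card : ℝ) / x) ≤ ∏ r ∈ K.primeFactors, (1 - 1 / (r : ℝ)) := by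
  have h1 := prod_dvd_lower (W := K) hK0 hx
  rw [← prod_filter_mul_prod_filter_not K.primeFactors (fun r => r ≤ x)]
  have h2 : K.primeFactors.filter (fun r => ¬ r ≤ x) = (primesIoc x K).filter (fun l => l ∣ K) := by
    ext r
    simp only [mem_filter, Nat.mem_primeFactors, mem_primesIoc, not_le]
    exact ⟨fun h => ⟨⟨h.2, Nat.le_of_dvd (Nat.pos_of_ne_zero hK0) h.1.2.1, h.1.1⟩, h.1.2.1⟩,
      fun h => ⟨⟨h.1.2.2, h.2, hK0⟩, h.1.1⟩⟩
  rw [h2]
  have h3 : V x ≤ ∏ r ∈ K.primeFactors.filter (fun r => r ≤ x), (1 - 1 / (r : ℝ)) := by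
    refine prod_le_prod_of_subset_of_le_one (fun r hr => ?_)
      (fun l hl => (one_sub_inv_pos (mem_primesIoc.1 hl).2.2).le) fun l _ _ => ?_
    · have h := Nat.prime_of_mem_primeFactors (mem_filter.1 hr).1
      exact mem_primesIoc.2 ⟨h.pos, (mem_filter.1 hr).2, h⟩
    · have : (0 : ℝ) ≤ 1 / (l : ℝ) := by positivity
      linarith
  exact (mul_le_mul_of_nonneg_left h1 (V_pos x).le).trans (mul_le_mul_of_nonneg_right h3
    (prod_nonneg fun l hl => (one_sub_inv_pos (mem_primesIoc.1 (mem_filter.1 hl).1).2.2).le))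

end Pool.Agent.P.MP_3bc45c_nt
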