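import Pool.Agent.P.MP_3bc45c_nt.Abstract

/-!
The one-form amplitude `a(r) = - lambda / log r` and the bounds it satisfies.
-/

open Finset Real

namespace Pool.Agent.P.MP_3bc45c_nt

theorem exists_amplitude {ι : Type} [Fintype ι] [DecidableEq ι] {p h : ι → ℝ}
    {h₀ t₁ T L θ ε κ : ℝ} (hph : ∀ l, p l = exp (- h l)) (hh : ∀ l, h₀ ≤ h l)
    (ht₁ : 0 < t₁) (hT : 0 ≤ T) (hL : 0 < L)
    (hΛ : 1 / L ≤ ∑ D : Finset ι, if t₁ < lv h D ∧ lv h D ≤ T then (∏ l ∈ D, p l) / lv h D else 0)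
    (hθ : 0 ≤ θ) (hθT : θ * T ≤ ε) (hε : ε ≤ 1) (hκ : 0 ≤ κ) (hκh : log 2 ≤ κ * h₀) :
    ∃ a : Finset ι → ℝ, a ∅ = 1 ∧ (∀ D, D ≠ ∅ → a D ≤ 0) ∧ ∑ D, a D * ∏ l ∈ D, p l = 0 ∧
      (∀ D, a D ≠ 0 → lv h D ≤ T) ∧
      (∀ l, ∑ D ∈ univ.filter (fun D : Finset ι => l ∈ D), |a D| * ∏ l ∈ D, p l
        ≤ L / t₁ * (exp (- h₀) * exp (∑ l, p l))) ∧
      ∑ D, (a D ^ 2 * ∏ l ∈ D, p l) * (exp (θ * lv h D) - 1) ≤ θ * (1 + ε) * L ∧
      ∑ D ∈ univ.erase ∅, a D ^ 2 * ∏ l ∈ D, p l ≤ L / t₁ ∧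
      ∑ D, |a D| * 2 ^ D.card * exp (-(1 + 2 * κ) * lv h D) ≤ 1 + exp (-(κ * t₁)) := by
  set Λ := ∑ D : Finset ι, if t₁ < lv h D ∧ lv h D ≤ T then (∏ l ∈ D, p l) / lv h D else 0
    with hΛdef
  have hΛ0 : 0 < Λ := lt_of_lt_of_le (by positivity) hΛ
  have hlam : Λ⁻¹ ≤ L := by
    rw [inv_le_comm₀ hΛ0 hL, ← one_div]
    exact hΛ
  have hp : ∀ l, 0 ≤ p l := fun l => by rw [hph]; exact (exp_pos _).le
  have hP : ∀ D : Finset ι, 0 ≤ ∏ l ∈ D, p l := fun D => prod_nonneg fun l _ => hp l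
  set g : Finset ι → ℝ := fun D => if t₁ < lv h D ∧ lv h D ≤ T then Λ⁻¹ / lv h D else 0 with hg
  have hg0 : ∀ D, 0 ≤ g D := fun D => by
    simp only [hg]
    split_ifs with hD
    · exact div_nonneg (inv_nonneg.mpr hΛ0.le) (ht₁.le.trans hD.1.le)
    · exact le_rfl
  have hge : g ∅ = 0 := by
    simp only [hg]
    rw [if_neg]
    simp [lv, ht₁.le]
  have hg1 : ∑ D, g D * ∏ l ∈ D, p l = 1 := by
    rw [← inv_mul_cancel₀ hΛ0.ne', hΛdef, mul_sum]
    refine sum_congr rfl fun D _ => ?_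
    simp only [hg]
    split_ifs
    · ring
    · simp
  have hgle : ∀ D, g D ≤ L / t₁ := fun D => by
    simp only [hg]
    split_ifs with hD
    · exact div_le_div₀ hL.le hlam ht₁ hD.1.le
    · positivity
  have hgl : ∀ D, g D * lv h D ≤ L := fun D => by
    simp only [hg]
    split_ifs with hD
    · rw [div_mul_cancel₀ _ (ht₁.trans hD.1).ne']
      exact hlam
    · simpa using hL.le
  have hgs : ∀ D, g D ≠ 0 → t₁ < lv h D ∧ lv h D ≤ T := fun D hD => by
    by_contra h'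
    exact hD (by simp only [hg]; rw [if_neg h'])
  have hgc : ∀ c : ℝ, c = ∑ D, c * (g D * ∏ l ∈ D, p l) := fun c => by
    rw [← mul_sum, hg1, mul_one]
  refine ⟨fun D => if D = ∅ then 1 else - g D, by simp, fun D hD => by simp [hD, hg0 D], ?_,
    ?_, ?_, ?_, ?_, ?_⟩
  · have : ∀ D : Finset ι, (if D = ∅ then 1 else - g D) * ∏ l ∈ D, p l
        = (if D = ∅ then 1 else 0) - g D * ∏ l ∈ D, p l := fun D => by
      by_cases hD : D = ∅ <;> simp [hD, hge]
    simp only [this, sum_sub_distrib, hg1]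
    simp
  · intro D hD
    by_cases hD0 : D = ∅
    · simpa [hD0, lv] using hT
    · exact (hgs D (by simpa [hD0] using hD)).2
  · intro l
    have h1 : ∑ D ∈ univ.filter (fun D : Finset ι => l ∈ D), ∏ l ∈ D, p l
        ≤ exp (- h₀) * exp (∑ l, p l) := by
      have h2 : ∑ D ∈ univ.filter (fun D : Finset ι => l ∈ D), ∏ l ∈ D, p l
          ≤ p l * ∑ D : Finset ι, ∏ l ∈ D, p l := by
        rw [mul_sum, ← sum_filter_add_sum_filter_not univ (fun D : Finset ι => l ∈ D)]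
        refine le_add_of_nonneg_of_le (sum_nonneg fun D _ => mul_nonneg (hp l) (hP D))
          (le_of_eq ?_)
        refine sum_nbij' (fun D => D.erase l) (fun D => insert l D) (by simp) (by simp) ?_ ?_ ?_
        · intro D hD
          exact insert_erase (mem_filter.mp hD).2
        · intro D hD
          exact erase_insert (mem_filter.mp hD).2
        · intro D hD
          exact (mul_prod_erase D p (mem_filter.mp hD).2).symm
      refine h2.trans (mul_le_mul ?_ ?_ (sum_nonneg fun D _ => hP D) (exp_pos _).le)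
      · rw [hph]
        exact exp_le_exp.mpr (neg_le_neg (hh l))
      · rw [← powerset_univ, ← prod_one_add, exp_sum]
        exact prod_le_prod (fun l _ => by linarith [hp l])
          fun l _ => by linarith [add_one_le_exp (p l)]
    refine le_trans ?_ (mul_le_mul_of_nonneg_left h1 (by positivity))
    rw [mul_sum]
    refine sum_le_sum fun D hD => mul_le_mul_of_nonneg_right ?_ (hP D)
    have hD0 : D ≠ ∅ := ne_empty_of_mem (mem_filter.mp hD).2
    simp only [hD0, if_false, abs_neg, abs_of_nonneg (hg0 D)]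
    exact hgle D
  · rw [hgc (θ * (1 + ε) * L)]
    refine sum_le_sum fun D _ => ?_
    by_cases hD0 : D = ∅
    · simp [hD0, lv, hge]
    simp only [hD0, if_false]
    by_cases hgD : g D = 0
    · simp [hgD]
    obtain ⟨h1, h2⟩ := hgs D hgD
    have h3 : 0 ≤ θ * lv h D := mul_nonneg hθ (ht₁.le.trans h1.le)
    have h4 : θ * lv h D ≤ ε := (mul_le_mul_of_nonneg_left h2 hθ).trans hθT
    have h5 : exp (θ * lv h D) - 1 ≤ θ * lv h D * (1 + ε) := by
      have := (abs_le.mp (abs_exp_sub_one_sub_id_le (x := θ * lv h D)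
        (by rw [abs_of_nonneg h3]; linarith))).2
      nlinarith
    have h6 := mul_nonneg (hg0 D) (hP D)
    calc ((- g D) ^ 2 * ∏ l ∈ D, p l) * (exp (θ * lv h D) - 1)
        ≤ ((- g D) ^ 2 * ∏ l ∈ D, p l) * (θ * lv h D * (1 + ε)) :=
          mul_le_mul_of_nonneg_left h5 (mul_nonneg (sq_nonneg _) (hP D))
      _ = θ * (1 + ε) * (g D * lv h D) * (g D * ∏ l ∈ D, p l) := by ring
      _ ≤ _ := mul_le_mul_of_nonneg_right (mul_le_mul_of_nonneg_left (hgl D)
          (mul_nonneg hθ (by linarith))) h6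
  · refine le_trans ?_ (hgc (L / t₁)).ge
    refine le_trans (sum_le_sum fun D hD => ?_) (sum_le_sum_of_subset_of_nonneg
      (erase_subset ∅ univ) fun D _ _ => mul_nonneg (by positivity) (mul_nonneg (hg0 D) (hP D)))
    simp only [ne_of_mem_erase hD, if_false]
    calc (- g D) ^ 2 * ∏ l ∈ D, p l = g D * (g D * ∏ l ∈ D, p l) := by ring
      _ ≤ _ := mul_le_mul_of_nonneg_right (hgle D) (mul_nonneg (hg0 D) (hP D))
  · have : 1 + exp (-(κ * t₁)) = ∑ D : Finset ι, ((if D = ∅ then 1 else 0) +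
        exp (-(κ * t₁)) * (g D * ∏ l ∈ D, p l)) := by
      rw [sum_add_distrib, ← hgc]
      simp
    rw [this]
    refine sum_le_sum fun D _ => ?_
    by_cases hD0 : D = ∅
    · simp [hD0, lv, hge]
    simp only [hD0, if_false, abs_neg, abs_of_nonneg (hg0 D), zero_add]
    by_cases hgD : g D = 0
    · simp [hgD]
    obtain ⟨h1, -⟩ := hgs D hgD
    have h3 : ∏ l ∈ D, p l = exp (- lv h D) := by
      rw [lv, ← sum_neg_distrib, exp_sum]
      exact prod_congr rfl fun l _ => hph l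
    have h4 : (2 : ℝ) ^ D.card ≤ exp (κ * lv h D) := by
      rw [← exp_log (by norm_num : (0 : ℝ) < 2), ← exp_nat_mul]
      refine exp_le_exp.mpr ?_
      have h5 := card_nsmul_le_sum D h h₀ fun l _ => hh l
      rw [nsmul_eq_mul] at h5
      calc (D.card : ℝ) * log 2 ≤ D.card * (κ * h₀) :=
            mul_le_mul_of_nonneg_left hκh (Nat.cast_nonneg _)
        _ = κ * (D.card * h₀) := by ring
        _ ≤ _ := mul_le_mul_of_nonneg_left h5 hκ
    rw [h3, mul_left_comm, ← exp_add, mul_assoc]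
    refine mul_le_mul_of_nonneg_left ?_ (hg0 D)
    refine (mul_le_mul_of_nonneg_right h4 (exp_pos _).le).trans ?_
    rw [← exp_add]
    refine exp_le_exp.mpr ?_
    nlinarith [mul_le_mul_of_nonneg_left h1.le hκ]

end Pool.Agent.P.MP_3bc45c_nt
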