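import Pool.Agent.P.MP_3bc45c_nt.Model

/-!
Counting solutions of simultaneous congruences: each monomial has discrepancy at most one.
-/

open Finset

namespace Pool.Agent.P.MP_3bc45c_nt

theorem exists_class {q P : ℕ} (hq : q.Prime) (hP : ¬ q ∣ P) (a : ℕ) :
    ∃ c : ℕ, ∀ t : ℕ, q ∣ a + P * t ↔ t ≡ c [MOD q] := by
  have := Fact.mk hq
  have hP' : (P : ZMod q) ≠ 0 := fun h => hP ((ZMod.natCast_eq_zero_iff P q).mp h)
  refine ⟨(-(a : ZMod q) * (P : ZMod q)⁻¹).val, fun t => ?_⟩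
  rw [← ZMod.natCast_eq_zero_iff, ← ZMod.natCast_eq_natCast_iff, ZMod.natCast_zmod_val]
  push_cast
  constructor
  · intro h
    field_simp
    linear_combination h
  · intro h
    rw [h]
    field_simp
    ring

theorem count_congr {κ : Type} (D : Finset κ) (q : κ → ℕ) (hinj : Function.Injective q)
    (hq : ∀ l, (q l).Prime) {P : ℕ} (hP : ∀ l, ¬ q l ∣ P) (a : κ → ℕ) (N : ℕ) :
    |(((range N).filter (fun t => ∀ l ∈ D, q l ∣ a l + P * t)).card : ℝ)
      - N * ∏ l ∈ D, 1 / (q l : ℝ)| ≤ 1 := by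
  classical
  choose c hc using fun l => exists_class (hq l) (hP l) (a l)
  have hco : (D : Set κ).Pairwise (Function.onFun Nat.Coprime q) := fun l _ l' _ h =>
    (Nat.coprime_primes (hq l) (hq l')).mpr fun e => h (hinj e)
  obtain ⟨k, hk⟩ := Nat.chineseRemainderOfFinset c q D (fun l _ => (hq l).ne_zero) hco
  set M := ∏ l ∈ D, q l with hM
  have hM0 : 0 < M := prod_pos fun l _ => (hq l).pos
  have h1 : ∀ t : ℕ, (∀ l ∈ D, q l ∣ a l + P * t) ↔ t ≡ k [MOD M] := by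
    intro t
    constructor
    · intro h
      rw [Nat.modEq_iff_dvd, hM]
      push_cast
      refine Finset.prod_dvd_of_coprime (fun l hl l' hl' e => ?_) fun l hl => ?_
      · exact Nat.isCoprime_iff_coprime.mpr (hco hl hl' e)
      · exact Nat.modEq_iff_dvd.mp (((hc l t).mp (h l hl)).trans (hk l hl).symm)
    · intro h l hl
      exact (hc l t).mpr ((h.of_dvd (dvd_prod_of_mem q hl)).trans (hk l hl))
  have h2 : ((range N).filter (fun t => ∀ l ∈ D, q l ∣ a l + P * t)).card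
      = Nat.count (fun t => t ≡ k [MOD M]) N := by
    rw [Nat.count_eq_card_filter_range]
    congr 1
    exact filter_congr fun t _ => h1 t
  have h3 : ∏ l ∈ D, 1 / (q l : ℝ) = 1 / M := by
    rw [hM]
    push_cast
    rw [prod_div_distrib, prod_const_one]
  rw [h2, Nat.count_modEq_card _ hM0, h3, mul_one_div]
  have h4 : ((N / M : ℕ) : ℝ) ≤ N / M := Nat.cast_div_le
  have h5 : (N : ℝ) / M < (N / M : ℕ) + 1 := by
    have := Nat.lt_floor_add_one ((N : ℝ) / M)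
    rwa [Nat.floor_div_eq_div] at this
  rw [abs_le]
  split_ifs <;> push_cast <;> constructor <;> linarith

open Classical in
/-- The form hit by the prime `q` at the point `m`, if any. -/
noncomputable def hit (𝒮 : Finset ℕ) (q m : ℕ) : Option 𝒮 :=
  if h : ∃ i : 𝒮, q ∣ m + i then some h.choose else none

theorem hit_eq_some {𝒮 : Finset ℕ} {y q : ℕ} (h𝒮 : 𝒮 ⊆ Ioc 0 y) (hq : y < q) (m : ℕ) (i : 𝒮) :
    hit 𝒮 q m = some i ↔ q ∣ m + i := by
  unfold hit
  split_ifs with h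
  · have h1 := h.choose_spec
    simp only [Option.some.injEq]
    refine ⟨fun e => e ▸ h1, fun h2 => Subtype.ext ?_⟩
    have h3 := mem_Ioc.mp (h𝒮 h.choose.2)
    have h4 := mem_Ioc.mp (h𝒮 i.2)
    have h5 : (h.choose : ℕ) ≡ i [MOD q] := Nat.ModEq.add_left_cancel' m
      (((Nat.modEq_zero_iff_dvd).mpr h1).trans ((Nat.modEq_zero_iff_dvd).mpr h2).symm)
    exact Nat.ModEq.eq_of_lt_of_lt h5 (by omega) (by omega)
  · simpa using fun h2 => h ⟨i, h2⟩

theorem atom_disc {κ : Type} [Fintype κ] [DecidableEq κ] (q : κ → ℕ)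
    (hinj : Function.Injective q) (hq : ∀ l, (q l).Prime) {P : ℕ} (hP : ∀ l, ¬ q l ∣ P)
    {𝒮 : Finset ℕ} {y : ℕ} (h𝒮 : 𝒮 ⊆ Ioc 0 y) (hy : ∀ l, y < q l) (b N : ℕ)
    (τ : κ → Option 𝒮) :
    |∑ t ∈ range N, atom τ (fun l => hit 𝒮 (q l) (b + P * t))
      - N * pw (fun l => 1 / (q l : ℝ)) τ| ≤ 1 := by
  classical
  have h := count_congr (univ.filter (fun l => τ l ≠ none)) q hinj hq hP
    (fun l => b + ((τ l).elim 0 (fun i => (i : ℕ)))) N
  convert h using 3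
  · rw [card_filter]
    push_cast
    refine sum_congr rfl fun t _ => ?_
    have key : ∀ l, at1 (τ l) (hit 𝒮 (q l) (b + P * t)) =
        if (τ l ≠ none → q l ∣ b + ((τ l).elim 0 (fun i => (i : ℕ))) + P * t) then 1 else 0 := by
      intro l
      cases hτ : τ l with
      | none => simp [at1]
      | some i =>
        simp only [at1, hit_eq_some h𝒮 (hy l), Option.elim_some, ne_eq, reduceCtorEq,
          not_false_eq_true, forall_const, add_right_comm]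
    simp only [atom, key, Fintype.prod_boole, mem_filter, mem_univ, true_and]
  · rw [pw, prod_filter]
    congr 1
    refine prod_congr rfl fun l _ => ?_
    cases τ l <;> simp [lam]

theorem atom_disc_pair {ι₁ ι₂ : Type} [Fintype ι₁] [DecidableEq ι₁] [Fintype ι₂] [DecidableEq ι₂]
    (q₁ : ι₁ → ℕ) (q₂ : ι₂ → ℕ) (hinj : Function.Injective (Sum.elim q₁ q₂))
    (hq₁ : ∀ l, (q₁ l).Prime) (hq₂ : ∀ l, (q₂ l).Prime) {P : ℕ} (hP₁ : ∀ l, ¬ q₁ l ∣ P)
    (hP₂ : ∀ l, ¬ q₂ l ∣ P) {𝒮 : Finset ℕ} {y : ℕ} (h𝒮 : 𝒮 ⊆ Ioc 0 y) (hy₁ : ∀ l, y < q₁ l)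
    (hy₂ : ∀ l, y < q₂ l) (b N : ℕ) (τ₁ : ι₁ → Option 𝒮) (τ₂ : ι₂ → Option 𝒮) :
    |∑ t ∈ range N, atom τ₁ (fun l => hit 𝒮 (q₁ l) (b + P * t))
        * atom τ₂ (fun l => hit 𝒮 (q₂ l) (b + P * t))
      - N * (pw (fun l => 1 / (q₁ l : ℝ)) τ₁ * pw (fun l => 1 / (q₂ l : ℝ)) τ₂)| ≤ 1 := by
  have h := atom_disc (Sum.elim q₁ q₂) hinj (by rintro (l | l); exacts [hq₁ l, hq₂ l])
    (P := P) (by rintro (l | l); exacts [hP₁ l, hP₂ l]) h𝒮
    (by rintro (l | l); exacts [hy₁ l, hy₂ l]) b N (Sum.elim τ₁ τ₂)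
  simp only [atom, pw, Fintype.prod_sum_type, Sum.elim_inl, Sum.elim_inr] at h
  exact h

end Pool.Agent.P.MP_3bc45c_nt
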