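import Pool.Agent.P.MP_3bc45c_nt.Amplitude
import Pool.Agent.P.MP_3bc45c_nt.Count
import Pool.Agent.P.MP_3bc45c_nt.Lambda

/-!
The covering proposition for integers, with all parameters explicit.
-/

open Finset Real

namespace Pool.Agent.P.MP_3bc45c_nt

theorem one_add_pow_le_exp {x : ℝ} (hx : 0 ≤ x) (k : ℕ) : (1 + x) ^ k ≤ exp (k * x) := by
  rw [exp_nat_mul]
  exact pow_le_pow_left₀ (by linarith) (by linarith [add_one_le_exp x]) k

theorem cover_finite {y W E A P b N j : ℕ} {𝒮 : Finset ℕ} {t₁ t₂ T L θ ε κ ρ M σ₁ σ₂ k : ℝ}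
    (h𝒮 : 𝒮 ⊆ Ioc 0 y) (hk : (𝒮.card : ℝ) ≤ k) (hyW : y ≤ W) (hW : 2 ≤ W) (hWE : W ≤ E)
    (hP : ∀ p : ℕ, p.Prime → p ∣ P → p ≤ y) (hA : 1 ≤ A) (hAE : A ≤ E)
    (ht₁ : 0 < t₁) (ht₂ : 0 < t₂) (ht₂A : exp t₂ ≤ A + 1) (hT : log E ≤ T) (hL : 0 < L)
    (hΛ : (1 + T) / (W * t₂) + (V W)⁻¹ * ((1 + t₁) / t₂ + 1 / L)
      ≤ log (log (E + 1)) - log (log (A + 1)))
    (hθ : 0 ≤ θ) (hθT : θ * T ≤ ε) (hε : ε ≤ 1) (hκ : 0 ≤ κ) (hκh : log 2 ≤ κ * log W)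
    (hρ : 0 ≤ ρ) (hM : 1 ≤ M)
    (hσ₁ : ∑ p ∈ primesIoc y W, 1 / (p : ℝ) ≤ σ₁) (hσ₂ : ∑ p ∈ primesIoc W E, 1 / (p : ℝ) ≤ σ₂)
    (hκ' : k / W * (ρ / log W) ≤ 1 / 2)
    (hτ : (k + 1) * exp (-θ * (ρ - T - k * (V W / V y) * ((1 + ε) * L))) ≤ 1 / 10)
    (hβ : k * (L / t₁ * (exp σ₂ / W) * (ρ / log W)) ^ 2 ≤ 1 / 10)
    (herr : k * ((1 / 4) ^ j * exp (k * (exp (8 * σ₁) * (L / t₁)))) ≤ 1 / 10)
    (hN : 10 * (k + 1) * (exp ((1 + 2 * κ) * ρ) * exp (k * exp (-(κ * t₁))) *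
      (M ^ j * exp (W * k / M))) ^ 2 < N) :
    ∃ t < N, ∀ n ∈ 𝒮, ∃ p : ℕ, p.Prime ∧ p ≤ E ∧ p ∣ b + P * t + n := by
  classical
  have hW1 : (1 : ℝ) < W := by exact_mod_cast hW
  have hlW : 0 < log (W : ℝ) := log_pos hW1
  have hT0 : 0 ≤ T := (log_natCast_nonneg E).trans hT
  have hε0 : 0 ≤ ε := (mul_nonneg hθ hT0).trans hθT
  have hcard : Fintype.card 𝒮 = 𝒮.card := Fintype.card_coe 𝒮
  have hk0 : (0 : ℝ) ≤ 𝒮.card := Nat.cast_nonneg _
  have hky : 𝒮.card ≤ y := by simpa using card_le_card h𝒮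
  let q₁ : primesIoc y W → ℕ := fun l => l
  let q₂ : primesIoc W E → ℕ := fun l => l
  have hq₁ : ∀ l, y < q₁ l ∧ q₁ l ≤ W ∧ (q₁ l).Prime := fun l => mem_primesIoc.mp l.2
  have hq₂ : ∀ l, W < q₂ l ∧ q₂ l ≤ E ∧ (q₂ l).Prime := fun l => mem_primesIoc.mp l.2
  have hkp : ∀ q : ℕ, y < q → (𝒮.card : ℝ) * (1 / q) ≤ 1 := fun q hq => by
    rw [mul_one_div, div_le_one (by exact_mod_cast (by omega : 0 < q))]
    exact_mod_cast (by omega : 𝒮.card ≤ q)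
  have hp1 : ∀ q : ℕ, y < q → 1 / (q : ℝ) ≤ 1 := fun q hq => by
    rw [div_le_one (by exact_mod_cast (by omega : 0 < q))]
    exact_mod_cast (by omega : 1 ≤ q)
  have hΛ' := lambda_lower q₂ (W := W) (E := E) (A := A) (t₁ := t₁) (t₂ := t₂) (T := T)
    Subtype.val_injective (fun l => (hq₂ l).2.2) (fun p hp => ⟨⟨p, hp⟩, rfl⟩) (by omega) hA hAE
    ht₁.le ht₂ ht₂A hT
  have hΛ'' := le_of_add_le_add_left (le_of_mul_le_mul_left
    (le_of_add_le_add_left (hΛ.trans hΛ')) (inv_pos.mpr (V_pos W)))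
  obtain ⟨a, ha, han, hsum, haT, hγ, hδ, hs, hA₀⟩ := exists_amplitude
    (p := fun l => 1 / (q₂ l : ℝ)) (h := fun l => log (q₂ l)) (h₀ := log W)
    (fun l => by rw [exp_neg, exp_log (by exact_mod_cast (hq₂ l).2.2.pos), one_div])
    (fun l => log_le_log (by linarith) (by exact_mod_cast (hq₂ l).1.le)) ht₁ hT0 hL hΛ''
    hθ hθT hε hκ hκh
  have hσ₁' : ∑ l, 1 / (q₁ l : ℝ) ≤ σ₁ := by
    rw [← sum_coe_sort (primesIoc y W) (fun p => 1 / (p : ℝ))] at hσ₁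
    exact hσ₁
  have hσ₂' : ∑ l, 1 / (q₂ l : ℝ) ≤ σ₂ := by
    rw [← sum_coe_sort (primesIoc W E) (fun p => 1 / (p : ℝ))] at hσ₂
    exact hσ₂
  have hV : ∏ l, (1 - 1 / (q₁ l : ℝ)) = V W / V y := by
    rw [V_eq_mul hyW, mul_div_cancel_left₀ _ (V_pos y).ne',
      ← prod_coe_sort (primesIoc y W) (fun p => 1 - 1 / (p : ℝ))]
  have hVn : 0 ≤ V W / V y := div_nonneg (V_pos W).le (V_pos y).le
  have hn₁ : (Fintype.card (primesIoc y W) : ℝ) ≤ W := by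
    rw [Fintype.card_coe]
    have : (primesIoc y W).card ≤ W :=
      (card_le_card (filter_subset _ _)).trans (by simp)
    exact_mod_cast this
  obtain ⟨t, ht, hcov⟩ := abstract_cover (S := 𝒮) (p₁ := fun l => 1 / (q₁ l : ℝ))
    (p₂ := fun l => 1 / (q₂ l : ℝ)) (a := a) (h := fun l => log (q₂ l)) (h₀ := log W) (ρ := ρ)
    (T := T) (γ := L / t₁ * (exp σ₂ / W)) (θ := θ) (α := 1 + 2 * κ) (δ := θ * (1 + ε) * L)
    (s := L / t₁) (A₀ := 1 + exp (-(κ * t₁))) (M := M) (j := j) (N := N)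
    (fun l => by positivity) (fun l => hcard ▸ hkp _ (hq₁ l).1) (fun l => hp1 _ (hq₁ l).1)
    (fun l => by positivity) (fun l => hcard ▸ hkp _ (hyW.trans_lt (hq₂ l).1))
    (fun l => hp1 _ (hyW.trans_lt (hq₂ l).1)) hlW
    (fun l => log_le_log (by linarith) (by exact_mod_cast (hq₂ l).1.le)) hT0 hρ hθ
    (by linarith) hM (by positivity) ha han hsum haT
    (fun l => (hγ l).trans (by
      rw [exp_neg, exp_log (by linarith), inv_mul_eq_div]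
      gcongr))
    (fun l => by
      refine le_trans ?_ hκ'
      rw [hcard, mul_one_div]
      have : (W : ℝ) ≤ q₂ l := by exact_mod_cast (hq₂ l).1.le
      gcongr
      linarith)
    hδ hs hA₀
    (by
      refine le_trans ?_ hτ
      rw [hcard, hV]
      have h1 := one_add_pow_le_exp (x := V W / V y * (θ * (1 + ε) * L)) (by positivity) 𝒮.card
      have h2 : exp (-θ * (ρ - T - k * (V W / V y) * ((1 + ε) * L)))
          = exp (-θ * (ρ - T)) * exp (k * (V W / V y * (θ * (1 + ε) * L))) := by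
        rw [← exp_add]; congr 1; ring
      rw [h2]
      have h3 : exp (𝒮.card * (V W / V y * (θ * (1 + ε) * L)))
          ≤ exp (k * (V W / V y * (θ * (1 + ε) * L))) := by gcongr
      gcongr
      · linarith
      · exact h1.trans h3)
    (by
      refine le_trans ?_ hβ
      rw [hcard]
      gcongr)
    (by
      refine le_trans ?_ herr
      rw [hcard]
      have h1 := one_add_pow_le_exp (x := exp (8 * ∑ l, 1 / (q₁ l : ℝ)) * (L / t₁))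
        (by positivity) 𝒮.card
      have h3 : exp (𝒮.card * (exp (8 * ∑ l, 1 / (q₁ l : ℝ)) * (L / t₁)))
          ≤ exp (k * (exp (8 * σ₁) * (L / t₁))) := by
        gcongr
        linarith
      gcongr
      · linarith
      · exact h1.trans h3)
    (by
      refine lt_of_le_of_lt ?_ hN
      rw [hcard]
      have h1 := one_add_pow_le_exp (x := exp (-(κ * t₁))) (exp_pos _).le 𝒮.card
      have h3 : exp (𝒮.card * exp (-(κ * t₁))) ≤ exp (k * exp (-(κ * t₁))) := by gcongr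
      have hM0 : 0 < M := by linarith
      have hk1 : 0 ≤ k := hk0.trans hk
      gcongr
      exact h1.trans h3)
    (fun t => (fun l => hit 𝒮 (q₁ l) (b + P * t), fun l => hit 𝒮 (q₂ l) (b + P * t)))
    (fun τ₁ τ₂ => atom_disc_pair q₁ q₂
      (Function.Injective.sumElim Subtype.val_injective Subtype.val_injective fun l l' h => by
        have h1 := (hq₁ l).2.1
        have h2 := (hq₂ l').1
        omega)
      (fun l => (hq₁ l).2.2) (fun l => (hq₂ l).2.2)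
      (fun l h => absurd (hP _ (hq₁ l).2.2 h) (not_le.mpr (hq₁ l).1))
      (fun l h => absurd (hP _ (hq₂ l).2.2 h) (not_le.mpr (hyW.trans_lt (hq₂ l).1))) h𝒮
      (fun l => (hq₁ l).1) (fun l => hyW.trans_lt (hq₂ l).1) b N τ₁ τ₂)
  refine ⟨t, ht, fun n hn => ?_⟩
  rcases hcov ⟨n, hn⟩ with ⟨l, hl⟩ | ⟨l, hl⟩
  · exact ⟨q₁ l, (hq₁ l).2.2, (hq₁ l).2.1.trans hWE, (hit_eq_some h𝒮 (hq₁ l).1 _ _).mp hl⟩
  · exact ⟨q₂ l, (hq₂ l).2.2, (hq₂ l).2.1,
      (hit_eq_some h𝒮 (hyW.trans_lt (hq₂ l).1) _ _).mp hl⟩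

end Pool.Agent.P.MP_3bc45c_nt
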