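import Pool.Agent.P.MP_3bc45c_nt.Model

/-!
Labellings of the large indices by forms, the centred monomials `U`, their Gram bounds and the
decomposition of a sum over labellings along one form.
-/

open Finset

namespace Pool.Agent.P.MP_3bc45c_nt

variable {S ι : Type} [Fintype S] [DecidableEq S] [Fintype ι] [DecidableEq ι]

/-- One factor of a centred monomial. -/
def uu (p : ι → ℝ) (l : ι) : Option S → Option S → ℝ
  | none, _ => 1
  | some i, o => p l - if o = some i then 1 else 0

/-- A centred monomial. -/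
def U (p : ι → ℝ) (σ ω : ι → Option S) : ℝ := ∏ l, uu p l (σ l) (ω l)

/-- Lower weight of a label. -/
def lamLow (p : ι → ℝ) (l : ι) : Option S → ℝ
  | none => 1
  | some _ => p l * (1 - Fintype.card S * p l)

omit [Fintype ι] [DecidableEq ι] in
theorem gram_one (p : ι → ℝ) (l : ι) (c : Option S → ℝ) :
    ∑ o, prob p l o * (∑ a, c a * uu p l a o) ^ 2
      = c none ^ 2 + p l * ∑ i, c (some i) ^ 2 - p l ^ 2 * (∑ i, c (some i)) ^ 2 := by
  have h0 : ∑ a, c a * uu p l a none = c none + p l * ∑ i, c (some i) := by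
    simp [Fintype.sum_option, uu, mul_sum, mul_comm]
  have h1 : ∀ j : S, ∑ a, c a * uu p l a (some j)
      = c none + p l * ∑ i, c (some i) - c (some j) := by
    intro j
    simp only [Fintype.sum_option, uu, mul_one, mul_sub, sum_sub_distrib, Option.some.injEq,
      mul_ite, mul_zero, sum_ite_eq, mem_univ, if_true, mul_sum]
    simp only [mul_comm]
    ring
  rw [Fintype.sum_option, h0]
  simp only [h1, prob]
  set C := ∑ i, c (some i) with hC
  have h2 : ∑ j : S, p l * (c none + p l * C - c (some j)) ^ 2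
      = p l * (Fintype.card S * (c none + p l * C) ^ 2 - 2 * (c none + p l * C) * C
        + ∑ i, c (some i) ^ 2) := by
    rw [← mul_sum]
    congr 1
    have : ∀ j : S, (c none + p l * C - c (some j)) ^ 2
        = (c none + p l * C) ^ 2 - 2 * (c none + p l * C) * c (some j) + c (some j) ^ 2 := by
      intro j; ring
    simp only [this, sum_add_distrib, sum_sub_distrib, sum_const, card_univ, nsmul_eq_mul,
      ← mul_sum, ← hC]
  rw [h2]
  ring

theorem gram_upper {p : ι → ℝ} (hp : ∀ l, 0 ≤ p l) (hk : ∀ l, Fintype.card S * p l ≤ 1)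
    (c : (ι → Option S) → ℝ) :
    Ex p (fun ω => (∑ σ, c σ * U p σ ω) ^ 2) ≤ ∑ σ, pw p σ * c σ ^ 2 := by
  refine tensor_upper (prob p) (lam p) (uu p) (prob_nonneg hp hk) ?_ ?_ c
  · intro l a
    cases a <;> simp [lam, hp l]
  · intro l c
    rw [gram_one, Fintype.sum_option]
    simp only [lam, one_mul, ← mul_sum]
    nlinarith [sq_nonneg (p l * ∑ i, c (some i))]

theorem gram_lower {p : ι → ℝ} (hp : ∀ l, 0 ≤ p l) (hk : ∀ l, Fintype.card S * p l ≤ 1)
    (c : (ι → Option S) → ℝ) :
    ∑ σ, (∏ l, lamLow p l (σ l)) * c σ ^ 2 ≤ Ex p (fun ω => (∑ σ, c σ * U p σ ω) ^ 2) := by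
  refine tensor_lower (prob p) (lamLow p) (uu p) (prob_nonneg hp hk) ?_ ?_ c
  · intro l a
    cases a with
    | none => simp [lamLow]
    | some i => exact mul_nonneg (hp l) (sub_nonneg.mpr (hk l))
  · intro l c
    rw [gram_one, Fintype.sum_option]
    simp only [lamLow, one_mul, ← mul_sum]
    have h := sq_sum_le_card_mul_sum_sq (s := (univ : Finset S)) (f := fun i => c (some i))
    rw [card_univ] at h
    nlinarith [mul_le_mul_of_nonneg_left h (sq_nonneg (p l))]

/-- The indices labelled `i`. -/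
def blk (σ : ι → Option S) (i : S) : Finset ι := univ.filter (fun l => σ l = some i)

/-- The unlabelled indices. -/
def free (σ : ι → Option S) : Finset ι := univ.filter (fun l => σ l = none)

/-- Give the indices of `D` the label `i`. -/
def put (σ : ι → Option S) (i : S) (D : Finset ι) : ι → Option S :=
  fun l => if l ∈ D then some i else σ l

/-- The forms that are used as a label. -/
def act (σ : ι → Option S) : Finset S := univ.filter (fun i => blk σ i ≠ ∅)

/-- Product of block weights. -/
def W (f : S → Finset ι → ℝ) (σ : ι → Option S) : ℝ := ∏ i, f i (blk σ i)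

omit [Fintype S] [DecidableEq ι] in
@[simp] theorem mem_blk {σ : ι → Option S} {i : S} {l : ι} : l ∈ blk σ i ↔ σ l = some i := by
  simp [blk]

omit [Fintype S] [DecidableEq S] [DecidableEq ι] in
@[simp] theorem mem_free {σ : ι → Option S} {l : ι} : l ∈ free σ ↔ σ l = none := by
  simp [free]

theorem sum_fiber (i : S) (Φ : (ι → Option S) → ℝ) :
    ∑ σ, Φ σ = ∑ σ ∈ univ.filter (fun σ : ι → Option S => blk σ i = ∅),
      ∑ D ∈ (free σ).powerset, Φ (put σ i D) := by
  rw [sum_sigma']
  refine sum_nbij'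
    (fun σ => (⟨fun l => if σ l = some i then none else σ l, blk σ i⟩ :
      (_ : ι → Option S) × Finset ι))
    (fun x => put x.1 i x.2) ?_ ?_ ?_ ?_ ?_
  · intro σ _
    simp only [mem_sigma, mem_filter, mem_univ, true_and, mem_powerset]
    constructor
    · ext l
      by_cases h : σ l = some i <;> simp [h]
    · intro l hl
      simp [mem_blk.mp hl]
  · intro x _
    exact mem_univ _
  · intro σ _
    ext1 l
    by_cases h : σ l = some i <;> simp [put, h]
  · rintro ⟨σ, D⟩ hx
    simp only [mem_sigma, mem_filter, mem_univ, true_and, mem_powerset] at hx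
    obtain ⟨h1, h2⟩ := hx
    have h3 : ∀ l, σ l ≠ some i := fun l hl => by
      have : l ∈ blk σ i := mem_blk.mpr hl
      simp [h1] at this
    simp only [Sigma.mk.injEq, heq_eq_eq]
    constructor
    · ext1 l
      by_cases h : l ∈ D
      · simp [put, h, mem_free.mp (h2 h)]
      · simp [put, h, h3 l]
    · ext l
      by_cases h : l ∈ D <;> simp [put, h, h3 l]
  · intro σ _
    congr 1
    ext1 l
    by_cases h : σ l = some i <;> simp [put, h]

omit [Fintype S] in
theorem blk_put_self {σ : ι → Option S} {i : S} (h : blk σ i = ∅) (D : Finset ι) :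
    blk (put σ i D) i = D := by
  ext l
  have h3 : σ l ≠ some i := fun hl => by
    have : l ∈ blk σ i := mem_blk.mpr hl
    simp [h] at this
  by_cases hl : l ∈ D <;> simp [put, hl, h3]

omit [Fintype S] in
theorem blk_put_ne {σ : ι → Option S} {i j : S} (hij : j ≠ i) {D : Finset ι}
    (hD : D ⊆ free σ) : blk (put σ i D) j = blk σ j := by
  ext l
  by_cases hl : l ∈ D
  · simp [put, hl, mem_free.mp (hD hl), hij.symm]
  · simp [put, hl]

theorem W_put {f : S → Finset ι → ℝ} {σ : ι → Option S} {i : S} (hf : f i ∅ = 1)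
    (h : blk σ i = ∅) {D : Finset ι} (hD : D ⊆ free σ) :
    W f (put σ i D) = f i D * W f σ := by
  unfold W
  rw [← mul_prod_erase univ _ (mem_univ i), ← mul_prod_erase univ (fun j => f j (blk σ j))
    (mem_univ i), blk_put_self h, h, hf, one_mul]
  congr 1
  exact prod_congr rfl fun j hj => by rw [blk_put_ne (ne_of_mem_erase hj) hD]

theorem act_put {σ : ι → Option S} {i : S} (h : blk σ i = ∅) {D : Finset ι}
    (hD : D ⊆ free σ) :
    act (put σ i D) = if D = ∅ then act σ else insert i (act σ) := by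
  ext j
  by_cases hij : j = i
  · subst hij
    by_cases hD0 : D = ∅ <;> simp [act, blk_put_self h, hD0, h]
  · have h1 : j ∈ act (put σ i D) ↔ j ∈ act σ := by simp [act, blk_put_ne hij hD]
    rw [h1]
    by_cases hD0 : D = ∅ <;> simp [hD0, hij]

theorem not_mem_act {σ : ι → Option S} {i : S} (h : blk σ i = ∅) : i ∉ act σ := by
  simp [act, h]

omit [Fintype S] in
theorem U_put {p : ι → ℝ} {σ ω : ι → Option S} {i : S} (hω : ∀ l, ω l ≠ some i) {D : Finset ι}
    (hD : D ⊆ free σ) : U p (put σ i D) ω = (∏ l ∈ D, p l) * U p σ ω := by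
  unfold U
  have h1 : ∏ l ∈ D, p l = ∏ l, if l ∈ D then p l else 1 := by
    rw [prod_ite_mem, univ_inter]
  rw [h1, ← prod_mul_distrib]
  refine prod_congr rfl fun l _ => ?_
  by_cases hl : l ∈ D
  · simp [put, hl, mem_free.mp (hD hl), uu, hω l]
  · simp [put, hl]

omit [DecidableEq ι] in
theorem prod_labels (g : ι → Option S → ℝ) (hg : ∀ l, g l none = 1) (σ : ι → Option S) :
    ∏ l, g l (σ l) = ∏ i, ∏ l ∈ blk σ i, g l (some i) := by
  have : ∀ i, ∏ l ∈ blk σ i, g l (some i) = ∏ l, if σ l = some i then g l (some i) else 1 := by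
    intro i
    rw [blk, prod_filter]
  simp only [this]
  rw [prod_comm]
  refine prod_congr rfl fun l _ => ?_
  cases h : σ l with
  | none => simp [hg]
  | some j => simp

omit [DecidableEq ι] in
theorem pw_eq (p : ι → ℝ) (σ : ι → Option S) : pw p σ = W (fun _ D => ∏ l ∈ D, p l) σ :=
  prod_labels (lam p) (fun _ => rfl) σ

theorem sum_W_le {f : S → Finset ι → ℝ} (hf : ∀ i D, 0 ≤ f i D) :
    ∑ σ : ι → Option S, W f σ ≤ ∏ i, ∑ D, f i D := by
  rw [prod_univ_sum]
  have hinj : Function.Injective (fun σ : ι → Option S => blk σ) := by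
    intro σ τ h
    ext1 l
    have h1 : ∀ i, σ l = some i ↔ τ l = some i := fun i => by
      rw [← mem_blk, ← mem_blk]
      simp only at h
      rw [h]
    cases hσ : σ l with
    | none =>
      cases hτ : τ l with
      | none => rfl
      | some j => simpa [hσ] using (h1 j).mpr hτ
    | some j => exact ((h1 j).mp hσ).symm
  calc ∑ σ : ι → Option S, W f σ
      = ∑ x ∈ univ.image (fun σ : ι → Option S => blk σ), ∏ i, f i (x i) := by
        rw [sum_image (fun a _ b _ h => hinj h)]
        rfl
    _ ≤ _ := by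
        refine sum_le_sum_of_subset_of_nonneg (by simp) fun x _ _ => ?_
        exact prod_nonneg fun i _ => hf _ _

theorem tilt_step {v : Finset S → ℝ} {V δ : ℝ} (hV : 0 ≤ V) (hv : ∀ I, 0 ≤ v I)
    (hvV : ∀ i I, i ∉ I → v (insert i I) ≤ V * v I) {F G : S → Finset ι → ℝ} (i : S)
    (hF : ∀ j D, 0 ≤ F j D) (hF1 : F i ∅ = 1) (hG1 : G i ∅ = 1) (hFG : ∀ j, j ≠ i → G j = F j)
    (hle : ∀ D, F i D ≤ G i D) (hδ : ∑ D, (G i D - F i D) ≤ δ) :
    ∑ σ, W G σ * v (act σ) ≤ (1 + V * δ) * ∑ σ, W F σ * v (act σ) := by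
  have hW : ∀ σ : ι → Option S, blk σ i = ∅ → W G σ = W F σ := by
    intro σ h
    refine prod_congr rfl fun j _ => ?_
    by_cases hj : j = i
    · rw [hj, h, hF1, hG1]
    · rw [hFG j hj]
  have hWn : ∀ σ : ι → Option S, 0 ≤ W F σ := fun σ => prod_nonneg fun j _ => hF _ _
  have hδ0 : 0 ≤ δ := (sum_nonneg fun D _ => sub_nonneg.mpr (hle D)).trans hδ
  have h1 : ∑ σ, W G σ * v (act σ) - ∑ σ, W F σ * v (act σ)
      ≤ V * δ * ∑ σ ∈ univ.filter (fun σ : ι → Option S => blk σ i = ∅), W F σ * v (act σ) := by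
    rw [sum_fiber i (fun σ => W G σ * v (act σ)), sum_fiber i (fun σ => W F σ * v (act σ)),
      ← sum_sub_distrib, mul_sum]
    refine sum_le_sum fun σ hσ => ?_
    have hσ' : blk σ i = ∅ := (mem_filter.mp hσ).2
    rw [← sum_sub_distrib]
    calc ∑ D ∈ (free σ).powerset, (W G (put σ i D) * v (act (put σ i D))
          - W F (put σ i D) * v (act (put σ i D)))
        ≤ ∑ D ∈ (free σ).powerset, (G i D - F i D) * (V * (W F σ * v (act σ))) := by
          refine sum_le_sum fun D hD => ?_
          have hD' := mem_powerset.mp hD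
          rw [W_put hG1 hσ' hD', W_put hF1 hσ' hD', hW σ hσ', act_put hσ' hD']
          by_cases hD0 : D = ∅
          · simp [hD0, hF1, hG1]
          · simp only [hD0, if_false]
            have h2 := hvV i _ (not_mem_act hσ')
            have h3 := mul_nonneg (sub_nonneg.mpr (hle D)) (hWn σ)
            nlinarith [mul_le_mul_of_nonneg_left h2 h3]
      _ ≤ δ * (V * (W F σ * v (act σ))) := by
          rw [← sum_mul]
          refine mul_le_mul_of_nonneg_right ?_ (mul_nonneg hV (mul_nonneg (hWn σ) (hv _)))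
          refine le_trans ?_ hδ
          exact sum_le_sum_of_subset_of_nonneg (subset_univ _)
            fun D _ _ => sub_nonneg.mpr (hle D)
      _ = V * δ * (W F σ * v (act σ)) := by ring
  have h2 : ∑ σ ∈ univ.filter (fun σ : ι → Option S => blk σ i = ∅), W F σ * v (act σ)
      ≤ ∑ σ, W F σ * v (act σ) :=
    sum_le_sum_of_subset_of_nonneg (subset_univ _) fun σ _ _ => mul_nonneg (hWn σ) (hv _)
  nlinarith [mul_le_mul_of_nonneg_left h2 (mul_nonneg hV hδ0)]

theorem tilt_le {v : Finset S → ℝ} {V δ : ℝ} (hV : 0 ≤ V) (hv : ∀ I, 0 ≤ v I)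
    (hvV : ∀ i I, i ∉ I → v (insert i I) ≤ V * v I) {f g : Finset ι → ℝ}
    (hf : ∀ D, 0 ≤ f D) (hf1 : f ∅ = 1) (hg1 : g ∅ = 1)
    (hle : ∀ D, f D ≤ g D) (hδ : ∑ D, (g D - f D) ≤ δ) :
    ∑ σ : ι → Option S, W (fun _ => g) σ * v (act σ)
      ≤ (1 + V * δ) ^ Fintype.card S * ∑ σ : ι → Option S, W (fun _ => f) σ * v (act σ) := by
  have hδ0 : 0 ≤ δ := (sum_nonneg fun D _ => sub_nonneg.mpr (hle D)).trans hδ
  have key : ∀ A : Finset S, ∑ σ : ι → Option S, W (fun j => if j ∈ A then g else f) σ * v (act σ)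
      ≤ (1 + V * δ) ^ A.card * ∑ σ : ι → Option S, W (fun _ => f) σ * v (act σ) := by
    intro A
    induction A using Finset.induction_on with
    | empty => simp
    | insert i A hi ih =>
      have h1 := tilt_step (ι := ι) (δ := δ) hV hv hvV (F := fun j => if j ∈ A then g else f)
        (G := fun j => if j ∈ insert i A then g else f) i
        (fun j D => by
          by_cases hj : j ∈ A
          · simpa [hj] using (hf D).trans (hle D)
          · simpa [hj] using hf D)
        (by simp [hi, hf1]) (by simp [hg1]) (fun j hj => by simp [hj])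
        (fun D => by simpa [hi] using hle D) (by simpa [hi] using hδ)
      refine h1.trans ?_
      rw [card_insert_of_notMem hi, pow_succ', mul_assoc]
      exact mul_le_mul_of_nonneg_left ih (by positivity)
  simpa using key univ

end Pool.Agent.P.MP_3bc45c_nt
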