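import Pool.Agent.P.MP_3bc45c_nt.RankinAsymp

/-!
Every interval of length `exp Z` contains a long run of integers with a small prime factor.
-/

open Finset Real Filter

namespace Pool.Agent.P.MP_3bc45c_nt

theorem num_const {η : ℝ} (hη : 0 < η) (hη1 : η ≤ 1 / 80) :
    (2 + 5 * η) * (1 + η) ^ 2 * (1 + 3 * η) * (1 / 4 - 20 * η)
      ≤ (1 / 2 - 10 * η) * (1 - η) * (1 - η) := by
  have h1 : (1 + η) ^ 2 ≤ 1 + 2.02 * η := by nlinarith
  have h2 : (2 + 5 * η) * (1 + η) ^ 2 ≤ 2 + 9.2 * η := by nlinarith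
  have h3 : (2 + 5 * η) * (1 + η) ^ 2 * (1 + 3 * η) ≤ 2 + 16 * η := by nlinarith
  have h4 := mul_le_mul_of_nonneg_right h3 (show 0 ≤ 1 / 4 - 20 * η by linarith)
  nlinarith [mul_nonneg hη.le (sq_nonneg η)]

theorem long_run {η : ℝ} (hη : 0 < η) (hη1 : η ≤ 1 / 80) : ∀ᶠ Z : ℝ in atTop,
    ∀ y : ℕ, Z ≤ y →
      y ≤ (1 / 4 - 20 * η) * (Z * log Z ^ 2 * log (log (log Z)) / log (log Z) ^ 2) →
      ∀ A : ℕ, ∃ m : ℕ, A ≤ m ∧ (m : ℝ) + y ≤ A + exp Z / 8 ∧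
        ∀ n ∈ Ioc 0 y, ∃ p : ℕ, p.Prime ∧ (p : ℝ) ≤ exp (Z / log Z ^ 2) ∧ p ∣ m + n := by
  have t1 : Tendsto (fun Z : ℝ => log Z) atTop atTop := tendsto_log_atTop
  have t2 : Tendsto (fun Z : ℝ => log (log Z)) atTop atTop := t1.comp t1
  have t3 : Tendsto (fun Z : ℝ => log (log (log Z))) atTop atTop := t1.comp t2
  have t0 : Tendsto (fun Z : ℝ => (1 - η) * Z) atTop atTop :=
    tendsto_id.const_mul_atTop (by linarith)
  filter_upwards [rankin_asymp hη (by linarith), t0.eventually (cover_asymp hη (by linarith)),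
    eventually_ge_atTop (48 / η), ev_pow_log 4 3, t1.eventually_ge_atTop 4,
    t3.eventually_ge_atTop 1, t2.eventually_ge_atTop 1]
    with Z hR hCov hZ hZ3 hL4 hL₃1 hL₂1 y hy1 hy2 A
  have hL₃₂ : log (log (log Z)) ≤ log (log Z) := by
    linarith [log_le_sub_one_of_pos (show 0 < log (log Z) by linarith)]
  obtain ⟨L₃, hL₃def⟩ : ∃ L₃, log (log (log Z)) = L₃ := ⟨_, rfl⟩
  simp only [hL₃def] at hR hL₃1 hy2 hL₃₂
  obtain ⟨L₂, hL₂def⟩ : ∃ L₂, log (log Z) = L₂ := ⟨_, rfl⟩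
  simp only [hL₂def] at hR hL₂1 hy2 hL₃₂
  obtain ⟨L, hLdef⟩ : ∃ L, log Z = L := ⟨_, rfl⟩
  simp only [hLdef] at hR hZ3 hL4 hy2 ⊢
  have h4 : 320 ≤ 48 / η := by rw [le_div_iff₀ hη]; linarith
  have hZ0 : 0 < Z := by linarith
  have hL0 : 0 < L := by linarith
  have hηZ : 48 ≤ η * Z := by rwa [div_le_iff₀' hη] at hZ
  have hηZ' : η * Z ≤ Z / 80 := by linarith [mul_le_mul_of_nonneg_right hη1 hZ0.le]
  have hZL : exp L = Z := by rw [← hLdef, exp_log hZ0]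
  have hL23 : L ^ 2 ≤ L ^ 3 := pow_le_pow_right₀ (by linarith) (by norm_num)
  have hy3 : (y : ℝ) ≤ Z * L ^ 2 := by
    refine hy2.trans ?_
    have h1 : Z * L ^ 2 * L₃ / L₂ ^ 2 ≤ Z * L ^ 2 := by
      rw [mul_div_assoc]
      refine mul_le_of_le_one_right (by positivity) ?_
      rw [div_le_one (by positivity)]
      exact hL₃₂.trans (le_self_pow₀ hL₂1 (by norm_num))
    have h2 : 0 ≤ Z * L ^ 2 * L₃ / L₂ ^ 2 := by positivity
    exact (mul_le_of_le_one_left h2 (by linarith)).trans h1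
  have hy4 : (y : ℝ) ≤ ((1 - η) * Z) ^ 2 := by
    have h1 : Z * L ^ 2 ≤ Z * (Z / 4) := mul_le_mul_of_nonneg_left (by linarith) hZ0.le
    have h2 : (Z / 2) ^ 2 ≤ ((1 - η) * Z) ^ 2 := pow_le_pow_left₀ (by positivity) (by linarith) 2
    linarith
  obtain ⟨b, hb1, hb2, hb3⟩ := hR y hy1 hy3 A
  have hlZ' : L - 2 * η ≤ log ((1 - η) * Z) := by
    rw [log_mul (by linarith) hZ0.ne', hLdef]
    have h1 := one_sub_inv_le_log_of_pos (show 0 < 1 - η by linarith)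
    have h2 : (1 - η)⁻¹ ≤ 1 + 2 * η := by
      rw [inv_le_iff_one_le_mul₀ (by linarith)]
      linarith [mul_le_mul_of_nonneg_left hη1 hη.le]
    linarith
  have hx2 : (⌊η * Z / 4⌋₊ : ℝ) ≤ η * Z / 4 := Nat.floor_le (by positivity)
  have hxy : ⌊η * Z / 4⌋₊ ≤ y := by
    have : (⌊η * Z / 4⌋₊ : ℝ) ≤ y := by linarith
    exact_mod_cast this
  obtain ⟨t, ht, hcov⟩ := hCov y (by linarith) hy4 _ (filter_subset _ _)
    (hb3.trans (by
      refine mul_le_mul_of_nonneg_right ?_ (V_pos y).le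
      have h1 : (y : ℝ) * (L₂ ^ 2 / (L * L₃)) ≤ (1 / 4 - 20 * η) * (Z * L) := by
        refine (mul_le_mul_of_nonneg_right hy2 (by positivity)).trans (le_of_eq ?_)
        field_simp
      have h2 : (1 - η) * L ≤ log ((1 - η) * Z) := by
        linarith [mul_le_mul_of_nonneg_left hL4 hη.le]
      calc _ ≤ (2 + 5 * η) * (1 + η) ^ 2 * (1 + 3 * η) * ((1 / 4 - 20 * η) * (Z * L)) :=
            mul_le_mul_of_nonneg_left h1 (by positivity)
        _ = (2 + 5 * η) * (1 + η) ^ 2 * (1 + 3 * η) * (1 / 4 - 20 * η) * (Z * L) := by ring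
        _ ≤ (1 / 2 - 10 * η) * (1 - η) * (1 - η) * (Z * L) :=
            mul_le_mul_of_nonneg_right (num_const hη hη1) (by positivity)
        _ = (1 / 2 - 10 * η) * ((1 - η) * Z) * ((1 - η) * L) := by ring
        _ ≤ _ := mul_le_mul_of_nonneg_left h2
            (mul_nonneg (by linarith) (mul_nonneg (by linarith) hZ0.le))))
    (∏ p ∈ primesIoc 0 ⌊η * Z / 4⌋₊, p)
    (fun p hp hd => by
      obtain ⟨q, hq, hpq⟩ := (Prime.dvd_finsetProd_iff hp.prime _).mp hd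
      obtain ⟨-, h1, h2⟩ := mem_primesIoc.mp hq
      rw [(Nat.prime_dvd_prime_iff_eq hp h2).mp hpq]
      exact h1.trans hxy)
    b ⌈exp ((1 - η) * Z)⌉₊ (Nat.le_ceil _)
  have hP := primorial_le_exp ⌊η * Z / 4⌋₊
  set P := ∏ p ∈ primesIoc 0 ⌊η * Z / 4⌋₊, p with hPdef
  refine ⟨b + P * t, hb1.trans (Nat.le_add_right _ _), ?_, fun n hn => ?_⟩
  · have h1 : b + P * t ≤ A + P * ⌈exp ((1 - η) * Z)⌉₊ := by
      have := Nat.mul_le_mul_left P (Nat.succ_le_of_lt ht)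
      rw [Nat.mul_succ] at this
      omega
    have h2 : ((b + P * t : ℕ) : ℝ) ≤ A + P * ⌈exp ((1 - η) * Z)⌉₊ := by exact_mod_cast h1
    have h3 : (⌈exp ((1 - η) * Z)⌉₊ : ℝ) ≤ 2 * exp ((1 - η) * Z) := by
      have := one_le_exp (show 0 ≤ (1 - η) * Z by linarith)
      linarith [Nat.ceil_lt_add_one (exp_pos ((1 - η) * Z)).le]
    have h5 : (P : ℝ) ≤ exp (η * Z / 2) := by
      refine hP.trans (exp_le_exp.mpr ?_)
      have h6 : log (4 : ℝ) ≤ 2 := by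
        rw [show (4 : ℝ) = 2 ^ 2 by norm_num, log_pow]
        push_cast
        linarith [log_two_lt_d9]
      calc log 4 * (⌊η * Z / 4⌋₊ : ℝ) ≤ 2 * (η * Z / 4) :=
            mul_le_mul h6 hx2 (Nat.cast_nonneg _) (by norm_num)
        _ = _ := by ring
    have h6 : (y : ℝ) ≤ exp ((1 - η / 2) * Z) := by
      have h7 : Z ^ 2 = exp (2 * L) := by rw [two_mul, exp_add, hZL, sq]
      have h8 : ((1 - η) * Z) ^ 2 ≤ Z ^ 2 := pow_le_pow_left₀ (by linarith) (by linarith) 2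
      refine hy4.trans (h8.trans (h7.le.trans (exp_le_exp.mpr ?_)))
      have h9 : L ^ 1 ≤ L ^ 3 := pow_le_pow_right₀ (by linarith) (by norm_num)
      linarith
    have h7 : (P : ℝ) * ⌈exp ((1 - η) * Z)⌉₊ ≤ 2 * exp ((1 - η / 2) * Z) := by
      refine (mul_le_mul h5 h3 (Nat.cast_nonneg _) (exp_pos _).le).trans (le_of_eq ?_)
      rw [mul_left_comm, ← exp_add]
      congr 2
      ring
    have h8 : 24 * exp ((1 - η / 2) * Z) ≤ exp Z := by
      have h9 : exp Z = exp (η * Z / 2) * exp ((1 - η / 2) * Z) := by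
        rw [← exp_add]; congr 1; ring
      rw [h9]
      exact mul_le_mul_of_nonneg_right (by linarith [add_one_le_exp (η * Z / 2)]) (exp_pos _).le
    linarith
  · by_cases hs : ∀ p ∈ primesIoc 0 ⌊η * Z / 4⌋₊, ¬ p ∣ b + n
    · obtain ⟨p, h1, h2, h3⟩ := hcov n (mem_filter.mpr ⟨hn, hs⟩)
      refine ⟨p, h1, h2.trans (exp_le_exp.mpr ?_), h3⟩
      have h5 : 0 < L - 2 * η := by linarith
      have h6 : (L - 2 * η) ^ 2 ≤ log ((1 - η) * Z) ^ 2 := pow_le_pow_left₀ h5.le hlZ' 2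
      refine (div_le_div_of_nonneg_left (by linarith) (by positivity) h6).trans ?_
      rw [div_le_div_iff₀ (by positivity) (by positivity)]
      have h7 : (1 - η) * L ^ 2 ≤ (L - 2 * η) ^ 2 := by
        linarith [mul_le_mul_of_nonneg_left hL4 (mul_pos hη hL0).le, sq_nonneg η]
      linarith [mul_le_mul_of_nonneg_left h7 hZ0.le]
    · push Not at hs
      obtain ⟨p, hp, hd⟩ := hs
      obtain ⟨-, h1, h2⟩ := mem_primesIoc.mp hp
      refine ⟨p, h2, ?_, ?_⟩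
      · have h3 : (p : ℝ) ≤ ⌊η * Z / 4⌋₊ := by exact_mod_cast h1
        refine (show (p : ℝ) ≤ Z by linarith).trans (hZL.ge.trans (exp_le_exp.mpr ?_))
        rw [le_div_iff₀ (by positivity), show L * L ^ 2 = L ^ 3 by ring]
        linarith [pow_pos hL0 3]
      · rw [add_right_comm]
        exact dvd_add hd (Dvd.dvd.mul_right (dvd_prod_of_mem (fun p => p) hp) t)

end Pool.Agent.P.MP_3bc45c_nt
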