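import Mathlib

/-!
Elementary estimates of Mertens type.
-/

open Finset Real

namespace Pool.Agent.P.MP_3bc45c_nt

/-- The primes in `(a, b]`. -/
def primesIoc (a b : ℕ) : Finset ℕ := (Ioc a b).filter Nat.Prime

theorem mem_primesIoc {a b p : ℕ} : p ∈ primesIoc a b ↔ a < p ∧ p ≤ b ∧ p.Prime := by
  simp [primesIoc, and_assoc]

theorem primesIoc_zero (n : ℕ) : primesIoc 0 n = Nat.primesLE n :=
  (Nat.primesLE_eq_filter_Ioc_zero n).symm

theorem sum_primesIoc_add (f : ℕ → ℝ) {a b c : ℕ} (hab : a ≤ b) (hbc : b ≤ c) :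
    ∑ p ∈ primesIoc a b, f p + ∑ p ∈ primesIoc b c, f p = ∑ p ∈ primesIoc a c, f p := by
  simp only [primesIoc, sum_filter]
  exact sum_Ioc_consecutive _ hab hbc

theorem prod_primesIoc_mul (f : ℕ → ℝ) {a b c : ℕ} (hab : a ≤ b) (hbc : b ≤ c) :
    (∏ p ∈ primesIoc a b, f p) * ∏ p ∈ primesIoc b c, f p = ∏ p ∈ primesIoc a c, f p := by
  simp only [primesIoc, prod_filter]
  exact prod_Ioc_consecutive _ hab hbc

/-- The first Mertens sum. -/
noncomputable def A1 (n : ℕ) : ℝ := ∑ p ∈ primesIoc 0 n, log p / p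

/-- The Mertens product. -/
noncomputable def V (n : ℕ) : ℝ := ∏ p ∈ primesIoc 0 n, (1 - 1 / (p : ℝ))

theorem log_factorial_eq (n : ℕ) :
    log (n.factorial : ℝ) = ∑ p ∈ primesIoc 0 n, (n.factorial.factorization p : ℝ) * log p := by
  rw [log_nat_eq_sum_factorization]
  refine Finsupp.sum_of_support_subset _ ?_ _ (by simp)
  intro p hp
  rw [Nat.support_factorization, Nat.mem_primeFactors] at hp
  exact mem_primesIoc.mpr ⟨hp.1.pos, (hp.1.dvd_factorial).mp hp.2.1, hp.1⟩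

theorem A1_le {n : ℕ} (hn : 1 ≤ n) : A1 n ≤ log n + log 4 := by
  have hn0 : (0 : ℝ) < n := by exact_mod_cast hn
  have h1 : log (n.factorial : ℝ) ≤ n * log n := by
    rw [← log_pow]
    exact log_le_log (by exact_mod_cast n.factorial_pos) (by exact_mod_cast n.factorial_le_pow)
  have h2 : n * A1 n - Chebyshev.theta n ≤ log (n.factorial : ℝ) := by
    rw [log_factorial_eq, A1, Chebyshev.theta_eq_sum_primesLE_log, ← primesIoc_zero, mul_sum,
      ← sum_sub_distrib]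
    refine sum_le_sum fun p hp => ?_
    have hp' := (mem_primesIoc.mp hp).2.2
    have hp0 : (0 : ℝ) < p := by exact_mod_cast hp'.pos
    have h3 : n / p ≤ n.factorial.factorization p := by
      rw [Nat.factorization_factorial hp' (b := Nat.log p n + 2) (by omega)]
      have := single_le_sum (f := fun i => n / p ^ i) (s := Ico 1 (Nat.log p n + 2))
        (fun _ _ => Nat.zero_le _) (a := 1) (by simp)
      simpa using this
    have h4 : (n : ℝ) / p - 1 ≤ ((n / p : ℕ) : ℝ) := by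
      have := Nat.lt_floor_add_one ((n : ℝ) / p)
      rw [Nat.floor_div_eq_div] at this
      linarith
    have h5 : ((n / p : ℕ) : ℝ) ≤ n.factorial.factorization p := by exact_mod_cast h3
    have h6 : 0 ≤ log (p : ℝ) := log_natCast_nonneg p
    calc (n : ℝ) * (log p / p) - log p = ((n : ℝ) / p - 1) * log p := by ring
      _ ≤ _ := mul_le_mul_of_nonneg_right (h4.trans h5) h6
  have h3 := Chebyshev.theta_le_log4_mul_x hn0.le
  have : n * A1 n ≤ n * (log n + log 4) := by linarith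
  exact le_of_mul_le_mul_left this hn0

theorem le_A1 : ∃ C : ℝ, ∀ n : ℕ, 1 ≤ n → log n - C ≤ A1 n := by
  have hs : Summable (fun m : ℕ => 4 * (m : ℝ) ^ (-(3 / 2) : ℝ)) :=
    (summable_nat_rpow.mpr (by norm_num)).mul_left 4
  refine ⟨1 + ∑' m : ℕ, 4 * (m : ℝ) ^ (-(3 / 2) : ℝ), fun n hn => ?_⟩
  have hn0 : (0 : ℝ) < n := by exact_mod_cast hn
  have h1 : n * log n - n ≤ log (n.factorial : ℝ) := by
    have h := pow_div_factorial_le_exp (n : ℝ) hn0.le n
    have hf : (0 : ℝ) < n.factorial := by exact_mod_cast n.factorial_pos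
    have := log_le_log (by positivity) h
    rw [log_div (by positivity) hf.ne', log_pow, log_exp] at this
    linarith
  have h2 : log (n.factorial : ℝ)
      ≤ n * A1 n + n * ∑ p ∈ primesIoc 0 n, 4 * (p : ℝ) ^ (-(3 / 2) : ℝ) := by
    rw [log_factorial_eq, A1, mul_sum, mul_sum, ← sum_add_distrib]
    refine sum_le_sum fun p hp => ?_
    have hp' := (mem_primesIoc.mp hp).2.2
    have hp2 : (2 : ℝ) ≤ p := by exact_mod_cast hp'.two_le
    have hp0 : (0 : ℝ) < p := by linarith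
    have h3 : (p - 1) * n.factorial.factorization p ≤ n := by
      rw [Nat.sub_one_mul_factorization_factorial hp']
      exact Nat.sub_le _ _
    have h4 : ((p : ℝ) - 1) * n.factorial.factorization p ≤ n := by
      have : ((p - 1 : ℕ) : ℝ) = p - 1 := by rw [Nat.cast_sub hp'.one_le]; simp
      rw [← this]
      exact_mod_cast h3
    have h5 : (n.factorial.factorization p : ℝ) ≤ n / p + n * (2 / p ^ 2) := by
      have h6 : (n.factorial.factorization p : ℝ) ≤ n / (p - 1) := by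
        rw [le_div_iff₀ (by linarith)]; linarith
      refine h6.trans ?_
      have : 1 / ((p : ℝ) - 1) ≤ 1 / p + 2 / p ^ 2 := by
        rw [div_add_div _ _ hp0.ne' (by positivity), div_le_div_iff₀ (by linarith) (by positivity)]
        nlinarith [mul_pos hp0 hp0]
      calc (n : ℝ) / (p - 1) = n * (1 / (p - 1)) := by ring
        _ ≤ n * (1 / p + 2 / p ^ 2) := mul_le_mul_of_nonneg_left this hn0.le
        _ = _ := by ring
    have h6 : 0 ≤ log (p : ℝ) := log_natCast_nonneg p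
    have h7 : log (p : ℝ) ≤ 2 * (p : ℝ) ^ (1 / 2 : ℝ) := by
      have := log_le_rpow_div hp0.le (by norm_num : (0 : ℝ) < 1 / 2)
      linarith
    have h8 : (p : ℝ) ^ (1 / 2 : ℝ) / p ^ 2 = (p : ℝ) ^ (-(3 / 2) : ℝ) := by
      rw [← rpow_natCast, ← rpow_sub hp0]; norm_num
    calc (n.factorial.factorization p : ℝ) * log p ≤ (n / p + n * (2 / p ^ 2)) * log p :=
          mul_le_mul_of_nonneg_right h5 h6
      _ = n * (log p / p) + n * (2 / p ^ 2 * log p) := by ring
      _ ≤ n * (log p / p) + n * (2 / p ^ 2 * (2 * (p : ℝ) ^ (1 / 2 : ℝ))) := by gcongr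
      _ = _ := by rw [← h8]; ring
  have h3 : ∑ p ∈ primesIoc 0 n, 4 * (p : ℝ) ^ (-(3 / 2) : ℝ)
      ≤ ∑' m : ℕ, 4 * (m : ℝ) ^ (-(3 / 2) : ℝ) :=
    hs.sum_le_tsum _ fun m _ => by positivity
  have : n * (log n - (1 + ∑' m : ℕ, 4 * (m : ℝ) ^ (-(3 / 2) : ℝ))) ≤ n * A1 n := by
    nlinarith [mul_le_mul_of_nonneg_left h3 hn0.le]
  exact le_of_mul_le_mul_left this hn0

theorem mertens_one : ∃ C : ℝ, 0 ≤ C ∧ ∀ n : ℕ, 1 ≤ n → |A1 n - log n| ≤ C := by
  obtain ⟨C, hC⟩ := le_A1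
  have h4 : 0 ≤ log (4 : ℝ) := log_nonneg (by norm_num)
  refine ⟨max C (log 4), le_max_of_le_right h4, fun n hn => abs_le.mpr ⟨?_, ?_⟩⟩
  · linarith [hC n hn, le_max_left C (log 4)]
  · linarith [A1_le hn, le_max_right C (log 4)]

section

variable {C : ℝ} (hC : ∀ n : ℕ, 1 ≤ n → |A1 n - log n| ≤ C)
include hC

theorem sum_inv_le_short {x y : ℕ} (hx : 2 ≤ x) (hxy : x ≤ y) :
    ∑ p ∈ primesIoc x y, 1 / (p : ℝ) ≤ (log y - log x + 2 * C) / log x := by
  have hx0 : (1 : ℝ) < x := by exact_mod_cast hx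
  have hl : 0 < log (x : ℝ) := log_pos hx0
  rw [le_div_iff₀ hl, sum_mul]
  have h1 : ∑ p ∈ primesIoc x y, 1 / (p : ℝ) * log x ≤ ∑ p ∈ primesIoc x y, log p / p := by
    refine sum_le_sum fun p hp => ?_
    have hp' : (x : ℝ) < p := by exact_mod_cast (mem_primesIoc.mp hp).1
    rw [one_div_mul_eq_div]
    gcongr
  have h2 := sum_primesIoc_add (fun p => log p / p) (Nat.zero_le x) hxy
  have h3 := abs_le.mp (hC x (by omega))
  have h4 := abs_le.mp (hC y (by omega))
  simp only [A1] at h3 h4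
  linarith

theorem sum_inv_le_aux {z : ℕ} (hz : 2 ≤ z) (y : ℕ) (hzy : z ≤ y) :
    ∑ p ∈ primesIoc z y, 1 / (p : ℝ)
      ≤ log (log y) - log (log z) + (A1 y - log y - C) / log y + 2 * C / log z := by
  induction y, hzy using Nat.le_induction with
  | base =>
    have hz0 : (1 : ℝ) < z := by exact_mod_cast hz
    have hl : 0 < log (z : ℝ) := log_pos hz0
    have h3 := abs_le.mp (hC z (by omega))
    have : primesIoc z z = ∅ := by simp [primesIoc]
    rw [this, sum_empty, sub_self, zero_add, ← add_div]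
    exact div_nonneg (by linarith) hl.le
  | succ y hzy ih =>
    have hy0 : (1 : ℝ) < y := by exact_mod_cast (by omega : 1 < y)
    have hl : 0 < log (y : ℝ) := log_pos hy0
    have hl' : log (y : ℝ) ≤ log ((y + 1 : ℕ) : ℝ) := log_le_log (by linarith) (by simp)
    have hl1 : 0 < log ((y + 1 : ℕ) : ℝ) := hl.trans_le hl'
    have h1 := sum_primesIoc_add (fun p => 1 / (p : ℝ)) hzy (Nat.le_succ y)
    have h2 := sum_primesIoc_add (fun p => log p / p) (Nat.zero_le y) (Nat.le_succ y)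
    have h3 : ∑ p ∈ primesIoc y (y + 1), 1 / (p : ℝ)
        = (∑ p ∈ primesIoc y (y + 1), log p / p) / log ((y + 1 : ℕ) : ℝ) := by
      rw [sum_div]
      refine sum_congr rfl fun p hp => ?_
      have : p = y + 1 := by have := mem_primesIoc.mp hp; omega
      rw [this]
      field_simp
    have h4 : ∑ p ∈ primesIoc y (y + 1), log p / (p : ℝ) = A1 (y + 1) - A1 y := by
      simp only [A1]
      linarith
    have h5 := (abs_le.mp (hC y (by omega))).2
    set a := log (y : ℝ)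
    set b := log ((y + 1 : ℕ) : ℝ)
    have h6 : 1 - a / b ≤ log b - log a := by
      have := one_sub_inv_le_log_of_pos (div_pos hl1 hl)
      rwa [inv_div, log_div hl1.ne' hl.ne'] at this
    have h7 : (A1 y - a - C) / a ≤ (A1 y - a - C) / b := by
      rw [div_le_div_iff₀ hl hl1]
      nlinarith
    have h8 : (A1 (y + 1) - A1 y) / b + (A1 y - a - C) / b
        = (A1 (y + 1) - b - C) / b + (1 - a / b) := by
      field_simp
      ring
    simp only [Nat.succ_eq_add_one] at h1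
    rw [← h1, h3, h4]
    linarith

theorem sum_inv_le {z y : ℕ} (hz : 2 ≤ z) (hzy : z ≤ y) :
    ∑ p ∈ primesIoc z y, 1 / (p : ℝ) ≤ log (log y) - log (log z) + 2 * C / log z := by
  have h := sum_inv_le_aux hC hz y hzy
  have hy0 : (1 : ℝ) < y := by exact_mod_cast (by omega : 1 < y)
  have h5 := (abs_le.mp (hC y (by omega))).2
  have : (A1 y - log y - C) / log y ≤ 0 :=
    div_nonpos_of_nonpos_of_nonneg (by linarith) (log_pos hy0).le
  linarith

end

theorem sum_Ioc_tele {z : ℕ} (y : ℕ) (hzy : z ≤ y) :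
    ∑ m ∈ Ioc z y, (1 / ((m : ℝ) - 1) - 1 / m) = 1 / z - 1 / y := by
  induction y, hzy using Nat.le_induction with
  | base => simp
  | succ y hzy ih =>
    rw [sum_Ioc_succ_top hzy, ih]
    push_cast
    ring_nf

theorem prod_inv_le_exp {z y : ℕ} (hz : 1 ≤ z) (hzy : z ≤ y) :
    ∏ p ∈ primesIoc z y, (1 - 1 / (p : ℝ))⁻¹
      ≤ exp (∑ p ∈ primesIoc z y, 1 / (p : ℝ) + 1 / z) := by
  have h1 : ∏ p ∈ primesIoc z y, (1 - 1 / (p : ℝ))⁻¹
      ≤ exp (∑ p ∈ primesIoc z y, 1 / ((p : ℝ) - 1)) := by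
    rw [exp_sum]
    refine prod_le_prod (fun p hp => ?_) fun p hp => ?_
    · have hp2 : (2 : ℝ) ≤ p := by exact_mod_cast (mem_primesIoc.mp hp).2.2.two_le
      refine inv_nonneg.mpr (sub_nonneg.mpr ?_)
      rw [div_le_one (by linarith)]; linarith
    · have hp2 : (2 : ℝ) ≤ p := by exact_mod_cast (mem_primesIoc.mp hp).2.2.two_le
      have h0 : (p : ℝ) - 1 ≠ 0 := by linarith
      have h0' : (p : ℝ) ≠ 0 := by linarith
      have : (1 - 1 / (p : ℝ))⁻¹ = 1 / ((p : ℝ) - 1) + 1 := by field_simp; ring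
      rw [this]
      exact add_one_le_exp _
  refine h1.trans (exp_le_exp.mpr ?_)
  have h2 : ∑ p ∈ primesIoc z y, (1 / ((p : ℝ) - 1) - 1 / p)
      ≤ ∑ m ∈ Ioc z y, (1 / ((m : ℝ) - 1) - 1 / m) := by
    refine sum_le_sum_of_subset_of_nonneg (filter_subset _ _) fun m hm _ => ?_
    have hm2 : (2 : ℝ) ≤ m := by exact_mod_cast (by have := mem_Ioc.mp hm; omega : 2 ≤ m)
    exact sub_nonneg.mpr (one_div_le_one_div_of_le (by linarith) (by linarith))
  rw [sum_Ioc_tele y hzy, sum_sub_distrib] at h2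
  have : (0 : ℝ) ≤ 1 / y := by positivity
  linarith

theorem one_sub_inv_pos {p : ℕ} (hp : p.Prime) : 0 < 1 - 1 / (p : ℝ) := by
  have hp2 : (2 : ℝ) ≤ p := by exact_mod_cast hp.two_le
  rw [sub_pos, div_lt_one (by linarith)]; linarith

theorem V_pos (n : ℕ) : 0 < V n :=
  prod_pos fun _ hp => one_sub_inv_pos (mem_primesIoc.mp hp).2.2

theorem V_eq_mul {z y : ℕ} (hzy : z ≤ y) :
    V y = V z * ∏ p ∈ primesIoc z y, (1 - 1 / (p : ℝ)) :=
  (prod_primesIoc_mul _ (Nat.zero_le z) hzy).symm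

theorem V_le_mul {C : ℝ} (hC : ∀ n : ℕ, 1 ≤ n → |A1 n - log n| ≤ C) {z y : ℕ} (hz : 2 ≤ z)
    (hzy : z ≤ y) : V z ≤ V y * (log y / log z * exp (2 * C / log z + 1 / z)) := by
  have hz0 : (1 : ℝ) < z := by exact_mod_cast hz
  have hy0 : (1 : ℝ) < y := by exact_mod_cast (by omega : 1 < y)
  have h1 : V z = V y * ∏ p ∈ primesIoc z y, (1 - 1 / (p : ℝ))⁻¹ := by
    rw [V_eq_mul hzy, mul_assoc, ← prod_mul_distrib,
      prod_congr rfl (g := fun _ => 1) fun p hp =>
        mul_inv_cancel₀ (one_sub_inv_pos (mem_primesIoc.mp hp).2.2).ne']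
    simp
  rw [h1]
  refine mul_le_mul_of_nonneg_left ((prod_inv_le_exp (by omega) hzy).trans ?_) (V_pos y).le
  have h2 : log y / log z * exp (2 * C / log z + 1 / z)
      = exp (log (log y) - log (log z) + 2 * C / log z + 1 / z) := by
    rw [add_assoc, exp_add (log (log y) - log (log z)), exp_sub, exp_log (log_pos hy0),
      exp_log (log_pos hz0)]
  rw [h2]
  exact exp_le_exp.mpr (add_le_add (sum_inv_le hC hz hzy) le_rfl)

theorem V_lower : ∃ c : ℝ, 0 < c ∧ ∀ y : ℕ, 2 ≤ y → c ≤ V y * log y := by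
  obtain ⟨C, -, hC⟩ := mertens_one
  have h2 : 0 < log ((2 : ℕ) : ℝ) := log_pos (by norm_num)
  refine ⟨V 2 * log ((2 : ℕ) : ℝ) / exp (2 * C / log ((2 : ℕ) : ℝ) + 1 / ((2 : ℕ) : ℝ)),
    div_pos (mul_pos (V_pos 2) h2) (exp_pos _), fun y hy => ?_⟩
  have h := V_le_mul hC le_rfl hy
  rw [div_le_iff₀ (exp_pos _)]
  calc V 2 * log ((2 : ℕ) : ℝ) ≤ V y * (log y / log ((2 : ℕ) : ℝ) *
        exp (2 * C / log ((2 : ℕ) : ℝ) + 1 / ((2 : ℕ) : ℝ))) * log ((2 : ℕ) : ℝ) :=
        mul_le_mul_of_nonneg_right h h2.le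
    _ = _ := by field_simp

/-- Euler product bound for a finite set of smooth numbers. -/
theorem sum_smooth_le {α : ℝ} (hα : 0 < α) (z : ℕ) (T : Finset ℕ)
    (hT : ∀ m ∈ T, m ≠ 0 ∧ ∀ p : ℕ, p.Prime → p ∣ m → p ≤ z) :
    ∑ m ∈ T, (m : ℝ) ^ (-α) ≤ ∏ p ∈ primesIoc 0 z, (1 - (p : ℝ) ^ (-α))⁻¹ := by
  let f : ℕ →* ℝ :=
    { toFun := fun m => (m : ℝ) ^ (-α)
      map_one' := by simp
      map_mul' := fun a b => by
        push_cast
        exact mul_rpow (Nat.cast_nonneg a) (Nat.cast_nonneg b) }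
  have hf : ∀ {p : ℕ}, p.Prime → ‖f p‖ < 1 := by
    intro p hp
    have hp1 : (1 : ℝ) < p := by exact_mod_cast hp.one_lt
    change ‖(p : ℝ) ^ (-α)‖ < 1
    rw [norm_of_nonneg (by positivity)]
    exact rpow_lt_one_of_one_lt_of_neg hp1 (by linarith)
  have h := (EulerProduct.summable_and_hasSum_factoredNumbers_prod_filter_prime_geometric hf
    (Ioc 0 z)).2
  have hT' : ∀ m ∈ T, m ∈ Nat.factoredNumbers (Ioc 0 z) := fun m hm => by
    refine Nat.mem_factoredNumbers'.mpr fun p hp hpm => ?_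
    exact mem_Ioc.mpr ⟨hp.pos, (hT m hm).2 p hp hpm⟩
  have h2 := sum_le_hasSum (T.subtype (· ∈ Nat.factoredNumbers (Ioc 0 z)))
    (fun m _ => (by positivity : (0 : ℝ) ≤ ((m : ℕ) : ℝ) ^ (-α))) h
  have h3 := sum_subtype_of_mem (p := (· ∈ Nat.factoredNumbers (Ioc 0 z)))
    (fun m : ℕ => (m : ℝ) ^ (-α)) hT'
  rw [← h3]
  exact h2

theorem sum_smooth_inv_le (z : ℕ) (T : Finset ℕ)
    (hT : ∀ m ∈ T, m ≠ 0 ∧ ∀ p : ℕ, p.Prime → p ∣ m → p ≤ z) :
    ∑ m ∈ T, 1 / (m : ℝ) ≤ (V z)⁻¹ := by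
  have := sum_smooth_le one_pos z T hT
  simp only [rpow_neg_one] at this
  simpa [V, prod_inv_distrib] using this

theorem V_mul_log_le (n : ℕ) : V n * log n ≤ 1 := by
  have h1 := sum_smooth_inv_le n (Icc 1 n) fun m hm => by
    have := mem_Icc.mp hm
    exact ⟨by omega, fun p _ hp => (Nat.le_of_dvd (by omega) hp).trans this.2⟩
  have h2 : log (n : ℝ) ≤ ∑ m ∈ Icc 1 n, 1 / (m : ℝ) := by
    have h3 := log_add_one_le_harmonic n
    rw [harmonic_eq_sum_Icc] at h3
    push_cast at h3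
    rcases Nat.eq_zero_or_pos n with rfl | hn
    · simp
    have h4 : log (n : ℝ) ≤ log (n + 1) := log_le_log (by exact_mod_cast hn) (by linarith)
    simpa using h4.trans h3
  have := mul_le_mul_of_nonneg_left (h2.trans h1) (V_pos n).le
  rwa [mul_inv_cancel₀ (V_pos n).ne'] at this

end Pool.Agent.P.MP_3bc45c_nt
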