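import Pool.Agent.P.MP_3bc45c_nt.Tensor

/-!
The finite probability model (each index hits at most one form), monomials, and a dual
description of the l1 norm of a function in the monomial basis.
-/

open Finset

namespace Pool.Agent.P.MP_3bc45c_nt

section AN

variable {Ω : Type}

/-- `AN 𝒜 G B`: every linear functional bounded by `M` on `𝒜` is bounded by `B * M` at `G`. -/
def AN (𝒜 : Submonoid (Ω → ℝ)) (G : Ω → ℝ) (B : ℝ) : Prop :=
  ∀ (Φ : (Ω → ℝ) →ₗ[ℝ] ℝ) (M : ℝ), (∀ a ∈ 𝒜, |Φ a| ≤ M) → |Φ G| ≤ B * M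

variable {𝒜 : Submonoid (Ω → ℝ)}

theorem AN.of_mem {G : Ω → ℝ} (h : G ∈ 𝒜) : AN 𝒜 G 1 := fun Φ M hM => by
  simpa using hM G h

theorem AN.mono {G : Ω → ℝ} {B C : ℝ} (h : AN 𝒜 G B) (hBC : B ≤ C) : AN 𝒜 G C := fun Φ M hM =>
  (h Φ M hM).trans (mul_le_mul_of_nonneg_right hBC ((abs_nonneg _).trans (hM 1 𝒜.one_mem)))

theorem AN.zero : AN 𝒜 0 0 := fun Φ M _ => by simp

theorem AN.add {G H : Ω → ℝ} {B C : ℝ} (hG : AN 𝒜 G B) (hH : AN 𝒜 H C) :
    AN 𝒜 (G + H) (B + C) := fun Φ M hM => by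
  rw [map_add, add_mul]
  exact (abs_add_le _ _).trans (add_le_add (hG Φ M hM) (hH Φ M hM))

theorem AN.smul {G : Ω → ℝ} {B : ℝ} (hG : AN 𝒜 G B) (c : ℝ) :
    AN 𝒜 (c • G) (|c| * B) := fun Φ M hM => by
  rw [map_smul, smul_eq_mul, abs_mul, mul_assoc]
  exact mul_le_mul_of_nonneg_left (hG Φ M hM) (abs_nonneg _)

theorem AN.neg {G : Ω → ℝ} {B : ℝ} (hG : AN 𝒜 G B) : AN 𝒜 (-G) B := fun Φ M hM => by
  rw [map_neg, abs_neg]
  exact hG Φ M hM

theorem AN.mul {G H : Ω → ℝ} {B C : ℝ} (hG : AN 𝒜 G B) (hH : AN 𝒜 H C) :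
    AN 𝒜 (G * H) (B * C) := fun Φ M hM => by
  have h1 : ∀ a ∈ 𝒜, |(Φ ∘ₗ LinearMap.mulRight ℝ H) a| ≤ C * M := by
    intro a ha
    have := hH (Φ ∘ₗ LinearMap.mulLeft ℝ a) M (fun b hb => by
      simpa using hM (a * b) (𝒜.mul_mem ha hb))
    simpa using this
  have := hG (Φ ∘ₗ LinearMap.mulRight ℝ H) (C * M) h1
  simpa [mul_assoc] using this

theorem AN.sum {α : Type*} (s : Finset α) (G : α → Ω → ℝ) (B : α → ℝ)
    (h : ∀ a ∈ s, AN 𝒜 (G a) (B a)) : AN 𝒜 (∑ a ∈ s, G a) (∑ a ∈ s, B a) := by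
  classical
  induction s using Finset.induction_on with
  | empty => simpa using AN.zero
  | insert a s ha ih =>
    rw [sum_insert ha, sum_insert ha]
    exact (h a (mem_insert_self _ _)).add (ih fun b hb => h b (mem_insert_of_mem hb))

theorem AN.prod {α : Type*} (s : Finset α) (G : α → Ω → ℝ) (B : α → ℝ)
    (h : ∀ a ∈ s, AN 𝒜 (G a) (B a)) : AN 𝒜 (∏ a ∈ s, G a) (∏ a ∈ s, B a) := by
  classical
  induction s using Finset.induction_on with
  | empty => simpa using AN.of_mem 𝒜.one_mem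
  | insert a s ha ih =>
    rw [prod_insert ha, prod_insert ha]
    exact (h a (mem_insert_self _ _)).mul (ih fun b hb => h b (mem_insert_of_mem hb))

end AN

section Model

variable {S ι : Type} [Fintype S] [DecidableEq S] [Fintype ι] [DecidableEq ι]

/-- Probability of a state of one coordinate. -/
def prob (p : ι → ℝ) (l : ι) : Option S → ℝ
  | none => 1 - Fintype.card S * p l
  | some _ => p l

/-- Expectation in the product model. -/
def Ex (p : ι → ℝ) (G : (ι → Option S) → ℝ) : ℝ := ∑ ω, (∏ l, prob p l (ω l)) * G ω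

/-- Weight of a label. -/
def lam (p : ι → ℝ) (l : ι) : Option S → ℝ
  | none => 1
  | some _ => p l

/-- Product of the weights of the labelled coordinates. -/
def pw (p : ι → ℝ) (σ : ι → Option S) : ℝ := ∏ l, lam p l (σ l)

/-- One factor of a monomial. -/
def at1 : Option S → Option S → ℝ
  | none, _ => 1
  | some i, o => if o = some i then 1 else 0

/-- A monomial. -/
def atom (τ ω : ι → Option S) : ℝ := ∏ l, at1 (τ l) (ω l)

omit [DecidableEq S] [Fintype ι] [DecidableEq ι] in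
theorem sum_prob (p : ι → ℝ) (l : ι) : ∑ o : Option S, prob p l o = 1 := by
  simp [Fintype.sum_option, prob]

omit [DecidableEq S] [Fintype ι] [DecidableEq ι] in
theorem prob_nonneg {p : ι → ℝ} (hp : ∀ l, 0 ≤ p l) (hk : ∀ l, Fintype.card S * p l ≤ 1) (l : ι)
    (o : Option S) : 0 ≤ prob p l o := by
  cases o with
  | none => simpa [prob] using hk l
  | some i => simpa [prob] using hp l

omit [DecidableEq S] in
theorem Ex_prod (p : ι → ℝ) (f : ι → Option S → ℝ) :
    Ex p (fun ω => ∏ l, f l (ω l)) = ∏ l, ∑ o, prob p l o * f l o := by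
  rw [prod_univ_sum]
  simp [Ex, prod_mul_distrib]

omit [DecidableEq S] in
theorem Ex_mono {p : ι → ℝ} (hp : ∀ l, 0 ≤ p l) (hk : ∀ l, Fintype.card S * p l ≤ 1)
    {G H : (ι → Option S) → ℝ} (h : ∀ ω, G ω ≤ H ω) : Ex p G ≤ Ex p H :=
  sum_le_sum fun ω _ => mul_le_mul_of_nonneg_left (h ω)
    (prod_nonneg fun l _ => prob_nonneg hp hk l _)

omit [DecidableEq S] in
theorem Ex_add (p : ι → ℝ) (G H : (ι → Option S) → ℝ) :
    Ex p (fun ω => G ω + H ω) = Ex p G + Ex p H := by
  simp [Ex, mul_add, sum_add_distrib]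

omit [DecidableEq S] in
theorem Ex_const_mul (p : ι → ℝ) (c : ℝ) (G : (ι → Option S) → ℝ) :
    Ex p (fun ω => c * G ω) = c * Ex p G := by
  simp only [Ex, mul_sum]
  exact sum_congr rfl fun ω _ => by ring

omit [DecidableEq S] in
theorem Ex_mul_const (p : ι → ℝ) (c : ℝ) (G : (ι → Option S) → ℝ) :
    Ex p (fun ω => G ω * c) = Ex p G * c := by
  simp only [Ex, sum_mul]
  exact sum_congr rfl fun ω _ => by ring

omit [DecidableEq S] in
theorem Ex_sum {α : Type*} (p : ι → ℝ) (s : Finset α) (G : α → (ι → Option S) → ℝ) :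
    Ex p (fun ω => ∑ a ∈ s, G a ω) = ∑ a ∈ s, Ex p (G a) := by
  simp only [Ex, mul_sum]
  rw [sum_comm]

theorem Ex_atom (p : ι → ℝ) (τ : ι → Option S) : Ex p (atom τ) = pw p τ := by
  have : atom τ = fun ω : ι → Option S => ∏ l, at1 (τ l) (ω l) := rfl
  rw [this, Ex_prod p (fun l o => at1 (τ l) o), pw]
  refine prod_congr rfl fun l _ => ?_
  cases τ l with
  | none => simp [at1, lam, prob]
  | some i => simp [at1, lam, prob]

omit [Fintype S] [DecidableEq ι] in
theorem atom_mul (τ τ' : ι → Option S) :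
    (∃ ρ : ι → Option S, ∀ ω, atom τ ω * atom τ' ω = atom ρ ω) ∨
      ∀ ω, atom τ ω * atom τ' ω = 0 := by
  by_cases hc : ∀ l, τ l = none ∨ τ' l = none ∨ τ l = τ' l
  · left
    refine ⟨fun l => (τ l).or (τ' l), fun ω => ?_⟩
    simp only [atom, ← prod_mul_distrib]
    refine prod_congr rfl fun l _ => ?_
    rcases hc l with h | h | h
    · simp [h, at1]
    · cases h' : τ l <;> simp [h, at1]
    · cases h' : τ' l with
      | none => simp [h, h', at1]
      | some i => by_cases h2 : ω l = some i <;> simp [h, h', at1, h2]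
  · right
    intro ω
    push Not at hc
    obtain ⟨l, h1, h2, h3⟩ := hc
    simp only [atom, ← prod_mul_distrib]
    refine prod_eq_zero (mem_univ l) ?_
    cases h : τ l with
    | none => exact absurd h h1
    | some i =>
      cases h' : τ' l with
      | none => exact absurd h' h2
      | some j =>
        have hij : i ≠ j := fun e => h3 (by rw [h, h', e])
        by_cases h4 : ω l = some i
        · simp [at1, h4, hij]
        · simp [at1, h4]

omit [Fintype S] in
theorem atom_single (l : ι) (i : S) (ω : ι → Option S) :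
    atom (Function.update (fun _ => none) l (some i)) ω = if ω l = some i then 1 else 0 := by
  unfold atom
  rw [prod_eq_single l]
  · simp [at1]
  · intro b _ hb
    simp [Function.update_of_ne hb, at1]
  · simp

end Model

section Pair

variable (S ι₁ ι₂ : Type) [DecidableEq S] [Fintype ι₁] [Fintype ι₂]

/-- The monomials on a pair of configurations, together with zero. -/
def atoms : Submonoid (((ι₁ → Option S) × (ι₂ → Option S)) → ℝ) where
  carrier := {G | G = 0 ∨ ∃ τ₁ τ₂, G = fun ω => atom τ₁ ω.1 * atom τ₂ ω.2}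
  one_mem' := Or.inr ⟨fun _ => none, fun _ => none, by ext ω; simp [atom, at1]⟩
  mul_mem' := by
    rintro G H (rfl | ⟨τ₁, τ₂, rfl⟩) hH
    · left; simp
    rcases hH with rfl | ⟨ρ₁, ρ₂, rfl⟩
    · left; simp
    rcases atom_mul τ₁ ρ₁ with ⟨κ₁, h₁⟩ | h₁
    · rcases atom_mul τ₂ ρ₂ with ⟨κ₂, h₂⟩ | h₂
      · right
        refine ⟨κ₁, κ₂, ?_⟩
        ext ω
        simp only [Pi.mul_apply, ← h₁, ← h₂]
        ring
      · left
        ext ω
        simp only [Pi.mul_apply, Pi.zero_apply]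
        linear_combination (atom τ₁ ω.1 * atom ρ₁ ω.1) * h₂ ω.2
    · left
      ext ω
      simp only [Pi.mul_apply, Pi.zero_apply]
      linear_combination (atom τ₂ ω.2 * atom ρ₂ ω.2) * h₁ ω.1

variable {S ι₁ ι₂}

theorem X₁_mem [DecidableEq ι₁] (l : ι₁) (i : S) :
    (fun ω : (ι₁ → Option S) × (ι₂ → Option S) => if ω.1 l = some i then (1 : ℝ) else 0)
      ∈ atoms S ι₁ ι₂ :=
  Or.inr ⟨Function.update (fun _ => none) l (some i), fun _ => none, by
    ext ω
    rw [atom_single]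
    simp [atom, at1]⟩

theorem X₂_mem [DecidableEq ι₂] (l : ι₂) (i : S) :
    (fun ω : (ι₁ → Option S) × (ι₂ → Option S) => if ω.2 l = some i then (1 : ℝ) else 0)
      ∈ atoms S ι₁ ι₂ :=
  Or.inr ⟨fun _ => none, Function.update (fun _ => none) l (some i), by
    ext ω
    rw [atom_single]
    simp [atom, at1]⟩

end Pair

end Pool.Agent.P.MP_3bc45c_nt
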