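import Pool.Agent.P.MP_3bc45c_nt.PolyCover
import Pool.Agent.P.MP_3bc45c_nt.CoverAsymp

/-!
The covering proposition for values of a polynomial in asymptotic form, and long runs of values
with a small prime factor.
-/

open Finset Real Polynomial Filter

namespace Pool.Agent.P.MP_3bc45c_nt

theorem cover_poly_at {g : ℤ[X]} {C₀ : ℝ} (hC0 : 0 ≤ C₀)
    (hC : ∀ u : ℕ, 2 ≤ u → |∑ p ∈ primesIoc 0 u, (rho g p : ℝ) / p - log (log u)| ≤ C₀)
    {B d a : ℕ} (hd1 : 1 ≤ d) (hd : ∀ p : ℕ, p.Prime → B < p → rho g p ≤ d) (ha : 6 ≤ a)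
    {Z Λ : ℝ} (hΛ : Λ = 4 * (6 * d + 1) * (a + 1) * exp (2 * C₀ + 2))
    {y : ℕ} (hsep : ∀ l : ℕ, Z ^ a < l → Sep g y l)
    (hL1 : 40 ≤ log Z) (hL2 : 200 * d ≤ log Z)
    (hL3 : 3 * log (log Z) + log (2 * (6 * d + 1) * (a + 1)) + 2 * C₀ ≤ log Z / 2)
    (hZ1 : (B : ℝ) ≤ Z) (hZ2 : Λ * d * exp (2 * C₀) ≤ Z)
    (hZ3 : (6 * d + 1) * (a + 1) * log Z ^ 3 ≤ Z) (hZ4 : 100 * log Z ≤ Z) (hZ0 : 0 < Z)
    {𝒮 : Finset ℕ} (h𝒮 : 𝒮 ⊆ range (y + 1)) (hcard : (𝒮.card : ℝ) ≤ Z / (80 * Λ)) {P : ℕ}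
    (hP : ∀ p : ℕ, p.Prime → p ∣ P → (p : ℝ) ≤ Z) (b : ℕ) :
    ∃ t < ⌈exp (Z / 2)⌉₊, ∀ n ∈ 𝒮, ∃ p : ℕ, p.Prime ∧ Z < p ∧ (p : ℝ) ≤ exp (Z / log Z ^ 2) ∧
      (p : ℤ) ∣ g.eval ((b + P * t + n : ℕ) : ℤ) := by
  obtain ⟨L, hLdef⟩ : ∃ L, log Z = L := ⟨_, rfl⟩
  rw [hLdef] at hL1 hL2 hL3 hZ3 hZ4 ⊢
  have hZL : exp L = Z := by rw [← hLdef, exp_log hZ0]
  have hL0 : 0 < L := by linarith
  have hZ40 : 4000 ≤ Z := by linarith
  have hZ1' : 1 ≤ Z := by linarith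
  have hd1' : (1 : ℝ) ≤ d := by exact_mod_cast hd1
  have ha' : (6 : ℝ) ≤ a := by exact_mod_cast ha
  have hdL : (d : ℝ) ≤ L := by linarith
  have hLZ : L ≤ Z := by linarith
  have hlogd : log (d : ℝ) ≤ d := (log_le_sub_one_of_pos (by linarith)).trans (by linarith)
  have hlogd0 : 0 ≤ log (d : ℝ) := log_nonneg hd1'
  have hΛ1 : 1 ≤ Λ := by
    rw [hΛ]
    have h1 : 1 ≤ exp (2 * C₀ + 2) := one_le_exp (by linarith)
    have h2 : (1 : ℝ) ≤ 4 * (6 * d + 1) * (a + 1) :=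
      one_le_mul_of_one_le_of_one_le (by linarith) (by linarith)
    exact one_le_mul_of_one_le_of_one_le h2 h1
  have hk0 : 0 ≤ Z / (80 * Λ) := by positivity
  have hkZ : Z / (80 * Λ) ≤ Z := div_le_self hZ0.le (by linarith)
  have hZ6 : Z ^ 6 ≤ Z ^ a := pow_le_pow_right₀ hZ1' ha
  have hZ16 : Z ^ 1 ≤ Z ^ 6 := pow_le_pow_right₀ hZ1' (by norm_num)
  have hZ26 : Z ^ 2 ≤ Z ^ 6 := pow_le_pow_right₀ hZ1' (by norm_num)
  rw [pow_one] at hZ16
  obtain ⟨W, hW1, hW2⟩ : ∃ W : ℕ, Z ^ a ≤ W ∧ (W : ℝ) ≤ Z ^ (a + 1) := by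
    refine ⟨⌈Z ^ a⌉₊, Nat.le_ceil _, ?_⟩
    have h1 := (Nat.ceil_lt_add_one (by positivity : 0 ≤ Z ^ a)).le
    have h2 : Z ^ a * 2 ≤ Z ^ a * Z := mul_le_mul_of_nonneg_left (by linarith) (by positivity)
    rw [pow_succ]
    linarith
  have hZW : Z ≤ W := by linarith
  have hW0 : (0 : ℝ) < W := by linarith
  have hlW1 : a * L ≤ log W := by
    have := log_le_log (by positivity) hW1
    rwa [log_pow, hLdef] at this
  have hlW2 : log W ≤ (a + 1) * L := by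
    have := log_le_log hW0 hW2
    rwa [log_pow, hLdef, Nat.cast_succ] at this
  have haL : 6 * L ≤ a * L := mul_le_mul_of_nonneg_right ha' hL0.le
  have hh₀ : 5 * L ≤ log W - log d := by linarith
  have hT0 : 0 < Z / L ^ 2 := by positivity
  have hT1 : Z / L ^ 2 ≤ Z / 40 := div_le_div_of_nonneg_left hZ0.le (by norm_num)
    (hL1.trans (le_self_pow₀ (by linarith) two_ne_zero))
  have hD0 : (0 : ℝ) < 6 * d + 1 := by linarith
  have hU : (a + 1) * L ≤ Z / L ^ 2 / (6 * d + 1) := by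
    rw [le_div_iff₀ hD0, le_div_iff₀ (by positivity)]
    linarith
  obtain ⟨E, hE1, hE2⟩ : ∃ E : ℕ, (E : ℝ) ≤ exp (Z / L ^ 2 / (6 * d + 1)) ∧
      exp (Z / L ^ 2 / (6 * d + 1)) < E + 1 :=
    ⟨⌊exp (Z / L ^ 2 / (6 * d + 1))⌋₊, Nat.floor_le (exp_pos _).le, Nat.lt_floor_add_one _⟩
  have hWE : W ≤ E := by
    have h1 : (W : ℝ) ≤ exp (Z / L ^ 2 / (6 * d + 1)) := by
      rw [← log_le_iff_le_exp hW0]; linarith
    exact Nat.le_of_lt_succ (by exact_mod_cast h1.trans_lt hE2)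
  have hWE' : (W : ℝ) ≤ E := by exact_mod_cast hWE
  have hlE1 : log E ≤ Z / L ^ 2 / (6 * d + 1) := by rwa [log_le_iff_le_exp (by linarith)]
  have hUT : Z / L ^ 2 / (6 * d + 1) ≤ Z / L ^ 2 := div_le_self hT0.le (by linarith)
  have hlE2 : Z / L ^ 2 / (6 * d + 1) / 2 ≤ log E := by
    have h1 : Z / L ^ 2 / (6 * d + 1) ≤ log (2 * E) := by
      rw [le_log_iff_exp_le (by linarith)]; linarith
    rw [log_mul (by norm_num) (by linarith)] at h1
    linarith [log_two_lt_d9]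
  have hllE1 : log (log E) ≤ L := by
    rw [← hLdef]
    exact log_le_log (log_pos (by linarith)) (by linarith)
  have hllE2 : L - 2 * log L - log (2 * (6 * d + 1)) ≤ log (log E) := by
    refine le_trans (le_of_eq ?_) (log_le_log (by positivity) hlE2)
    rw [div_div, mul_comm _ (2 : ℝ), log_div hT0.ne' (by positivity),
      log_div hZ0.ne' (by positivity), log_pow, hLdef]
    norm_num
  have hllW1 : 0 ≤ log (log W) := log_nonneg (by linarith)
  have hllW2 : log (log W) ≤ log (a + 1) + log L := by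
    rw [← log_mul (by positivity) hL0.ne']
    exact log_le_log (by linarith) hlW2
  have hdW : (d : ℝ) / W ≤ 1 / Z ^ 5 := by
    rw [div_le_div_iff₀ hW0 (by positivity)]
    have : (d : ℝ) * Z ^ 5 ≤ Z * Z ^ 5 := mul_le_mul_of_nonneg_right (by linarith) (by positivity)
    have h2 : Z * Z ^ 5 = Z ^ 6 := by ring
    linarith
  have hρh : Z / 10 / (log W - log d) ≤ Z := by
    refine (div_le_self (by positivity) (by linarith)).trans (by linarith)
  have hρh0 : 0 ≤ Z / 10 / (log W - log d) := div_nonneg (by positivity) (by linarith)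
  have hkd : Z / (80 * Λ) * (d / W) * Z ≤ 1 / 2 := by
    calc Z / (80 * Λ) * (d / W) * Z ≤ Z * (1 / Z ^ 5) * Z := by gcongr
      _ = 1 / Z ^ 3 := by field_simp
      _ ≤ 1 / 2 := one_div_le_one_div_of_le (by norm_num)
          (le_trans (by linarith) (le_self_pow₀ hZ1' (by norm_num)))
  have hkd0 : 0 ≤ Z / (80 * Λ) * (d / W) := by positivity
  obtain ⟨s, hs1, hs2⟩ : ∃ s : ℕ, Z / L ≤ s ∧ (s : ℝ) ≤ Z / L + 1 :=
    ⟨⌈Z / L⌉₊, Nat.le_ceil _, (Nat.ceil_lt_add_one (by positivity)).le⟩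
  obtain ⟨t, ht, hcov⟩ := cover_poly_finite hC (y := y) (W := W) (E := E) (d := d) (P := P)
    (b := b) (N := ⌈exp (Z / 2)⌉₊) (s := s) (T := Z / L ^ 2) (L := Λ) (ρ := Z / 10)
    (k := Z / (80 * Λ)) (σ := L + 2 * C₀) h𝒮 hcard
    (by exact_mod_cast (by linarith : (2 : ℝ) ≤ W)) hWE hd1
    (fun p hp hWp => hd p hp (by
      have : (W : ℝ) < p := by exact_mod_cast hWp
      exact_mod_cast (by linarith : (B : ℝ) < p)))
    (by
      have : (d : ℝ) ^ 2 ≤ Z ^ 2 := pow_le_pow_left₀ (by linarith) (by linarith) 2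
      exact_mod_cast (by linarith : (d : ℝ) ^ 2 ≤ W))
    (fun l hl => hsep l (hW1.trans_lt (by exact_mod_cast hl)))
    (fun p hp hd => by exact_mod_cast (hP p hp hd).trans hZW)
    (by
      refine Nat.ceil_le.mpr ?_
      push_cast
      rw [← exp_log hW0, ← exp_nat_mul]
      refine exp_le_exp.mpr ?_
      have h1 : Z / L * L ≤ s * log W := mul_le_mul hs1 (by linarith) hL0.le (Nat.cast_nonneg _)
      rw [div_mul_cancel₀ _ hL0.ne'] at h1
      linarith)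
    (by linarith) (by rwa [le_div_iff₀' hD0] at hlE1) hT0 (by linarith) (by positivity)
    (by
      have h1 : L / 2 ≤ log (log E) - log (log W) - 2 * C₀ := by
        rw [log_mul (by positivity) (by positivity)] at hL3
        linarith
      calc 1 / Λ = exp (-2 * C₀ - 2) / (2 * (6 * d + 1) * ((a + 1) * L)) * (L / 2) := by
            rw [hΛ, show -2 * C₀ - 2 = -(2 * C₀ + 2) by ring, exp_neg]
            field_simp
            norm_num
        _ ≤ _ := by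
            have : 0 < log (W : ℝ) := by linarith
            gcongr)
    (by linarith)
    (by linarith [le_mul_of_one_le_right hkd0 hZ1'])
    ((mul_le_mul_of_nonneg_left hρh hkd0).trans hkd)
    (by
      have h1 : 2 * (Z / (80 * Λ)) * Λ = Z / 40 := by field_simp; norm_num
      have h2 : -(Z / 10 - Z / L ^ 2 - 2 * (Z / (80 * Λ)) * Λ) / (Z / L ^ 2) ≤ -(2 * L) := by
        rw [h1, div_le_iff₀ hT0]
        have h3 : 2 * L * (Z / L ^ 2) ≤ Z / 20 := by
          rw [← mul_div_assoc, div_le_div_iff₀ (by positivity) (by norm_num)]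
          linarith [mul_le_mul_of_nonneg_left hL1 (mul_pos hZ0 hL0).le]
        linarith
      have h3 : exp (-(2 * L)) = 1 / Z ^ 2 := by
        rw [exp_neg, two_mul, exp_add, hZL, one_div, sq]
      calc _ ≤ (Z + 1) * (1 / Z ^ 2) := by
            rw [← h3]
            gcongr
        _ ≤ _ := by
            rw [mul_one_div, div_le_div_iff₀ (by positivity) (by norm_num)]
            linarith [mul_le_mul_of_nonneg_left hZ40 hZ0.le])
    (by
      have h1 : Λ / (log W - log d) ≤ Λ := div_le_self (by linarith) (by linarith)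
      have h2 : (d : ℝ) / W ≤ d / Z ^ 6 :=
        div_le_div_of_nonneg_left (by linarith) (by positivity) (by linarith)
      have h3 : Λ / (log W - log d) * (d / W * exp (L + 2 * C₀)) * (Z / 10 / (log W - log d))
          ≤ 1 / Z ^ 3 := by
        calc _ ≤ Λ * (d / Z ^ 6 * exp (L + 2 * C₀)) * Z := by gcongr
          _ = Λ * d * exp (2 * C₀) / Z ^ 4 := by
              rw [exp_add, hZL]; field_simp
          _ ≤ Z / Z ^ 4 := by gcongr
          _ = _ := by field_simp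
      have h4 : 0 ≤ Λ / (log W - log d) * (d / W * exp (L + 2 * C₀)) *
          (Z / 10 / (log W - log d)) :=
        mul_nonneg (mul_nonneg (div_nonneg (by linarith) (by linarith)) (by positivity)) hρh0
      calc _ ≤ Z * (1 / Z ^ 3) ^ 2 := by gcongr
        _ = 1 / Z ^ 5 := by field_simp
        _ ≤ 1 / 10 := one_div_le_one_div_of_le (by norm_num)
          (le_trans (by linarith) (le_self_pow₀ hZ1' (by norm_num))))
    (by
      refine lt_of_lt_of_le ?_ (Nat.le_ceil _)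
      have h1 : Z / (80 * Λ) * exp (-(1 / 2 * (log W - log d))) ≤ 1 := by
        have h2 : exp (-(1 / 2 * (log W - log d))) ≤ exp (-L) := exp_le_exp.mpr (by linarith)
        rw [exp_neg L, hZL] at h2
        refine (mul_le_mul hkZ h2 (exp_pos _).le hZ0.le).trans (le_of_eq ?_)
        field_simp
      have h2 : (d : ℝ) ^ s ≤ exp (Z / 100) := by
        rw [← exp_log (show (0 : ℝ) < d by linarith), ← exp_nat_mul]
        refine exp_le_exp.mpr ?_
        have h3 : (s : ℝ) * log d ≤ (Z / L + 1) * (L / 200) :=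
          mul_le_mul hs2 (by linarith) hlogd0 (by positivity)
        have h4 : (Z / L + 1) * (L / 200) = Z / 200 + L / 200 := by field_simp
        linarith
      have h3 : 10 * (Z / (80 * Λ) + 1) ≤ exp (L + 3) := by
        rw [exp_add, hZL]
        have h4 : (20 : ℝ) ≤ exp 3 := by
          have h5 := exp_one_gt_d9
          have h6 : exp 3 = exp 1 ^ 3 := by rw [← exp_nat_mul]; norm_num
          rw [h6]
          exact le_trans (by norm_num) (pow_le_pow_left₀ (by norm_num) h5.le 3)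
        linarith [mul_le_mul_of_nonneg_left h4 hZ0.le]
      have h4 : (2 : ℝ) ≤ exp 1 := by linarith [add_one_le_exp (1 : ℝ)]
      calc _ ≤ exp (L + 3) * (exp (2 * (Z / 10)) * exp 1) ^ 2 * (exp 1 * exp (Z / 100)) := by
            gcongr
        _ < _ := by
            rw [← exp_add, ← exp_add, ← exp_nat_mul, ← exp_add, ← exp_add]
            refine exp_lt_exp.mpr ?_
            push_cast
            linarith)
  refine ⟨t, ht, fun n hn => ?_⟩
  obtain ⟨p, h1, h2, h3, h4⟩ := hcov n hn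
  refine ⟨p, h1, hZW.trans_lt (by exact_mod_cast h2), ?_, h4⟩
  exact le_trans (by exact_mod_cast h3) (hE1.trans (exp_le_exp.mpr hUT))

theorem cover_poly_asymp {g : ℤ[X]} (hg : Good g) : ∃ c : ℝ, 0 < c ∧ ∀ᶠ Z : ℝ in atTop,
    ∀ y : ℕ, (y : ℝ) ≤ Z ^ 2 → ∀ 𝒮 ⊆ range (y + 1), (𝒮.card : ℝ) ≤ c * Z →
      ∀ P : ℕ, (∀ p : ℕ, p.Prime → p ∣ P → (p : ℝ) ≤ Z) → ∀ b : ℕ,
      ∃ t < ⌈exp (Z / 2)⌉₊, ∀ n ∈ 𝒮, ∃ p : ℕ, p.Prime ∧ Z < p ∧ (p : ℝ) ≤ exp (Z / log Z ^ 2) ∧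
        (p : ℤ) ∣ g.eval ((b + P * t + n : ℕ) : ℤ) := by
  obtain ⟨C₀, hC⟩ := hg.mertens
  obtain ⟨B, d, hd⟩ := hg.bound
  obtain ⟨A, hA⟩ := hg.sep
  have hC0 : 0 ≤ C₀ := (abs_nonneg _).trans (hC 2 le_rfl)
  obtain ⟨Λ, hΛ⟩ : ∃ Λ : ℝ, Λ = 4 * (6 * ((d + 1 : ℕ) : ℝ) + 1) * (((2 * A + 6 : ℕ) : ℝ) + 1) *
    exp (2 * C₀ + 2) := ⟨_, rfl⟩
  have hΛ0 : 0 < Λ := by rw [hΛ]; positivity
  refine ⟨1 / (80 * Λ), by positivity, ?_⟩
  filter_upwards [tendsto_log_atTop.eventually_ge_atTop 40,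
    tendsto_log_atTop.eventually_ge_atTop (200 * ((d + 1 : ℕ) : ℝ)),
    tendsto_log_atTop.eventually (ev_pow_log 12 1),
    tendsto_log_atTop.eventually_ge_atTop (4 * (log (2 * (6 * ((d + 1 : ℕ) : ℝ) + 1) *
      (((2 * A + 6 : ℕ) : ℝ) + 1)) + 2 * C₀)),
    eventually_ge_atTop (B : ℝ), eventually_ge_atTop (Λ * ((d + 1 : ℕ) : ℝ) * exp (2 * C₀)),
    ev_pow_log ((6 * ((d + 1 : ℕ) : ℝ) + 1) * (((2 * A + 6 : ℕ) : ℝ) + 1)) 3, ev_pow_log 100 1,
    eventually_ge_atTop 2]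
    with Z h1 h2 h3 h4 h5 h6 h7 h8 h9 y hy 𝒮 h𝒮 hcard P hP b
  rw [pow_one] at h3 h8
  refine cover_poly_at hC0 hC (B := B) (d := d + 1) (a := 2 * A + 6) (by omega)
    (fun p hp hB => (hd p hp hB).trans (Nat.le_succ d)) (by omega) hΛ (fun l hl δ h10 h11 => ?_)
    h1 h2 (by linarith) h5 h6 h7 h8 (by linarith) h𝒮 (by rwa [one_div_mul_eq_div] at hcard) hP b
  refine hA (Z ^ 2) (by nlinarith) δ h10 (le_trans (by exact_mod_cast h11) hy) l
    (lt_of_le_of_lt ?_ hl)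
  rw [← pow_mul]
  exact pow_le_pow_right₀ (by linarith) (by omega)

theorem poly_run {g : ℤ[X]} (hg : Good g) (B : ℕ) : ∃ c : ℝ, 0 < c ∧ ∀ᶠ Z : ℝ in atTop,
    ∀ A : ℕ, ∃ m : ℕ, A ≤ m ∧ (m : ℝ) ≤ A + exp Z / 2 ∧
      ∀ j : ℕ, (j : ℝ) ≤ c * Z * log Z →
        ∃ p : ℕ, p.Prime ∧ B < p ∧ (p : ℝ) ≤ exp (Z / log Z ^ 2) ∧
          (p : ℤ) ∣ g.eval ((m + j : ℕ) : ℤ) := by
  obtain ⟨C₀, hC⟩ := hg.mertens
  obtain ⟨c₁, hc₁, hcov⟩ := cover_poly_asymp hg
  refine ⟨c₁ / (4 * exp (C₀ + B)), by positivity, ?_⟩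
  set c := c₁ / (4 * exp (C₀ + B)) with hc
  have hc0 : 0 < c := by positivity
  filter_upwards [hcov, tendsto_log_atTop.eventually_ge_atTop 6, ev_pow_log c 1,
    ev_pow_log 1 3, eventually_ge_atTop (1 / c), eventually_ge_atTop (4 * (B : ℝ) + 20)]
    with Z hcov hL6 hcL hL3 hcZ hZ A
  obtain ⟨L, hLdef⟩ : ∃ L, log Z = L := ⟨_, rfl⟩
  rw [hLdef] at hL6 hcL hL3 hcov ⊢
  rw [pow_one] at hcL
  have hB0 : (0 : ℝ) ≤ B := Nat.cast_nonneg _
  have hZ0 : 0 < Z := by linarith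
  have hL0 : 0 < L := by linarith
  have hZL : exp L = Z := by rw [← hLdef, exp_log hZ0]
  obtain ⟨x, hx1, hx2⟩ : ∃ x : ℕ, (x : ℝ) ≤ Z / 4 ∧ Z / 4 < x + 1 :=
    ⟨⌊Z / 4⌋₊, Nat.floor_le (by positivity), Nat.lt_floor_add_one _⟩
  have hBx : B ≤ x := by exact_mod_cast (by linarith : (B : ℝ) ≤ x)
  have hx3 : 2 ≤ x := by exact_mod_cast (by linarith : (2 : ℝ) ≤ x)
  have hlx : L / 2 ≤ log x := by
    have h1 : log (Z / 8) ≤ log x := log_le_log (by positivity) (by linarith)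
    rw [log_div hZ0.ne' (by norm_num), hLdef, show (8 : ℝ) = 2 ^ 3 by norm_num, log_pow] at h1
    push_cast at h1
    linarith [log_two_lt_d9]
  have hcZL : 1 ≤ c * Z * L := by
    rw [div_le_iff₀' hc0] at hcZ
    exact one_le_mul_of_one_le_of_one_le hcZ (by linarith)
  set y := ⌊c * Z * L⌋₊ with hy
  have hy1 : (y : ℝ) ≤ c * Z * L := Nat.floor_le (by positivity)
  obtain ⟨b, hb1, hb2, hb3⟩ := sieve_poly g B x y A
  have hS : exp (- ∑ p ∈ primesIoc B x, (rho g p : ℝ) / p) ≤ exp (C₀ + B) * (2 / L) := by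
    have h1 := sum_primesIoc_add (fun p => (rho g p : ℝ) / p) (Nat.zero_le B) hBx
    have h2 := (abs_le.mp (hC x hx3)).1
    have h3 : ∑ p ∈ primesIoc 0 B, (rho g p : ℝ) / p ≤ B := by
      refine (sum_le_card_nsmul _ _ 1 fun p hp => ?_).trans ?_
      · exact (div_le_one (by exact_mod_cast (mem_primesIoc.mp hp).1)).mpr
          (by exact_mod_cast rho_le_self g p)
      · have : (primesIoc 0 B).card ≤ B := (card_filter_le _ _).trans (by simp)
        simpa using this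
    have h4 : log (L / 2) ≤ log (log x) := log_le_log (by positivity) hlx
    rw [← exp_log (show 0 < 2 / L by positivity), ← exp_add, ← inv_div, log_inv]
    exact exp_le_exp.mpr (by linarith)
  have hdvd : ∀ p : ℕ, p.Prime → p ∣ ∏ p ∈ primesIoc B x, p → (p : ℝ) ≤ Z := fun p hp hd => by
    obtain ⟨q, hq, hpq⟩ := (Prime.dvd_finsetProd_iff hp.prime _).mp hd
    obtain ⟨-, h1, h2⟩ := mem_primesIoc.mp hq
    rw [(Nat.prime_dvd_prime_iff_eq hp h2).mp hpq]
    have : (q : ℝ) ≤ x := by exact_mod_cast h1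
    linarith
  obtain ⟨t, ht, hcov'⟩ := hcov y (by nlinarith) _ (filter_subset _ _)
    (hb3.trans (by
      calc ((y : ℝ) + 1) * exp (- ∑ p ∈ primesIoc B x, (rho g p : ℝ) / p)
          ≤ (2 * (c * Z * L)) * (exp (C₀ + B) * (2 / L)) :=
            mul_le_mul (by linarith) hS (exp_pos _).le (by positivity)
        _ = c₁ * Z := by rw [hc]; field_simp; norm_num)) _ hdvd b
  have hP : ((∏ p ∈ primesIoc B x, p : ℕ) : ℝ) ≤ exp (0.35 * Z) := by
    have h1 : ∏ p ∈ primesIoc B x, p ≤ ∏ p ∈ primesIoc 0 x, p :=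
      prod_le_prod_of_subset_of_one_le' (filter_subset_filter _ (Ioc_subset_Ioc_left
        (Nat.zero_le _))) fun p hp _ => (mem_primesIoc.mp hp).1
    refine (le_trans (by exact_mod_cast h1) (primorial_le_exp x)).trans (exp_le_exp.mpr ?_)
    have h6 : log (4 : ℝ) ≤ 1.4 := by
      rw [show (4 : ℝ) = 2 ^ 2 by norm_num, log_pow]
      push_cast
      linarith [log_two_lt_d9]
    calc log 4 * (x : ℝ) ≤ 1.4 * (Z / 4) := mul_le_mul h6 hx1 (Nat.cast_nonneg _) (by norm_num)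
      _ = _ := by ring
  set P := ∏ p ∈ primesIoc B x, p with hPdef
  refine ⟨b + P * t, hb1.trans (Nat.le_add_right _ _), ?_, fun j hj => ?_⟩
  · have h1 : b + P * t ≤ A + P * ⌈exp (Z / 2)⌉₊ := by
      have := Nat.mul_le_mul_left P (Nat.succ_le_of_lt ht)
      rw [Nat.mul_succ] at this
      omega
    have h2 : ((b + P * t : ℕ) : ℝ) ≤ A + P * ⌈exp (Z / 2)⌉₊ := by exact_mod_cast h1
    have h3 : (⌈exp (Z / 2)⌉₊ : ℝ) ≤ 2 * exp (Z / 2) := by
      have := one_le_exp (show 0 ≤ Z / 2 by linarith)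
      linarith [Nat.ceil_lt_add_one (exp_pos (Z / 2)).le]
    have h4 : (P : ℝ) * ⌈exp (Z / 2)⌉₊ ≤ 2 * exp (0.85 * Z) := by
      refine (mul_le_mul hP h3 (Nat.cast_nonneg _) (exp_pos _).le).trans (le_of_eq ?_)
      rw [mul_left_comm, ← exp_add]
      congr 2
      ring
    have h5 : 4 * exp (0.85 * Z) ≤ exp Z := by
      have h9 : exp Z = exp (0.15 * Z) * exp (0.85 * Z) := by
        rw [← exp_add]; congr 1; ring
      rw [h9]
      exact mul_le_mul_of_nonneg_right (by linarith [add_one_le_exp (0.15 * Z)]) (exp_pos _).le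
    linarith
  · have hjy : j ∈ range (y + 1) := mem_range.mpr (Nat.lt_succ_of_le (Nat.le_floor hj))
    by_cases hs : ∀ p ∈ primesIoc B x, ¬ (p : ℤ) ∣ g.eval ((b + j : ℕ) : ℤ)
    · obtain ⟨p, h1, h2, h3, h4⟩ := hcov' j (mem_filter.mpr ⟨hjy, hs⟩)
      exact ⟨p, h1, by exact_mod_cast (by linarith : (B : ℝ) < p), h3, h4⟩
    · push Not at hs
      obtain ⟨p, hp, hd⟩ := hs
      obtain ⟨h0, h1, h2⟩ := mem_primesIoc.mp hp
      refine ⟨p, h2, h0, ?_, (dvd_eval_congr g ?_).mp hd⟩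
      · have h3 : (p : ℝ) ≤ x := by exact_mod_cast h1
        refine (show (p : ℝ) ≤ Z by linarith).trans (hZL.ge.trans (exp_le_exp.mpr ?_))
        rw [le_div_iff₀ (by positivity), show L * L ^ 2 = L ^ 3 by ring]
        linarith
      · have h3 : (P : ZMod p) = 0 :=
          (ZMod.natCast_eq_zero_iff P p).mpr (dvd_prod_of_mem (fun p => p) hp)
        push_cast
        rw [h3]
        ring

end Pool.Agent.P.MP_3bc45c_nt
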