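import Pool.Agent.P.MP_3bc45c_nt.Small

/-!
The weight `F`, its restrictions `Fi`, and the pointwise and coefficient bounds they satisfy.
-/

open Finset

set_option linter.unusedSectionVars false

namespace Pool.Agent.P.MP_3bc45c_nt

theorem one_sub_sum_le_prod {α : Type*} (s : Finset α) (x : α → ℝ) (h0 : ∀ a ∈ s, 0 ≤ x a)
    (h1 : ∀ a ∈ s, x a ≤ 1) : 1 - ∑ a ∈ s, x a ≤ ∏ a ∈ s, (1 - x a) := by
  classical
  induction s using Finset.induction_on with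
  | empty => simp
  | insert a s ha ih =>
    rw [sum_insert ha, prod_insert ha]
    have ih' := ih (fun b hb => h0 b (mem_insert_of_mem hb))
      (fun b hb => h1 b (mem_insert_of_mem hb))
    have h2 := h0 a (mem_insert_self _ _)
    have h3 := h1 a (mem_insert_self _ _)
    have h4 : 0 ≤ ∑ b ∈ s, x b := sum_nonneg fun b hb => h0 b (mem_insert_of_mem hb)
    nlinarith [mul_le_mul_of_nonneg_left ih' (sub_nonneg.mpr h3), mul_nonneg h2 h4]

variable {S ι₁ ι₂ : Type} [Fintype S] [DecidableEq S] [Fintype ι₁] [DecidableEq ι₁]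
  [Fintype ι₂] [DecidableEq ι₂]

/-- Level of a block. -/
def lv (h : ι₂ → ℝ) (D : Finset ι₂) : ℝ := ∑ l ∈ D, h l

/-- Level of a labelling. -/
def lev (h : ι₂ → ℝ) (σ : ι₂ → Option S) : ℝ := ∑ i, lv h (blk σ i)

/-- Truncated coefficient. -/
noncomputable def cf (a : Finset ι₂ → ℝ) (h : ι₂ → ℝ) (ρ : ℝ) (σ : ι₂ → Option S) : ℝ :=
  if lev h σ ≤ ρ then W (fun _ => a) σ else 0

/-- The boundary factor. -/
noncomputable def Bf (p : ι₂ → ℝ) (a : Finset ι₂ → ℝ) (h : ι₂ → ℝ) (ρ : ℝ)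
    (σ : ι₂ → Option S) : ℝ :=
  ∑ D ∈ (free σ).powerset, if lev h σ + lv h D ≤ ρ then a D * ∏ l ∈ D, p l else 0

/-- Coefficient of the restriction to the event that form `i` is not hit. -/
noncomputable def cfi (p : ι₂ → ℝ) (a : Finset ι₂ → ℝ) (h : ι₂ → ℝ) (ρ : ℝ) (i : S)
    (σ : ι₂ → Option S) : ℝ :=
  if blk σ i = ∅ then W (fun _ => a) σ * Bf p a h ρ σ else 0

/-- The function with coefficient family `c`. -/
def Fc (p : ι₂ → ℝ) (j : ℕ) (c : (ι₂ → Option S) → ℝ)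
    (ω : (ι₁ → Option S) × (ι₂ → Option S)) : ℝ :=
  ∑ σ, (c σ * nu j (act σ) ω.1) * U p σ ω.2

theorem lev_put {h : ι₂ → ℝ} {σ : ι₂ → Option S} {i : S} (hσ : blk σ i = ∅) {D : Finset ι₂}
    (hD : D ⊆ free σ) : lev h (put σ i D) = lev h σ + lv h D := by
  unfold lev
  rw [← add_sum_erase univ _ (mem_univ i), ← add_sum_erase univ (fun j => lv h (blk σ j))
    (mem_univ i), blk_put_self hσ, hσ]
  have : ∑ j ∈ univ.erase i, lv h (blk (put σ i D) j) = ∑ j ∈ univ.erase i, lv h (blk σ j) :=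
    sum_congr rfl fun j hj => by rw [blk_put_ne (ne_of_mem_erase hj) hD]
  rw [this]
  simp [lv, add_comm]

theorem Fc_restrict {p : ι₂ → ℝ} {a : Finset ι₂ → ℝ} (ha : a ∅ = 1) (h : ι₂ → ℝ) (ρ : ℝ) (j : ℕ)
    (i : S) {ω : (ι₁ → Option S) × (ι₂ → Option S)} (h₁ : ∀ l, ω.1 l ≠ some i)
    (h₂ : ∀ l, ω.2 l ≠ some i) : Fc p j (cf a h ρ) ω = Fc p j (cfi p a h ρ i) ω := by
  unfold Fc
  rw [sum_fiber i]
  have : ∑ σ, (cfi p a h ρ i σ * nu j (act σ) ω.1) * U p σ ω.2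
      = ∑ σ ∈ univ.filter (fun σ : ι₂ → Option S => blk σ i = ∅),
        (W (fun _ => a) σ * Bf p a h ρ σ * nu j (act σ) ω.1) * U p σ ω.2 := by
    rw [sum_filter]
    refine sum_congr rfl fun σ _ => ?_
    by_cases hσ : blk σ i = ∅ <;> simp [cfi, hσ]
  rw [this]
  refine sum_congr rfl fun σ hσ => ?_
  have hσ' : blk σ i = ∅ := (mem_filter.mp hσ).2
  rw [Bf, mul_sum, sum_mul, sum_mul]
  refine sum_congr rfl fun D hD => ?_
  have hD' := mem_powerset.mp hD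
  have hnu : nu j (act (put σ i D)) ω.1 = nu j (act σ) ω.1 := by
    rw [act_put hσ' hD']
    by_cases hD0 : D = ∅
    · simp [hD0]
    · simp only [hD0, if_false]
      exact nu_insert j (not_mem_act hσ') h₁
  rw [hnu, U_put h₂ hD', cf, lev_put hσ' hD', W_put (f := fun _ => a) ha hσ' hD']
  split_ifs <;> ring

theorem lev_eq (h : ι₂ → ℝ) (σ : ι₂ → Option S) :
    lev h σ = ∑ l ∈ univ.filter (fun l => σ l ≠ none), h l := by
  have : ∀ i, lv h (blk σ i) = ∑ l, if σ l = some i then h l else 0 := by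
    intro i
    rw [lv, blk, sum_filter]
  simp only [lev, this]
  rw [sum_comm, sum_filter]
  refine sum_congr rfl fun l _ => ?_
  cases hσ : σ l with
  | none => simp
  | some j => simp

theorem card_used_le {h : ι₂ → ℝ} {h₀ ρ : ℝ} (hh₀ : 0 < h₀) (hh : ∀ l, h₀ ≤ h l)
    {σ : ι₂ → Option S} (hσ : lev h σ ≤ ρ) :
    ((univ.filter (fun l => σ l ≠ none)).card : ℝ) ≤ ρ / h₀ := by
  rw [le_div_iff₀ hh₀]
  refine le_trans ?_ hσ
  rw [lev_eq]
  have := card_nsmul_le_sum (univ.filter (fun l => σ l ≠ none)) h h₀ fun l _ => hh l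
  simpa using this

section Bf

variable {p : ι₂ → ℝ} {a : Finset ι₂ → ℝ} {h : ι₂ → ℝ} {h₀ ρ T γ : ℝ}

theorem Bf_eq_zero (hh : ∀ l, 0 ≤ h l) {σ : ι₂ → Option S} (hσ : ¬ lev h σ ≤ ρ) :
    Bf p a h ρ σ = 0 := by
  refine sum_eq_zero fun D _ => ?_
  have : 0 ≤ lv h D := sum_nonneg fun l _ => hh l
  rw [if_neg]
  linarith [not_le.mp hσ]

theorem Bf_eq (hsum : ∑ D, a D * ∏ l ∈ D, p l = 0) (σ : ι₂ → Option S) :
    Bf p a h ρ σ = ∑ D, if D ⊆ free σ ∧ lev h σ + lv h D ≤ ρ then 0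
      else - (a D * ∏ l ∈ D, p l) := by
  have h1 : Bf p a h ρ σ = ∑ D, if D ⊆ free σ ∧ lev h σ + lv h D ≤ ρ then a D * ∏ l ∈ D, p l
      else 0 := by
    rw [Bf, ← sum_filter, ← sum_filter]
    refine sum_congr ?_ fun _ _ => rfl
    ext D
    simp
  have h2 : ∑ D, (if D ⊆ free σ ∧ lev h σ + lv h D ≤ ρ then 0 else - (a D * ∏ l ∈ D, p l))
      = ∑ D, ((if D ⊆ free σ ∧ lev h σ + lv h D ≤ ρ then a D * ∏ l ∈ D, p l else 0)
        - a D * ∏ l ∈ D, p l) := by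
    refine sum_congr rfl fun D _ => ?_
    split_ifs <;> simp
  rw [h2, sum_sub_distrib, hsum, sub_zero, h1]

theorem Bf_nonneg (hp : ∀ l, 0 ≤ p l) (hh : ∀ l, 0 ≤ h l) (han : ∀ D, D ≠ ∅ → a D ≤ 0)
    (hsum : ∑ D, a D * ∏ l ∈ D, p l = 0) (σ : ι₂ → Option S) : 0 ≤ Bf p a h ρ σ := by
  by_cases hσ : lev h σ ≤ ρ
  · rw [Bf_eq hsum]
    refine sum_nonneg fun D _ => ?_
    split_ifs with hD
    · exact le_rfl
    · have hD0 : D ≠ ∅ := by
        rintro rfl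
        exact hD ⟨empty_subset _, by simpa [lv] using hσ⟩
      exact neg_nonneg.mpr (mul_nonpos_of_nonpos_of_nonneg (han D hD0)
        (prod_nonneg fun l _ => hp l))
  · rw [Bf_eq_zero hh hσ]

theorem Bf_le_one (hp : ∀ l, 0 ≤ p l) (ha : a ∅ = 1) (han : ∀ D, D ≠ ∅ → a D ≤ 0)
    (σ : ι₂ → Option S) : Bf p a h ρ σ ≤ 1 := by
  rw [Bf, ← add_sum_erase _ _ (empty_mem_powerset _)]
  have h1 : ∑ D ∈ (free σ).powerset.erase ∅,
      (if lev h σ + lv h D ≤ ρ then a D * ∏ l ∈ D, p l else 0) ≤ 0 := by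
    refine sum_nonpos fun D hD => ?_
    split_ifs
    · exact mul_nonpos_of_nonpos_of_nonneg (han D (ne_of_mem_erase hD))
        (prod_nonneg fun l _ => hp l)
    · exact le_rfl
  have h2 : (if lev h σ + lv h ∅ ≤ ρ then a ∅ * ∏ l ∈ (∅ : Finset ι₂), p l else 0) ≤ 1 := by
    split_ifs <;> simp [ha]
  linarith

theorem Bf_le_small (hp : ∀ l, 0 ≤ p l) (hh₀ : 0 < h₀) (hh : ∀ l, h₀ ≤ h l) (hT0 : 0 ≤ T)
    (hsum : ∑ D, a D * ∏ l ∈ D, p l = 0) (hT : ∀ D, a D ≠ 0 → lv h D ≤ T) (hγ0 : 0 ≤ γ)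
    (hγ : ∀ l, ∑ D ∈ univ.filter (fun D : Finset ι₂ => l ∈ D), |a D| * ∏ l ∈ D, p l ≤ γ)
    {σ : ι₂ → Option S} (hσ : lev h σ ≤ ρ - T) : Bf p a h ρ σ ≤ γ * (ρ / h₀) := by
  rw [Bf_eq hsum]
  have hnn : ∀ D : Finset ι₂, 0 ≤ |a D| * ∏ l ∈ D, p l := fun D =>
    mul_nonneg (abs_nonneg _) (prod_nonneg fun l _ => hp l)
  calc ∑ D, (if D ⊆ free σ ∧ lev h σ + lv h D ≤ ρ then 0 else - (a D * ∏ l ∈ D, p l))
      ≤ ∑ D : Finset ι₂, ∑ l ∈ univ.filter (fun l => σ l ≠ none),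
          if l ∈ D then |a D| * ∏ l ∈ D, p l else 0 := by
        refine sum_le_sum fun D _ => ?_
        have hs : 0 ≤ ∑ l ∈ univ.filter (fun l => σ l ≠ none),
            if l ∈ D then |a D| * ∏ l ∈ D, p l else 0 :=
          sum_nonneg fun l _ => by split_ifs; exacts [hnn D, le_rfl]
        split_ifs with hD
        · exact hs
        · by_cases ha0 : a D = 0
          · simp [ha0]
          have hD' : ¬ D ⊆ free σ := fun h' => hD ⟨h', by linarith [hT D ha0]⟩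
          obtain ⟨l, hl, hl'⟩ := not_subset.mp hD'
          have hl2 : l ∈ univ.filter (fun l => σ l ≠ none) := by simpa using hl'
          refine le_trans ?_ (single_le_sum (f := fun l => if l ∈ D then |a D| * ∏ l ∈ D, p l
            else 0) (fun l _ => by split_ifs; exacts [hnn D, le_rfl]) hl2)
          simp only [hl, if_true]
          rw [← neg_mul]
          exact mul_le_mul_of_nonneg_right (neg_le_abs _) (prod_nonneg fun l _ => hp l)
    _ ≤ ∑ _l ∈ univ.filter (fun l => σ l ≠ none), γ := by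
        rw [sum_comm]
        refine sum_le_sum fun l _ => ?_
        rw [← sum_filter]
        exact hγ l
    _ ≤ γ * (ρ / h₀) := by
        rw [sum_const, nsmul_eq_mul, mul_comm]
        exact mul_le_mul_of_nonneg_left (card_used_le hh₀ hh (by linarith)) hγ0

end Bf

theorem AN_U {p : ι₂ → ℝ} (hp : ∀ l, 0 ≤ p l) (hp1 : ∀ l, p l ≤ 1) (σ : ι₂ → Option S) :
    AN (atoms S ι₁ ι₂) (fun ω => U p σ ω.2) (W (fun _ D => 2 ^ D.card) σ) := by
  have h1 := AN.prod (𝒜 := atoms S ι₁ ι₂) univ (fun l ω => uu p l (σ l) (ω.2 l))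
    (fun l => lam (fun _ => 2) l (σ l)) (fun l _ => by
      cases hσ : σ l with
      | none => exact AN.of_mem (atoms S ι₁ ι₂).one_mem
      | some i =>
        have h2 := ((AN.of_mem (atoms S ι₁ ι₂).one_mem).smul (p l)).add
          (AN.of_mem (X₂_mem (ι₁ := ι₁) l i)).neg
        have h3 : (fun ω : (ι₁ → Option S) × (ι₂ → Option S) => uu p l (some i) (ω.2 l))
            = p l • (1 : (ι₁ → Option S) × (ι₂ → Option S) → ℝ) +
              -(fun ω => if ω.2 l = some i then (1 : ℝ) else 0) := by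
          ext ω
          simp [uu, sub_eq_add_neg]
        rw [h3]
        refine h2.mono ?_
        simp only [lam, abs_of_nonneg (hp l)]
        linarith [hp1 l])
  have h2 : (fun ω : (ι₁ → Option S) × (ι₂ → Option S) => U p σ ω.2)
      = ∏ l, (fun ω : (ι₁ → Option S) × (ι₂ → Option S) => uu p l (σ l) (ω.2 l)) := by
    ext ω
    simp [U]
  rw [h2]
  refine h1.mono (le_of_eq ?_)
  have := pw_eq (fun _ : ι₂ => (2 : ℝ)) σ
  simpa [pw] using this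

theorem W_exp (h : ι₂ → ℝ) (θ : ℝ) (σ : ι₂ → Option S) :
    W (fun _ D => Real.exp (θ * lv h D)) σ = Real.exp (θ * lev h σ) := by
  rw [W, ← Real.exp_sum, lev, mul_sum]

theorem W_mul (f g : S → Finset ι₂ → ℝ) (σ : ι₂ → Option S) :
    W (fun i D => f i D * g i D) σ = W f σ * W g σ := by
  simp [W, prod_mul_distrib]

theorem coef_sum_le {a : Finset ι₂ → ℝ} {h : ι₂ → ℝ} {ρ α A₀ : ℝ} (hα : 0 ≤ α)
    (hA₀ : ∑ D, |a D| * 2 ^ D.card * Real.exp (-α * lv h D) ≤ A₀)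
    {c : (ι₂ → Option S) → ℝ} (hc : ∀ σ, |c σ| ≤ |cf a h ρ σ|) :
    ∑ σ : ι₂ → Option S, |c σ| * W (fun _ D => 2 ^ D.card) σ
      ≤ Real.exp (α * ρ) * A₀ ^ Fintype.card S := by
  have h3 : ∀ σ : ι₂ → Option S, |c σ| * W (fun _ D => 2 ^ D.card) σ
      ≤ Real.exp (α * ρ) * W (fun _ D => |a D| * 2 ^ D.card * Real.exp (-α * lv h D)) σ := by
    intro σ
    have hW2 : 0 ≤ W (fun (_ : S) (D : Finset ι₂) => (2 : ℝ) ^ D.card) σ :=
      prod_nonneg fun i _ => by positivity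
    refine (mul_le_mul_of_nonneg_right (hc σ) hW2).trans ?_
    rw [W_mul (fun _ D => |a D| * 2 ^ D.card) (fun _ D => Real.exp (-α * lv h D)),
      W_mul (fun _ D => |a D|) (fun _ D => 2 ^ D.card), W_exp, cf]
    have hWa : 0 ≤ W (fun (_ : S) (D : Finset ι₂) => |a D|) σ :=
      prod_nonneg fun i _ => abs_nonneg _
    split_ifs with hσ
    · have h4 : |W (fun _ => a) σ| = W (fun (_ : S) (D : Finset ι₂) => |a D|) σ := by
        rw [W, abs_prod, W]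
      rw [h4, mul_comm (Real.exp (α * ρ)), mul_assoc _ (Real.exp _), ← Real.exp_add]
      refine le_mul_of_one_le_right (mul_nonneg hWa hW2) (Real.one_le_exp ?_)
      nlinarith
    · simp only [abs_zero, zero_mul]
      exact mul_nonneg (Real.exp_pos _).le (mul_nonneg (mul_nonneg hWa hW2) (Real.exp_pos _).le)
  refine (sum_le_sum fun σ _ => h3 σ).trans ?_
  rw [← mul_sum]
  refine mul_le_mul_of_nonneg_left ?_ (Real.exp_pos _).le
  refine (sum_W_le (f := fun (_ : S) D => |a D| * 2 ^ D.card * Real.exp (-α * lv h D))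
    fun i D => by positivity).trans ?_
  rw [prod_const, card_univ]
  exact pow_le_pow_left₀ (sum_nonneg fun D _ => by positivity) hA₀ _

theorem AN_Fc_aux {p : ι₂ → ℝ} (hp : ∀ l, 0 ≤ p l) (hp1 : ∀ l, p l ≤ 1) (j : ℕ) {Aν : ℝ}
    (hν : ∀ I : Finset S, AN (atoms S ι₁ ι₂) (fun ω => nu j I ω.1) Aν)
    (c : (ι₂ → Option S) → ℝ) :
    AN (atoms S ι₁ ι₂) (Fc p j c)
      ((∑ σ : ι₂ → Option S, |c σ| * W (fun _ D => 2 ^ D.card) σ) * Aν) := by
  have h0 : ∀ σ : ι₂ → Option S, AN (atoms S ι₁ ι₂)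
      (fun ω => (c σ * nu j (act σ) ω.1) * U p σ ω.2)
      ((|c σ| * Aν) * W (fun _ D => 2 ^ D.card) σ) := fun σ =>
    ((hν (act σ)).smul (c σ)).mul (AN_U hp hp1 σ)
  have h1 := AN.sum univ _ _ (fun σ _ => h0 σ)
  have h2 : Fc (ι₁ := ι₁) p j c = ∑ σ : ι₂ → Option S,
      (fun ω : (ι₁ → Option S) × (ι₂ → Option S) => (c σ * nu j (act σ) ω.1) * U p σ ω.2) := by
    ext ω
    rw [Finset.sum_apply]
    rfl
  rw [h2]
  refine h1.mono (le_of_eq ?_)
  rw [sum_mul]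
  exact sum_congr rfl fun σ _ => by ring

theorem AN_Fc {p : ι₂ → ℝ} (hp : ∀ l, 0 ≤ p l) (hp1 : ∀ l, p l ≤ 1) {a : Finset ι₂ → ℝ}
    {h : ι₂ → ℝ} {ρ α A₀ M : ℝ} (hα : 0 ≤ α) (hM : 1 ≤ M) (j : ℕ)
    (hA₀ : ∑ D, |a D| * 2 ^ D.card * Real.exp (-α * lv h D) ≤ A₀)
    {c : (ι₂ → Option S) → ℝ} (hc : ∀ σ, |c σ| ≤ |cf a h ρ σ|) :
    AN (atoms S ι₁ ι₂) (Fc p j c) (Real.exp (α * ρ) * A₀ ^ Fintype.card S *
      (M ^ j * Real.exp (Fintype.card ι₁ * Fintype.card S / M))) := by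
  have hM0 := lt_of_lt_of_le one_pos hM
  refine (AN_Fc_aux hp hp1 j (fun I => AN_nu j I hM) c).mono ?_
  exact mul_le_mul_of_nonneg_right (coef_sum_le hα hA₀ hc) (by positivity)

end Pool.Agent.P.MP_3bc45c_nt
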