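import Pool.Agent.P.MP_3bc45c_nt.Smooth
import Pool.Agent.P.MP_3bc45c_nt.Weight

/-!
Combinatorial lemmas on sums over subsets and multisets, and the lower bound for the normalising
sum of the amplitude.
-/

open Finset Real

namespace Pool.Agent.P.MP_3bc45c_nt

theorem first_moment {α : Type*} [DecidableEq α] (s : Finset α) (x h : α → ℝ)
    (hx : ∀ a ∈ s, 0 ≤ x a) (hh : ∀ a ∈ s, 0 ≤ h a) :
    ∑ D ∈ s.powerset, (∏ a ∈ D, x a) * ∑ a ∈ D, h a
      ≤ (∑ a ∈ s, x a * h a) * ∏ a ∈ s, (1 + x a) := by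
  induction s using Finset.induction_on with
  | empty => simp
  | insert b s hb ih =>
    have ih' := ih (fun a ha => hx a (mem_insert_of_mem ha))
      (fun a ha => hh a (mem_insert_of_mem ha))
    have hxb := hx b (mem_insert_self _ _)
    have hhb := hh b (mem_insert_self _ _)
    have hF : 0 ≤ ∏ a ∈ s, (1 + x a) := prod_nonneg fun a ha => by
      linarith [hx a (mem_insert_of_mem ha)]
    rw [sum_powerset_insert hb, sum_insert hb, prod_insert hb]
    have h1 : ∑ D ∈ s.powerset, (∏ a ∈ insert b D, x a) * ∑ a ∈ insert b D, h a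
        = x b * (∑ D ∈ s.powerset, (∏ a ∈ D, x a) * ∑ a ∈ D, h a)
          + x b * h b * ∏ a ∈ s, (1 + x a) := by
      rw [prod_one_add, mul_sum, mul_sum, ← sum_add_distrib]
      refine sum_congr rfl fun D hD => ?_
      have hbD : b ∉ D := fun h' => hb (mem_powerset.mp hD h')
      rw [prod_insert hbD, sum_insert hbD]
      ring
    rw [h1]
    nlinarith [mul_le_mul_of_nonneg_left ih' hxb, mul_nonneg (mul_nonneg hxb hhb) hF,
      mul_nonneg hxb (mul_nonneg (mul_nonneg hxb hhb) hF)]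

theorem markov_subsets {α : Type*} [DecidableEq α] (s : Finset α) (x h : α → ℝ)
    (hx : ∀ a ∈ s, 0 ≤ x a) (hh : ∀ a ∈ s, 0 ≤ h a) {M : ℝ} (hM0 : 0 < M)
    (hM : ∑ a ∈ s, x a * h a ≤ M) :
    (∏ a ∈ s, (1 + x a)) / 2
      ≤ ∑ D ∈ s.powerset.filter (fun D => ∑ a ∈ D, h a ≤ 2 * M), ∏ a ∈ D, x a := by
  have hF : 0 ≤ ∏ a ∈ s, (1 + x a) := prod_nonneg fun a ha => by linarith [hx a ha]
  have hP : ∀ D ∈ s.powerset, 0 ≤ ∏ a ∈ D, x a := fun D hD =>
    prod_nonneg fun a ha => hx a (mem_powerset.mp hD ha)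
  have h1 := first_moment s x h hx hh
  have h2 : 2 * M * ∑ D ∈ s.powerset.filter (fun D => ¬ ∑ a ∈ D, h a ≤ 2 * M), ∏ a ∈ D, x a
      ≤ ∑ D ∈ s.powerset, (∏ a ∈ D, x a) * ∑ a ∈ D, h a := by
    rw [mul_sum]
    refine le_trans (sum_le_sum fun D hD => ?_) (sum_le_sum_of_subset_of_nonneg
      (filter_subset _ _) fun D hD _ => mul_nonneg (hP D hD)
        (sum_nonneg fun a ha => hh a (mem_powerset.mp hD ha)))
    obtain ⟨h3, h4⟩ := mem_filter.mp hD
    rw [mul_comm]
    exact mul_le_mul_of_nonneg_left (not_le.mp h4).le (hP D h3)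
  have h3 := sum_filter_add_sum_filter_not s.powerset (fun D => ∑ a ∈ D, h a ≤ 2 * M)
    (fun D => ∏ a ∈ D, x a)
  rw [← prod_one_add] at h3
  have h4 := (h2.trans h1).trans (mul_le_mul_of_nonneg_right hM hF)
  have h5 : ∑ D ∈ s.powerset.filter (fun D => ¬ ∑ a ∈ D, h a ≤ 2 * M), ∏ a ∈ D, x a
      ≤ (∏ a ∈ s, (1 + x a)) / 2 := by
    rw [le_div_iff₀ (by norm_num)]
    refine le_of_mul_le_mul_left ?_ hM0
    linarith
  linarith

theorem sum_multiset_le {α : Type*} [DecidableEq α] (s : Finset α) (x : α → ℝ)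
    (hx0 : ∀ a ∈ s, 0 ≤ x a) (hx1 : ∀ a ∈ s, x a < 1) (T : Finset (Multiset α))
    (hT : ∀ m ∈ T, ∀ a ∈ m, a ∈ s) :
    ∑ m ∈ T, (m.map x).prod ≤ ∏ a ∈ s, (1 - x a)⁻¹ := by
  set B := T.sup Multiset.card with hB
  have h1 : ∏ a ∈ s, ∑ k ∈ range (B + 1), x a ^ k ≤ ∏ a ∈ s, (1 - x a)⁻¹ := by
    refine prod_le_prod (fun a ha => sum_nonneg fun k _ => pow_nonneg (hx0 a ha) k)
      fun a ha => ?_
    rw [← tsum_geometric_of_lt_one (hx0 a ha) (hx1 a ha)]
    exact (summable_geometric_of_lt_one (hx0 a ha) (hx1 a ha)).sum_le_tsum _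
      fun k _ => pow_nonneg (hx0 a ha) k
  refine le_trans ?_ h1
  rw [prod_sum]
  refine le_trans (le_of_eq (sum_congr rfl fun m hm => ?_))
    (sum_le_sum_inj (fun (m : Multiset α) (a : α) (_ : a ∈ s) => m.count a) ?_ ?_
      (fun p : (a : α) → a ∈ s → ℕ => ∏ a ∈ s.attach, x a.1 ^ p a.1 a.2)
      fun p _ => prod_nonneg fun a _ => pow_nonneg (hx0 a.1 a.2) _)
  · rw [prod_attach s (fun a => x a ^ m.count a), prod_multiset_map_count]
    refine prod_subset (fun a ha => hT m hm a (Multiset.mem_toFinset.mp ha)) fun a _ ha => ?_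
    rw [Multiset.count_eq_zero_of_notMem (fun h => ha (Multiset.mem_toFinset.mpr h)), pow_zero]
  · intro m hm m' hm' h
    ext a
    by_cases ha : a ∈ s
    · exact congrFun (congrFun h a) ha
    · rw [Multiset.count_eq_zero_of_notMem (fun h => ha (hT m hm a h)),
        Multiset.count_eq_zero_of_notMem (fun h => ha (hT m' hm' a h))]
  · intro m hm
    refine mem_pi.mpr fun a _ => mem_range.mpr (Nat.lt_succ_of_le ?_)
    exact (Multiset.count_le_card a m).trans (le_sup (f := Multiset.card) hm)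

theorem exp_sub_sq_le {x : ℝ} (hx : 0 ≤ x) : exp (x - x ^ 2) ≤ 1 + x := by
  have h1 := one_sub_inv_le_log_of_pos (show 0 < 1 + x by linarith)
  rw [← le_log_iff_exp_le (by linarith)]
  refine le_trans ?_ h1
  have h2 : 1 - (1 + x)⁻¹ = x / (1 + x) := by field_simp; ring
  rw [h2, le_div_iff₀ (by linarith)]
  nlinarith [mul_nonneg hx (sq_nonneg x)]

theorem exp_le_prod_one_add {α : Type*} (s : Finset α) (x : α → ℝ) (hx : ∀ a ∈ s, 0 ≤ x a) :
    exp (∑ a ∈ s, x a - ∑ a ∈ s, x a ^ 2) ≤ ∏ a ∈ s, (1 + x a) := by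
  rw [← sum_sub_distrib, exp_sum]
  exact prod_le_prod (fun a _ => (exp_pos _).le) fun a ha => exp_sub_sq_le (hx a ha)

/-- Decomposition by the largest element. -/
theorem lambda_top {ι : Type} [Fintype ι] [DecidableEq ι] (q : ι → ℕ)
    {p h M F : ι → ℝ} {t₁ T : ℝ} (hp : ∀ l, 0 ≤ p l)
    (ht₁ : 0 ≤ t₁) (hh : ∀ l, t₁ < h l) (hM0 : ∀ l, 0 < M l)
    (hM : ∀ l, ∑ a ∈ univ.filter (fun a => q a < q l), p a * h a ≤ M l)
    (hT : ∀ l, 2 * M l + h l ≤ T)
    (hF : ∀ l, F l ≤ ∏ a ∈ univ.filter (fun a => q a < q l), (1 + p a)) :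
    ∑ l, p l * (F l / 2 / (2 * M l + h l))
      ≤ ∑ D : Finset ι, if t₁ < lv h D ∧ lv h D ≤ T then (∏ l ∈ D, p l) / lv h D else 0 := by
  have hh0 : ∀ l, 0 ≤ h l := fun l => ht₁.trans (hh l).le
  set g : Finset ι → ℝ := fun D =>
    if t₁ < lv h D ∧ lv h D ≤ T then (∏ l ∈ D, p l) / lv h D else 0 with hg
  have hg0 : ∀ D, 0 ≤ g D := fun D => by
    simp only [hg]
    split_ifs with hD
    · exact div_nonneg (prod_nonneg fun l _ => hp l) (ht₁.trans hD.1.le)
    · exact le_rfl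
  set G : ι → Finset (Finset ι) := fun l =>
    (univ.filter (fun a => q a < q l)).powerset.filter (fun D => ∑ a ∈ D, h a ≤ 2 * M l) with hG
  have hlt : ∀ l, ∀ D ∈ G l, ∀ a ∈ D, q a < q l := fun l D hD a ha =>
    (mem_filter.mp (mem_powerset.mp (mem_filter.mp hD).1 ha)).2
  have h1 : ∀ l, p l * (F l / 2 / (2 * M l + h l)) ≤ ∑ D ∈ G l, g (insert l D) := by
    intro l
    have h2 := markov_subsets (univ.filter (fun a => q a < q l)) p h (fun a _ => hp a)
      (fun a _ => hh0 a) (hM0 l) (hM l)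
    have hpos : 0 < 2 * M l + h l := by linarith [hM0 l, hh0 l]
    calc p l * (F l / 2 / (2 * M l + h l))
        ≤ p l * ((∑ D ∈ G l, ∏ a ∈ D, p a) / (2 * M l + h l)) := by
          refine mul_le_mul_of_nonneg_left (div_le_div_of_nonneg_right ?_ hpos.le) (hp l)
          exact le_trans (by linarith [hF l]) h2
      _ = ∑ D ∈ G l, p l * (∏ a ∈ D, p a) / (2 * M l + h l) := by
          rw [sum_div, mul_sum]
          exact sum_congr rfl fun D _ => by ring
      _ ≤ _ := by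
          refine sum_le_sum fun D hD => ?_
          have hl : l ∉ D := fun h' => lt_irrefl _ (hlt l D hD l h')
          have h3 : lv h (insert l D) = h l + ∑ a ∈ D, h a := by rw [lv, sum_insert hl]
          have h4 : 0 ≤ ∑ a ∈ D, h a := sum_nonneg fun a _ => hh0 a
          have h5 := (mem_filter.mp hD).2
          simp only [hg]
          rw [if_pos ⟨by rw [h3]; linarith [hh l], by rw [h3]; linarith [hT l]⟩,
            prod_insert hl, h3]
          exact div_le_div_of_nonneg_left (mul_nonneg (hp l) (prod_nonneg fun a _ => hp a))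
            (by linarith [hh l]) (by linarith)
  refine (sum_le_sum fun l _ => h1 l).trans ?_
  rw [sum_sigma']
  refine sum_le_sum_inj (fun x : (_ : ι) × Finset ι => insert x.1 x.2) ?_
    (fun _ _ => mem_univ _) g fun D _ => hg0 D
  rintro ⟨l, D⟩ hx ⟨l', D'⟩ hx' he
  have hD := (mem_sigma.mp hx).2
  have hD' := (mem_sigma.mp hx').2
  simp only at he hD hD'
  have hll : l = l' := by
    by_contra hne
    have h2 : l ∈ D' := by
      have : l ∈ insert l' D' := he ▸ mem_insert_self l D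
      exact (mem_insert.mp this).resolve_left hne
    have h3 : l' ∈ D := by
      have : l' ∈ insert l D := he.symm ▸ mem_insert_self l' D'
      exact (mem_insert.mp this).resolve_left (Ne.symm hne)
    exact lt_asymm (hlt l' D' hD' l h2) (hlt l D hD l' h3)
  subst hll
  have hl : l ∉ D := fun h' => lt_irrefl _ (hlt l D hD l h')
  have hl' : l ∉ D' := fun h' => lt_irrefl _ (hlt l D' hD' l h')
  have : D = D' := by rw [← erase_insert hl, he, erase_insert hl']
  rw [this]

end Pool.Agent.P.MP_3bc45c_nt
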