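import Pool.Agent.P.MP_3bc45c_nt.PolyRho
import Pool.Agent.P.MP_3bc45c_nt.Count
import Pool.Agent.P.MP_3bc45c_nt.Rankin

/-!
Counting solutions of simultaneous polynomial congruences, and the greedy choice of classes.
-/

open Finset Real Polynomial

namespace Pool.Agent.P.MP_3bc45c_nt

theorem dvd_eval_congr (g : ℤ[X]) {p : ℕ} {x y : ℤ} (h : (x : ZMod p) = y) :
    (p : ℤ) ∣ g.eval x ↔ (p : ℤ) ∣ g.eval y := by
  rw [dvd_eval_iff, dvd_eval_iff, h]

theorem count_sets {κ : Type} [Fintype κ] [DecidableEq κ] (D : Finset κ) (q : κ → ℕ)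
    (hinj : Function.Injective q) (hq : ∀ l, (q l).Prime) (R : κ → Finset ℕ)
    (hR : ∀ l, R l ⊆ range (q l)) (N : ℕ) :
    |(((range N).filter (fun t => ∀ l ∈ D, t % q l ∈ R l)).card : ℝ)
      - N * ∏ l ∈ D, ((R l).card : ℝ) / q l| ≤ ∏ l ∈ D, ((R l).card : ℝ) := by
  set R' : κ → Finset ℕ := fun l => if l ∈ D then R l else {0} with hR'
  have hcard : ((Fintype.piFinset R').card : ℝ) = ∏ l ∈ D, ((R l).card : ℝ) := by
    rw [Fintype.card_piFinset]
    push_cast
    rw [← prod_subset (subset_univ D) fun l _ hl => by simp [hR', hl]]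
    exact prod_congr rfl fun l hl => by simp [hR', hl]
  have h1 := card_eq_sum_card_fiberwise
    (f := fun (t : ℕ) (l : κ) => if l ∈ D then t % q l else 0)
    (s := (range N).filter (fun t => ∀ l ∈ D, t % q l ∈ R l)) (t := Fintype.piFinset R')
    (fun t ht => mem_coe.mpr (Fintype.mem_piFinset.mpr fun l => by
      by_cases hl : l ∈ D
      · simpa [hR', hl] using (mem_filter.mp ht).2 l hl
      · simp [hR', hl]))
  have h2 : ∀ r ∈ Fintype.piFinset R',
      |((((range N).filter (fun t => ∀ l ∈ D, t % q l ∈ R l)).filter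
        (fun t => (fun l => if l ∈ D then t % q l else 0) = r)).card : ℝ)
        - N * ∏ l ∈ D, 1 / (q l : ℝ)| ≤ 1 := by
    intro r hr
    have hr' := Fintype.mem_piFinset.mp hr
    have h3 := count_congr D q hinj hq (P := 1) (fun l => (hq l).not_dvd_one)
      (fun l => q l - r l) N
    convert h3 using 5
    have h4 : ∀ l ∈ D, r l ∈ R l := fun l hl => by simpa [hR', hl] using hr' l
    have h5 : ∀ l ∈ D, ∀ t, q l ∣ q l - r l + 1 * t ↔ t % q l = r l := fun l hl t => by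
      have h6 := mem_range.mp (hR l (h4 l hl))
      rw [one_mul, ← Nat.modEq_zero_iff_dvd]
      constructor
      · intro h
        have h7 := h.add_left (r l)
        rw [← add_assoc, Nat.add_sub_cancel' h6.le, add_zero] at h7
        have h8 : t ≡ r l [MOD q l] := (Nat.ModEq.symm (by simp [Nat.ModEq])).trans h7
        rw [h8, Nat.mod_eq_of_lt h6]
      · intro h
        have h7 : q l - r l + t ≡ q l - r l + r l [MOD q l] :=
          Nat.ModEq.add_left _ (by rw [← h]; exact (Nat.mod_modEq _ _).symm)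
        rw [Nat.sub_add_cancel h6.le] at h7
        exact h7.trans (by simp [Nat.ModEq])
    ext t
    simp only [mem_filter, and_assoc]
    refine and_congr_right fun _ => ⟨fun h l hl => (h5 l hl t).mpr ?_, fun h => ⟨fun l hl => ?_, ?_⟩⟩
    · simpa [hl] using congrFun h.2 l
    · rw [(h5 l hl t).mp (h l hl)]
      exact h4 l hl
    · ext l
      by_cases hl : l ∈ D
      · simp [hl, (h5 l hl t).mp (h l hl)]
      · have := hr' l
        simp only [hR', hl, if_false, mem_singleton] at this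
        simp [hl, this]
  have h3 : (N : ℝ) * ∏ l ∈ D, ((R l).card : ℝ) / q l
      = ∑ _r ∈ Fintype.piFinset R', (N : ℝ) * ∏ l ∈ D, 1 / (q l : ℝ) := by
    rw [sum_const, nsmul_eq_mul, hcard, mul_left_comm, ← prod_mul_distrib]
    simp only [mul_one_div]
  rw [h1, h3, Nat.cast_sum, ← sum_sub_distrib, ← hcard]
  refine (abs_sum_le_sum_abs _ _).trans ((sum_le_sum h2).trans (le_of_eq ?_))
  simp

theorem count_poly {κ : Type} [Fintype κ] [DecidableEq κ] (g : ℤ[X]) (D : Finset κ) (q : κ → ℕ)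
    (hinj : Function.Injective q) (hq : ∀ l, (q l).Prime) {P : ℕ} (hP : ∀ l, ¬ q l ∣ P)
    (a : κ → ℕ) (N : ℕ) :
    |(((range N).filter (fun t => ∀ l ∈ D, (q l : ℤ) ∣ g.eval ((a l + P * t : ℕ) : ℤ))).card : ℝ)
      - N * ∏ l ∈ D, (rho g (q l) : ℝ) / q l| ≤ ∏ l ∈ D, (rho g (q l) : ℝ) := by
  have h := count_sets D q hinj hq
    (fun l => (range (q l)).filter (fun x : ℕ => (q l : ℤ) ∣ g.eval (a l + P * x)))
    (fun l => filter_subset _ _) N
  simp only [fun l => card_lin g (hq l) (a l) (P := P)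
    (fun h => hP l (Int.natCast_dvd_natCast.mp h))] at h
  convert h using 5
  refine filter_congr fun t _ => forall₂_congr fun l _ => ?_
  rw [mem_filter, mem_range, and_iff_right (Nat.mod_lt _ (hq l).pos)]
  refine dvd_eval_congr g ?_
  push_cast
  simp

theorem count_poly_unif {κ : Type} [Fintype κ] [DecidableEq κ] (g : ℤ[X]) (D : Finset κ)
    (q : κ → ℕ) (hinj : Function.Injective q) (hq : ∀ l, (q l).Prime) {P : ℕ}
    (hP : ∀ l, ¬ q l ∣ P) (a : κ → ℕ) {N W d s : ℕ} (hW : ∀ l, W < q l) (hW0 : 0 < W)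
    (hd : ∀ l, rho g (q l) ≤ d) (hd1 : 1 ≤ d) (hN : N ≤ W ^ s) :
    |(((range N).filter (fun t => ∀ l ∈ D, (q l : ℤ) ∣ g.eval ((a l + P * t : ℕ) : ℤ))).card : ℝ)
      - N * ∏ l ∈ D, (rho g (q l) : ℝ) / q l| ≤ 2 * (d : ℝ) ^ s := by
  have hd1' : (1 : ℝ) ≤ d := by exact_mod_cast hd1
  have hb : ∀ D : Finset κ, ∏ l ∈ D, (rho g (q l) : ℝ) ≤ (d : ℝ) ^ D.card := fun D => by
    rw [← prod_const]
    exact prod_le_prod (fun l _ => Nat.cast_nonneg _) fun l _ => by exact_mod_cast hd l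
  have hds : (0 : ℝ) ≤ (d : ℝ) ^ s := by positivity
  rcases le_or_gt D.card s with h | h
  · have h1 := (count_poly g D q hinj hq hP a N).trans
      ((hb D).trans (pow_le_pow_right₀ hd1' h))
    linarith
  obtain ⟨D', hD', hs⟩ := exists_subset_card_eq h.le
  have h1 := abs_le.mp ((count_poly g D' q hinj hq hP a N).trans (hb D'))
  rw [hs] at h1
  have hW0' : (0 : ℝ) < W := by exact_mod_cast hW0
  have h2 : (N : ℝ) * ∏ l ∈ D', (rho g (q l) : ℝ) / q l ≤ (d : ℝ) ^ s := by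
    have h3 : ∏ l ∈ D', (rho g (q l) : ℝ) / q l ≤ ((d : ℝ) / W) ^ s := by
      rw [← hs, ← prod_const]
      refine prod_le_prod (fun l _ => by positivity) fun l _ => ?_
      exact div_le_div₀ (by positivity) (by exact_mod_cast hd l) hW0'
        (by exact_mod_cast (hW l).le)
    have h4 : (N : ℝ) ≤ (W : ℝ) ^ s := by exact_mod_cast hN
    refine (mul_le_mul h4 h3 (prod_nonneg fun l _ => by positivity) (by positivity)).trans
      (le_of_eq ?_)
    rw [div_pow]
    field_simp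
  have h3 : ∏ l ∈ D, (rho g (q l) : ℝ) / q l ≤ ∏ l ∈ D', (rho g (q l) : ℝ) / q l :=
    prod_le_prod_of_subset_of_le_one hD' (fun l _ => by positivity) fun l _ _ =>
      (div_le_one (by exact_mod_cast (hq l).pos)).mpr (by exact_mod_cast rho_le_self g _)
  have h4 : (((range N).filter
        (fun t => ∀ l ∈ D, (q l : ℤ) ∣ g.eval ((a l + P * t : ℕ) : ℤ))).card : ℝ)
      ≤ ((range N).filter
        (fun t => ∀ l ∈ D', (q l : ℤ) ∣ g.eval ((a l + P * t : ℕ) : ℤ))).card :=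
    Nat.cast_le.mpr (card_le_card fun t ht => mem_filter.mpr
      ⟨(mem_filter.mp ht).1, fun l hl => (mem_filter.mp ht).2 l (hD' hl)⟩)
  have h5 : (0 : ℝ) ≤ N * ∏ l ∈ D, (rho g (q l) : ℝ) / q l :=
    mul_nonneg (Nat.cast_nonneg _) (prod_nonneg fun l _ => by positivity)
  have h6 := mul_le_mul_of_nonneg_left h3 (Nat.cast_nonneg (α := ℝ) N)
  have h7 : (0 : ℝ) ≤ ((range N).filter
      (fun t => ∀ l ∈ D, (q l : ℤ) ∣ g.eval ((a l + P * t : ℕ) : ℤ))).card := Nat.cast_nonneg _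
  rw [abs_le]
  constructor <;> linarith

open Classical in
/-- The form hit by the prime `q` at the point `m`, if any. -/
noncomputable def hitp (g : ℤ[X]) (𝒮 : Finset ℕ) (q m : ℕ) : Option 𝒮 :=
  if h : ∃ i : 𝒮, (q : ℤ) ∣ g.eval ((m + i : ℕ) : ℤ) then some h.choose else none

/-- The prime `q` divides at most one of the values `g (m + i)`, `i ≤ y`. -/
def Sep (g : ℤ[X]) (y q : ℕ) : Prop :=
  ∀ δ : ℕ, 1 ≤ δ → δ ≤ y → ∀ x : ℤ, (q : ℤ) ∣ g.eval x → ¬ (q : ℤ) ∣ g.eval (x + δ)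

theorem hitp_eq_some {g : ℤ[X]} {𝒮 : Finset ℕ} {y q : ℕ} (h𝒮 : 𝒮 ⊆ range (y + 1))
    (hq : Sep g y q) (m : ℕ) (i : 𝒮) :
    hitp g 𝒮 q m = some i ↔ (q : ℤ) ∣ g.eval ((m + i : ℕ) : ℤ) := by
  have key : ∀ a b : ℕ, a < b → b ≤ y → (q : ℤ) ∣ g.eval ((m + a : ℕ) : ℤ) →
      ¬ (q : ℤ) ∣ g.eval ((m + b : ℕ) : ℤ) := fun a b hab hb h1 => by
    have := hq (b - a) (by omega) (by omega) _ h1
    rwa [← Nat.cast_add, show m + a + (b - a) = m + b by omega] at this
  unfold hitp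
  split_ifs with h
  · have h1 := h.choose_spec
    simp only [Option.some.injEq]
    refine ⟨fun e => e ▸ h1, fun h2 => Subtype.ext ?_⟩
    have h3 := mem_range.mp (h𝒮 h.choose.2)
    have h4 := mem_range.mp (h𝒮 i.2)
    rcases lt_trichotomy (h.choose : ℕ) i with h5 | h5 | h5
    · exact absurd h2 (key _ _ h5 (by omega) h1)
    · exact h5
    · exact absurd h1 (key _ _ h5 (by omega) h2)
  · simpa using fun h2 => h ⟨i, h2⟩

theorem atom_disc_poly {κ : Type} [Fintype κ] [DecidableEq κ] (g : ℤ[X]) (q : κ → ℕ)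
    (hinj : Function.Injective q) (hq : ∀ l, (q l).Prime) {P : ℕ} (hP : ∀ l, ¬ q l ∣ P)
    {𝒮 : Finset ℕ} {y : ℕ} (h𝒮 : 𝒮 ⊆ range (y + 1)) (hy : ∀ l, Sep g y (q l)) (b : ℕ)
    {N W d s : ℕ} (hW : ∀ l, W < q l) (hW0 : 0 < W)
    (hd : ∀ l, rho g (q l) ≤ d) (hd1 : 1 ≤ d) (hN : N ≤ W ^ s) (τ : κ → Option 𝒮) :
    |∑ t ∈ range N, atom τ (fun l => hitp g 𝒮 (q l) (b + P * t))
      - N * pw (fun l => (rho g (q l) : ℝ) / q l) τ| ≤ 2 * (d : ℝ) ^ s := by
  classical
  have h := count_poly_unif g (univ.filter (fun l => τ l ≠ none)) q hinj hq hP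
    (fun l => b + ((τ l).elim 0 (fun i => (i : ℕ)))) hW hW0 hd hd1 hN
  convert h using 3
  · rw [card_filter]
    push_cast
    refine sum_congr rfl fun t _ => ?_
    have key : ∀ l, at1 (τ l) (hitp g 𝒮 (q l) (b + P * t)) =
        if (τ l ≠ none → (q l : ℤ) ∣ g.eval
          ((b : ℤ) + (((τ l).elim 0 (fun i => (i : ℕ)) : ℕ) : ℤ) + P * t)) then 1 else 0 := by
      intro l
      cases hτ : τ l with
      | none => simp [at1]
      | some i =>
        simp only [at1, hitp_eq_some h𝒮 (hy l), Option.elim_some, ne_eq, reduceCtorEq,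
          not_false_eq_true, forall_const, add_right_comm, Nat.cast_add, Nat.cast_mul]
    simp only [atom, key, Fintype.prod_boole, mem_filter, mem_univ, true_and]
  · rw [pw, prod_filter]
    congr 1
    refine prod_congr rfl fun l _ => ?_
    cases τ l <;> simp [lam]

theorem greedy_poly (g : ℤ[X]) (A : Finset ℕ) (hA : ∀ p ∈ A, p.Prime) (U : Finset ℕ) :
    ∃ c : ℕ → ℕ, ((U.filter (fun n => ∀ p ∈ A, ¬ (p : ℤ) ∣ g.eval ((c p + n : ℕ) : ℤ))).card : ℝ)
      ≤ U.card * ∏ p ∈ A, (1 - (rho g p : ℝ) / p) := by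
  induction A using Finset.induction_on with
  | empty => exact ⟨fun _ => 0, by simp⟩
  | insert q A hq ih =>
    obtain ⟨c, hc⟩ := ih fun p hp => hA p (mem_insert_of_mem hp)
    have hqp := hA q (mem_insert_self _ _)
    have hq0' : (0 : ℝ) < q := by exact_mod_cast hqp.pos
    set U' := U.filter (fun n => ∀ p ∈ A, ¬ (p : ℤ) ∣ g.eval ((c p + n : ℕ) : ℤ)) with hU'
    have h1 : ∃ r ∈ range q, (U'.card : ℝ) * (rho g q / q)
        ≤ ((U'.filter (fun n => (q : ℤ) ∣ g.eval ((r + n : ℕ) : ℤ))).card : ℝ) := by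
      refine exists_le_of_sum_le ⟨0, mem_range.mpr hqp.pos⟩ (le_of_eq ?_)
      rw [sum_const, card_range, nsmul_eq_mul, mul_left_comm, mul_div_cancel₀ _ hq0'.ne']
      simp only [card_filter]
      push_cast
      rw [sum_comm, ← nsmul_eq_mul, ← sum_const]
      refine sum_congr rfl fun n _ => ?_
      rw [← card_lin g hqp n (P := 1) (by exact_mod_cast hqp.not_dvd_one), card_filter]
      push_cast
      simp only [one_mul, add_comm]
    obtain ⟨r, -, hr⟩ := h1
    refine ⟨Function.update c q r, ?_⟩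
    have h2 : U.filter (fun n => ∀ p ∈ insert q A,
          ¬ (p : ℤ) ∣ g.eval ((Function.update c q r p + n : ℕ) : ℤ))
        = U'.filter (fun n => ¬ (q : ℤ) ∣ g.eval ((r + n : ℕ) : ℤ)) := by
      ext n
      simp only [hU', mem_filter, forall_mem_insert, Function.update_self]
      have : (∀ p ∈ A, ¬ (p : ℤ) ∣ g.eval ((Function.update c q r p + n : ℕ) : ℤ))
          ↔ ∀ p ∈ A, ¬ (p : ℤ) ∣ g.eval ((c p + n : ℕ) : ℤ) :=
        forall₂_congr fun p hp => by rw [Function.update_of_ne (ne_of_mem_of_not_mem hp hq)]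
      rw [this]
      tauto
    have h3 := card_filter_add_card_filter_not (s := U')
      (fun n => (q : ℤ) ∣ g.eval ((r + n : ℕ) : ℤ))
    have h4 : ((U'.filter (fun n => (q : ℤ) ∣ g.eval ((r + n : ℕ) : ℤ))).card : ℝ)
        + (U'.filter (fun n => ¬ (q : ℤ) ∣ g.eval ((r + n : ℕ) : ℤ))).card = U'.card := by
      exact_mod_cast h3
    have h5 : 0 ≤ 1 - (rho g q : ℝ) / q := by
      rw [sub_nonneg, div_le_one hq0']; exact_mod_cast rho_le_self g q
    rw [h2, prod_insert hq]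
    calc ((U'.filter (fun n => ¬ (q : ℤ) ∣ g.eval ((r + n : ℕ) : ℤ))).card : ℝ)
        ≤ U'.card * (1 - (rho g q : ℝ) / q) := by
          rw [mul_sub, mul_one]; linarith
      _ ≤ (U.card * ∏ p ∈ A, (1 - (rho g p : ℝ) / p)) * (1 - (rho g q : ℝ) / q) :=
          mul_le_mul_of_nonneg_right hc h5
      _ = _ := by ring

theorem sieve_poly (g : ℤ[X]) (B x y A : ℕ) :
    ∃ b, A ≤ b ∧ b < A + ∏ p ∈ primesIoc B x, p ∧
      (((range (y + 1)).filter
        (fun n => ∀ p ∈ primesIoc B x, ¬ (p : ℤ) ∣ g.eval ((b + n : ℕ) : ℤ))).card : ℝ)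
        ≤ (y + 1) * exp (- ∑ p ∈ primesIoc B x, (rho g p : ℝ) / p) := by
  obtain ⟨c, hc⟩ := greedy_poly g (primesIoc B x) (fun p hp => (mem_primesIoc.mp hp).2.2)
    (range (y + 1))
  obtain ⟨k, hk⟩ := Nat.chineseRemainderOfFinset c id
    (primesIoc B x) (fun p hp => (mem_primesIoc.mp hp).2.2.ne_zero)
    (fun p hp q hq hpq => (Nat.coprime_primes (mem_primesIoc.mp hp).2.2
      (mem_primesIoc.mp hq).2.2).mpr hpq)
  obtain ⟨b, h1, h2, h3⟩ := exists_rep k A (∏ p ∈ primesIoc B x, p)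
    (prod_pos fun p hp => (mem_primesIoc.mp hp).2.2.pos)
  refine ⟨b, h1, h2, ?_⟩
  have h4 : (range (y + 1)).filter
        (fun n => ∀ p ∈ primesIoc B x, ¬ (p : ℤ) ∣ g.eval ((b + n : ℕ) : ℤ))
      = (range (y + 1)).filter
        (fun n => ∀ p ∈ primesIoc B x, ¬ (p : ℤ) ∣ g.eval ((c p + n : ℕ) : ℤ)) := by
    refine filter_congr fun n _ => forall₂_congr fun p hp => not_congr (dvd_eval_congr g ?_)
    have h5 : b ≡ c p [MOD p] :=
      (h3.of_dvd (dvd_prod_of_mem (fun p => p) hp)).trans (hk p hp)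
    push_cast
    rw [(ZMod.natCast_eq_natCast_iff _ _ _).mpr h5]
  rw [h4]
  refine hc.trans ?_
  rw [card_range, ← sum_neg_distrib, exp_sum]
  push_cast
  refine mul_le_mul_of_nonneg_left (prod_le_prod (fun p hp => ?_) fun p _ => ?_) (by positivity)
  · rw [sub_nonneg, div_le_one (by exact_mod_cast (mem_primesIoc.mp hp).2.2.pos)]
    exact_mod_cast rho_le_self g p
  · linarith [add_one_le_exp (-((rho g p : ℝ) / p))]

end Pool.Agent.P.MP_3bc45c_nt
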