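import Pool.Agent.P.MP_3bc45c_nt.PolyCount
import Pool.Agent.P.MP_3bc45c_nt.APAbstract
import Pool.Agent.P.MP_3bc45c_nt.Cover

/-!
The covering proposition for values of a polynomial, with all parameters explicit.
-/

open Finset Real Polynomial

namespace Pool.Agent.P.MP_3bc45c_nt

/-- The primes in `(W, E]` modulo which `g` has a root. -/
def gp (g : ℤ[X]) (W E : ℕ) : Finset ℕ := (primesIoc W E).filter (fun l => rho g l ≠ 0)

theorem mem_gp {g : ℤ[X]} {W E l : ℕ} :
    l ∈ gp g W E ↔ W < l ∧ l ≤ E ∧ l.Prime ∧ rho g l ≠ 0 := by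
  simp [gp, mem_primesIoc, and_assoc]

theorem sum_gp (g : ℤ[X]) (W E : ℕ) :
    ∑ l : gp g W E, (rho g l : ℝ) / l = ∑ p ∈ primesIoc W E, (rho g p : ℝ) / p := by
  rw [sum_coe_sort (gp g W E) (fun l => (rho g l : ℝ) / l)]
  refine sum_subset (filter_subset _ _) fun p hp hp' => ?_
  have : rho g p = 0 := by
    by_contra h
    exact hp' (mem_filter.mpr ⟨hp, h⟩)
  simp [this]

theorem sum_gp_lt (g : ℤ[X]) (W E n : ℕ) (f : ℕ → ℝ) :
    ∑ a ∈ univ.filter (fun a : gp g W E => (a : ℕ) < n), f a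
      = ∑ a ∈ (gp g W E).filter (· < n), f a := by
  rw [sum_filter, sum_filter, sum_coe_sort (gp g W E) (fun a => if a < n then f a else 0)]

section

variable {g : ℤ[X]} {C₀ : ℝ}
  (hC : ∀ u : ℕ, 2 ≤ u → |∑ p ∈ primesIoc 0 u, (rho g p : ℝ) / p - log (log u)| ≤ C₀)
include hC

theorem sum_rho_bounds {u v : ℕ} (hu : 2 ≤ u) (huv : u ≤ v) :
    log (log v) - log (log u) - 2 * C₀ ≤ ∑ p ∈ primesIoc u v, (rho g p : ℝ) / p ∧
      ∑ p ∈ primesIoc u v, (rho g p : ℝ) / p ≤ log (log v) - log (log u) + 2 * C₀ := by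
  have h1 := sum_primesIoc_add (fun p => (rho g p : ℝ) / p) (Nat.zero_le u) huv
  have h2 := abs_le.mp (hC u hu)
  have h3 := abs_le.mp (hC v (hu.trans huv))
  constructor <;> linarith

theorem lambda_poly {W E d : ℕ} {T : ℝ} (hW : 2 ≤ W) (hWE : W ≤ E) (hd1 : 1 ≤ d)
    (hd : ∀ p : ℕ, p.Prime → W < p → rho g p ≤ d) (hdW : d ^ 2 ≤ W)
    (hT : (6 * d + 1) * log E ≤ T) :
    exp (-2 * C₀ - 2) / (2 * (6 * d + 1) * log W) * (log (log E) - log (log W) - 2 * C₀)
      ≤ ∑ D : Finset (gp g W E), if log W - log d < lv (fun l : gp g W E => log l - log (rho g l)) D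
          ∧ lv (fun l : gp g W E => log l - log (rho g l)) D ≤ T
        then (∏ l ∈ D, (rho g l : ℝ) / l) / lv (fun l : gp g W E => log l - log (rho g l)) D
        else 0 := by
  have hW1 : (2 : ℝ) ≤ W := by exact_mod_cast hW
  have hlW : 0 < log (W : ℝ) := log_pos (by linarith)
  have hd1' : (1 : ℝ) ≤ d := by exact_mod_cast hd1
  have hdW' : (d : ℝ) ^ 2 ≤ W := by exact_mod_cast hdW
  have hm : ∀ l : gp g W E, W < l ∧ (l : ℕ) ≤ E ∧ (l : ℕ).Prime ∧ rho g l ≠ 0 :=
    fun l => mem_gp.mp l.2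
  have hWl : ∀ l : gp g W E, (W : ℝ) < (l : ℕ) := fun l => by exact_mod_cast (hm l).1
  have hll : ∀ l : gp g W E, log W < log (l : ℕ) := fun l => log_lt_log (by linarith) (hWl l)
  have hρ1 : ∀ l : gp g W E, (1 : ℝ) ≤ rho g l := fun l => by
    exact_mod_cast Nat.pos_of_ne_zero (hm l).2.2.2
  have hρd : ∀ l : gp g W E, (rho g l : ℝ) ≤ d := fun l => by
    exact_mod_cast hd l (hm l).2.2.1 (hm l).1
  have hl4 : log (4 : ℝ) = 2 * log 2 := by
    rw [show (4 : ℝ) = 2 ^ 2 by norm_num, log_pow]; norm_num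
  have h2W : log 2 ≤ log (W : ℝ) := log_le_log (by norm_num) hW1
  refine le_trans ?_ (lambda_top (fun l : gp g W E => (l : ℕ))
    (M := fun l => 3 * d * log (l : ℕ))
    (F := fun l => exp (-2 * C₀ - 2) * (log (l : ℕ) / log W)) (fun l => by positivity)
    (sub_nonneg.mpr (log_le_log (by linarith) (by nlinarith)))
    (fun l => by linarith [hll l, log_le_log (by linarith [hρ1 l]) (hρd l)])
    (fun l => mul_pos (by linarith) (hlW.trans (hll l))) (fun l => ?_) (fun l => ?_) fun l => ?_)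
  · refine (mul_le_mul_of_nonneg_left (sum_rho_bounds hC hW hWE).1 (by positivity)).trans ?_
    rw [← sum_gp, mul_sum]
    refine sum_le_sum fun l _ => ?_
    rw [mul_comm]
    refine mul_le_mul_of_nonneg_left ?_ (by positivity)
    have h1 := hlW.trans (hll l)
    have h2 := log_nonneg (hρ1 l)
    have h3 : 0 < 2 * (3 * d * log (l : ℕ)) + (log (l : ℕ) - log (rho g l)) := by
      have := log_le_log (by linarith [hρ1 l]) (show (rho g l : ℝ) ≤ (l : ℕ) by
        exact_mod_cast rho_le_self g l)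
      have : 0 < d * log (l : ℕ) := by positivity
      linarith
    calc exp (-2 * C₀ - 2) / (2 * (6 * d + 1) * log W)
        = exp (-2 * C₀ - 2) * (log (l : ℕ) / log W) / 2 / ((6 * d + 1) * log (l : ℕ)) := by
          field_simp
      _ ≤ _ := div_le_div_of_nonneg_left (by positivity) h3 (by linarith)
  · rw [sum_gp_lt g W E l (fun a => (rho g a : ℝ) / a * (log a - log (rho g a)))]
    have h1 : ∑ a ∈ (gp g W E).filter (· < (l : ℕ)), (rho g a : ℝ) / a * (log a - log (rho g a))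
        ≤ d * A1 l := by
      rw [A1, mul_sum]
      refine le_trans (sum_le_sum (g := fun a : ℕ => d * (log a / a)) fun a ha => ?_)
        (sum_le_sum_of_subset_of_nonneg (fun a ha => ?_) fun a _ _ =>
          mul_nonneg (by linarith) (div_nonneg (log_natCast_nonneg _) (Nat.cast_nonneg _)))
      · have ha' := (mem_filter.mp ha).1
        have h2 := hρd ⟨a, ha'⟩
        have h3 := log_nonneg (hρ1 ⟨a, ha'⟩)
        simp only at h2 h3
        calc (rho g a : ℝ) / a * (log a - log (rho g a)) ≤ (rho g a : ℝ) / a * log a :=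
              mul_le_mul_of_nonneg_left (by linarith) (by positivity)
          _ = rho g a * (log a / a) := by ring
          _ ≤ _ := mul_le_mul_of_nonneg_right h2
              (div_nonneg (log_natCast_nonneg _) (Nat.cast_nonneg _))
      · obtain ⟨h2, h3⟩ := mem_filter.mp ha
        exact mem_primesIoc.mpr ⟨(mem_gp.mp h2).2.2.1.pos, h3.le, (mem_gp.mp h2).2.2.1⟩
    have h2 := mul_le_mul_of_nonneg_left (A1_le (hm l).2.2.1.pos) (show (0 : ℝ) ≤ d by linarith)
    have h3 := mul_le_mul_of_nonneg_left (h2W.trans (hll l).le) (show (0 : ℝ) ≤ d by linarith)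
    rw [hl4] at h2
    linarith
  · have h1 : log (l : ℕ) ≤ log E := log_le_log (by linarith [hWl l])
      (by exact_mod_cast (hm l).2.1)
    have h2 := mul_le_mul_of_nonneg_left h1 (show (0 : ℝ) ≤ 6 * d + 1 by linarith)
    linarith [log_nonneg (hρ1 l)]
  · refine le_trans ?_ (exp_le_prod_one_add _ _ fun a _ => by positivity)
    rw [sum_gp_lt g W E l (fun a => (rho g a : ℝ) / a),
      sum_gp_lt g W E l (fun a => ((rho g a : ℝ) / a) ^ 2)]
    have h1 : ∑ a ∈ (gp g W E).filter (· < (l : ℕ)), ((rho g a : ℝ) / a) ^ 2 ≤ 1 := by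
      have h2 : ∑ a ∈ (gp g W E).filter (· < (l : ℕ)), ((rho g a : ℝ) / a) ^ 2
          ≤ d ^ 2 * ∑ p ∈ primesIoc W E, (1 : ℝ) / (p : ℝ) ^ 2 := by
        rw [mul_sum]
        refine le_trans (sum_le_sum (g := fun a : ℕ => (d : ℝ) ^ 2 * (1 / (a : ℝ) ^ 2))
          fun a ha => ?_) (sum_le_sum_of_subset_of_nonneg
            ((filter_subset _ _).trans (filter_subset _ _)) fun a _ _ => by positivity)
        have h3 := hρd ⟨a, (mem_filter.mp ha).1⟩
        rw [div_pow, mul_one_div]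
        gcongr
      refine h2.trans ((mul_le_mul hdW' (sum_inv_sq_le (by omega) E) (by positivity)
        (by positivity)).trans (le_of_eq ?_))
      field_simp
    have h2 : ∑ p ∈ primesIoc W l, (rho g p : ℝ) / p - 1
        ≤ ∑ a ∈ (gp g W E).filter (· < (l : ℕ)), (rho g a : ℝ) / a := by
      have hl : (l : ℕ) ∈ primesIoc W l := mem_primesIoc.mpr ⟨(hm l).1, le_rfl, (hm l).2.2.1⟩
      rw [← add_sum_erase _ _ hl]
      have h3 : (rho g l : ℝ) / (l : ℕ) ≤ 1 :=
        (div_le_one (by linarith [hWl l])).mpr (by exact_mod_cast rho_le_self g l)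
      have h4 : ∑ a ∈ (gp g W E).filter (· < (l : ℕ)), (rho g a : ℝ) / a
          = ∑ a ∈ (primesIoc W l).erase l, (rho g a : ℝ) / a := by
        refine sum_subset (fun a ha => ?_) fun a ha ha' => ?_
        · obtain ⟨h5, h6⟩ := mem_filter.mp ha
          exact mem_erase.mpr ⟨h6.ne, mem_primesIoc.mpr
            ⟨(mem_gp.mp h5).1, h6.le, (mem_gp.mp h5).2.2.1⟩⟩
        · obtain ⟨h5, h6⟩ := mem_erase.mp ha
          obtain ⟨h7, h8, h9⟩ := mem_primesIoc.mp h6
          have : rho g a = 0 := by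
            by_contra h
            exact ha' (mem_filter.mpr ⟨mem_gp.mpr ⟨h7, h8.trans (hm l).2.1, h9, h⟩,
              lt_of_le_of_ne h8 h5⟩)
          simp [this]
      linarith
    have h3 := (sum_rho_bounds hC hW (hm l).1.le).1
    have h4 : exp (-2 * C₀ - 2) * (log (l : ℕ) / log W)
        = exp (log (log (l : ℕ)) - log (log W) - 2 * C₀ - 2) := by
      rw [show log (log (l : ℕ)) - log (log W) - 2 * C₀ - 2
        = -2 * C₀ - 2 + (log (log (l : ℕ)) - log (log W)) by ring, exp_add, exp_sub (log _),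
        exp_log hlW, exp_log (hlW.trans (hll l))]
    rw [h4]
    exact exp_le_exp.mpr (by linarith)

theorem cover_poly_finite {y W E d P b N s : ℕ} {𝒮 : Finset ℕ} {T L ρ k σ : ℝ}
    (h𝒮 : 𝒮 ⊆ range (y + 1)) (hk : (𝒮.card : ℝ) ≤ k) (hW : 2 ≤ W) (hWE : W ≤ E) (hd1 : 1 ≤ d)
    (hd : ∀ p : ℕ, p.Prime → W < p → rho g p ≤ d) (hdW : d ^ 2 ≤ W)
    (hsep : ∀ l : ℕ, W < l → Sep g y l) (hP : ∀ p : ℕ, p.Prime → p ∣ P → p ≤ W)
    (hNW : N ≤ W ^ s) (hh₀ : 2 ≤ log W - log d) (hT : (6 * d + 1) * log E ≤ T) (hT0 : 0 < T)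
    (hL : 0 < L) (hρ : 0 ≤ ρ)
    (hΛ : 1 / L ≤ exp (-2 * C₀ - 2) / (2 * (6 * d + 1) * log W) *
      (log (log E) - log (log W) - 2 * C₀))
    (hσ : log (log E) - log (log W) + 2 * C₀ ≤ σ)
    (hk' : k * (d / W) ≤ 1) (hκ : k * (d / W) * (ρ / (log W - log d)) ≤ 1 / 2)
    (hτ : (k + 1) * exp (-(ρ - T - 2 * k * L) / T) ≤ 1 / 10)
    (hβ : k * (L / (log W - log d) * (d / W * exp σ) * (ρ / (log W - log d))) ^ 2 ≤ 1 / 10)
    (hN : 10 * (k + 1) * (exp (2 * ρ) * exp (k * exp (-(1 / 2 * (log W - log d))))) ^ 2 *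
      (2 * (d : ℝ) ^ s) < N) :
    ∃ t < N, ∀ n ∈ 𝒮, ∃ p : ℕ, p.Prime ∧ W < p ∧ p ≤ E ∧
      (p : ℤ) ∣ g.eval ((b + P * t + n : ℕ) : ℤ) := by
  classical
  have hW1 : (2 : ℝ) ≤ W := by exact_mod_cast hW
  have hd1' : (1 : ℝ) ≤ d := by exact_mod_cast hd1
  have hcard : Fintype.card 𝒮 = 𝒮.card := Fintype.card_coe 𝒮
  have hk0 : (0 : ℝ) ≤ 𝒮.card := Nat.cast_nonneg _
  have hk1 : 0 ≤ k := hk0.trans hk
  have hm : ∀ l : gp g W E, W < l ∧ (l : ℕ) ≤ E ∧ (l : ℕ).Prime ∧ rho g l ≠ 0 :=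
    fun l => mem_gp.mp l.2
  have hWl : ∀ l : gp g W E, (W : ℝ) < (l : ℕ) := fun l => by exact_mod_cast (hm l).1
  have hρ1 : ∀ l : gp g W E, (1 : ℝ) ≤ rho g l := fun l => by
    exact_mod_cast Nat.pos_of_ne_zero (hm l).2.2.2
  have hρd : ∀ l : gp g W E, (rho g l : ℝ) ≤ d := fun l => by
    exact_mod_cast hd l (hm l).2.2.1 (hm l).1
  have hh : ∀ l : gp g W E, log W - log d ≤ log (l : ℕ) - log (rho g l) := fun l => by
    linarith [log_le_log (by linarith) (hWl l).le, log_le_log (by linarith [hρ1 l]) (hρd l)]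
  have hpd : ∀ l : gp g W E, (rho g l : ℝ) / (l : ℕ) ≤ d / W := fun l =>
    div_le_div₀ (by linarith) (hρd l) (by linarith) (hWl l).le
  set h₀ := log (W : ℝ) - log d with hh₀def
  have hh₀0 : 0 < h₀ := by linarith
  obtain ⟨a, ha, han, hsum, haT, hγ, hδ, hs, hA₀⟩ := exists_amplitude
    (p := fun l : gp g W E => (rho g l : ℝ) / l)
    (h := fun l : gp g W E => log (l : ℕ) - log (rho g l)) (h₀ := h₀) (t₁ := h₀) (T := T)
    (L := L) (θ := 1 / T) (ε := 1) (κ := 1 / 2)
    (fun l => by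
      rw [neg_sub, exp_sub, exp_log (by linarith [hρ1 l]), exp_log (by linarith [hWl l])])
    hh hh₀0 hT0.le hL (hΛ.trans (lambda_poly hC hW hWE hd1 hd hdW hT)) (by positivity)
    (by rw [one_div_mul_cancel hT0.ne']) le_rfl (by norm_num) (by linarith [log_two_lt_d9])
  have hσ' : ∑ l : gp g W E, (rho g l : ℝ) / l ≤ σ := by
    rw [sum_gp]
    exact (sum_rho_bounds hC hW hWE).2.trans hσ
  obtain ⟨j, hj⟩ := exists_pow_lt_of_lt_one
    (show (0 : ℝ) < 1 / (10 * (𝒮.card + 1) * (1 + L / h₀) ^ 𝒮.card) by positivity)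
    (show (1 / 4 : ℝ) < 1 by norm_num)
  obtain ⟨t, ht, -, hcov⟩ := abstract_cover_w (S := 𝒮) (ι₁ := Empty) (p₁ := fun l => l.elim)
    (p₂ := fun l : gp g W E => (rho g l : ℝ) / l) (a := a)
    (h := fun l : gp g W E => log (l : ℕ) - log (rho g l)) (h₀ := h₀) (ρ := ρ)
    (T := T) (γ := L / h₀ * (d / W * exp σ)) (θ := 1 / T) (α := 1 + 2 * (1 / 2))
    (δ := 1 / T * (1 + 1) * L) (s := L / h₀) (A₀ := 1 + exp (-(1 / 2 * h₀))) (M := 1)
    (N' := N) (Δ := 2 * (d : ℝ) ^ s) (j := j) (N := N) (w := fun _ => 1) (fun _ => zero_le_one)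
    (fun l => l.elim) (fun l => l.elim) (fun l => l.elim) (fun l => by positivity)
    (fun l => by
      rw [hcard]
      exact (mul_le_mul hk (hpd l) (by positivity) hk1).trans hk')
    (fun l => (div_le_one (by linarith [hWl l])).mpr (by exact_mod_cast rho_le_self g l))
    hh₀0 hh hT0.le hρ (by positivity) (by norm_num) le_rfl (by positivity) ha han hsum haT
    (fun l => (hγ l).trans (by
      rw [hh₀def, neg_sub, exp_sub, exp_log (by linarith), exp_log (by linarith)]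
      gcongr))
    (fun l => by
      refine le_trans ?_ hκ
      rw [hcard]
      exact mul_le_mul_of_nonneg_right (mul_le_mul hk (hpd l) (by positivity) hk1)
        (by positivity))
    hδ hs hA₀
    (by
      refine le_trans ?_ hτ
      rw [hcard, Fintype.prod_empty, one_mul]
      have h1 := one_add_pow_le_exp (x := 1 / T * (1 + 1) * L) (by positivity) 𝒮.card
      have h2 : exp (-(ρ - T - 2 * k * L) / T)
          = exp (-(1 / T) * (ρ - T)) * exp (k * (1 / T * (1 + 1) * L)) := by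
        rw [← exp_add]; congr 1; ring
      rw [h2]
      have h3 : exp (𝒮.card * (1 / T * (1 + 1) * L)) ≤ exp (k * (1 / T * (1 + 1) * L)) := by
        gcongr
      gcongr
      exact h1.trans h3)
    (by
      refine le_trans ?_ hβ
      rw [hcard]
      gcongr)
    (by
      rw [hcard, Fintype.sum_empty, mul_zero, exp_zero, one_mul]
      rw [lt_div_iff₀ (by positivity)] at hj
      have h1 : (0 : ℝ) ≤ (1 / 4) ^ j * (1 + L / h₀) ^ 𝒮.card := by positivity
      nlinarith)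
    (by
      refine lt_of_le_of_lt ?_ hN
      rw [hcard, Fintype.card_empty, one_pow, Nat.cast_zero, zero_mul, zero_div, exp_zero,
        mul_one, mul_one, show (1 : ℝ) + 2 * (1 / 2) = 2 by norm_num]
      have h1 := one_add_pow_le_exp (x := exp (-(1 / 2 * h₀))) (exp_pos _).le 𝒮.card
      have h3 : exp (𝒮.card * exp (-(1 / 2 * h₀))) ≤ exp (k * exp (-(1 / 2 * h₀))) := by gcongr
      gcongr
      exact h1.trans h3)
    (fun t => (fun l => l.elim, fun l => hitp g 𝒮 l (b + P * t)))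
    (fun τ₁ τ₂ => by
      have h := atom_disc_poly g (fun l : gp g W E => (l : ℕ)) Subtype.val_injective
        (fun l => (hm l).2.2.1) (P := P)
        (fun l h => absurd (hP _ (hm l).2.2.1 h) (not_le.mpr (hm l).1)) h𝒮
        (fun l => hsep l (hm l).1) b (fun l => (hm l).1) (by omega)
        (fun l => hd l (hm l).2.2.1 (hm l).1) hd1 hNW τ₂
      have h1 : ∀ ω, atom τ₁ ω = 1 := fun ω => Fintype.prod_empty _
      have h2 : pw (fun l : Empty => (l.elim : ℝ)) τ₁ = 1 := Fintype.prod_empty _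
      simpa only [h1, h2, one_mul] using h)
  refine ⟨t, ht, fun n hn => ?_⟩
  rcases hcov ⟨n, hn⟩ with ⟨l, -⟩ | ⟨l, hl⟩
  · exact l.elim
  · exact ⟨l, (hm l).2.2.1, (hm l).1, (hm l).2.1,
      (hitp_eq_some h𝒮 (hsep l (hm l).1) _ _).mp hl⟩

end

end Pool.Agent.P.MP_3bc45c_nt
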