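import Pool.Agent.P.MP_3bc45c_nt.Labels

/-!
The truncated inclusion-exclusion indicator of the event that no small index hits a given set of
forms.
-/

open Finset

set_option linter.unusedSectionVars false

namespace Pool.Agent.P.MP_3bc45c_nt

variable {S ι : Type} [Fintype S] [DecidableEq S] [Fintype ι] [DecidableEq ι]

/-- Indicator that a state hits the set `I` of forms. -/
def Y (I : Finset S) (o : Option S) : ℝ := ∑ i ∈ I, if o = some i then 1 else 0

/-- Truncated inclusion-exclusion sum. -/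
def nu (j : ℕ) (I : Finset S) (ω : ι → Option S) : ℝ :=
  ∑ D ∈ (univ : Finset ι).powerset.filter (fun D => D.card ≤ j), ∏ l ∈ D, (- Y I (ω l))

/-- Indicator that no index hits `I`. -/
def n0 (I : Finset S) (ω : ι → Option S) : ℝ := ∏ l, (1 - Y I (ω l))

/-- Probability that no index hits `I`. -/
def vv (p : ι → ℝ) (I : Finset S) : ℝ := ∏ l, (1 - I.card * p l)

omit [Fintype S] in
theorem Y_eq (I : Finset S) (o : Option S) : Y I o = 0 ∨ Y I o = 1 := by
  cases o with
  | none => left; simp [Y]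
  | some a =>
    by_cases h : a ∈ I
    · right; simp [Y, h]
    · left; simp [Y, h]

omit [Fintype S] in
theorem Y_nonneg (I : Finset S) (o : Option S) : 0 ≤ Y I o := by
  rcases Y_eq I o with h | h <;> simp [h]

omit [Fintype S] in
theorem nu_insert (j : ℕ) {I : Finset S} {i : S} (hi : i ∉ I) {ω : ι → Option S}
    (hω : ∀ l, ω l ≠ some i) : nu j (insert i I) ω = nu j I ω := by
  unfold nu
  refine sum_congr rfl fun D _ => prod_congr rfl fun l _ => ?_
  simp [Y, sum_insert hi, hω l]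

omit [Fintype S] in
theorem n0_sub_nu (j : ℕ) (I : Finset S) (ω : ι → Option S) :
    n0 I ω - nu j I ω = ∑ D ∈ (univ : Finset ι).powerset.filter (fun D => ¬ D.card ≤ j),
      ∏ l ∈ D, (- Y I (ω l)) := by
  have : n0 I ω = ∑ D ∈ (univ : Finset ι).powerset, ∏ l ∈ D, (- Y I (ω l)) := by
    rw [← prod_one_add]
    rfl
  rw [this, nu, ← sum_filter_add_sum_filter_not _ (fun D : Finset ι => D.card ≤ j)]
  ring

omit [Fintype S] in
theorem abs_n0_sub_nu (j : ℕ) (I : Finset S) (ω : ι → Option S) :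
    |n0 I ω - nu j I ω| ≤ (1 / 2) ^ j * ∏ l, (1 + 2 * Y I (ω l)) := by
  rw [n0_sub_nu, prod_one_add, mul_sum]
  refine (abs_sum_le_sum_abs _ _).trans ?_
  refine le_trans (sum_le_sum (g := fun D => (1 / 2 : ℝ) ^ j * ∏ l ∈ D, (2 * Y I (ω l)))
    fun D hD => ?_) (sum_le_sum_of_subset_of_nonneg (filter_subset _ _) fun D _ _ =>
      mul_nonneg (by positivity) (prod_nonneg fun l _ => by have := Y_nonneg I (ω l); positivity))
  have hD' : j ≤ D.card := (not_le.mp (mem_filter.mp hD).2).le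
  rw [abs_prod, prod_mul_distrib, prod_const, ← mul_assoc]
  have h1 : ∏ l ∈ D, |- Y I (ω l)| = ∏ l ∈ D, Y I (ω l) :=
    prod_congr rfl fun l _ => by rw [abs_neg, abs_of_nonneg (Y_nonneg _ _)]
  rw [h1]
  refine le_mul_of_one_le_left (prod_nonneg fun l _ => Y_nonneg _ _) ?_
  rw [one_div, inv_pow, inv_mul_eq_div, le_div_iff₀ (by positivity), one_mul]
  exact pow_le_pow_right₀ (by norm_num) hD'

omit [Fintype S] in
theorem nu_sq (j : ℕ) (I : Finset S) (ω : ι → Option S) :
    nu j I ω ^ 2 = n0 I ω + (n0 I ω - nu j I ω) ^ 2 := by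
  by_cases h : ∀ l, Y I (ω l) = 0
  · have h1 : n0 I ω = 1 := by simp [n0, h]
    have h2 : n0 I ω - nu j I ω = 0 := by
      rw [n0_sub_nu]
      refine sum_eq_zero fun D hD => ?_
      have hD' : j < D.card := not_le.mp (mem_filter.mp hD).2
      obtain ⟨l, hl⟩ := card_pos.mp (lt_of_le_of_lt (Nat.zero_le _) hD')
      exact prod_eq_zero hl (by simp [h l])
    have h3 : nu j I ω = 1 := by linarith
    rw [h2, h1, h3]
    norm_num
  · push Not at h
    obtain ⟨l, hl⟩ := h
    have h1 : n0 I ω = 0 := prod_eq_zero (mem_univ l) (by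
      rcases Y_eq I (ω l) with h | h
      · exact absurd h hl
      · simp [h])
    rw [h1]
    ring

omit [Fintype S] in
theorem n0_le_nu_sq (j : ℕ) (I : Finset S) (ω : ι → Option S) : n0 I ω ≤ nu j I ω ^ 2 := by
  rw [nu_sq]
  nlinarith [sq_nonneg (n0 I ω - nu j I ω)]

omit [Fintype S] in
theorem nu_sq_le (j : ℕ) (I : Finset S) (ω : ι → Option S) :
    nu j I ω ^ 2 ≤ n0 I ω + (1 / 4) ^ j * ∏ l, (1 + 8 * Y I (ω l)) := by
  rw [nu_sq]
  have h := abs_n0_sub_nu j I ω
  have h2 : (n0 I ω - nu j I ω) ^ 2 ≤ ((1 / 2) ^ j * ∏ l, (1 + 2 * Y I (ω l))) ^ 2 := by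
    rw [← sq_abs]
    exact pow_le_pow_left₀ (abs_nonneg _) h 2
  have h3 : ((1 / 2 : ℝ) ^ j * ∏ l, (1 + 2 * Y I (ω l))) ^ 2
      = (1 / 4) ^ j * ∏ l, (1 + 8 * Y I (ω l)) := by
    rw [mul_pow, ← prod_pow, ← pow_mul, mul_comm j 2, pow_mul]
    congr 1
    · norm_num
    · refine prod_congr rfl fun l _ => ?_
      rcases Y_eq I (ω l) with h | h <;> simp [h]
      norm_num
  linarith

omit [Fintype ι] [DecidableEq ι] in
theorem sum_prob_Y (p : ι → ℝ) (l : ι) (I : Finset S) :
    ∑ o, prob p l o * Y I o = I.card * p l := by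
  have h : ∀ i : S, Y I (some i) = if i ∈ I then 1 else 0 := by
    intro i
    simp only [Y, Option.some.injEq]
    rw [sum_ite_eq]
  have h0 : Y I none = 0 := by simp [Y]
  simp [Fintype.sum_option, h, h0, prob]

theorem Ex_lin (p : ι → ℝ) (I : Finset S) (c : ℝ) :
    Ex p (fun ω => ∏ l, (1 + c * Y I (ω l))) = ∏ l, (1 + c * (I.card * p l)) := by
  rw [Ex_prod p (fun _ o => 1 + c * Y I o)]
  refine prod_congr rfl fun l _ => ?_
  rw [← sum_prob_Y p l I, mul_sum]
  nth_rewrite 2 [← sum_prob (S := S) p l]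
  rw [← sum_add_distrib]
  exact sum_congr rfl fun o _ => by ring

theorem Ex_n0 (p : ι → ℝ) (I : Finset S) : Ex p (n0 I) = vv p I := by
  have := Ex_lin p I (-1)
  simp only [neg_mul, one_mul, ← sub_eq_add_neg] at this
  exact this

theorem vv_le_Ex {p : ι → ℝ} (hp : ∀ l, 0 ≤ p l) (hk : ∀ l, Fintype.card S * p l ≤ 1) (j : ℕ)
    (I : Finset S) : vv p I ≤ Ex p (fun ω => nu j I ω ^ 2) := by
  rw [← Ex_n0]
  exact Ex_mono hp hk fun ω => n0_le_nu_sq j I ω

theorem Ex_nu_sq_le {p : ι → ℝ} (hp : ∀ l, 0 ≤ p l) (hk : ∀ l, Fintype.card S * p l ≤ 1) (j : ℕ)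
    (I : Finset S) : Ex p (fun ω => nu j I ω ^ 2)
      ≤ vv p I + (1 / 4) ^ j * Real.exp (8 * ∑ l, p l) ^ I.card := by
  refine (Ex_mono hp hk fun ω => nu_sq_le j I ω).trans ?_
  rw [Ex_add, Ex_const_mul, Ex_lin, Ex_n0]
  refine add_le_add le_rfl (mul_le_mul_of_nonneg_left ?_ (by positivity))
  rw [← Real.exp_nat_mul, mul_sum, mul_sum, Real.exp_sum]
  refine prod_le_prod (fun l _ => by have := hp l; positivity) fun l _ => ?_
  have := Real.add_one_le_exp ((I.card : ℝ) * (8 * p l))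
  linarith

omit [DecidableEq S] [DecidableEq ι] in
theorem vv_nonneg {p : ι → ℝ} (hp : ∀ l, 0 ≤ p l) (hk : ∀ l, Fintype.card S * p l ≤ 1)
    (I : Finset S) : 0 ≤ vv p I := by
  refine prod_nonneg fun l _ => ?_
  have h1 : (I.card : ℝ) ≤ Fintype.card S := by exact_mod_cast card_le_univ I
  nlinarith [hp l, hk l]

omit [DecidableEq ι] in
theorem vv_insert {p : ι → ℝ} (hp : ∀ l, 0 ≤ p l) (hk : ∀ l, Fintype.card S * p l ≤ 1)
    (i : S) (I : Finset S) (hi : i ∉ I) :
    vv p (insert i I) ≤ (∏ l, (1 - p l)) * vv p I := by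
  unfold vv
  rw [← prod_mul_distrib]
  refine prod_le_prod (fun l _ => ?_) fun l _ => ?_
  · have h1 : ((insert i I).card : ℝ) ≤ Fintype.card S := by exact_mod_cast card_le_univ _
    nlinarith [hp l, hk l]
  · rw [card_insert_of_notMem hi]
    push_cast
    nlinarith [mul_nonneg (Nat.cast_nonneg (α := ℝ) I.card) (sq_nonneg (p l))]

theorem AN_nu {ι₂ : Type} [Fintype ι₂] (j : ℕ) (I : Finset S) {M : ℝ} (hM : 1 ≤ M) :
    AN (atoms S ι ι₂) (fun ω => nu j I ω.1)
      (M ^ j * Real.exp (Fintype.card ι * Fintype.card S / M)) := by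
  have hY : ∀ l : ι, AN (atoms S ι ι₂) (fun ω => - Y I (ω.1 l)) (Fintype.card S) := by
    intro l
    have h1 := (AN.sum (𝒜 := atoms S ι ι₂) I
      (fun i ω => if ω.1 l = some i then (1 : ℝ) else 0) (fun _ => 1)
      (fun i _ => AN.of_mem (X₁_mem l i))).neg
    have h2 : (fun ω : (ι → Option S) × (ι₂ → Option S) => - Y I (ω.1 l))
        = -∑ i ∈ I, (fun ω : (ι → Option S) × (ι₂ → Option S) =>
          if ω.1 l = some i then (1 : ℝ) else 0) := by
      ext ω
      simp [Y]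
    rw [h2]
    refine h1.mono ?_
    simpa using (by exact_mod_cast card_le_univ I : (I.card : ℝ) ≤ Fintype.card S)
  have h1 := AN.sum (𝒜 := atoms S ι ι₂)
    ((univ : Finset ι).powerset.filter (fun D => D.card ≤ j))
    (fun D => ∏ l ∈ D, (fun ω => - Y I (ω.1 l))) (fun D => ∏ _l ∈ D, (Fintype.card S : ℝ))
    (fun D _ => AN.prod D _ _ fun l _ => hY l)
  have h2 : (fun ω : (ι → Option S) × (ι₂ → Option S) => nu j I ω.1)
      = ∑ D ∈ (univ : Finset ι).powerset.filter (fun D => D.card ≤ j),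
        ∏ l ∈ D, (fun ω : (ι → Option S) × (ι₂ → Option S) => - Y I (ω.1 l)) := by
    ext ω
    simp [nu]
  rw [h2]
  refine h1.mono ?_
  have hM0 : 0 < M := lt_of_lt_of_le one_pos hM
  calc ∑ D ∈ (univ : Finset ι).powerset.filter (fun D => D.card ≤ j),
        ∏ _l ∈ D, (Fintype.card S : ℝ)
      ≤ ∑ D ∈ (univ : Finset ι).powerset.filter (fun D => D.card ≤ j),
        M ^ j * ∏ _l ∈ D, ((Fintype.card S : ℝ) / M) := by
        refine sum_le_sum fun D hD => ?_
        have hD' : D.card ≤ j := (mem_filter.mp hD).2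
        rw [prod_const, prod_const, div_pow, mul_div_assoc', le_div_iff₀ (by positivity),
          mul_comm]
        exact mul_le_mul_of_nonneg_right (pow_le_pow_right₀ hM hD') (by positivity)
    _ ≤ ∑ D ∈ (univ : Finset ι).powerset, M ^ j * ∏ _l ∈ D, ((Fintype.card S : ℝ) / M) :=
        sum_le_sum_of_subset_of_nonneg (filter_subset _ _) fun D _ _ => by positivity
    _ = M ^ j * ∏ _l : ι, (1 + (Fintype.card S : ℝ) / M) := by
        rw [← mul_sum, prod_one_add]
    _ ≤ _ := by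
        refine mul_le_mul_of_nonneg_left ?_ (by positivity)
        rw [prod_const, card_univ, mul_div_assoc, Real.exp_nat_mul]
        refine pow_le_pow_left₀ (by positivity) ?_ _
        have := Real.add_one_le_exp ((Fintype.card S : ℝ) / M)
        linarith

end Pool.Agent.P.MP_3bc45c_nt
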