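import Pool.Agent.P.MP_3bc45c_nt.Mertens

/-!
Rankin's bound for smooth numbers, with the logarithmic factor removed.
-/

open Finset Real
open ArithmeticFunction (vonMangoldt vonMangoldt_apply_prime vonMangoldt_nonneg vonMangoldt_sum)

namespace Pool.Agent.P.MP_3bc45c_nt

theorem sum_le_sum_inj {α β : Type*} {s : Finset α} {t : Finset β} (f : α → β)
    (hinj : Set.InjOn f s) (hmap : ∀ a ∈ s, f a ∈ t) (g : β → ℝ) (hg : ∀ b ∈ t, 0 ≤ g b) :
    ∑ a ∈ s, g (f a) ≤ ∑ b ∈ t, g b := by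
  classical
  rw [← sum_image hinj]
  refine sum_le_sum_of_subset_of_nonneg ?_ fun b hb _ => hg b hb
  intro b hb
  obtain ⟨a, ha, rfl⟩ := mem_image.mp hb
  exact hmap a ha

/-- The `z`-smooth numbers in `[1, y]`. -/
def smoothUpTo (y z : ℕ) : Finset ℕ := (Ioc 0 y).filter (fun n => ∀ p ∈ n.primeFactors, p ≤ z)

theorem mem_smoothUpTo {y z n : ℕ} :
    n ∈ smoothUpTo y z ↔ 0 < n ∧ n ≤ y ∧ ∀ p : ℕ, p.Prime → p ∣ n → p ≤ z := by
  simp only [smoothUpTo, mem_filter, mem_Ioc, Nat.mem_primeFactors, and_assoc]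
  refine and_congr_right fun h0 => and_congr_right fun _ => ?_
  exact ⟨fun h p hp hd => h p ⟨hp, hd, h0.ne'⟩, fun h p hp => h p hp.1 hp.2.1⟩

theorem psi_smooth : ∃ C : ℝ, 0 < C ∧ ∀ (η : ℝ) (t z : ℕ), 0 ≤ η → η ≤ 1 / 2 → 1 ≤ t → 1 ≤ z →
    ∑ d ∈ smoothUpTo t z, vonMangoldt d ≤ C * ((t : ℝ) ^ (1 - η) * (z : ℝ) ^ η) := by
  obtain ⟨C, hC⟩ := Chebyshev.psi_sub_theta_le_mul_sqrt
  have h4 : 0 < log (4 : ℝ) := log_pos (by norm_num)
  refine ⟨log 4 + |C|, by positivity, fun η t z h0 h1 ht hz => ?_⟩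
  have ht' : (1 : ℝ) ≤ t := by exact_mod_cast ht
  have hz' : (1 : ℝ) ≤ z := by exact_mod_cast hz
  rw [← sum_filter_add_sum_filter_not _ Nat.Prime, add_mul]
  refine add_le_add ?_ ?_
  · have h2 : ∑ d ∈ smoothUpTo t z with d.Prime, vonMangoldt d
        ≤ Chebyshev.theta ((min t z : ℕ) : ℝ) := by
      rw [Chebyshev.theta, Nat.floor_natCast]
      refine le_trans (le_of_eq (sum_congr rfl fun p hp =>
        vonMangoldt_apply_prime (mem_filter.mp hp).2)) ?_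
      refine sum_le_sum_of_subset_of_nonneg ?_ fun p _ _ => log_natCast_nonneg p
      intro p hp
      obtain ⟨h3, h5⟩ := mem_filter.mp hp
      obtain ⟨h6, h7, h8⟩ := mem_smoothUpTo.mp h3
      exact mem_filter.mpr ⟨mem_Ioc.mpr ⟨h6, le_min h7 (h8 p h5 dvd_rfl)⟩, h5⟩
    refine (h2.trans (Chebyshev.theta_le_log4_mul_x (Nat.cast_nonneg _))).trans ?_
    refine mul_le_mul_of_nonneg_left ?_ h4.le
    have hm : (0 : ℝ) < ((min t z : ℕ) : ℝ) := by exact_mod_cast (by omega : 0 < min t z)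
    calc ((min t z : ℕ) : ℝ) = ((min t z : ℕ) : ℝ) ^ (1 - η) * ((min t z : ℕ) : ℝ) ^ η := by
          rw [← rpow_add hm]; simp
      _ ≤ _ := by
          refine mul_le_mul (rpow_le_rpow hm.le ?_ (by linarith)) (rpow_le_rpow hm.le ?_ h0)
            (by positivity) (by positivity)
          · exact_mod_cast min_le_left t z
          · exact_mod_cast min_le_right t z
  · have h2 : ∑ d ∈ smoothUpTo t z with ¬ d.Prime, vonMangoldt d
        ≤ Chebyshev.psi t - Chebyshev.theta t := by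
      rw [Chebyshev.psi_sub_theta_eq_sum_not_prime, Nat.floor_natCast]
      exact sum_le_sum_of_subset_of_nonneg (filter_subset_filter _ (filter_subset _ _))
        fun _ _ _ => vonMangoldt_nonneg
    refine (h2.trans (hC t)).trans ?_
    refine mul_le_mul (le_abs_self C) ?_ (sqrt_nonneg _) (abs_nonneg _)
    rw [sqrt_eq_rpow]
    exact (rpow_le_rpow_of_exponent_le ht' (by linarith)).trans
      (le_mul_of_one_le_right (by positivity) (one_le_rpow hz' h0))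

theorem sum_log_smooth_le (y z : ℕ) :
    ∑ n ∈ smoothUpTo y z, log (n : ℝ)
      ≤ ∑ m ∈ smoothUpTo y z, ∑ d ∈ smoothUpTo (y / m) z, vonMangoldt d := by
  have h1 : ∑ n ∈ smoothUpTo y z, log (n : ℝ)
      = ∑ m ∈ smoothUpTo y z, ∑ n ∈ (smoothUpTo y z).filter (m ∣ ·), vonMangoldt (n / m) := by
    rw [sum_comm' (t' := smoothUpTo y z) (s' := fun n => n.divisors)]
    · refine sum_congr rfl fun n _ => ?_
      rw [Nat.sum_div_divisors n (fun d => vonMangoldt d), vonMangoldt_sum]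
    · intro m n
      simp only [mem_filter, Nat.mem_divisors, mem_smoothUpTo]
      constructor
      · rintro ⟨-, h2, h3⟩
        exact ⟨⟨h3, h2.1.ne'⟩, h2⟩
      · rintro ⟨⟨h2, h3⟩, h4, h5, h6⟩
        exact ⟨⟨Nat.pos_of_dvd_of_pos h2 h4, (Nat.le_of_dvd h4 h2).trans h5,
          fun p hp hd => h6 p hp (hd.trans h2)⟩, ⟨h4, h5, h6⟩, h2⟩
  rw [h1]
  refine sum_le_sum fun m hm => ?_
  have hm0 := (mem_smoothUpTo.mp hm).1
  refine sum_le_sum_inj (fun n => n / m) ?_ ?_ (fun d => vonMangoldt d)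
    fun _ _ => vonMangoldt_nonneg
  · intro a ha b hb hab
    have ha' := (mem_filter.mp ha).2
    have hb' := (mem_filter.mp hb).2
    simp only at hab
    rw [← Nat.div_mul_cancel ha', ← Nat.div_mul_cancel hb', hab]
  · intro n hn
    obtain ⟨h2, h3⟩ := mem_filter.mp hn
    obtain ⟨h4, h5, h6⟩ := mem_smoothUpTo.mp h2
    exact mem_smoothUpTo.mpr ⟨Nat.div_pos (Nat.le_of_dvd h4 h3) hm0, Nat.div_le_div_right h5,
      fun p hp hd => h6 p hp (hd.trans (Nat.div_dvd_of_dvd h3))⟩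

theorem euler_le {η : ℝ} (h0 : 0 ≤ η) (h1 : η ≤ 1 / 4) {z : ℕ} (hz : 2 ≤ z) :
    ∏ p ∈ primesIoc 0 z, (1 - (p : ℝ) ^ (-(1 - η)))⁻¹ ≤ (V z)⁻¹ * exp (9 * (z : ℝ) ^ η) := by
  have hz1 : (1 : ℝ) < z := by exact_mod_cast hz
  have hlz : 0 < log (z : ℝ) := log_pos hz1
  have hzη : 1 ≤ (z : ℝ) ^ η := one_le_rpow hz1.le h0
  have h23 : (2 : ℝ) ^ (-(3 / 4) : ℝ) ≤ 2 / 3 := by
    refine le_of_not_gt fun h => ?_
    have h2 := pow_lt_pow_left₀ h (by norm_num) (by norm_num : 4 ≠ 0)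
    rw [← rpow_natCast ((2 : ℝ) ^ (-(3 / 4) : ℝ)), ← rpow_mul (by norm_num)] at h2
    norm_num at h2
  have h2 : ∀ p ∈ primesIoc 0 z, (1 - (p : ℝ) ^ (-(1 - η)))⁻¹
      ≤ (1 - 1 / (p : ℝ))⁻¹ * exp (3 * (z : ℝ) ^ η / log z * (log p / p)) ∧
      0 ≤ (1 - (p : ℝ) ^ (-(1 - η)))⁻¹ := by
    intro p hp
    obtain ⟨-, hpz, hpp⟩ := mem_primesIoc.mp hp
    have hp2 : (2 : ℝ) ≤ p := by exact_mod_cast hpp.two_le
    have hp0 : (0 : ℝ) < p := by linarith
    have hx : (p : ℝ) ^ (-(1 - η)) ≤ 2 / 3 :=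
      (rpow_le_rpow_of_exponent_le (by linarith) (by linarith : -(1 - η) ≤ -(3 / 4))).trans
        ((rpow_le_rpow_of_nonpos (by norm_num) hp2 (by norm_num)).trans h23)
    have hx' : (p : ℝ) ^ (-(1 - η)) = (p : ℝ) ^ η / p := by
      rw [neg_sub, rpow_sub hp0, rpow_one]
    have hs0 : 0 ≤ log (p : ℝ) / log z := div_nonneg (log_natCast_nonneg p) hlz.le
    have hs1 : log (p : ℝ) / log z ≤ 1 := by
      rw [div_le_one hlz]
      exact log_le_log hp0 (by exact_mod_cast hpz)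
    have h3 : (p : ℝ) ^ η ≤ 1 + log p / log z * ((z : ℝ) ^ η - 1) := by
      have := rpow_one_add_le_one_add_mul_self (s := (z : ℝ) ^ η - 1) (by linarith) hs0 hs1
      rw [add_sub_cancel, ← rpow_mul (by linarith), rpow_def_of_pos (by linarith)] at this
      rw [rpow_def_of_pos hp0]
      convert this using 2
      field_simp
    have hpη : 1 ≤ (p : ℝ) ^ η := one_le_rpow (by linarith) h0
    set x := (p : ℝ) ^ (-(1 - η)) with hxdef
    have h4 : 0 ≤ x - 1 / p := by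
      rw [hx', ← sub_div]; exact div_nonneg (by linarith) hp0.le
    have h5 : 3 * (x - 1 / p) ≤ 3 * (z : ℝ) ^ η / log z * (log p / p) := by
      rw [hx', ← sub_div]
      have : 3 * (z : ℝ) ^ η / log z * (log p / p) = 3 * ((log p / log z * (z : ℝ) ^ η) / p) := by
        ring
      rw [this]
      gcongr
      nlinarith
    have h6 := one_sub_inv_pos hpp
    have h7 : 0 < 1 - x := by linarith
    refine ⟨?_, inv_nonneg.mpr h7.le⟩
    rw [inv_mul_eq_div, le_div_iff₀ h6, inv_mul_eq_div, div_le_iff₀ h7]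
    have h8 := add_one_le_exp (3 * (z : ℝ) ^ η / log z * (log p / p))
    nlinarith [mul_le_mul_of_nonneg_right (le_trans (by linarith) h8 :
      3 * (x - 1 / p) + 1 ≤ _) h7.le]
  refine (prod_le_prod (fun p hp => (h2 p hp).2) fun p hp => (h2 p hp).1).trans ?_
  rw [prod_mul_distrib, prod_inv_distrib, ← exp_sum, ← mul_sum]
  refine mul_le_mul_of_nonneg_left (exp_le_exp.mpr ?_) (inv_nonneg.mpr (V_pos z).le)
  have h3 : A1 z ≤ 3 * log z := by
    have h4 : log (4 : ℝ) ≤ 2 * log z := by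
      rw [show (4 : ℝ) = 2 ^ 2 by norm_num, log_pow]
      have := log_le_log (by norm_num) (show (2 : ℝ) ≤ z by exact_mod_cast hz)
      push_cast
      linarith
    linarith [A1_le (by omega : 1 ≤ z)]
  calc 3 * (z : ℝ) ^ η / log z * A1 z ≤ 3 * (z : ℝ) ^ η / log z * (3 * log z) :=
        mul_le_mul_of_nonneg_left h3 (by positivity)
    _ = _ := by field_simp; norm_num

theorem card_smooth_le : ∃ C : ℝ, 0 < C ∧ ∀ (η : ℝ) (y z y₀ : ℕ), 0 ≤ η → η ≤ 1 / 4 → 2 ≤ z →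
    2 ≤ y₀ → ((smoothUpTo y z).card : ℝ) ≤ y₀ + C * ((y : ℝ) ^ (1 - η) * (z : ℝ) ^ η *
      (log z * exp (9 * (z : ℝ) ^ η))) / log y₀ := by
  obtain ⟨C, hC0, hC⟩ := psi_smooth
  obtain ⟨c, hc0, hc⟩ := V_lower
  refine ⟨C / c, by positivity, fun η y z y₀ h0 h1 hz hy₀ => ?_⟩
  have hy₀1 : (1 : ℝ) < y₀ := by exact_mod_cast hy₀
  have hl : 0 < log (y₀ : ℝ) := log_pos hy₀1
  have hz1 : (1 : ℝ) < z := by exact_mod_cast hz
  have h2 : (((smoothUpTo y z).card : ℝ) - y₀) * log y₀ ≤ ∑ n ∈ smoothUpTo y z, log (n : ℝ) := by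
    have h3 : (smoothUpTo y z).card ≤ y₀ + ((smoothUpTo y z).filter (y₀ < ·)).card := by
      have h4 : smoothUpTo y z ⊆ Ioc 0 y₀ ∪ (smoothUpTo y z).filter (y₀ < ·) := by
        intro n hn
        by_cases h : y₀ < n
        · exact mem_union_right _ (mem_filter.mpr ⟨hn, h⟩)
        · exact mem_union_left _ (mem_Ioc.mpr ⟨(mem_smoothUpTo.mp hn).1, not_lt.mp h⟩)
      simpa using (card_le_card h4).trans (card_union_le _ _)
    have h4 : ((smoothUpTo y z).card : ℝ) - y₀ ≤ ((smoothUpTo y z).filter (y₀ < ·)).card := by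
      have : ((smoothUpTo y z).card : ℝ) ≤ y₀ + ((smoothUpTo y z).filter (y₀ < ·)).card := by
        exact_mod_cast h3
      linarith
    refine (mul_le_mul_of_nonneg_right h4 hl.le).trans ?_
    refine le_trans ?_ (sum_le_sum_of_subset_of_nonneg (filter_subset (y₀ < ·) _)
      fun n _ _ => log_natCast_nonneg n)
    have := card_nsmul_le_sum ((smoothUpTo y z).filter (y₀ < ·)) (fun n : ℕ => log (n : ℝ))
      (log y₀) fun n hn => log_le_log (by linarith) (by exact_mod_cast (mem_filter.mp hn).2.le)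
    simpa using this
  have h3 : ∑ m ∈ smoothUpTo y z, ∑ d ∈ smoothUpTo (y / m) z, vonMangoldt d
      ≤ C * ((y : ℝ) ^ (1 - η) * (z : ℝ) ^ η) * ∑ m ∈ smoothUpTo y z, (m : ℝ) ^ (-(1 - η)) := by
    rw [mul_sum]
    refine sum_le_sum fun m hm => ?_
    obtain ⟨hm0, hmy, -⟩ := mem_smoothUpTo.mp hm
    have hm0' : (0 : ℝ) < m := by exact_mod_cast hm0
    refine (hC η (y / m) z h0 (by linarith) (Nat.div_pos hmy hm0) (by omega)).trans ?_
    rw [mul_assoc]
    refine mul_le_mul_of_nonneg_left ?_ hC0.le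
    have h4 : (((y / m : ℕ) : ℝ)) ^ (1 - η) ≤ (y : ℝ) ^ (1 - η) * (m : ℝ) ^ (-(1 - η)) := by
      rw [rpow_neg hm0'.le, ← div_eq_mul_inv, ← div_rpow (Nat.cast_nonneg _) hm0'.le]
      exact rpow_le_rpow (Nat.cast_nonneg _) Nat.cast_div_le (by linarith)
    calc _ ≤ (y : ℝ) ^ (1 - η) * (m : ℝ) ^ (-(1 - η)) * (z : ℝ) ^ η :=
          mul_le_mul_of_nonneg_right h4 (by positivity)
      _ = _ := by ring
  have h4 := (sum_smooth_le (by linarith : 0 < 1 - η) z (smoothUpTo y z) fun m hm =>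
    ⟨(mem_smoothUpTo.mp hm).1.ne', (mem_smoothUpTo.mp hm).2.2⟩).trans (euler_le h0 h1 hz)
  have h5 : (V z)⁻¹ ≤ log z / c := by
    rw [le_div_iff₀ hc0, inv_mul_eq_div, div_le_iff₀ (V_pos z), mul_comm]
    exact hc z hz
  have h6 : (((smoothUpTo y z).card : ℝ) - y₀) * log y₀
      ≤ C / c * ((y : ℝ) ^ (1 - η) * (z : ℝ) ^ η * (log z * exp (9 * (z : ℝ) ^ η))) := by
    refine (h2.trans ((sum_log_smooth_le y z).trans h3)).trans ?_
    calc _ ≤ C * ((y : ℝ) ^ (1 - η) * (z : ℝ) ^ η) * (log z / c * exp (9 * (z : ℝ) ^ η)) :=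
          mul_le_mul_of_nonneg_left (h4.trans (mul_le_mul_of_nonneg_right h5 (exp_pos _).le))
            (by positivity)
      _ = _ := by ring
  rw [← sub_le_iff_le_add', le_div_iff₀ hl]
  exact h6

end Pool.Agent.P.MP_3bc45c_nt
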