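import Mathlib

/-!
Tensorisation of inequalities between quadratic forms given as weighted sums of squares.
-/

open Finset

namespace Pool.Agent.P.MP_3bc45c_nt

universe u

/-- The statement proved by induction on the index type. -/
def TensorStmt (A O₁ O₂ : Type) [Fintype A] [Fintype O₁] [Fintype O₂] (ι : Type u)
    [Fintype ι] : Prop := ∀ [DecidableEq ι] (π₁ : ι → O₁ → ℝ) (π₂ : ι → O₂ → ℝ)
    (u₁ : ι → A → O₁ → ℝ) (u₂ : ι → A → O₂ → ℝ)
    (_ : ∀ l o, 0 ≤ π₁ l o) (_ : ∀ l o, 0 ≤ π₂ l o)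
    (_ : ∀ l (c : A → ℝ), ∑ o, π₁ l o * (∑ a, c a * u₁ l a o) ^ 2
        ≤ ∑ o, π₂ l o * (∑ a, c a * u₂ l a o) ^ 2) (c : (ι → A) → ℝ),
    ∑ ω : ι → O₁, (∏ l, π₁ l (ω l)) * (∑ σ : ι → A, c σ * ∏ l, u₁ l (σ l) (ω l)) ^ 2
      ≤ ∑ ω : ι → O₂, (∏ l, π₂ l (ω l)) * (∑ σ : ι → A, c σ * ∏ l, u₂ l (σ l) (ω l)) ^ 2

theorem tensor_le {A O₁ O₂ : Type} [Fintype A] [Fintype O₁] [Fintype O₂] (ι : Type u)
    [Fintype ι] : TensorStmt A O₁ O₂ ι := by
  refine Fintype.induction_empty_option (P := fun ι _ => TensorStmt A O₁ O₂ ι) ?_ ?_ ?_ ι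
  · intro α β _ e ih
    intro _ π₁ π₂ u₁ u₂ h₁ h₂ h c
    classical
    let _ : Fintype α := Fintype.ofEquiv β e.symm
    have key := ih (fun l => π₁ (e l)) (fun l => π₂ (e l)) (fun l => u₁ (e l))
      (fun l => u₂ (e l)) (fun l => h₁ (e l)) (fun l => h₂ (e l)) (fun l => h (e l))
      (fun σ => c (fun b => σ (e.symm b)))
    have tr : ∀ {O : Type} [Fintype O] (π : β → O → ℝ) (u : β → A → O → ℝ),
        ∑ ω : β → O, (∏ l, π l (ω l)) * (∑ σ : β → A, c σ * ∏ l, u l (σ l) (ω l)) ^ 2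
        = ∑ ω : α → O, (∏ l, π (e l) (ω l)) *
          (∑ σ : α → A, c (fun b => σ (e.symm b)) * ∏ l, u (e l) (σ l) (ω l)) ^ 2 := by
      intro O _ π u
      symm
      refine Fintype.sum_equiv (Equiv.arrowCongr e (Equiv.refl O)) _ _ ?_
      intro ω
      congr 1
      · refine Fintype.prod_equiv e _ _ ?_
        intro l
        simp
      · congr 1
        refine Fintype.sum_equiv (Equiv.arrowCongr e (Equiv.refl A)) _ _ ?_
        intro σ
        congr 1
        refine Fintype.prod_equiv e _ _ ?_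
        intro l
        simp
    rw [tr π₁ u₁, tr π₂ u₂]
    convert key
  · intro _ π₁ π₂ u₁ u₂ h₁ h₂ h c
    simp
  · intro α _ ih
    intro _ π₁ π₂ u₁ u₂ h₁ h₂ h c
    classical
    have tr : ∀ {O : Type} [Fintype O] (π : Option α → O → ℝ) (u : Option α → A → O → ℝ),
        ∑ ω : Option α → O, (∏ l, π l (ω l)) *
          (∑ σ : Option α → A, c σ * ∏ l, u l (σ l) (ω l)) ^ 2
        = ∑ o : O, ∑ ω : α → O, π none o * ((∏ l, π (some l) (ω l)) *
          (∑ a : A, ∑ σ : α → A, c ((Equiv.piOptionEquivProd (β := fun _ => A)).symm (a, σ))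
            * (u none a o * ∏ l, u (some l) (σ l) (ω l))) ^ 2) := by
      intro O _ π u
      rw [← Fintype.sum_prod_type']
      symm
      refine Fintype.sum_equiv (Equiv.piOptionEquivProd (β := fun _ => O)).symm _ _ ?_
      rintro ⟨o, ω⟩
      rw [Fintype.prod_option, ← Fintype.sum_prod_type', ← mul_assoc]
      congr 2
      refine Fintype.sum_equiv (Equiv.piOptionEquivProd (β := fun _ => A)).symm _ _ ?_
      rintro ⟨a, σ⟩
      rw [Fintype.prod_option]
      rfl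
    rw [tr π₁ u₁, tr π₂ u₂]
    set d : A → (α → A) → ℝ := fun a σ =>
      c ((Equiv.piOptionEquivProd (β := fun _ => A)).symm (a, σ)) with hd
    calc ∑ o : O₁, ∑ ω : α → O₁, π₁ none o * ((∏ l, π₁ (some l) (ω l)) *
          (∑ a : A, ∑ σ : α → A, d a σ * (u₁ none a o * ∏ l, u₁ (some l) (σ l) (ω l))) ^ 2)
        = ∑ o : O₁, π₁ none o * ∑ ω : α → O₁, ((∏ l, π₁ (some l) (ω l)) *
          (∑ σ : α → A, (∑ a : A, d a σ * u₁ none a o) * ∏ l, u₁ (some l) (σ l) (ω l)) ^ 2) := by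
          refine sum_congr rfl fun o _ => ?_
          rw [mul_sum]
          refine sum_congr rfl fun ω _ => ?_
          rw [sum_comm]
          simp only [sum_mul, mul_assoc]
      _ ≤ ∑ o : O₁, π₁ none o * ∑ ω : α → O₂, ((∏ l, π₂ (some l) (ω l)) *
          (∑ σ : α → A, (∑ a : A, d a σ * u₁ none a o) * ∏ l, u₂ (some l) (σ l) (ω l)) ^ 2) := by
          refine sum_le_sum fun o _ => mul_le_mul_of_nonneg_left ?_ (h₁ _ _)
          exact ih (fun l => π₁ (some l)) (fun l => π₂ (some l)) (fun l => u₁ (some l))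
            (fun l => u₂ (some l)) (fun l => h₁ (some l)) (fun l => h₂ (some l))
            (fun l => h (some l)) _
      _ = ∑ ω : α → O₂, (∏ l, π₂ (some l) (ω l)) * ∑ o : O₁, π₁ none o *
          (∑ a : A, (∑ σ : α → A, d a σ * ∏ l, u₂ (some l) (σ l) (ω l)) * u₁ none a o) ^ 2 := by
          simp only [mul_sum]
          rw [sum_comm]
          refine sum_congr rfl fun ω _ => sum_congr rfl fun o _ => ?_
          have : (∑ σ : α → A, (∑ a : A, d a σ * u₁ none a o) * ∏ l, u₂ (some l) (σ l) (ω l))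
              = ∑ a : A, (∑ σ : α → A, d a σ * ∏ l, u₂ (some l) (σ l) (ω l)) * u₁ none a o := by
            simp only [sum_mul]
            rw [sum_comm]
            refine sum_congr rfl fun a _ => sum_congr rfl fun σ _ => by ring
          rw [this]
          ring
      _ ≤ ∑ ω : α → O₂, (∏ l, π₂ (some l) (ω l)) * ∑ o : O₂, π₂ none o *
          (∑ a : A, (∑ σ : α → A, d a σ * ∏ l, u₂ (some l) (σ l) (ω l)) * u₂ none a o) ^ 2 := by
          refine sum_le_sum fun ω _ => mul_le_mul_of_nonneg_left (h none _) ?_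
          exact prod_nonneg fun l _ => h₂ _ _
      _ = _ := by
          simp only [mul_sum]
          rw [sum_comm]
          refine sum_congr rfl fun o _ => sum_congr rfl fun ω _ => ?_
          have : (∑ a : A, (∑ σ : α → A, d a σ * ∏ l, u₂ (some l) (σ l) (ω l)) * u₂ none a o)
              = ∑ a : A, ∑ σ : α → A, d a σ * (u₂ none a o * ∏ l, u₂ (some l) (σ l) (ω l)) := by
            simp only [sum_mul]
            refine sum_congr rfl fun a _ => sum_congr rfl fun σ _ => by ring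
          rw [this]
          ring

/-- The diagonal form, written as a weighted sum of squares. -/
theorem tensor_diag {A ι : Type} [Fintype A] [DecidableEq A] [Fintype ι] [DecidableEq ι]
    (Λ : ι → A → ℝ) (c : (ι → A) → ℝ) :
    ∑ ω : ι → A, (∏ l, Λ l (ω l)) *
        (∑ σ : ι → A, c σ * ∏ l, (if σ l = ω l then (1 : ℝ) else 0)) ^ 2
      = ∑ σ : ι → A, (∏ l, Λ l (σ l)) * c σ ^ 2 := by
  refine sum_congr rfl fun ω _ => ?_
  congr 2
  rw [sum_eq_single ω]
  · simp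
  · intro σ _ hσ
    obtain ⟨l, hl⟩ := Function.ne_iff.mp hσ
    rw [prod_eq_zero (mem_univ l) (by simp [hl]), mul_zero]
  · simp

theorem tensor_upper {A O ι : Type} [Fintype A] [DecidableEq A] [Fintype O] [Fintype ι]
    [DecidableEq ι] (π : ι → O → ℝ) (Λ : ι → A → ℝ) (u : ι → A → O → ℝ)
    (hπ : ∀ l o, 0 ≤ π l o) (hΛ : ∀ l a, 0 ≤ Λ l a)
    (h : ∀ l (c : A → ℝ), ∑ o, π l o * (∑ a, c a * u l a o) ^ 2 ≤ ∑ a, Λ l a * c a ^ 2)
    (c : (ι → A) → ℝ) :
    ∑ ω : ι → O, (∏ l, π l (ω l)) * (∑ σ : ι → A, c σ * ∏ l, u l (σ l) (ω l)) ^ 2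
      ≤ ∑ σ : ι → A, (∏ l, Λ l (σ l)) * c σ ^ 2 := by
  rw [← tensor_diag Λ c]
  refine tensor_le ι π Λ u (fun _ (a o : A) => if a = o then (1 : ℝ) else 0) hπ hΛ
    (fun l c => ?_) c
  simpa using h l c

theorem tensor_lower {A O ι : Type} [Fintype A] [DecidableEq A] [Fintype O] [Fintype ι]
    [DecidableEq ι] (π : ι → O → ℝ) (Λ : ι → A → ℝ) (u : ι → A → O → ℝ)
    (hπ : ∀ l o, 0 ≤ π l o) (hΛ : ∀ l a, 0 ≤ Λ l a)
    (h : ∀ l (c : A → ℝ), ∑ a, Λ l a * c a ^ 2 ≤ ∑ o, π l o * (∑ a, c a * u l a o) ^ 2)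
    (c : (ι → A) → ℝ) :
    ∑ σ : ι → A, (∏ l, Λ l (σ l)) * c σ ^ 2
      ≤ ∑ ω : ι → O, (∏ l, π l (ω l)) * (∑ σ : ι → A, c σ * ∏ l, u l (σ l) (ω l)) ^ 2 := by
  rw [← tensor_diag Λ c]
  refine tensor_le ι Λ π (fun _ (a o : A) => if a = o then (1 : ℝ) else 0) u hΛ hπ
    (fun l c => ?_) c
  simpa using h l c

end Pool.Agent.P.MP_3bc45c_nt
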